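import Pool.Agent.P.MP_0d657e_an.C8
import Pool.Agent.P.MP_0d657e_an.D2
import Pool.Agent.P.MP_0d657e_an.Ocalc
import Pool.Agent.P.MP_0d657e_an.Basic3
import Pool.Agent.P.MP_0d657e_an.Ident
import Pool.Agent.P.MP_0d657e_an.D1

-- part Pool.Agent.P.MP_0d657e_an.C9
section

/-! Existence of the exact geometry near the design. -/

open Set Real Asymptotics Filter Topology

namespace Pool.Agent.P.MP_0d657e_an

noncomputable section

namespace Des

variable {Ds : Des}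

variable (Ds) in
/-- first order flux -/
def Z1 : C2 := (Ds.a1 + b⁻¹ • Ds.a2) * (ι s1 * cx (2 * Ds.n)) + Ds.U0t
  + (Ds.a0 + b⁻¹ • Ds.a1) * (ι (c1 + b • s1) * cx (2 * Ds.n)) + b • Ds.U0

lemma Pz_mode (y : D0) : Pz (ι y * cx (2 * Ds.n)) = (2 * Ds.n : ℝ)⁻¹ • (ι y * sx (2 * Ds.n)) := by
  have := Ds.n_pos
  rw [Pz_ι_mul, Pz_cx (by omega), mul_smul_comm]; push_cast; rfl

namespace Sol

variable (S : Ds.Sol)

lemma xZ : Ex2 lp idη (fun η => Ds.Z (S.p η)) (ι (c1 + b • s1) * cx (2 * Ds.n)) Ds.Z1 :=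
  (((S.xct.mul hid S.xu).add (S.xc.mul hid S.xut)).add ((S.xc.mul hid S.xu).csmul b)).congr
    (fun _ => rfl) (by simp [add_mul]) (by
      simp only [Z1, map_add, map_smul, Algebra.smul_def, map_mul, ι.commutes]; ring)

lemma xZt : Ex2 lp idη (fun η => Ds.Zt (S.p η)) (ι (-s1 + b • c1) * cx (2 * Ds.n))
    (b • Ds.Z1 - Ds.W1) :=
  ((((S.xctt.mul hid S.xu).add (S.xct.mul hid S.xut)).add ((S.xct.mul hid S.xut).add
    (S.xc.mul hid S.xutt))).add (((S.xct.mul hid S.xu).add (S.xc.mul hid S.xut)).csmul b)).congr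
    (fun _ => rfl) (by simp [add_mul]) (C2_ext fun x t => by
      have hb := b_sq
      simp [Z1, W1]
      linear_combination (Ds.U0 x t + (Ds.a0 x t + b⁻¹ * Ds.a1 x t) * sin t * cos (2 * Ds.n * x)) * hb)

lemma xTtt : Ex2 lp idη (fun η => Ds.Ax (S.p η) * Ds.X1 (S.p η) + Ds.A (S.p η) * Ds.X1x (S.p η)
    + Ds.At (S.p η) * (ι om * Ds.u (S.p η))
    - Ds.A (S.p η) * (ι om * (Ds.ut (S.p η) - b • Ds.u (S.p η)))) Ds.T0tt Ds.T1tt := by
  have o : Ex2 lp idη (fun _ => ι om) (ι om) 0 := Ex2.const _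
  have PZ := S.xZ.clm Pz
  have X1 := ((S.xci.mul hid o).mul hid PZ).neg
  have X1x := ((((S.xcX.mul hid S.xci).mul hid S.xci).mul hid o).mul hid PZ).sub
    ((S.xci.mul hid o).mul hid S.xZ)
  refine ((((S.xAx.mul hid X1).add (S.xA.mul hid X1x)).add (S.xAt.mul hid (o.mul hid S.xu))).sub
    (S.xA.mul hid (o.mul hid (S.xut.sub (S.xu.csmul b))))).congr (fun _ => rfl) ?_ ?_
  · refine C2_ext fun x t => ?_
    simp [T0tt]; ring
  · rw [Pz_mode]
    refine C2_ext fun x t => ?_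
    have := b_pos.ne'
    have := Ds.n_ne
    simp [T1tt, Z1]
    field_simp
    ring

lemma xTxt : Ex2 lp idη (fun η => -(Ds.A (S.p η) * Ds.X1t (S.p η))
    - Ds.d (S.p η) • (Ds.Ai (S.p η) * (ι om * Ds.ux (S.p η)))) Ds.T0xt Ds.T1xt := by
  have o : Ex2 lp idη (fun _ => ι om) (ι om) 0 := Ex2.const _
  have X1t := (((((S.xct.mul hid S.xci).mul hid S.xci).mul hid o).add
    ((S.xci.mul hid o).csmul b)).mul hid (S.xZ.clm Pz)).sub
    ((S.xci.mul hid o).mul hid (S.xZt.clm Pz))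
  have hb := b_sq
  have := b_pos.ne'
  have := Ds.n_ne
  refine ((S.xA.mul hid X1t).neg.sub (S.xd.smul hid (S.xAi.mul hid (o.mul hid S.xux)))).congr
    (fun _ => rfl) ?_ ?_
  · rw [Pz_mode, Pz_mode]
    refine C2_ext fun x t => ?_
    simp [T0xt, d0]
    field_simp
    linear_combination (sin t * sin (Ds.n * 2 * x)) * hb
  · rw [Pz_mode, Pz_mode, map_sub Pz, map_smul Pz]
    refine C2_ext fun x t => ?_
    simp [T1xt, d0]
    field_simp
    linear_combination (-(Ds.n * Ds.a1 x t * sin t * sin (Ds.n * 2 * x))) * hb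

/-- the constant in the cubic term -/
def κ0 (Ds : Des) : ℝ := 5 * b * J (om * ((1/4 : ℝ) • (s1 ^ 3 * (Ds.α (6 * Ds.n) + b⁻¹ • Ds.α1 (6 * Ds.n)))
    + (3/2 : ℝ) • (s1 ^ 2 * Ds.φ (4 * Ds.n))))

lemma xI : Ex2 lp idη (fun η => -(10 * b) * II (ι om * Ds.c (S.p η)
    * (Ds.u (S.p η) * Ds.u (S.p η) * Ds.u (S.p η)))) 0 (-κ0 Ds) := by
  have hn := Ds.n_pos
  have c2 : cx (2 * Ds.n) * cx (2 * Ds.n) = (1/2 : ℝ) • (cx 0 + cx (4 * Ds.n)) := C2_ext fun x t => by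
    have := cos_two_mul (2 * Ds.n * x)
    simp only [C2.mul_apply, D.mul_apply, cx_apply, C2.smul_apply, C2.add_apply, D.smul_apply,
      D.add_apply]
    push_cast
    rw [show 4 * (Ds.n:ℝ) * x = 2 * (2 * Ds.n * x) by ring, this]; simp; ring
  have c3 : cx (2 * Ds.n) * cx (2 * Ds.n) * cx (2 * Ds.n)
      = (1/4 : ℝ) • ((3:ℝ) • cx (2 * Ds.n) + cx (6 * Ds.n)) := C2_ext fun x t => by
    have := cos_three_mul (2 * Ds.n * x)
    simp only [C2.mul_apply, D.mul_apply, cx_apply, C2.smul_apply, C2.add_apply, D.smul_apply,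
      D.add_apply]
    push_cast
    rw [show 6 * (Ds.n:ℝ) * x = 3 * (2 * Ds.n * x) by ring, this]; ring
  refine (((((Ex2.const (ι om)).mul hid S.xc).mul hid ((S.xu.mul hid S.xu).mul hid S.xu)).clm
    II).csmul (-(10 * b))).congr (fun _ => rfl) ?_ ?_
  · have : ι om * 1 * (ι s1 * cx (2 * Ds.n) * (ι s1 * cx (2 * Ds.n)) * (ι s1 * cx (2 * Ds.n)))
      = ι (om * s1 ^ 3) * (cx (2 * Ds.n) * cx (2 * Ds.n) * cx (2 * Ds.n)) := by
      rw [map_mul, map_pow]; ring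
    rw [this, c3, II_apply, avg_ι_mul]
    simp only [map_smul, map_add, avg_cx]
    rw [if_neg (by omega), if_neg (by omega)]; simp
  · have e : ∀ c U : C2, ι om * 1 * (ι s1 * cx (2 * Ds.n) * (ι s1 * cx (2 * Ds.n)) * U
        + (ι s1 * cx (2 * Ds.n) * U + U * (ι s1 * cx (2 * Ds.n))) * (ι s1 * cx (2 * Ds.n)))
        + (ι om * c + 0 * 1) * (ι s1 * cx (2 * Ds.n) * (ι s1 * cx (2 * Ds.n)) * (ι s1 * cx (2 * Ds.n)))
        = ι (3 * om * s1 ^ 2) * (cx (2 * Ds.n) * cx (2 * Ds.n) * U)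
        + ι (om * s1 ^ 3) * (cx (2 * Ds.n) * cx (2 * Ds.n) * cx (2 * Ds.n) * c) := by
      intro c U; simp only [map_mul, map_pow, map_ofNat]; ring
    have h0 : Ds.φ 0 = 0 := by
      have ho := Ds.ode 0
      simp only [Int.cast_zero, zero_div, sub_zero, add_zero, Ds.α_off _ Ds.m2, Ds.α1_off Ds.m2,
        Rr, zero_mul, smul_zero, neg_zero, ne_eq, OfNat.ofNat_ne_zero, not_false_eq_true,
        zero_pow] at ho
      obtain ⟨G⟩ := gr_zero (m := -5) (by norm_num) (by norm_num) (by norm_num)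
      exact G.uniq (Ds.hφ 0) ((Ds.hφ1 0).congr' (by
        rw [neg_smul]; exact (eq_neg_of_add_eq_zero_left ho).symm)) (Ds.φ_lo 0) (Ds.φ_hi 0) (by simp)
    rw [e, c3, c2, II_apply, map_add, avg_ι_mul, avg_ι_mul]
    simp only [smul_mul_assoc, add_mul, map_smul, map_add avg, ← cm_apply, map_add (cm _), cm_U0,
      cm_a0, cm_a1, h0, Ds.α_off _ Ds.m2, Ds.α1_off Ds.m2, κ0]
    rw [← neg_mul, ← smul_eq_mul (-(5 * b)), ← map_smul, ← map_smul]
    congr 1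
    ext t
    simp
    ring

end Sol

lemma ah_le (y : ℤ → D0) {z : D0} (hz : ‖z‖ ≤ 1) (η τ : ℝ) (k : ℤ) :
    ‖η • Ds.ah y z τ k - (η / 2) • y k‖ ≤ ‖η • τ‖ := by
  rw [ah, smul_add, smul_smul, mul_one_div, add_sub_cancel_left, smul_smul, norm_smul, smul_eq_mul]
  refine mul_le_of_le_one_right (norm_nonneg _) ?_
  split_ifs
  · rw [norm_smul]; norm_num; linarith
  · simp

theorem family (Ds : Des) : Ds.Family := by
  obtain ⟨S⟩ := Ds.exists_sol
  have h3 : ∀ {y : ℝ → D0} {y0 : D0}, Ex1 lp idη y y0 →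
      (fun η : ℝ => η • η • y η - η ^ 2 • y0) =O[lp] fun η => η ^ 3 := fun h =>
    (((isBigO_refl (fun η : ℝ => η) lp).pow 2).smul h).congr
      (fun η => by rw [smul_sub, smul_smul, sq]) (fun η => by simp [idη]; ring)
  have k1 := isBigO_iff_eventually.1 S.xτ.ex2
  have k2 := isBigO_iff_eventually.1 (Sol.small ((S.xq.bd hid).clm V)).ex2
  have k3 := isBigO_iff_eventually.1 (h3 S.xq)
  have k4 := isBigO_iff_eventually.1 (h3 S.xq1)
  have k5 := isBigO_iff_eventually.1 S.xd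
  have k6 := isBigO_iff_eventually.1 S.xu
  have k7 := isBigO_iff_eventually.1 S.xux
  have k8 := isBigO_iff_eventually.1 S.xut
  have k9 := isBigO_iff_eventually.1 S.xTtt
  have k10 := isBigO_iff_eventually.1 S.xTxt
  have k11 := isBigO_iff_eventually.1 S.xI
  obtain ⟨C, a1, a2, a3, a4, a5, a6, a7, a8, a9, a10, a11⟩ := (k1.and (k2.and (k3.and (k4.and
    (k5.and (k6.and (k7.and (k8.and (k9.and (k10.and k11)))))))))).exists
  have hev : ∀ᶠ η in lp, ∃ G : Geo, G.Exact ∧ G.Smooth ∧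
      Nonempty (Ds.Approx Ds.first C (Sol.κ0 Ds) η G) := by
    filter_upwards [a1, a2, a3, a4, a5, a6, a7, a8, a9, a10, a11, S.ev_good, self_mem_nhdsWithin]
      with η a1 a2 a3 a4 a5 a6 a7 a8 a9 a10 a11 g hη
    have hη : 0 < η := hη
    have hn := Ds.n_pos
    simp only [idη, Real.norm_of_nonneg (pow_pos hη _).le, sub_zero,
      smul_zero] at a1 a2 a3 a4 a5 a6 a7 a8 a9 a10 a11
    refine ⟨g.geo, g.exact, g.smooth, ⟨⟨fun k => η • Ds.ah Ds.α c1 (S.τ η) k,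
      fun k => η • Ds.ah Ds.α1 (-s1) (S.τ η) k, fun k => η • Ds.ah Ds.α2 (-c1) (S.τ η) k,
      η • η • V (S.q η), η • η • S.q η, η • η • Ds.q1 (S.p η), ?_,
      fun k => (Ds.D1_ah Ds.hα D1_c1 _ k).smul _, fun k => (Ds.D1_ah Ds.hα1 D1_s1.neg _ k).smul _,
      ((D1_V _).smul _).smul _, (g.hq1.smul _).smul _, fun k => by rw [Ds.ah_neg Ds.α_neg],
      fun k => (ah_le _ (norm_cs_le _) _ _ k).trans a1,
      fun k => (ah_le _ (by rw [norm_neg]; exact norm_sn_le _) _ _ k).trans a1,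
      fun k => (ah_le _ (by rw [norm_neg]; exact norm_cs_le _) _ _ k).trans a1, ?_, a2, a3, a4, a5,
      ?_, ?_, a8, a9, a10, g.avgT, ?_⟩⟩⟩
    · change 1 + η • Ds.TP _ _ = _
      simp [TP, Finset.smul_sum, add_assoc, Sol.p]
    · rw [Ds.ah_of_ne _ _ _ (by omega) (by omega), smul_smul, mul_one_div]
    · exact a6
    · simpa [e2, first, Good.geo, ux, U0x] using a7
    · rw [g.I_eq]
      have := (le_abs_self _).trans a11
      simp only [smul_eq_mul] at this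
      linarith
  obtain ⟨η0, h0, h⟩ := (nhdsGT_basis (0:ℝ)).eventually_iff.1 hev
  exact ⟨Ds.first, C, Sol.κ0 Ds, η0, mul_pos (mul_pos (by norm_num) b_pos) Ds.κ2, h0,
    fun η hη => h hη⟩

end Des

end

end Pool.Agent.P.MP_0d657e_an
end

-- part Pool.Agent.P.MP_0d657e_an.D3
section

/-! Exact identities: the terms of the second order form. -/

open Set Real

namespace Pool.Agent.P.MP_0d657e_an

noncomputable section

lemma Qf_emb0 (P : P4) (h : H1) (u : H) (hP : P.2.2.2 = 0) :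
    Qf P (embc 0 h) u = J (H1.d h * avg (P.2.1 * H.fx u + P.2.2.1 * H.ft u)) := by
  rw [Qf_symm, Qf_embc]
  simp [hP, cm_zero]

lemma KT_ident (r w : H1) :
    Q1 (-1) r (KT w) = Q1 (-4) w (H1.mulL D1_c1 r) := by
  have h1 := H1.J_d (H1.mulL (D1_c1.mul (D1_V (H1.f w))) r)
  have h2 := H1.J_d (H1.mulL (D1_s1.mul (H1.d1 w)) r)
  have key : ∀ A B C D : D0, A = B + (2:ℝ) • C + D → J C = 0 → J D = 0 → J A = J B := by
    intro A B C D e hC hD
    rw [e, map_add, map_add, map_smul, hC, hD]; simp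
  refine key _ _ _ _ ?_ h1 h2
  ext t
  simp [f_KT, d_KT]
  ring

namespace Des

variable (Ds : Des)

lemma sum_neg {E : Type*} [AddCommMonoid E] (f : ℤ → E) :
    ∑ k ∈ Ds.K, f (-k) = ∑ k ∈ Ds.K, f k :=
  Finset.sum_nbij' (fun k => -k) (fun k => -k) Ds.K_neg Ds.K_neg (by simp) (by simp) (by simp)

lemma sum_symm {f g : ℤ → ℝ} (F : ℤ → ℝ) (h : ∀ k ∈ Ds.K, f k = g k + F k - F (-k)) :
    ∑ k ∈ Ds.K, f k = ∑ k ∈ Ds.K, g k := by
  rw [Finset.sum_congr rfl h, Finset.sum_sub_distrib, Finset.sum_add_distrib, Ds.sum_neg F]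
  ring

/-- the sum of the modes in the design set -/
def U (Y : ℤ → H1) : H := ∑ k ∈ Ds.K, embc k (Y k)

lemma prc_U {Y : ℤ → H1} (hY : ∀ k, Y (-k) = Y k) (h0 : ∀ k, k ∉ Ds.K → Y k = 0) (m : ℤ) :
    prc m (Ds.U Y) = Y m := by
  rw [U, prc_sum Ds.K_neg hY]
  split_ifs with h
  · rfl
  · exact (h0 m h).symm

lemma prs_U (Y : ℤ → H1) (m : ℤ) : prs m (Ds.U Y) = 0 := by simp [U, map_sum]

lemma α_sub (k l : ℤ) : Ds.α (k - l) = Ds.α (l - k) := by rw [← Ds.α_neg, neg_sub]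
lemma cc_sub (k l : ℤ) : Ds.cc (k - l) = Ds.cc (l - k) := by rw [← Ds.cc_neg, neg_sub]

lemma B1_U_2n {Y : ℤ → H1} (hY : ∀ k, Y (-k) = Y k) :
    Qf Ds.PB1 (Ds.U Y) (embc (2 * Ds.n) (KT (Y Ds.n))) = (1/2 : ℝ) * ∑ k ∈ Ds.K, Ds.β1 Y k := by
  rw [U, map_sum, LinearMap.sum_apply, Finset.mul_sum]
  refine Ds.sum_symm (fun k => -(1/4 : ℝ) * Ds.β1 Y k) (fun k _ => ?_)
  simp only [B1_cc, β1, κ_2n, κ_neg, hY, sub_neg_eq_add]
  have key : ∀ A B C : D0, A = B + C →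
      1 / 4 * J A = 1 / 2 * J B + -(1 / 4) * J B - -(1 / 4) * J C := by
    intro A B C e; rw [e, map_add]; ring
  refine key _ _ _ ?_
  ext t
  simp
  ring

lemma B1_U_n (Y : ℤ → H1) (θ : H1) : Qf Ds.PB1 (Ds.U Y) (embc Ds.n θ) = 0 := by
  rw [U, map_sum, LinearMap.sum_apply]
  refine Finset.sum_eq_zero (fun k hk => ?_)
  have h1 : (Ds.n - k : ℤ) ∉ Ds.K := fun h => Ds.sum_ne k hk _ h (by ring)
  have h2 : (Ds.n + k : ℤ) ∉ Ds.K := fun h => Ds.sum_ne (-k) (Ds.K_neg k hk) _ h (by ring)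
  simp [B1_cc, Ds.α_off _ h1, Ds.α_off _ h2, Ds.cc_off h1, Ds.cc_off h2]

lemma B1_U_s (Y : ℤ → H1) (l : ℤ) (θ : H1) : Qf Ds.PB1 (Ds.U Y) (embs l θ) = 0 := by
  rw [U, map_sum, LinearMap.sum_apply]
  exact Finset.sum_eq_zero (fun k _ => Ds.B1_cs _ _ _ _)

/-- zeroth order coefficients of `I` -/
def PI0 : P4 := (-(((Ds.n:ℝ) ^ 2)⁻¹ • Ds.T0tt), Ds.T0xt, Ds.T0tt, 0)

lemma I0_emb0 (h : H1) (u : H) : Qf Ds.PI0 (embc 0 h) u
    = -2 * J (om * H1.d h * H1.d (H1.mulL D1_c1 (prc (2 * Ds.n) u))) := by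
  rw [Qf_emb0 _ _ _ rfl, ← smul_eq_mul (-2 : ℝ), ← map_smul]
  congr 1
  have h1 := (H.dx u).sm_eq (2 * Ds.n)
  simp only [PI0, T0xt, T0tt, neg_mul, smul_mul_assoc, map_add, map_neg, map_smul, mul_assoc,
    avg_ι_mul, ← cm_apply, ← sm_apply, h1, H1.d_mulL, f_prc, d_prc]
  ext t
  have := Ds.n_ne
  simp
  field_simp
  ring

lemma I0_UU {Y : ℤ → H1} (hY : ∀ k, Y (-k) = Y k) (h0 : ∀ k, k ∉ Ds.K → Y k = 0) :
    Qf Ds.PI0 (Ds.U Y) (Ds.U Y) = 4 * ∑ k ∈ Ds.K, Ds.t0 Y k := by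
  set u := Ds.U Y with hu
  have e0 : Qf Ds.PI0 u u = ∑ k ∈ Ds.K, J (-((k:ℝ) • (H1.f (Y k) *
      sm k (Ds.PI0.1 * H.fx u + (2:ℝ) • (Ds.T0xt * H.ft u)))) + H1.d (Y k) * cm k (Ds.T0tt * H.ft u)) := by
    have e1 : Qf Ds.PI0 u u = II (H.fx (Ds.U Y) * (Ds.PI0.1 * H.fx u + (2:ℝ) • (Ds.T0xt * H.ft u))
        + H.ft (Ds.U Y) * (Ds.T0tt * H.ft u)) := by
      rw [Qf_apply, ← hu]; congr 1
      simp only [PI0, Algebra.smul_def, map_ofNat]; ring
    rw [e1, U, map_sum H.fx, map_sum H.ft, Finset.sum_mul, Finset.sum_mul,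
      ← Finset.sum_add_distrib, map_sum]
    refine Finset.sum_congr rfl (fun k _ => ?_)
    rw [fx_embc, ft_embc, neg_mul, smul_mul_assoc, map_add, map_neg, map_smul, II_ι_cx_mul,
      II_ι_sx_mul, map_add J, map_neg, map_smul]
  rw [e0, Finset.mul_sum]
  refine Ds.sum_symm (fun k => -2 * Ds.t0 Y k) (fun k _ => ?_)
  have e1 : ∀ F : C2, cm (k - 2 * Ds.n) F = cm (2 * Ds.n - k) F := fun F => by
    rw [← cm_neg, neg_sub]
  have e2 : ∀ m, cm m (H.f u) = H1.f (Y m) := fun m => by rw [← f_prc, hu, Ds.prc_U hY h0]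
  have e3 : ∀ m, cm m (H.ft u) = H1.d (Y m) := fun m => by rw [← d_prc, hu, Ds.prc_U hY h0]
  have e4 : Y (k - 2 * Ds.n) = Y (2 * Ds.n - k) := by rw [← hY, neg_sub]
  simp only [PI0, T0xt, T0tt, neg_mul, smul_mul_assoc, map_add (sm k), map_neg, map_smul, mul_assoc,
    cm_ι_mul, sm_ι_mul, cm_cx_mul, sm_cx_mul, sm_sx_mul, (H.dx u).sm_eq,
    e2, e3, e4, add_comm k, smul_neg, neg_neg, t0, hY, sub_neg_eq_add]
  have key : ∀ A B C : D0, A = B + C →
      J A = 4 * (1 / 2 * J B) + -(2 * (1 / 2 * J B)) + 2 * (1 / 2 * J C) := by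
    intro A B C e; rw [e, map_add]; ring
  refine key _ _ _ ?_
  ext t
  have := Ds.n_ne
  simp [κ]
  field_simp
  ring

lemma I0_e2_U (Y : ℤ → H1) : Qf Ds.PI0 Ds.e2 (Ds.U Y) = 0 := by
  rw [U, map_sum]
  refine Finset.sum_eq_zero (fun k hk => ?_)
  have h0 : k ≠ 0 := fun h => Ds.m0 (h ▸ hk)
  have h1 : k + 2 * Ds.n + 2 * Ds.n ≠ 0 := fun h =>
    Ds.m4 (by have := Ds.K_neg k hk; rwa [show -k = 4 * (Ds.n:ℤ) by omega] at this)
  have h2 : k - 2 * Ds.n - 2 * Ds.n ≠ 0 := fun h =>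
    Ds.m4 (by rwa [show k = 4 * (Ds.n:ℤ) by omega] at hk)
  rw [Qf_embc]
  simp only [PI0, T0xt, T0tt, e2, f_embc, fx_embc, ft_embc, neg_mul, mul_neg, smul_mul_assoc,
    mul_smul_comm, map_add (sm k), map_add (cm k), map_neg, map_smul, cm_cc', cm_cs', sm_cc',
    sm_cs', cm_ι_mul, sm_ι_mul, cm_cx, sm_sx]
  simp [h0, h1, h2]

variable (F : Ds.First)

/-- first order coefficients of `I` -/
def PI1 : P4 := (-(((Ds.n:ℝ) ^ 2)⁻¹ • (F.T1tt - (2:ℝ) • (Ds.pol Ds.α * Ds.T0tt))), F.T1xt, F.T1tt, 0)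

lemma I1_U (h : H1) {Y : ℤ → H1} (hY : ∀ k, Y (-k) = Y k) :
    Qf (Ds.PI1 F) (embc 0 h) (Ds.U Y) = ∑ k ∈ Ds.K, Ds.τt (om * H1.d h) Y k := by
  rw [U, map_sum]
  refine Ds.sum_symm (fun k => -(1/2) * Ds.τt (om * H1.d h) Y k) (fun k hk => ?_)
  rw [Qf_embc]
  have h1 := F.xt_K k hk
  have h2 := F.tt_K k hk
  simp only [PI1, f_embc, fx_embc, ft_embc, Int.cast_zero, zero_smul, neg_zero, mul_zero,
    zero_add, cx_zero, mul_one, zero_mul, map_zero, add_zero, mul_comm _ (ι _), cm_ι_mul,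
    sm_ι_mul, ← mul_smul_comm, h1, h2, τt, hY]
  have key : ∀ A B C : D0, A = (1/2 : ℝ) • (B + C) →
      J A = J B + -(1 / 2) * J B - -(1 / 2) * J C := by
    intro A B C e; rw [e, map_smul, map_add, smul_eq_mul]; ring
  refine key _ _ _ ?_
  ext t
  simp
  ring

lemma I1_e2 (h : H1) : Qf (Ds.PI1 F) (embc 0 h) Ds.e2 = 0 := by
  rw [e2, Qf_embc]
  simp only [PI1, f_embc, fx_embc, ft_embc, Int.cast_zero, zero_smul, neg_zero, mul_zero,
    zero_add, cx_zero, mul_one, zero_mul, map_zero, add_zero, mul_comm _ (ι _), cm_ι_mul,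
    sm_ι_mul, F.tt_2n, F.xt_2n, smul_zero]

lemma I0_φt (h : H1) : Qf Ds.PI0 (embc 0 h) F.φt = 0 := by
  have : prc (2 * Ds.n) F.φt = 0 := H1.ext' (by simp [F.φt_2n])
  simp [I0_emb0, this]

lemma prc_e2 : prc (2 * Ds.n) Ds.e2 = (1/2 : ℝ) • S1 := by
  have := Ds.n_pos
  rw [e2, prc_embc, if_neg (by omega), if_pos (by omega), zero_add]

lemma I0_e2 (h : H1) : Qf Ds.PI0 (embc 0 h) Ds.e2 = -(1/2) * J (om * H1.d h * H1.d S2) := by
  rw [I0_emb0, prc_e2, ← smul_eq_mul (-2 : ℝ), ← smul_eq_mul (-(1/2) : ℝ), ← map_smul, ← map_smul]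
  congr 1
  ext t
  simp [cos_two_mul']
  ring

lemma g_n : Ds.g Ds.n = 1 := by
  rw [g, Ds.αn, mul_smul_comm, smul_smul, inv_mul_cancel₀ b_pos.ne', one_smul, mul_comm, om_mul_ex]

lemma g'_n : Ds.g' Ds.n = 0 := D1.unique pi_pos (Ds.D1_g _) (by rw [g_n]; exact D1_one)

lemma J_asym : J (c1 * Ds.α Ds.n) ≠ 0 := by
  have h := H1.parts (Ds.hα Ds.n) S1
  rw [Ds.αn, f_S1, d_S1, smul_mul_assoc, map_smul, smul_eq_mul] at h
  have h2 : J (om * s1) ≠ 0 := by
    intro h0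
    have h3 : J ((exp (-b * π)) • (s1 * s1)) ≤ J (om * s1) := J_mono (fun t => by
      have a1 : 0 ≤ sin (t:ℝ) := sin_nonneg_of_mem_Icc t.2
      have a2 : exp (-b * π) ≤ exp (-b * t) := exp_le_exp.2 (by nlinarith [b_pos, t.2.2])
      have a3 := sin_le_one (t:ℝ)
      have a4 := exp_pos (-b * π)
      simp only [D.smul_apply, D.mul_apply, s1_apply, om_apply]
      nlinarith [mul_nonneg a4.le a1])
    rw [map_smul, J_s1_s1, h0, smul_eq_mul] at h3
    have : 0 < exp (-b * π) * (π / 2) := by have := pi_pos; positivity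
    linarith
  rw [mul_comm c1]
  intro h0
  rw [h0, neg_zero] at h
  exact mul_ne_zero b_pos.ne' h2 h

end Des

end

end Pool.Agent.P.MP_0d657e_an
end

-- part Pool.Agent.P.MP_0d657e_an.D4
section

/-! The family of approximate null solutions and the expansions of the coefficients. -/

open Set Real Asymptotics Filter Topology

namespace Pool.Agent.P.MP_0d657e_an

noncomputable section

section general

variable {X : Type*} {l : Filter X} {η : X → ℝ}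

lemma Qf_O {P : X → P4} {u w : X → H} {gP gu gw : X → ℝ} (hP : P =O[l] gP)
    (hu : (fun i => H.nr (u i)) =O[l] gu) (hw : (fun i => H.nr (w i)) =O[l] gw) :
    (fun i => Qf (P i) (u i) (w i)) =O[l] fun i => gP i * gu i * gw i :=
  (O_of_abs_le (fun i => Qf_abs_le (P i) (u i) (w i))).trans ((hP.norm_left.mul hu).mul hw)

lemma Qf_sub (P P' : P4) (u v : H) : Qf (P - P') u v = Qf P u v - Qf P' u v := by
  have := Qf_add (P - P') P' u v
  rw [sub_add_cancel] at this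
  linarith

lemma Qf_c (P : P4) {u w : X → H} {gu gw : X → ℝ}
    (hu : (fun i => H.nr (u i)) =O[l] gu) (hw : (fun i => H.nr (w i)) =O[l] gw) :
    (fun i => Qf P (u i) (w i)) =O[l] fun i => gu i * gw i := by
  simpa using Qf_O (isBigO_const_const P (one_ne_zero (α := ℝ)) l) hu hw

lemma Qf_2 {P : X → P4} {P0 P1 : P4} (hP : Ex2 l η P P0 P1) {u w : X → H} {gu gw : X → ℝ}
    (hu : (fun i => H.nr (u i)) =O[l] gu) (hw : (fun i => H.nr (w i)) =O[l] gw) :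
    (fun i => Qf (P i) (u i) (w i) - Qf P0 (u i) (w i) - η i * Qf P1 (u i) (w i))
      =O[l] fun i => η i ^ 2 * gu i * gw i := by
  simpa only [Qf_sub, Qf_smul] using Qf_O hP hu hw

lemma Qf_1 (hη : Tendsto η l (𝓝 0)) {P : X → P4} {P0 P1 : P4} (hP : Ex2 l η P P0 P1)
    {u w : X → H} {gu gw : X → ℝ}
    (hu : (fun i => H.nr (u i)) =O[l] gu) (hw : (fun i => H.nr (w i)) =O[l] gw) :
    (fun i => Qf (P i) (u i) (w i) - Qf P0 (u i) (w i)) =O[l] fun i => η i * gu i * gw i := by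
  simpa only [Qf_sub] using Qf_O (hP.O1 hη) hu hw

lemma Qf_0 (hη : Tendsto η l (𝓝 0)) {P : X → P4} {P0 P1 : P4} (hP : Ex2 l η P P0 P1)
    {u w : X → H} {gu gw : X → ℝ}
    (hu : (fun i => H.nr (u i)) =O[l] gu) (hw : (fun i => H.nr (w i)) =O[l] gw) :
    (fun i => Qf (P i) (u i) (w i)) =O[l] fun i => gu i * gw i := by
  simpa using Qf_O (hP.O0 hη) hu hw

variable {E : Type*} [AddCommGroup E] [Module ℝ E] (p : Seminorm ℝ E)

lemma sn_add {u w : X → E} {g : X → ℝ} (hu : (fun i => p (u i)) =O[l] g)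
    (hw : (fun i => p (w i)) =O[l] g) : (fun i => p (u i + w i)) =O[l] g :=
  (O_of_abs_le (fun i => by
    rw [Real.norm_of_nonneg (apply_nonneg _ _)]; exact map_add_le_add p _ _)).trans (hu.add hw)

lemma sn_smul {c : X → ℝ} {u : X → E} {g g' : X → ℝ} (hc : c =O[l] g)
    (hu : (fun i => p (u i)) =O[l] g') : (fun i => p (c i • u i)) =O[l] fun i => g i * g' i := by
  simpa only [map_smul_eq_mul] using hc.norm_left.mul hu

lemma sn_sub {u w : X → E} {g : X → ℝ} (hu : (fun i => p (u i)) =O[l] g)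
    (hw : (fun i => p (w i)) =O[l] g) : (fun i => p (u i - w i)) =O[l] g := by
  simp only [sub_eq_add_neg]
  exact sn_add p hu (by simpa using hw)

lemma sn_sum {α : Type*} (s : Finset α) {u : α → X → E} {g : X → ℝ}
    (hu : ∀ a ∈ s, (fun i => p (u a i)) =O[l] g) : (fun i => p (∑ a ∈ s, u a i)) =O[l] g := by
  classical
  induction s using Finset.induction_on with
  | empty => simpa using isBigO_zero _ _
  | insert a s ha ih =>
    simp only [Finset.sum_insert ha]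
    exact sn_add p (hu a (Finset.mem_insert_self _ _))
      (ih (fun j hj => hu j (Finset.mem_insert_of_mem hj)))

lemma sn_le {E' : Type*} [AddCommGroup E'] [Module ℝ E'] (p' : Seminorm ℝ E') {u : X → E}
    {u' : X → E'} {g : X → ℝ} (c : ℝ) (h : ∀ i, p' (u' i) ≤ c * p (u i))
    (hu : (fun i => p (u i)) =O[l] g) : (fun i => p' (u' i)) =O[l] g :=
  (O_of_abs_le (fun i => by rw [Real.norm_of_nonneg (apply_nonneg _ _)]; exact h i)).trans
    (hu.const_mul_left c)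

lemma sn_const (a : E) : (fun _ : X => p a) =O[l] fun _ => (1:ℝ) :=
  isBigO_const_const _ one_ne_zero l

lemma embc_O (k : ℤ) {y : X → H1} {g : X → ℝ} (h : (fun i => H1.nr (y i)) =O[l] g) :
    (fun i => H.nr (embc k (y i))) =O[l] g := sn_le _ _ _ (fun i => nr_embc_le k (y i)) h

lemma embs_O (k : ℤ) {y : X → H1} {g : X → ℝ} (h : (fun i => H1.nr (y i)) =O[l] g) :
    (fun i => H.nr (embs k (y i))) =O[l] g := sn_le _ _ _ (fun i => nr_embs_le k (y i)) h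

lemma prc_O (k : ℤ) {u : X → H} {g : X → ℝ} (h : (fun i => H.nr (u i)) =O[l] g) :
    (fun i => H1.nr (prc k (u i))) =O[l] g :=
  sn_le _ _ 1 (fun i => by simpa using nr_prc_le k (u i)) h

lemma prs_O (k : ℤ) {u : X → H} {g : X → ℝ} (h : (fun i => H.nr (u i)) =O[l] g) :
    (fun i => H1.nr (prs k (u i))) =O[l] g :=
  sn_le _ _ 1 (fun i => by simpa using nr_prs_le k (u i)) h

lemma f_O {y : X → H1} {g : X → ℝ} (h : (fun i => H1.nr (y i)) =O[l] g) :
    (fun i => PJ.nrm (H1.f (y i))) =O[l] g :=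
  sn_le _ _ 1 (fun i => by simpa using H1.f_le (y i)) h

lemma d_O {y : X → H1} {g : X → ℝ} (h : (fun i => H1.nr (y i)) =O[l] g) :
    (fun i => PJ.nrm (H1.d (y i))) =O[l] g :=
  sn_le _ _ 1 (fun i => by simpa using H1.d_le (y i)) h

lemma Hf_O {y : X → H} {g : X → ℝ} (h : (fun i => H.nr (y i)) =O[l] g) :
    (fun i => P2.nrm (H.f (y i))) =O[l] g :=
  sn_le _ _ 1 (fun i => by simpa using H.f_le (y i)) h

lemma Hft_O {y : X → H} {g : X → ℝ} (h : (fun i => H.nr (y i)) =O[l] g) :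
    (fun i => P2.nrm (H.ft (y i))) =O[l] g :=
  sn_le _ _ 1 (fun i => by simpa using H.ft_le (y i)) h

lemma mul_O {R : Type} [NormedCommRing R] [NormedAlgebra ℝ R] (F : PF R) {P u : X → R}
    {g g' : X → ℝ} (hP : P =O[l] g) (hu : (fun i => F.nrm (u i)) =O[l] g') :
    (fun i => F.nrm (P i * u i)) =O[l] fun i => g i * g' i :=
  (O_of_abs_le (fun i => by
    rw [Real.norm_of_nonneg (apply_nonneg _ _)]; exact F.nrm_mul_le _ _)).trans
      (hP.norm_left.mul hu)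

lemma cmul_O {R : Type} [NormedCommRing R] [NormedAlgebra ℝ R] (F : PF R) (P : R) {u : X → R}
    {g : X → ℝ} (hu : (fun i => F.nrm (u i)) =O[l] g) :
    (fun i => F.nrm (P * u i)) =O[l] g := sn_le _ _ _ (fun i => F.nrm_mul_le P (u i)) hu

lemma J_O {u w : X → D0} {g g' : X → ℝ} (hu : (fun i => PJ.nrm (u i)) =O[l] g)
    (hw : (fun i => PJ.nrm (w i)) =O[l] g') :
    (fun i => J (u i * w i)) =O[l] fun i => g i * g' i :=
  (O_of_abs_le (fun i => PJ.abs_mul_le (u i) (w i))).trans (hu.mul hw)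

lemma avg_O {u : X → C2} {g : X → ℝ} (hu : (fun i => P2.nrm (u i)) =O[l] g) :
    (fun i => PJ.nrm (avg (u i))) =O[l] g :=
  sn_le _ _ 1 (fun i => by simpa using nrm_avg_le (u i)) hu

end general

/-- a geometry close to the design with an approximate null solution and a test function -/
structure Ix (Ds : Des) (F : Ds.First) (C κ0 : ℝ) where
  η : ℝ
  hη : 0 < η
  G : Geo
  exa : G.Exact
  ap : Ds.Approx F C κ0 η G
  φ : H
  hφ : ∀ v : H, avg (G.c * H.f v) = 0 →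
    |G.B φ v| ≤ η ^ 4 * P2.nrm (H.f φ) * P2.nrm (H.f v)
  hI : G.I φ φ = 0
  θ : H1

namespace Ix

variable {Ds : Des} {F : Ds.First} {C κ0 : ℝ}

/-- small values of the parameter -/
def fl : Filter (Ix Ds F C κ0) := comap Ix.η (𝓝 0)

lemma hη0 : Tendsto Ix.η (fl : Filter (Ix Ds F C κ0)) (𝓝 0) := tendsto_comap

lemma O_le {E : Type*} [Norm E] {f : Ix Ds F C κ0 → E} {g : Ix Ds F C κ0 → ℝ}
    (h : ∀ i, ‖f i‖ ≤ C * g i) : f =O[fl] g :=
  (O_of_abs_le h).trans ((isBigO_refl g _).const_mul_left C)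

variable (i : Ix Ds F C κ0)

/-- second height derivative of `A` -/
def Att : C2 := ∑ k ∈ Ds.K, ι (i.ap.Ah2 k) * cx k + ι i.ap.q2 * cx (2 * Ds.n)

lemma At_eq : i.G.At = ∑ k ∈ Ds.K, ι (i.ap.Ah1 k) * cx k + ι i.ap.q1 * cx (2 * Ds.n) := by
  refine Dt.unique i.G.hAt ?_
  rw [i.ap.hA]
  exact ((Dt_one.add (Dt.sum _ (fun k _ => (Dt_ι (i.ap.hAh k)).mul (Dt_cx k)))).add
    ((Dt_ι i.ap.hq0).mul (Dt_cx _))).congr' (by simp)

lemma hAtt : Dt i.G.At i.Att := by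
  rw [At_eq]
  exact ((Dt.sum _ (fun k _ => (Dt_ι (i.ap.hAh1 k)).mul (Dt_cx k))).add
    ((Dt_ι i.ap.hq1).mul (Dt_cx _))).congr' (by simp [Att])

lemma Ah1_neg (k : ℤ) : i.ap.Ah1 (-k) = i.ap.Ah1 k :=
  D1.unique pi_pos (i.ap.hAh (-k)) (by rw [i.ap.Ah_neg]; exact i.ap.hAh k)
lemma Ah2_neg (k : ℤ) : i.ap.Ah2 (-k) = i.ap.Ah2 k :=
  D1.unique pi_pos (i.ap.hAh1 (-k)) (by rw [i.Ah1_neg]; exact i.ap.hAh1 k)
lemma Ah1_n : i.ap.Ah1 Ds.n = (i.η / 2) • Ds.α1 Ds.n :=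
  D1.unique pi_pos (i.ap.hAh _) (by rw [i.ap.Ah_n]; exact (Ds.hα _).smul _)
lemma Ah2_n : i.ap.Ah2 Ds.n = (i.η / 2) • Ds.α2 Ds.n :=
  D1.unique pi_pos (i.ap.hAh1 _) (by rw [i.Ah1_n]; exact (Ds.hα1 _).smul _)

omit i

lemma ex_mode {y : Ix Ds F C κ0 → D0} {a : D0} (h : ∀ i, ‖y i - (i.η / 2) • a‖ ≤ C * i.η ^ 2) :
    Ex2 fl η y 0 ((1/2 : ℝ) • a) :=
  (O_le h).congr_left (fun i => by rw [sub_zero, smul_smul]; congr 2; ring)

lemma ex_pol {y : ℤ → Ix Ds F C κ0 → D0} {a : ℤ → D0} {q : Ix Ds F C κ0 → D0}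
    (h : ∀ k i, ‖y k i - (i.η / 2) • a k‖ ≤ C * i.η ^ 2) (hq : q =O[fl] fun i => i.η ^ 2) :
    Ex2 fl η (fun i => ∑ k ∈ Ds.K, ι (y k i) * cx k + ι (q i) * cx (2 * Ds.n)) 0 (Ds.pol a) := by
  have h1 := Ex2.sum Ds.K (fun k _ => ((ex_mode (h k)).clm ιL).mul hη0 (Ex2.const (cx k)))
  have h2 := ((Ex2.of_O2 hq).clm ιL).mul hη0 (Ex2.const (cx (2 * Ds.n)))
  exact (h1.add h2).congr (fun i => rfl) (by simp) (by simp [Des.pol])

lemma q1_O3 : (fun i : Ix Ds F C κ0 => i.ap.q1 - i.η ^ 2 • (b • (om * Ds.g2)))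
    =O[fl] fun i => i.η ^ 3 := O_le (fun i => i.ap.q1_le)
lemma q2_O3 : (fun i : Ix Ds F C κ0 => i.ap.q2 - i.η ^ 2 • (b • (om * (Ds.g2' - b • Ds.g2))))
    =O[fl] fun i => i.η ^ 3 := O_le (fun i => i.ap.q2_le)

lemma O2_of_O3 {q : Ix Ds F C κ0 → D0} {a : D0}
    (h : (fun i => q i - i.η ^ 2 • a) =O[fl] fun i => i.η ^ 3) : q =O[fl] fun i => i.η ^ 2 := by
  have h1 : (fun i => q i - i.η ^ 2 • a) =O[fl] fun i => i.η ^ 2 :=
    O_drop hη0 1 h (fun i => by ring)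
  have h2 : (fun i : Ix Ds F C κ0 => i.η ^ 2 • a) =O[fl] fun i => i.η ^ 2 := by
    simpa using (isBigO_refl (fun i : Ix Ds F C κ0 => i.η ^ 2) fl).smul
      (isBigO_const_const a (one_ne_zero (α := ℝ)) fl)
  exact (h1.add h2).congr_left (fun i => by abel)

lemma ex_A : Ex2 fl η (fun i : Ix Ds F C κ0 => i.G.A) 1 (Ds.pol Ds.α) :=
  ((Ex2.const 1).add (ex_pol (fun k i => i.ap.Ah_le k) (O_le (fun i => i.ap.q0_le)))).congr
    (fun i => by rw [i.ap.hA, add_assoc]) (by simp) (by simp)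

lemma ex_At : Ex2 fl η (fun i : Ix Ds F C κ0 => i.G.At) 0 (Ds.pol Ds.α1) :=
  (ex_pol (fun k i => i.ap.Ah1_le k) (O2_of_O3 q1_O3)).congr (fun i => i.At_eq) rfl rfl

lemma ex_Att : Ex2 fl η (fun i : Ix Ds F C κ0 => i.Att) 0 (Ds.pol Ds.α2) :=
  ex_pol (fun k i => i.ap.Ah2_le k) (O2_of_O3 q2_O3)

lemma ex_c : Ex2 fl η (fun i : Ix Ds F C κ0 => i.G.c) 1 (Ds.pol Ds.cc) :=
  (ex_A.add (ex_At.csmul b⁻¹)).congr (fun i => rfl) (by simp) Ds.pol_cc

lemma ex_Ai : Ex2 fl η (fun i : Ix Ds F C κ0 => i.G.Ai) 1 (-Ds.pol Ds.α) :=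
  ex_A.inv hη0 (Eventually.of_forall fun i => i.G.hAi)

lemma ex_d : Ex2 fl η (fun i : Ix Ds F C κ0 => i.G.d) ((Ds.n:ℝ) ^ 2)⁻¹ 0 :=
  (O_le (fun i => i.ap.d_le)).congr_left (fun i => by simp)

lemma ex_PB : Ex2 fl η (fun i : Ix Ds F C κ0 => i.G.PB) (PB0 Ds.n) Ds.PB1 :=
  ((ex_d.smul hη0 ex_Ai).prod ((Ex2.const 0).prod (ex_A.prod (ex_c.csmul (-5))))).congr
    (fun i => rfl) rfl (by simp [Des.PB1])

lemma ex_PI : Ex2 fl η (fun i : Ix Ds F C κ0 => i.G.PI) Ds.PI0 (Ds.PI1 F) := by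
  have htt : Ex2 fl η (fun i : Ix Ds F C κ0 => i.G.Ttt) Ds.T0tt F.T1tt :=
    O_le (fun i => i.ap.Ttt_le)
  have hxt : Ex2 fl η (fun i : Ix Ds F C κ0 => i.G.Txt) Ds.T0xt F.T1xt :=
    O_le (fun i => i.ap.Txt_le)
  refine ((ex_d.smul hη0 ((ex_Ai.mul hη0 ex_Ai).mul hη0 htt)).neg.prod
    (hxt.prod (htt.prod (Ex2.const 0)))).congr (fun i => rfl) (by simp [Des.PI0]) ?_
  simp only [Des.PI1, zero_smul, add_zero, two_smul]
  congr 3
  ring

lemma nr_φ0 : (fun i : Ix Ds F C κ0 => H.nr (i.G.φ0 - Ds.e2 - i.η • F.φt))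
    =O[fl] fun i => i.η ^ 2 := by
  have k : ∀ {f : Ix Ds F C κ0 → C2}, (∀ i, ‖f i‖ ≤ C * i.η ^ 2) →
      (fun i => P2.nrm (f i)) =O[fl] fun i => i.η ^ 2 := fun h =>
    (O_of_abs_le (fun i => by
      rw [Real.norm_of_nonneg (apply_nonneg _ _)]; exact P2.nrm_le_norm _)).trans
      ((O_le h).norm_left.const_mul_left _)
  exact ((k (fun i => i.ap.φ_le)).add (k (fun i => i.ap.φx_le))).add (k (fun i => i.ap.φt_le))

lemma nr_φ0' : (fun i : Ix Ds F C κ0 => H.nr (i.G.φ0 - Ds.e2)) =O[fl] η := by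
  have h1 : (fun i : Ix Ds F C κ0 => H.nr (i.η • F.φt)) =O[fl] η := by
    simpa using sn_smul H.nr (isBigO_refl η fl) (sn_const H.nr F.φt)
  simpa using sn_add H.nr (O_drop hη0 1 nr_φ0 (g' := η) (fun i => by ring)) h1

lemma nr_φ0'' : (fun i : Ix Ds F C κ0 => H.nr i.G.φ0) =O[fl] fun _ => (1:ℝ) :=
  (sn_add H.nr (nr_φ0'.trans (η_O_one hη0)) (sn_const H.nr Ds.e2)).congr_left
    (fun i => by rw [sub_add_cancel])

end Ix

end

end Pool.Agent.P.MP_0d657e_an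
end

-- part Pool.Agent.P.MP_0d657e_an.D5
section

/-! Decomposition of an approximate null solution and the basic test identity. -/

open Set Real Asymptotics Filter Topology

namespace Pool.Agent.P.MP_0d657e_an

noncomputable section

lemma nr_le_d (y : H1) : H1.nr y ≤ 2 * PJ.nrm (H1.d y) := by
  have h : PJ.nrm (H1.f y) ≤ PJ.nrm (H1.d y) := Real.sqrt_le_sqrt (H1.poincare y)
  rw [H1.nr_apply]; linarith

namespace Ix

variable {Ds : Des} {F : Ds.First} {C κ0 : ℝ} (i : Ix Ds F C κ0)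

/-- normalisation of the kernel element -/
def den : ℝ := J (H1.f (prc (2 * Ds.n) i.G.φ0) * s1)
/-- coefficient of the kernel element -/
def c2 : ℝ := J (H1.f (prc (2 * Ds.n) i.φ) * s1) / i.den
/-- the rest -/
def φ' : H := i.φ - i.c2 • i.G.φ0
/-- the radial part -/
def h : H1 := prc 0 i.φ'
/-- the design modes -/
def y (k : ℤ) : H1 := if k ∈ Ds.K then prc k i.φ' else 0
/-- the rescaled design modes -/
def Y (k : ℤ) : H1 := (2 / i.η) • i.y k
/-- the weighted radial derivative -/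
def v : D0 := om * H1.d i.h
/-- the non radial part -/
def u : H := i.φ' - embc 0 i.h
/-- the remainder -/
def r : H := i.u - Ds.U i.y
/-- main size -/
def N : ℝ := PJ.nrm i.v + ∑ k ∈ Ds.K, H1.nr (i.Y k)
/-- total size -/
def M : ℝ := i.N + i.η * |i.c2|
/-- size of the remainder -/
def R : ℝ := H.nr i.r
/-- a priori bound -/
def g1 : ℝ := i.η ^ 2 * i.M + i.η * i.R

lemma y_neg (k : ℤ) : i.y (-k) = i.y k := by
  unfold y
  by_cases h : k ∈ Ds.K
  · rw [if_pos h, if_pos (Ds.K_neg k h), prc_neg]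
  · rw [if_neg h, if_neg (fun h' => h (by simpa using Ds.K_neg _ h'))]
lemma y_off (k : ℤ) (h : k ∉ Ds.K) : i.y k = 0 := if_neg h
lemma Y_neg (k : ℤ) : i.Y (-k) = i.Y k := by rw [Y, Y, y_neg]
lemma Y_off (k : ℤ) (h : k ∉ Ds.K) : i.Y k = 0 := by rw [Y, i.y_off k h, smul_zero]
lemma y_eq (k : ℤ) : i.y k = (i.η / 2) • i.Y k := by
  have := i.hη.ne'
  rw [Y, smul_smul, show i.η / 2 * (2 / i.η) = 1 by field_simp, one_smul]
lemma Uy_eq : Ds.U i.y = (i.η / 2) • Ds.U i.Y := by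
  simp only [Des.U, Finset.smul_sum, y_eq, map_smul]
lemma u_eq : i.u = (i.η / 2) • Ds.U i.Y + i.r := by rw [r, Uy_eq]; abel
lemma φ'_eq : i.φ' = embc 0 i.h + i.u := by rw [u]; abel
lemma φ_eq : i.φ = i.c2 • i.G.φ0 + i.φ' := by rw [φ']; abel
lemma prc0_u : prc 0 i.u = 0 := by simp [u, prc_embc_zero, h]
lemma prc_u {k : ℤ} (hk : k ≠ 0) : prc k i.u = prc k i.φ' := by simp [u, prc_embc_zero, hk]
lemma prc_r (k : ℤ) : prc k i.r = prc k i.u - i.y k := by
  rw [r, map_sub, Ds.prc_U i.y_neg i.y_off]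
lemma prc_u_K {k : ℤ} (hk : k ∈ Ds.K) : prc k i.u = i.y k := by
  rw [i.prc_u (fun h => Ds.m0 (h ▸ hk)), y, if_pos hk]
lemma prc_r_K {k : ℤ} (hk : k ∈ Ds.K) : prc k i.r = 0 := by rw [prc_r, i.prc_u_K hk, sub_self]
lemma prc0_r : prc 0 i.r = 0 := by rw [prc_r, prc0_u, i.y_off 0 Ds.m0, sub_self]
lemma prc2_r : prc (2 * Ds.n) i.r = prc (2 * Ds.n) i.u := by
  rw [prc_r, i.y_off _ Ds.m2, sub_zero]
lemma d_h : H1.d i.h = ex b * i.v := by rw [v, ← mul_assoc, mul_comm (ex b), om_mul_ex, one_mul]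
lemma J_v : J (i.v * ex b) = 0 := by rw [mul_comm, ← d_h, H1.J_d]

lemma N_nonneg : 0 ≤ i.N :=
  add_nonneg (apply_nonneg _ _) (Finset.sum_nonneg fun _ _ => apply_nonneg _ _)
lemma ηc_nonneg : 0 ≤ i.η * |i.c2| := mul_nonneg i.hη.le (abs_nonneg _)
lemma M_nonneg : 0 ≤ i.M := add_nonneg i.N_nonneg i.ηc_nonneg
lemma R_nonneg : 0 ≤ i.R := apply_nonneg _ _

/-- the radial coupling -/
def Λ (w : H) : ℝ :=
  J (H1.d i.h * avg ((i.G.At + b⁻¹ • i.Att) * H.f w + b⁻¹ • (i.G.At * H.ft w)))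

omit i

lemma ev_den : ∀ᶠ i : Ix Ds F C κ0 in fl, i.den ≠ 0 := by
  have h1 : (fun i : Ix Ds F C κ0 => i.den - π / 4) =O[fl] η := by
    have := J_O (f_O (prc_O (2 * Ds.n) (nr_φ0' (Ds := Ds) (F := F) (C := C) (κ0 := κ0))))
      (sn_const PJ.nrm s1)
    refine this.congr (fun i => ?_) (fun i => mul_one _)
    rw [map_sub, map_sub, Ds.prc_e2, sub_mul, map_sub, map_smul, smul_mul_assoc, map_smul, f_S1,
      J_s1_s1, den, smul_eq_mul]
    ring
  have h2 := (h1.trans_tendsto hη0).add_const (π / 4)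
  simp only [sub_add_cancel, zero_add] at h2
  exact h2.eventually_ne (by positivity)

lemma ev_2n : ∀ᶠ i : Ix Ds F C κ0 in fl, J (H1.f (prc (2 * Ds.n) i.r) * s1) = 0 := by
  filter_upwards [ev_den] with i hi
  have := Ds.n_pos
  rw [prc2_r, i.prc_u (by omega), φ', map_sub, map_sub, map_smul, map_smul, sub_mul, map_sub,
    smul_mul_assoc, map_smul, c2, smul_eq_mul, ← den, div_mul_cancel₀ _ hi, sub_self]

lemma N_O : (N : Ix Ds F C κ0 → ℝ) =O[fl] M :=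
  O_left (isBigO_refl _ _) N_nonneg ηc_nonneg

lemma c_O : (fun i : Ix Ds F C κ0 => i.η * i.c2) =O[fl] M :=
  (O_of_abs_le fun i => by rw [norm_mul, Real.norm_of_nonneg i.hη.le, Real.norm_eq_abs]).trans
    (O_right (isBigO_refl _ _) N_nonneg ηc_nonneg)

lemma v_O : (fun i : Ix Ds F C κ0 => PJ.nrm i.v) =O[fl] M :=
  (O_left (isBigO_refl _ _) (fun _ => apply_nonneg _ _)
    (fun _ => Finset.sum_nonneg fun _ _ => apply_nonneg _ _)).trans N_O

lemma Y_O (k : ℤ) : (fun i : Ix Ds F C κ0 => H1.nr (i.Y k)) =O[fl] M := by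
  by_cases hk : k ∈ Ds.K
  · refine (O_of_abs_le fun i => ?_).trans N_O
    rw [Real.norm_of_nonneg (apply_nonneg _ _)]
    exact le_add_of_nonneg_of_le (apply_nonneg _ _)
      (Finset.single_le_sum (f := fun k => H1.nr (i.Y k)) (fun _ _ => apply_nonneg _ _) hk)
  · simpa [Y_off _ k hk] using isBigO_zero _ _

lemma dh_O : (fun i : Ix Ds F C κ0 => PJ.nrm (H1.d i.h)) =O[fl] M := by
  simpa only [d_h] using cmul_O PJ (ex b) v_O

lemma h_O : (fun i : Ix Ds F C κ0 => H.nr (embc 0 i.h)) =O[fl] M :=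
  embc_O 0 (sn_le _ _ 2 (fun i => nr_le_d i.h) dh_O)

lemma UY_O : (fun i : Ix Ds F C κ0 => H.nr (Ds.U i.Y)) =O[fl] M :=
  sn_sum _ _ (fun k _ => embc_O k (Y_O k))

lemma half_O : (fun i : Ix Ds F C κ0 => i.η / 2) =O[fl] η :=
  ((isBigO_refl η fl).const_mul_left (1/2 : ℝ)).congr_left (fun i => by ring)

lemma Uy_O : (fun i : Ix Ds F C κ0 => H.nr ((i.η / 2) • Ds.U i.Y)) =O[fl] fun i => i.η * i.M :=
  sn_smul _ half_O UY_O

lemma u_O : (fun i : Ix Ds F C κ0 => H.nr i.u) =O[fl] fun i => i.η * i.M + i.R := by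
  simp only [u_eq]
  have a := fun i : Ix Ds F C κ0 => mul_nonneg i.hη.le i.M_nonneg
  exact sn_add _ (O_left Uy_O a R_nonneg) (O_right (isBigO_refl _ _) a R_nonneg)

lemma g1_left {f : Ix Ds F C κ0 → ℝ} (h : f =O[fl] fun i => i.η ^ 2 * i.M) : f =O[fl] g1 :=
  O_left h (fun i => mul_nonneg (sq_nonneg _) i.M_nonneg) (fun i => mul_nonneg i.hη.le i.R_nonneg)

lemma g1_right {f : Ix Ds F C κ0 → ℝ} (h : f =O[fl] fun i => i.η * i.R) : f =O[fl] g1 :=
  O_right h (fun i => mul_nonneg (sq_nonneg _) i.M_nonneg) (fun i => mul_nonneg i.hη.le i.R_nonneg)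

lemma φ_O : (fun i : Ix Ds F C κ0 => i.η ^ 3 * H.nr i.φ) =O[fl] g1 := by
  have h1 : (fun i : Ix Ds F C κ0 => H.nr (i.η ^ 3 • i.c2 • i.G.φ0)) =O[fl] g1 := by
    refine g1_left ((sn_smul H.nr (((isBigO_refl η fl).pow 2).mul c_O) nr_φ0'').congr
      (fun i => ?_) (fun i => mul_one _))
    rw [smul_smul]; congr 2; ring
  have h2 : (fun i : Ix Ds F C κ0 => H.nr (i.η ^ 3 • embc 0 i.h)) =O[fl] g1 :=
    g1_left (O_drop hη0 1 (sn_smul H.nr ((isBigO_refl η fl).pow 3) h_O) (fun i => by ring))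
  have h3 : (fun i : Ix Ds F C κ0 => H.nr (i.η ^ 3 • i.u)) =O[fl] g1 :=
    O_drop hη0 2 (sn_smul H.nr ((isBigO_refl η fl).pow 3) u_O) (fun i => by rw [g1]; ring)
  refine (sn_add _ h1 (sn_add _ h2 h3)).congr_left (fun i => ?_)
  rw [← smul_add, ← smul_add, ← φ'_eq, ← φ_eq, map_smul_eq_mul,
    Real.norm_of_nonneg (pow_nonneg i.hη.le 3)]

lemma ex_ct : Ex2 fl η (fun i : Ix Ds F C κ0 => i.G.At + b⁻¹ • i.Att) 0
    (Ds.pol Ds.α1 + b⁻¹ • Ds.pol Ds.α2) :=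
  (ex_At.add (ex_Att.csmul b⁻¹)).congr (fun i => rfl) (by simp) rfl

variable {w : Ix Ds F C κ0 → H} {gw : Ix Ds F C κ0 → ℝ}

lemma Pc_O (h0 : ∀ i, prc 0 (w i) = 0) (hw : (fun i => H.nr (w i)) =O[fl] gw) :
    (fun i => H1.nr (i.G.Pc i.hAtt (w i))) =O[fl] fun i => i.η * gw i := by
  have a0 : ∀ i, avg (H.f (w i)) = 0 := fun i => by rw [← cm_zero, ← f_prc, h0, map_zero]
  have a1 : ∀ i, avg (H.ft (w i)) = 0 := fun i => by rw [← cm_zero, ← d_prc, h0, map_zero]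
  have h1 := avg_O (mul_O P2 (ex_c.O1 hη0) (Hf_O hw))
  have h2 := avg_O (sn_add _ (mul_O P2 (ex_ct.O1 hη0) (Hf_O hw))
    (mul_O P2 (ex_c.O1 hη0) (Hft_O hw)))
  refine (h1.add h2).congr_left (fun i => ?_)
  simp only [H1.nr_apply, Geo.f_Pc, Geo.d_Pc, sub_mul, one_mul, map_sub, map_add, a0, a1, sub_zero]

/-- the basic test identity -/
theorem T0 (h0 : ∀ i, prc 0 (w i) = 0) (hw : (fun i => H.nr (w i)) =O[fl] gw) :
    (fun i => Qf i.G.PB i.u (w i) - i.Λ (w i)) =O[fl] fun i => i.η * i.g1 * gw i := by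
  have hp := embc_O 0 (Pc_O h0 hw)
  have hw' := sn_sub _ hw (O_drop hη0 1 hp (g' := gw) (fun i => by ring))
  have h1 : (fun i => i.G.B i.φ (w i - embc 0 (i.G.Pc i.hAtt (w i))))
      =O[fl] fun i => i.η * i.g1 * gw i := by
    refine (O_of_abs_le fun i => ?_).trans (((isBigO_refl η fl).mul φ_O).mul hw')
    refine (i.hφ _ (Geo.avg_test i.hAtt i.exa _)).trans ?_
    have a1 := H.f_le i.φ
    have a2 := H.f_le (w i - embc 0 (i.G.Pc i.hAtt (w i)))
    have a3 := i.hη.le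
    rw [← mul_assoc, show i.η * i.η ^ 3 = i.η ^ 4 by ring]
    gcongr
  have h2 := (Qf_1 hη0 ex_PB u_O hp).congr_right
    (g₂ := fun i => i.η * i.g1 * gw i) (fun i => by rw [g1]; ring)
  refine (h1.add h2).congr_left (fun i => ?_)
  have e0 := i.exa.ker (w i - embc 0 (i.G.Pc i.hAtt (w i)))
  rw [Geo.B_eqQ] at e0
  rw [B0_embc, prc0_u, Q1_zero, Geo.B_eqQ, φ_eq, φ'_eq, map_add, map_add, map_smul,
    LinearMap.add_apply, LinearMap.add_apply, LinearMap.smul_apply, e0,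
    Geo.B_test i.hAtt i.exa, map_sub, Λ]
  simp only [smul_zero]
  ring

lemma avg_pol_mul (y : ℤ → D0) (G : C2) :
    avg (Ds.pol y * G) = ∑ k ∈ Ds.K, (1/2 : ℝ) • y k * cm k G := by
  simp only [Des.pol, Finset.sum_mul, map_sum, mul_assoc, avg_ι_mul, cm_apply]

lemma Λ_O (hw : (fun i => H.nr (w i)) =O[fl] gw) :
    (fun i => i.Λ (w i) - i.η / 2 * ∑ k ∈ Ds.K, J (i.v * (Ds.g' k * H1.f (prc k (w i))
      + Ds.g k * H1.d (prc k (w i))))) =O[fl] fun i => i.η ^ 2 * i.M * gw i := by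
  have h1 := avg_O (sn_add _ (mul_O P2 ex_ct (Hf_O hw)) (mul_O P2 (ex_At.csmul b⁻¹) (Hft_O hw)))
  refine (J_O dh_O h1).congr (fun i => ?_) (fun i => by ring)
  have e : ∀ a c d e f g : C2, ∀ s : ℝ, (a - 0 - s • c) * f + (d - b⁻¹ • (0:C2) - s • e) * g
      = (a * f + d * g) - s • (c * f + e * g) := by
    intro a c d e f g s
    simp only [Algebra.smul_def]; ring
  rw [e, map_sub, mul_sub, map_sub, Λ, smul_mul_assoc]
  congr 1
  rw [← map_sum, ← smul_eq_mul (i.η / 2), ← map_smul]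
  congr 1
  simp only [add_mul, smul_mul_assoc, map_smul, map_add, avg_pol_mul, Finset.smul_sum,
    ← Finset.sum_add_distrib, Finset.mul_sum, d_h, Des.g, Des.g', f_prc, d_prc]
  refine Finset.sum_congr rfl (fun k _ => ?_)
  ext t
  have := b_pos.ne'
  simp
  field_simp
  ring

/-- tests away from the design modes -/
theorem T1 (h0 : ∀ i, prc 0 (w i) = 0) (hK : ∀ i, ∀ k ∈ Ds.K, prc k (w i) = 0)
    (hw : (fun i => H.nr (w i)) =O[fl] gw) :
    (fun i => Qf (PB0 Ds.n) i.r (w i)) =O[fl] fun i => i.g1 * gw i := by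
  have h1 : _ =O[fl] fun i => i.g1 * gw i := O_drop hη0 1 (T0 h0 hw) (fun i => by ring)
  have h2 : _ =O[fl] fun i => i.g1 * gw i :=
    (Λ_O hw).trans ((g1_left (isBigO_refl _ _)).mul (isBigO_refl gw _))
  have h3 := (Qf_1 hη0 ex_PB u_O hw).congr_right
    (g₂ := fun i => i.g1 * gw i) (fun i => by rw [g1]; ring)
  refine ((h1.add h2).sub h3).congr_left (fun i => ?_)
  have e1 : Qf (PB0 Ds.n) (Ds.U i.Y) (w i) = 0 := by
    rw [Qf_symm, Des.U, map_sum]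
    exact Finset.sum_eq_zero (fun k hk => by rw [B0_embc, hK i k hk, Q1_zero])
  have e2 : ∑ k ∈ Ds.K, J (i.v * (Ds.g' k * H1.f (prc k (w i))
      + Ds.g k * H1.d (prc k (w i)))) = 0 :=
    Finset.sum_eq_zero (fun k hk => by simp [hK i k hk])
  have e3 : Qf (PB0 Ds.n) i.u (w i) = Qf (PB0 Ds.n) i.r (w i) := by
    rw [u_eq, map_add, map_smul, LinearMap.add_apply, LinearMap.smul_apply, e1, smul_zero, zero_add]
  rw [e2, e3]; ring

end Ix

end

end Pool.Agent.P.MP_0d657e_an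
end

-- part Pool.Agent.P.MP_0d657e_an.D6
section

/-! The remainder is of second order. -/

open Set Real Asymptotics Filter Topology

namespace Pool.Agent.P.MP_0d657e_an

noncomputable section

lemma res_iff {n : ℕ} (hn : 0 < n) {k m : ℤ} (h : ((k:ℝ) / n) ^ 2 = (m:ℝ) ^ 2) :
    k = m * n ∨ k = -(m * n) := by
  have : (n:ℝ) ≠ 0 := by exact_mod_cast hn.ne'
  rw [div_pow, div_eq_iff (by positivity), ← mul_pow] at h
  have h2 : k ^ 2 = (m * n) ^ 2 := by exact_mod_cast h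
  exact sq_eq_sq_iff_eq_or_eq_neg.1 h2

lemma O_const_cancel {X : Type*} {l : Filter X} {c : ℝ} (hc : c ≠ 0) {f g : X → ℝ}
    (h : (fun i => c * f i) =O[l] g) : f =O[l] g :=
  (h.const_mul_left c⁻¹).congr_left (fun i => by rw [← mul_assoc, inv_mul_cancel₀ hc, one_mul])

lemma Des.B0_n (Ds : Des) (w : H) : Qf (PB0 Ds.n) (embs Ds.n S2) w = 0 := by
  rw [Qf_symm, B0_embs, Q1_S2]; simp [Ds.n_ne]; norm_num

lemma Des.B0_2n (Ds : Des) (w : H) : Qf (PB0 Ds.n) (embs (2 * Ds.n) S1) w = 0 := by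
  rw [Qf_symm, B0_embs, Q1_S1]; simp [Ds.n_ne]; norm_num

namespace Ix

variable {Ds : Des} {F : Ds.First} {C κ0 : ℝ} (i : Ix Ds F C κ0)

/-- first odd resonant coefficient -/
def a1 : ℝ := 4 / π * J (H1.f (prs Ds.n i.r) * s2)
/-- second odd resonant coefficient -/
def a2 : ℝ := 4 / π * J (H1.f (prs (2 * Ds.n) i.r) * s1)
/-- non resonant remainder -/
def r2 : H := i.r - (i.a1 • embs Ds.n S2 + i.a2 • embs (2 * Ds.n) S1)

lemma B0_r2 (w : H) : Qf (PB0 Ds.n) i.r2 w = Qf (PB0 Ds.n) i.r w := by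
  simp [r2, Ds.B0_n, Ds.B0_2n]

lemma prc_r2 (k : ℤ) : prc k i.r2 = prc k i.r := by simp [r2]

lemma r2_n : J (H1.f (prs Ds.n i.r2) * s2) = 0 := by
  have := Ds.n_pos
  have hp := pi_pos
  simp only [r2, map_sub, map_add, map_smul, prs_embs]
  rw [if_pos (by omega), if_neg (by omega), if_neg (by omega), if_neg (by omega)]
  simp only [f_S2, map_zero, sub_zero, smul_zero, add_zero, sub_mul, smul_mul_assoc, map_sub,
    map_smul, J_s2_s2, a1, smul_eq_mul]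
  field_simp
  ring

lemma r2_2n : J (H1.f (prs (2 * Ds.n) i.r2) * s1) = 0 := by
  have := Ds.n_pos
  have hp := pi_pos
  simp only [r2, map_sub, map_add, map_smul, prs_embs]
  rw [if_neg (by omega), if_neg (by omega), if_pos (by omega), if_neg (by omega)]
  simp only [f_S1, map_zero, sub_zero, smul_zero, zero_add, sub_mul, smul_mul_assoc, map_sub,
    map_smul, J_s1_s1, a2, smul_eq_mul]
  field_simp
  ring

omit i

lemma T1c {k : ℤ} (h0 : k ≠ 0) (hk : k ∉ Ds.K) (θ : H1) :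
    (fun i : Ix Ds F C κ0 => Q1 (((k:ℝ) / Ds.n) ^ 2 - 5) (prc k i.r) θ) =O[fl] g1 := by
  have h := T1 (Ds := Ds) (F := F) (C := C) (κ0 := κ0) (w := fun _ => embc k θ)
    (fun _ => by rw [prc_embc, if_neg (by omega), if_neg (by omega)]; simp)
    (fun _ m hm => by
      rw [prc_embc, if_neg, if_neg]
      · simp
      · intro e; exact hk (by rwa [show k = m by omega])
      · intro e; exact hk (by rw [show k = -m by omega]; exact Ds.K_neg m hm))
    (sn_const _ _)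
  simpa only [B0_embc, mul_one] using h

lemma T1s (k : ℤ) (θ : H1) :
    (fun i : Ix Ds F C κ0 => Q1 (((k:ℝ) / Ds.n) ^ 2 - 5) (prs k i.r2) θ) =O[fl] g1 := by
  have h := T1 (Ds := Ds) (F := F) (C := C) (κ0 := κ0) (w := fun _ => embs k θ)
    (fun _ => prc_embs _ _ _) (fun _ m _ => prc_embs _ _ _) (sn_const _ _)
  exact h.congr (fun i => by rw [← B0_r2, B0_embs]) (fun i => mul_one _)

lemma lowc (k : ℤ) : (fun i : Ix Ds F C κ0 => low (prc k i.r2)) =O[fl] fun i => i.g1 ^ 2 := by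
  simp only [prc_r2]
  by_cases h0 : k = 0
  · simpa [h0, prc0_r, low] using isBigO_zero _ _
  by_cases hk : k ∈ Ds.K
  · simpa [prc_r_K _ hk, low] using isBigO_zero _ _
  refine (IsBigO.pow ?_ 2).add (IsBigO.pow ?_ 2)
  · by_cases hr : 1 + (((k:ℝ) / Ds.n) ^ 2 - 5) = 0
    · have hz : (fun _ => (0:ℝ)) =O[fl] (g1 : Ix Ds F C κ0 → ℝ) := isBigO_zero _ _
      refine hz.congr' ?_ EventuallyEq.rfl
      filter_upwards [ev_2n] with i hi
      rcases res_iff Ds.n_pos (k := k) (m := 2) (by push_cast; linarith) with e | e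
      · rw [e, hi]
      · rw [e, prc_neg, hi]
    · exact O_const_cancel hr (by simpa only [Q1_S1] using T1c h0 hk S1)
  · have hr : 4 + (((k:ℝ) / Ds.n) ^ 2 - 5) ≠ 0 := by
      intro hr
      rcases res_iff Ds.n_pos (k := k) (m := 1) (by push_cast; linarith) with e | e
      · exact hk (by rw [e, one_mul]; exact Ds.m1)
      · exact hk (by rw [e, one_mul]; exact Ds.K_neg _ Ds.m1)
    exact O_const_cancel hr (by simpa only [Q1_S2] using T1c h0 hk S2)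

lemma lows (k : ℤ) : (fun i : Ix Ds F C κ0 => low (prs k i.r2)) =O[fl] fun i => i.g1 ^ 2 := by
  refine (IsBigO.pow ?_ 2).add (IsBigO.pow ?_ 2)
  · by_cases hr : 1 + (((k:ℝ) / Ds.n) ^ 2 - 5) = 0
    · have hz : (fun _ => (0:ℝ)) =O[fl] (g1 : Ix Ds F C κ0 → ℝ) := isBigO_zero _ _
      refine hz.congr_left (fun i => ?_)
      rcases res_iff Ds.n_pos (k := k) (m := 2) (by push_cast; linarith) with e | e
      · rw [e, r2_2n]
      · rw [e, prs_neg, map_neg, neg_mul, map_neg, r2_2n, neg_zero]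
    · exact O_const_cancel hr (by simpa only [Q1_S1] using T1s k S1)
  · by_cases hr : 4 + (((k:ℝ) / Ds.n) ^ 2 - 5) = 0
    · have hz : (fun _ => (0:ℝ)) =O[fl] (g1 : Ix Ds F C κ0 → ℝ) := isBigO_zero _ _
      refine hz.congr_left (fun i => ?_)
      rcases res_iff Ds.n_pos (k := k) (m := 1) (by push_cast; linarith) with e | e
      · rw [e, one_mul, r2_n]
      · rw [e, one_mul, prs_neg, map_neg, neg_mul, map_neg, r2_n, neg_zero]
    · exact O_const_cancel hr (by simpa only [Q1_S2] using T1s k S2)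

lemma g1_nonneg (i : Ix Ds F C κ0) : 0 ≤ i.g1 :=
  add_nonneg (mul_nonneg (sq_nonneg _) i.M_nonneg) (mul_nonneg i.hη.le i.R_nonneg)

lemma r2_O : (fun i : Ix Ds F C κ0 => H.nr i.r2) =O[fl] g1 := by
  refine absorb_sq ?_
  have p1 := fun i : Ix Ds F C κ0 => mul_nonneg i.g1_nonneg (apply_nonneg H.nr i.r2)
  have p2 := fun i : Ix Ds F C κ0 => sq_nonneg i.g1
  have h1 := O_left (T1 (w := r2) (fun i => by rw [prc_r2, prc0_r])
    (fun i k hk => by rw [prc_r2, prc_r_K _ hk]) (isBigO_refl _ _)) p1 p2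
  have h2 := O_right (IsBigO.sum (s := Finset.Icc (-(2 * Ds.n : ℤ)) (2 * Ds.n))
    (fun k _ => ((lowc k).add (lows k)).const_mul_left 5)) p1 p2
  have := Ds.n_pos
  refine O_const_cancel (c := (27 * (Ds.n:ℝ) ^ 3)⁻¹) (by positivity)
    ((O_of_abs_le fun i => ?_).trans (h1.add h2))
  rw [Real.norm_of_nonneg (by positivity), ← B0_r2, Finset.sum_apply]
  exact garding Ds.n_pos i.r2

lemma T2 (k : ℤ) (θ : H1) (hθ : ∀ w, Qf (PB0 Ds.n) (embs k θ) w = 0) :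
    (fun i : Ix Ds F C κ0 => i.a1 * Qf Ds.PB1 (embs Ds.n S2) (embs k θ)
      + i.a2 * Qf Ds.PB1 (embs (2 * Ds.n) S1) (embs k θ)) =O[fl] g1 := by
  have hw : (fun _ : Ix Ds F C κ0 => H.nr (embs k θ)) =O[fl] fun _ => (1:ℝ) := sn_const _ _
  have h1 := T0 (fun _ => prc_embs _ _ _) hw
  have h2 := (Qf_2 ex_PB u_O hw).congr_right
    (g₂ := fun i => i.η * i.g1 * 1) (fun i => by rw [g1]; ring)
  have h3 := ((isBigO_refl η fl).mul (Qf_c Ds.PB1 r2_O hw)).congr_right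
    (g₂ := fun i => i.η * i.g1 * 1) (fun i => by ring)
  refine O_cancel (c := η) (Eventually.of_forall fun i => i.hη.ne')
    (((h1.sub h2).sub h3).congr (fun i => ?_) (fun i => mul_one _))
  have e1 : i.Λ (embs k θ) = 0 := by
    have : ∀ (y : ℤ → D0) (q z : D0),
        avg ((∑ k ∈ Ds.K, ι (y k) * cx k + ι q * cx (2 * Ds.n)) * (ι z * sx k)) = 0 := by
      intro y q z
      rw [mul_left_comm, avg_ι_mul, mul_comm _ (sx k), ← sm_apply, map_add, sm_sum, sm_ι_mul,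
        sm_cx]
      simp
    rw [Λ, f_embs, ft_embs, add_mul, smul_mul_assoc, map_add avg, map_add avg, map_smul, map_smul,
      At_eq, Att, this, this, this]
    simp
  have e2 : Qf (PB0 Ds.n) i.u (embs k θ) = 0 := by rw [Qf_symm, hθ]
  have e3 : Qf Ds.PB1 i.u (embs k θ) = Qf Ds.PB1 i.r (embs k θ) := by
    rw [u_eq, map_add, map_smul, LinearMap.add_apply, LinearMap.smul_apply, Ds.B1_U_s, smul_zero,
      zero_add]
  rw [e1, e2, e3, r2]
  simp only [map_sub, map_add, map_smul, LinearMap.sub_apply, LinearMap.add_apply,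
    LinearMap.smul_apply, smul_eq_mul]
  ring

lemma a1_O : (a1 : Ix Ds F C κ0 → ℝ) =O[fl] g1 := by
  have h := T2 (Ds := Ds) (F := F) (C := C) (κ0 := κ0) _ _ Ds.B0_2n
  simp only [Ds.B1_22, mul_zero, add_zero, mul_comm (a1 _)] at h
  exact O_const_cancel Ds.B1_n2 h

lemma a2_O : (a2 : Ix Ds F C κ0 → ℝ) =O[fl] g1 := by
  have h := T2 (Ds := Ds) (F := F) (C := C) (κ0 := κ0) _ _ Ds.B0_n
  simp only [Ds.B1_nn, mul_zero, zero_add, mul_comm (a2 _), Qf_symm _ (embs (2 * Ds.n) S1)] at h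
  exact O_const_cancel Ds.B1_n2 h

theorem R_O : (R : Ix Ds F C κ0 → ℝ) =O[fl] fun i => i.η ^ 2 * i.M := by
  refine absorb hη0 ?_
  have h1 := (sn_smul H.nr a1_O (sn_const H.nr (embs Ds.n S2))).congr_right
    (g₂ := (g1 : Ix Ds F C κ0 → ℝ)) (fun i => mul_one _)
  have h2 := (sn_smul H.nr a2_O (sn_const H.nr (embs (2 * Ds.n) S1))).congr_right
    (g₂ := (g1 : Ix Ds F C κ0 → ℝ)) (fun i => mul_one _)
  exact (sn_add _ r2_O (sn_add _ h1 h2)).congr_left (fun i => by rw [r2, sub_add_cancel, R])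

lemma g1_O : (g1 : Ix Ds F C κ0 → ℝ) =O[fl] fun i => i.η ^ 2 * i.M :=
  (isBigO_refl _ _).add (O_drop hη0 1 ((isBigO_refl η fl).mul R_O) (fun i => by ring))

lemma u_O' : (fun i : Ix Ds F C κ0 => H.nr i.u) =O[fl] fun i => i.η * i.M :=
  u_O.trans ((isBigO_refl _ _).add (O_drop hη0 1 R_O (fun i => by ring)))

end Ix

end

end Pool.Agent.P.MP_0d657e_an
end

-- part Pool.Agent.P.MP_0d657e_an.D7
section

/-! Expansion of the quadratic obstruction. -/

open Set Real Asymptotics Filter Topology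

namespace Pool.Agent.P.MP_0d657e_an

noncomputable section

lemma nr_KT_le : ∃ c : ℝ, ∀ w : H1, H1.nr (KT w) ≤ c * H1.nr w := by
  refine ⟨‖c1‖ + ‖2 * s1‖ * π + ‖c1‖ + ‖s1‖ + ‖2 * c1‖ * π, fun w => ?_⟩
  have hV : PJ.nrm (V (H1.f w)) ≤ π * H1.nr w := by
    have h1 := nrm_le_norm' (V (H1.f w))
    have h2 := norm_V_le (H1.f w)
    have h3 := H1.f_le w
    rw [sub_zero] at h1 h2
    have h4 := Real.mul_self_sqrt pi_pos.le
    have h5 := Real.sqrt_nonneg π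
    calc _ ≤ √π * (√π * H1.nr w) := h1.trans (mul_le_mul_of_nonneg_left
          (h2.trans (mul_le_mul_of_nonneg_left h3 h5)) h5)
      _ = _ := by rw [← mul_assoc, h4]
  have k : ∀ (P y : D0) (c : ℝ), PJ.nrm y ≤ c → PJ.nrm (P * y) ≤ ‖P‖ * c := fun P y c h =>
    (PJ.nrm_mul_le P y).trans (mul_le_mul_of_nonneg_left h (norm_nonneg _))
  have a1 := k c1 _ _ (H1.f_le w)
  have a2 := k (2 * s1) _ _ hV
  have a3 := k c1 _ _ (H1.d_le w)
  have a4 := k s1 _ _ (H1.f_le w)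
  have a5 := k (2 * c1) _ _ hV
  have b1 := map_add_le_add PJ.nrm (c1 * H1.f w) (2 * s1 * V (H1.f w))
  have b2 := map_add_le_add PJ.nrm (c1 * H1.d w + s1 * H1.f w) (2 * c1 * V (H1.f w))
  have b3 := map_add_le_add PJ.nrm (c1 * H1.d w) (s1 * H1.f w)
  rw [H1.nr_apply (KT w), f_KT, d_KT]
  linarith

lemma Des.g_neg (Ds : Des) (k : ℤ) : Ds.g (-k) = Ds.g k := by simp [Des.g, Ds.α1_neg]
lemma Des.g'_neg (Ds : Des) (k : ℤ) : Ds.g' (-k) = Ds.g' k := by
  simp [Des.g', Ds.α1_neg, Ds.α2_neg]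

namespace Ix

variable {Ds : Des} {F : Ds.First} {C κ0 : ℝ}

lemma T0' {w : Ix Ds F C κ0 → H} {gw : Ix Ds F C κ0 → ℝ} (h0 : ∀ i, prc 0 (w i) = 0)
    (hw : (fun i => H.nr (w i)) =O[fl] gw) :
    (fun i => Qf (PB0 Ds.n) i.u (w i) + i.η * (i.η / 2 * Qf Ds.PB1 (Ds.U i.Y) (w i)) - i.Λ (w i))
      =O[fl] fun i => i.η ^ 3 * i.M * gw i := by
  have h1 := (T0 h0 hw).trans ((((isBigO_refl η fl).mul g1_O).mul (isBigO_refl gw fl)).congr_right
    (g₂ := fun i => i.η ^ 3 * i.M * gw i) (fun i => by ring))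
  have h2 := (Qf_2 ex_PB u_O' hw).congr_right
    (g₂ := fun i => i.η ^ 3 * i.M * gw i) (fun i => by ring)
  have h3 := ((isBigO_refl η fl).mul (Qf_c Ds.PB1 R_O hw)).congr_right
    (g₂ := fun i => i.η ^ 3 * i.M * gw i) (fun i => by ring)
  refine ((h1.sub h2).sub h3).congr_left (fun i => ?_)
  have e3 : Qf Ds.PB1 i.u (w i) = i.η / 2 * Qf Ds.PB1 (Ds.U i.Y) (w i) + Qf Ds.PB1 i.r (w i) := by
    rw [u_eq, map_add, map_smul, LinearMap.add_apply, LinearMap.smul_apply, smul_eq_mul]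
  rw [e3]; ring

lemma prc0_embc {k : ℤ} (hk : k ≠ 0) (θ : H1) : prc 0 (embc k θ) = 0 := by
  rw [prc_embc, if_neg (by omega), if_neg (by omega)]; simp

/-- the approximate first order equations -/
lemma con_O {k : ℤ} (hk : k ∈ Ds.K) {θ : Ix Ds F C κ0 → H1} {g : Ix Ds F C κ0 → ℝ}
    (hθ : (fun i => H1.nr (θ i)) =O[fl] g) :
    (fun i => Q1 (Ds.κ k ^ 2 - 5) (i.Y k) (θ i)
      - J (i.v * (Ds.g' k * H1.f (θ i) + Ds.g k * H1.d (θ i)))) =O[fl] fun i => i.η * i.M * g i := by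
  have hk0 : k ≠ 0 := fun h => Ds.m0 (h ▸ hk)
  have hw := embc_O k hθ
  have h1 : _ =O[fl] fun i => i.η ^ 2 * i.M * g i :=
    O_drop hη0 1 (T0' (fun i => prc0_embc hk0 _) hw) (fun i => by ring)
  have h2 := Λ_O hw
  have h3 := ((isBigO_refl η fl).mul (half_O.mul (Qf_c Ds.PB1 UY_O hw))).congr_right
    (g₂ := fun i => i.η ^ 2 * i.M * g i) (fun i => by ring)
  refine O_cancel (c := η) (Eventually.of_forall fun i => i.hη.ne')
    ((((h1.add h2).sub h3).const_mul_left 2).congr (fun i => ?_) (fun i => by ring))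
  have e1 : ∑ m ∈ Ds.K, J (i.v * (Ds.g' m * H1.f (prc m (embc k (θ i)))
      + Ds.g m * H1.d (prc m (embc k (θ i)))))
      = J (i.v * (Ds.g' k * H1.f (θ i) + Ds.g k * H1.d (θ i))) := by
    have e : ∀ m, J (i.v * (Ds.g' m * H1.f (prc m (embc k (θ i)))
        + Ds.g m * H1.d (prc m (embc k (θ i))))) =
        (if -k = m then (1/2) * J (i.v * (Ds.g' k * H1.f (θ i) + Ds.g k * H1.d (θ i))) else 0)
        + if k = m then (1/2) * J (i.v * (Ds.g' k * H1.f (θ i) + Ds.g k * H1.d (θ i))) else 0 := by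
      intro m
      rw [prc_embc]
      by_cases h1 : -k = m
      · rw [if_pos (by omega), if_neg (by omega), if_pos h1, if_neg (by omega), ← h1, Ds.g_neg,
          Ds.g'_neg]
        simp [mul_add]
      · by_cases h2 : k = m
        · rw [if_neg (by omega), if_pos (by omega), if_neg h1, if_pos h2, ← h2]
          simp [mul_add]
        · rw [if_neg (by omega), if_neg (by omega), if_neg h1, if_neg h2]
          simp
    simp only [e, Finset.sum_add_distrib, Finset.sum_ite_eq, if_pos hk, if_pos (Ds.K_neg k hk)]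
    ring
  rw [e1, B0_embc, i.prc_u_K hk, y_eq, smul_eq_mul]
  simp only [Q1, Des.κ, map_smul, map_add, smul_mul_assoc, smul_eq_mul]
  ring

lemma Λ_embc (i : Ix Ds F C κ0) (k : ℤ) (θ : H1) : i.Λ (embc k θ) =
    J (H1.d i.h * ((cm k i.G.At + b⁻¹ • cm k i.Att) * H1.f θ + b⁻¹ • cm k i.G.At * H1.d θ)) := by
  have e : ∀ (G : C2) (y : D0), avg (G * (ι y * cx k)) = cm k G * y := fun G y => by
    rw [mul_left_comm, avg_ι_mul, mul_comm G, ← cm_apply, mul_comm]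
  rw [Λ, f_embc, ft_embc, map_add, map_smul, e, e, map_add, map_smul, smul_mul_assoc]

lemma fine : (fun i : Ix Ds F C κ0 => J (i.v * H1.d S2)) =O[fl] fun i => i.η ^ 2 * i.M := by
  have hn := Ds.n_pos
  have h1 := T0' (Ds := Ds) (F := F) (C := C) (κ0 := κ0) (w := fun _ => embc Ds.n S2)
    (fun i => prc0_embc (by omega) _) (sn_const _ _)
  refine O_cancel (c := η) (Eventually.of_forall fun i => i.hη.ne')
    ((h1.const_mul_left (-2)).congr (fun i => ?_) (fun i => by ring))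
  have e0 : cm Ds.n (cx (2 * Ds.n)) = 0 := by
    rw [cm_cx, if_neg (by omega), if_neg (by omega)]; simp
  have e2 : Ds.α2 Ds.n = -(b • b • om) := D1.unique pi_pos (Ds.hα1 _) (by
    rw [Ds.αn]; exact (D1_om.smul b).congr' (by simp))
  rw [B0_embc, Q1_S2, Ds.B1_U_n, Λ_embc, At_eq, Att, map_add, map_add, cm_sum Ds.K_neg i.Ah1_neg,
    cm_sum Ds.K_neg i.Ah2_neg, if_pos Ds.m1, if_pos Ds.m1, cm_ι_mul, cm_ι_mul, e0, Ah1_n, Ah2_n,
    Ds.αn, e2, Int.cast_natCast, div_self Ds.n_ne, ← map_smul, show (4 + ((1:ℝ) ^ 2 - 5)) = 0 by norm_num]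
  simp only [zero_mul, mul_zero, zero_add, add_zero, zero_sub, mul_neg, neg_mul, neg_neg]
  rw [← smul_eq_mul (2:ℝ), ← map_smul]
  congr 1
  ext t
  have := b_pos.ne'
  simp [v]
  field_simp
  ring

lemma I0' : (fun i : Ix Ds F C κ0 => Qf i.G.PI i.φ' i.G.φ0) =O[fl] fun i => i.η ^ 2 * i.M := by
  have h1 := (Qf_2 ex_PI h_O (nr_φ0'' (Ds := Ds) (F := F) (C := C) (κ0 := κ0))).congr_right
    (g₂ := fun i => i.η ^ 2 * i.M) (fun i => by ring)
  have h2 := (Qf_c Ds.PI0 h_O (nr_φ0 (Ds := Ds) (F := F) (C := C) (κ0 := κ0))).congr_right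
    (g₂ := fun i => i.η ^ 2 * i.M) (fun i => by ring)
  have h3 := ((isBigO_refl η fl).mul
    (Qf_c (Ds.PI1 F) h_O (nr_φ0' (Ds := Ds) (F := F) (C := C) (κ0 := κ0)))).congr_right
    (g₂ := fun i => i.η ^ 2 * i.M) (fun i => by ring)
  have h4 := (fine (Ds := Ds) (F := F) (C := C) (κ0 := κ0)).const_mul_left (-(1/2))
  have h5 := (Qf_1 hη0 ex_PI u_O' (nr_φ0'' (Ds := Ds) (F := F) (C := C) (κ0 := κ0))).congr_right
    (g₂ := fun i => i.η ^ 2 * i.M) (fun i => by ring)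
  have h6 := (Qf_c Ds.PI0 u_O' (nr_φ0' (Ds := Ds) (F := F) (C := C) (κ0 := κ0))).congr_right
    (g₂ := fun i => i.η ^ 2 * i.M) (fun i => by ring)
  have h7 := (Qf_c Ds.PI0 (R_O (Ds := Ds) (F := F) (C := C) (κ0 := κ0))
    (sn_const H.nr Ds.e2)).congr_right (g₂ := fun i => i.η ^ 2 * i.M) (fun i => by ring)
  refine ((((((h1.add h2).add h3).add h4).add h5).add h6).add h7).congr_left (fun i => ?_)
  have e1 : Qf Ds.PI0 i.u Ds.e2 = Qf Ds.PI0 i.r Ds.e2 := by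
    rw [u_eq, map_add, map_smul, LinearMap.add_apply, LinearMap.smul_apply,
      Qf_symm _ (Ds.U i.Y), Ds.I0_e2_U, smul_zero, zero_add]
  rw [φ'_eq]
  simp only [map_sub, map_add, map_smul, LinearMap.add_apply, Ds.I0_φt, Ds.I1_e2, Ds.I0_e2, e1, v]
  simp only [smul_zero, mul_zero, sub_zero]
  ring

lemma B2n : (fun i : Ix Ds F C κ0 => Qf (PB0 Ds.n) i.u (embc (2 * Ds.n) (KT (i.Y Ds.n)))
    + i.η ^ 2 / 4 * ∑ k ∈ Ds.K, Ds.β1 i.Y k
    - i.η ^ 2 / 2 * J (i.v * (Ds.g2' * H1.f (KT (i.Y Ds.n)) + Ds.g2 * H1.d (KT (i.Y Ds.n)))))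
    =O[fl] fun i => i.η ^ 3 * i.M ^ 2 := by
  have hn := Ds.n_pos
  obtain ⟨c, hc⟩ := nr_KT_le
  have hK : (fun i : Ix Ds F C κ0 => H1.nr (KT (i.Y Ds.n))) =O[fl] M :=
    sn_le _ _ c (fun i => hc _) (Y_O _)
  have h1 := (T0' (fun i => prc0_embc (k := 2 * Ds.n) (by omega) _) (embc_O _ hK)).congr_right
    (g₂ := fun i => i.η ^ 3 * i.M ^ 2) (fun i => by ring)
  have h2 := (J_O dh_O (sn_add _ (mul_O PJ (q1_O3.add (q2_O3.const_smul_left b⁻¹)) (f_O hK))
    (mul_O PJ (q1_O3.const_smul_left b⁻¹) (d_O hK)))).congr_right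
    (g₂ := fun i => i.η ^ 3 * i.M ^ 2) (fun i => by ring)
  refine (h1.add (h2.const_mul_left (1/2))).congr_left (fun i => ?_)
  have e0 : cm (2 * Ds.n) (cx (2 * Ds.n)) = (1/2 : ℝ) • 1 := by
    rw [cm_cx, if_neg (by omega), if_pos (by omega)]; simp
  rw [Ds.B1_U_2n i.Y_neg, Λ_embc, At_eq, Att, map_add, map_add, cm_sum Ds.K_neg i.Ah1_neg,
    cm_sum Ds.K_neg i.Ah2_neg, if_neg Ds.m2, if_neg Ds.m2, cm_ι_mul, cm_ι_mul, e0]
  have key : ∀ (A B C : D0) (x y z s : ℝ), A = (1/2 : ℝ) • B + s • C → y = z →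
      x + y - J A + 1 / 2 * J B = x + z - s * J C := by
    intro A B C x y z s e e'
    rw [e, e', map_add, map_smul, map_smul, smul_eq_mul, smul_eq_mul]; ring
  refine key _ _ _ _ _ _ _ ?_ (by ring)
  ext t
  have := b_pos.ne'
  simp [v]
  field_simp
  ring

lemma I'' : (fun i : Ix Ds F C κ0 => Qf i.G.PI i.φ' i.φ' - i.η ^ 2 * Ds.q i.v i.Y)
    =O[fl] fun i => i.η ^ 3 * i.M ^ 2 := by
  have hρ := prc_O (2 * Ds.n) (R_O (Ds := Ds) (F := F) (C := C) (κ0 := κ0))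
  have h1 := (Qf_2 ex_PI h_O (u_O' (Ds := Ds) (F := F) (C := C) (κ0 := κ0))).congr_right
    (g₂ := fun i => i.η ^ 3 * i.M ^ 2) (fun i => by ring)
  have h2 := ((isBigO_refl η fl).mul
    (Qf_c (Ds.PI1 F) h_O (R_O (Ds := Ds) (F := F) (C := C) (κ0 := κ0)))).congr_right
    (g₂ := fun i => i.η ^ 3 * i.M ^ 2) (fun i => by ring)
  have h3 := (con_O Ds.m1 (sn_le _ H1.nr _ (fun i => H1.nr_mulL D1_c1 _) hρ)).congr_right
    (g₂ := fun i => i.η ^ 3 * i.M ^ 2) (fun i => by ring)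
  have h4 := B2n (Ds := Ds) (F := F) (C := C) (κ0 := κ0)
  have h5 := (Qf_1 hη0 ex_PI u_O' (u_O' (Ds := Ds) (F := F) (C := C) (κ0 := κ0))).congr_right
    (g₂ := fun i => i.η ^ 3 * i.M ^ 2) (fun i => by ring)
  have h6 := (Qf_c Ds.PI0 u_O' (R_O (Ds := Ds) (F := F) (C := C) (κ0 := κ0))).congr_right
    (g₂ := fun i => i.η ^ 3 * i.M ^ 2) (fun i => by ring)
  have h7 := (Qf_c Ds.PI0 (Uy_O (Ds := Ds) (F := F) (C := C) (κ0 := κ0)) R_O).congr_right
    (g₂ := fun i => i.η ^ 3 * i.M ^ 2) (fun i => by ring)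
  refine (((((((h1.add h2).const_mul_left 2).add (h3.const_mul_left 4)).sub
    (h4.const_mul_left 4)).add h5).add h6).add h7).congr_left (fun i => ?_)
  have e0 : Qf i.G.PI (embc 0 i.h) (embc 0 i.h) = 0 := by
    rw [Qf_emb0 _ _ _ rfl]
    simp [Geo.PI, avg_mul_ι, i.ap.avgT]
  have e1 : Qf (Ds.PI1 F) (embc 0 i.h) i.u =
      i.η / 2 * ∑ k ∈ Ds.K, Ds.τt i.v i.Y k + Qf (Ds.PI1 F) (embc 0 i.h) i.r := by
    rw [u_eq, map_add, map_smul, Ds.I1_U F _ i.Y_neg, smul_eq_mul, v]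
  have e2 : Qf Ds.PI0 i.u i.u = i.η ^ 2 * ∑ k ∈ Ds.K, Ds.t0 i.Y k + Qf Ds.PI0 i.u i.r
      + Qf Ds.PI0 ((i.η / 2) • Ds.U i.Y) i.r := by
    have := Ds.I0_UU i.Y_neg i.Y_off
    have e := Qf_symm Ds.PI0 i.r (Ds.U i.Y)
    rw [u_eq]
    simp only [map_add, map_smul, LinearMap.add_apply, LinearMap.smul_apply, this, e, smul_eq_mul]
    ring
  have e3 := KT_ident (prc (2 * Ds.n) i.r) (i.Y Ds.n)
  have e4 : Qf (PB0 Ds.n) i.u (embc (2 * Ds.n) (KT (i.Y Ds.n)))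
      = Q1 (-1) (prc (2 * Ds.n) i.r) (KT (i.Y Ds.n)) := by
    rw [B0_embc, prc2_r]; congr 1
    have := Ds.n_ne
    push_cast; field_simp; norm_num
  have e5 := Qf_symm i.G.PI i.u (embc 0 i.h)
  rw [φ'_eq, map_add, map_add, LinearMap.add_apply, LinearMap.add_apply, e0, e5, e1, e2, e4, e3,
    Ds.I0_emb0, Ds.κ_n, Ds.g_n, Ds.g'_n, ← prc2_r, Des.q, ← v,
    show ((1:ℝ) ^ 2 - 5) = -4 by norm_num, zero_mul, one_mul, zero_add]
  simp only [Finset.sum_add_distrib]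
  ring

end Ix

end

end Pool.Agent.P.MP_0d657e_an
end

-- part Pool.Agent.P.MP_0d657e_an.D8
section

/-! Coercivity of the quadratic obstruction for small values of the parameter. -/

open Set Real Asymptotics Filter Topology

namespace Pool.Agent.P.MP_0d657e_an

noncomputable section

lemma final_ineq {κ c K : ℝ} (hκ : 0 < κ) (hc : 0 < c) (hK : 0 < K) :
    ∀ᶠ η in 𝓝 (0:ℝ), 0 < η → ∀ x N : ℝ, 0 ≤ x → 0 ≤ N →
      κ * η * x ^ 2 + c * η ^ 2 * N ^ 2 ≤ K * (η ^ 2 * x ^ 2 + x * (η ^ 2 * (N + η * x))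
        + η ^ 3 * (N + η * x) ^ 2) → x = 0 ∧ N = 0 := by
  have h1 : ∀ᶠ η in 𝓝 (0:ℝ), 4 * K * η < κ / 2 :=
    (by fun_prop : Continuous fun η : ℝ => 4 * K * η).continuousAt.eventually_lt
      continuousAt_const (by simpa using hκ)
  have h2 : ∀ᶠ η in 𝓝 (0:ℝ), (K ^ 2 / (2 * κ) + 2 * K) * η < c :=
    (by fun_prop : Continuous fun η : ℝ => (K ^ 2 / (2 * κ) + 2 * K) * η).continuousAt.eventually_lt
      continuousAt_const (by simpa using hc)
  filter_upwards [h1, h2, eventually_le_nhds one_pos] with η h1 h2 h3 h0 x N hx hN h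
  have a0 : κ * x ^ 2 + c * η * N ^ 2 ≤ K * η * (x ^ 2 + x * (N + η * x) + η * (N + η * x) ^ 2) :=
    le_of_mul_le_mul_left (a := η) (by nlinarith) h0
  have a1 : K * η * (x * N) ≤ κ / 2 * x ^ 2 + K ^ 2 / (2 * κ) * η ^ 2 * N ^ 2 := by
    have := sq_nonneg (κ * x - K * η * N)
    have e : κ / 2 * x ^ 2 + K ^ 2 / (2 * κ) * η ^ 2 * N ^ 2 - K * η * (x * N)
      = (κ * x - K * η * N) ^ 2 / (2 * κ) := by field_simp; ring
    have : 0 ≤ (κ * x - K * η * N) ^ 2 / (2 * κ) := by positivity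
    linarith
  have hx2 := sq_nonneg x
  have a2 : η * x ^ 2 ≤ x ^ 2 := mul_le_of_le_one_left hx2 h3
  have a3 : η * (N + η * x) ^ 2 ≤ 2 * η * N ^ 2 + 2 * x ^ 2 := by
    have b1 : (N + η * x) ^ 2 ≤ 2 * N ^ 2 + 2 * (η * x) ^ 2 := by nlinarith [sq_nonneg (N - η * x)]
    have b2 : η * (η * x) ^ 2 ≤ x ^ 2 := by
      have : η ^ 3 ≤ 1 := pow_le_one₀ h0.le h3
      nlinarith
    nlinarith
  have a4 : K * η * (x ^ 2 + x * (N + η * x) + η * (N + η * x) ^ 2)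
      ≤ K * η * (x * N) + K * η * (4 * x ^ 2 + 2 * η * N ^ 2) := by
    rw [← mul_add]
    exact mul_le_mul_of_nonneg_left (by nlinarith) (by positivity)
  have a5 : (κ / 2 - 4 * K * η) * x ^ 2 + (c - (K ^ 2 / (2 * κ) + 2 * K) * η) * (η * N ^ 2) ≤ 0 := by
    nlinarith
  have p1 := mul_nonneg (sub_pos.2 h1).le hx2
  have p2 := mul_nonneg (sub_pos.2 h2).le (mul_nonneg h0.le (sq_nonneg N))
  have z1 : (κ / 2 - 4 * K * η) * x ^ 2 = 0 := by linarith
  have z2 : (c - (K ^ 2 / (2 * κ) + 2 * K) * η) * (η * N ^ 2) = 0 := by linarith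
  simp only [mul_eq_zero, (sub_pos.2 h1).ne', (sub_pos.2 h2).ne', h0.ne', false_or] at z1 z2
  exact ⟨pow_eq_zero_iff two_ne_zero |>.1 z1, pow_eq_zero_iff two_ne_zero |>.1 z2⟩

namespace Ix

variable {Ds : Des} {F : Ds.First} {C κ0 : ℝ}

lemma ev_con : ∃ c : ℝ, 0 < c ∧ ∀ᶠ i : Ix Ds F C κ0 in fl, Ds.Con i.v i.Y (c * (i.η * i.M)) := by
  have h := IsBigO.sum (s := Ds.K) (fun k hk =>
    (con_O (F := F) (C := C) (κ0 := κ0) hk (θ := θ) (isBigO_refl _ _)).norm_left)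
  obtain ⟨c, hc, h⟩ := h.exists_pos
  refine ⟨c, hc, ?_⟩
  have h2 := eventually_comap.1 h.bound
  refine eventually_comap.2 (h2.mono fun e he i hi k hk θ' => ?_)
  have h3 := he { i with θ := θ' } hi
  rw [Finset.sum_apply, Real.norm_of_nonneg (Finset.sum_nonneg fun _ _ => norm_nonneg _),
    Real.norm_of_nonneg (mul_nonneg (mul_nonneg (hη _).le (M_nonneg _)) (apply_nonneg _ _)),
    ← mul_assoc] at h3
  exact (Finset.single_le_sum (f := fun k => ‖Q1 (Ds.κ k ^ 2 - 5) (i.Y k) θ'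
    - J (i.v * (Ds.g' k * H1.f θ' + Ds.g k * H1.d θ'))‖) (fun _ _ => norm_nonneg _) hk).trans h3

theorem ev_zero (hP : Ds.Pos) (hκ : 0 < κ0) : ∀ᶠ i : Ix Ds F C κ0 in fl, i.φ = 0 := by
  obtain ⟨c0, hc0, Cp, hP⟩ := hP
  obtain ⟨c, hc, h1⟩ := ev_con (Ds := Ds) (F := F) (C := C) (κ0 := κ0)
  obtain ⟨K1, hK1, h2⟩ := (I0' (Ds := Ds) (F := F) (C := C) (κ0 := κ0)).exists_pos
  obtain ⟨K2, hK2, h3⟩ := (I'' (Ds := Ds) (F := F) (C := C) (κ0 := κ0)).exists_pos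
  obtain ⟨K3, hK3, h4⟩ := (R_O (Ds := Ds) (F := F) (C := C) (κ0 := κ0)).exists_pos
  have h5 := hη0.eventually (final_ineq (K := |C| + 2 * K1 + K2 + |Cp| * c ^ 2) hκ hc0
    (by positivity)) (l₁ := (fl : Filter (Ix Ds F C κ0)))
  filter_upwards [h1, h2.bound, h3.bound, h4.bound, h5,
    hη0.eventually (eventually_le_nhds one_pos)] with i h1 h2 h3 h4 h5 h6
  have hη := i.hη
  have hM := i.M_nonneg
  have hq := hP i.v i.Y _ i.Y_neg i.Y_off i.J_v (by positivity) h1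
  have hI := i.hI
  have hI0 := i.ap.I_le
  rw [Geo.I_eq] at hI hI0
  rw [φ_eq] at hI
  simp only [map_add, map_smul, LinearMap.add_apply, LinearMap.smul_apply, smul_eq_mul,
    Qf_symm _ i.G.φ0 i.φ'] at hI
  rw [Real.norm_eq_abs, Real.norm_of_nonneg (by positivity)] at h2 h3
  have hN : PJ.nrm i.v + ∑ k ∈ Ds.K, H1.nr (i.Y k) = i.N := rfl
  rw [hN] at hq
  obtain ⟨z1, z2⟩ := h5 hη |i.c2| i.N (abs_nonneg _) i.N_nonneg (by
    have hM' : i.N + i.η * |i.c2| = i.M := rfl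
    rw [hM', sq_abs]
    have b1 : i.c2 * Qf i.G.PI i.φ' i.G.φ0 ≤ |i.c2| * (K1 * (i.η ^ 2 * i.M)) :=
      (le_abs_self _).trans (by rw [abs_mul]; gcongr)
    have b2 := mul_le_mul_of_nonneg_left hI0 (sq_nonneg i.c2)
    have b3 := (le_abs_self _).trans h3
    have b4 := mul_le_mul_of_nonneg_left hq (sq_nonneg i.η)
    have b5 : i.η ^ 2 * (Cp * (c * (i.η * i.M)) ^ 2) ≤ |Cp| * c ^ 2 * (i.η ^ 3 * i.M ^ 2) := by
      have : i.η ^ 2 * (Cp * (c * (i.η * i.M)) ^ 2) = Cp * i.η * (c ^ 2 * (i.η ^ 3 * i.M ^ 2)) := by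
        ring
      rw [this, mul_assoc |Cp|]
      refine mul_le_mul_of_nonneg_right ?_ (by positivity)
      nlinarith [le_abs_self Cp, abs_nonneg Cp]
    have b6 : C * (i.η ^ 2 * i.c2 ^ 2) ≤ |C| * (i.η ^ 2 * i.c2 ^ 2) :=
      mul_le_mul_of_nonneg_right (le_abs_self C) (by positivity)
    have p1 : 0 ≤ i.η ^ 2 * i.c2 ^ 2 := by positivity
    have p2 : 0 ≤ |i.c2| * (i.η ^ 2 * i.M) := by positivity
    have p3 : 0 ≤ i.η ^ 3 * i.M ^ 2 := by positivity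
    have q1 := mul_nonneg (by positivity : 0 ≤ 2 * K1 + K2 + |Cp| * c ^ 2) p1
    have q2 := mul_nonneg (by positivity : 0 ≤ |C| + K2 + |Cp| * c ^ 2) p2
    have q3 := mul_nonneg (by positivity : 0 ≤ |C| + 2 * K1) p3
    nlinarith)
  have hM0 : i.M = 0 := by rw [M, z1, z2]; simp
  have hv : i.v = 0 := eq_zero_of_nrm pi_pos (le_antisymm (by
    exact (le_add_of_nonneg_right (Finset.sum_nonneg fun _ _ => apply_nonneg _ _)).trans z2.le)
    (apply_nonneg _ _))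
  have hh : i.h = 0 := H1.eq_zero ((nr_le_d _).trans (by rw [d_h, hv]; simp))
  have hY : ∀ k ∈ Ds.K, i.Y k = 0 := fun k hk => H1.eq_zero (by
    exact (le_add_of_nonneg_of_le (apply_nonneg _ _)
      (Finset.single_le_sum (f := fun k => H1.nr (i.Y k)) (fun _ _ => apply_nonneg _ _) hk)).trans
      z2.le)
  have hr : i.r = 0 := H.eq_zero (by
    rw [hM0] at h4
    exact ((le_abs_self _).trans h4).trans (by simp))
  have hU : Ds.U i.Y = 0 := Finset.sum_eq_zero (fun k hk => by rw [hY k hk, map_zero])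
  rw [φ_eq, φ'_eq, u_eq, hU, hr, hh, abs_eq_zero.1 z1]
  simp

end Ix

theorem partD (Ds : Des) (F : Ds.First) (C κ0 : ℝ) (hP : Ds.Pos) (hκ : 0 < κ0) :
    ∃ η1 > 0, ∀ η ∈ Ioo 0 η1, ∀ G : Geo, G.Exact → Ds.Approx F C κ0 η G →
      G.Coercive ∧ G.Asym := by
  have h := eventually_comap.1 (Ix.ev_zero (F := F) (C := C) hP hκ)
  obtain ⟨ε, hε, h⟩ := Metric.eventually_nhds_iff.1 h
  refine ⟨ε, hε, fun η hη G hG ap => ⟨⟨η ^ 4, pow_pos hη.1 4, fun φ h1 h2 => ?_⟩, ?_⟩⟩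
  · exact h (y := η) (by simpa [abs_of_pos hη.1] using hη.2)
      ⟨η, hη.1, G, hG, ap, φ, h1, h2, 0⟩ rfl
  · refine ⟨embc Ds.n S1, ?_⟩
    have hn := Ds.n_pos
    have e0 : cm Ds.n (cx (2 * Ds.n)) = 0 := by
      rw [cm_cx, if_neg (by omega), if_neg (by omega)]; simp
    rw [ft_embc, mul_comm, II_ι_cx_mul, ap.hA, map_add, map_add, cm_sum Ds.K_neg ap.Ah_neg,
      if_pos Ds.m1, cm_ι_mul, e0, cm_one, if_neg (by omega), ap.Ah_n, mul_zero, zero_add,
      add_zero, mul_smul_comm, map_smul, d_S1]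
    exact mul_ne_zero (by linarith [hη.1]) Ds.J_asym

end

end Pool.Agent.P.MP_0d657e_an
end

-- part Pool.Agent.P.MP_0d657e_an.RedB1
section

/-! Transfer between functions on the strip and functions on the annulus. -/

open Set Real

namespace Pool.Agent.P.MP_0d657e_an

noncomputable section

lemma mem_Strip (x : ℝ) (t : Icc (0:ℝ) π) : ((x, (t:ℝ)) : ℝ × ℝ) ∈ Strip := ⟨mem_univ _, t.2⟩

lemma uniqueDiffOn_Strip : UniqueDiffOn ℝ Strip :=
  uniqueDiffOn_univ.prod (uniqueDiffOn_Icc pi_pos)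

lemma forall_Strip {P : ℝ × ℝ → Prop} (h : ∀ (x : ℝ) (t : Icc (0:ℝ) π), P (x, t)) :
    ∀ p ∈ Strip, P p := fun p hp => h p.1 ⟨p.2, hp.2⟩

/-- `F` represents `f` -/
def Rep (f : ℝ × ℝ → ℝ) (F : C2) : Prop := ∀ (x : ℝ) (t : Icc (0:ℝ) π), f (x, t) = F x t

lemma hasDerivAt_pd0 {f : ℝ × ℝ → ℝ} (hf : DifferentiableOn ℝ f Strip) (x : ℝ)
    (t : Icc (0:ℝ) π) : HasDerivAt (fun y => f (y, t)) (pd 0 f (x, t)) x := by
  have h1 := (hf _ (mem_Strip x t)).hasFDerivWithinAt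
  have h2 : HasDerivWithinAt (fun y : ℝ => ((y, (t:ℝ)) : ℝ × ℝ)) (1, 0) univ x :=
    ((hasDerivAt_id x).prodMk (hasDerivAt_const x (t:ℝ))).hasDerivWithinAt
  have := h1.comp_hasDerivWithinAt x h2 (fun y _ => mem_Strip y t)
  exact hasDerivWithinAt_univ.1 this

lemma hasDerivWithinAt_pd1 {f : ℝ × ℝ → ℝ} (hf : DifferentiableOn ℝ f Strip) (x : ℝ)
    (t : Icc (0:ℝ) π) : HasDerivWithinAt (fun s => f (x, s)) (pd 1 f (x, t)) (Icc 0 π) t := by
  have h1 := (hf _ (mem_Strip x t)).hasFDerivWithinAt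
  have h2 : HasDerivWithinAt (fun s : ℝ => ((x, s) : ℝ × ℝ)) (0, 1) (Icc 0 π) t :=
    ((hasDerivAt_const (t:ℝ) x).prodMk (hasDerivAt_id (t:ℝ))).hasDerivWithinAt
  exact h1.comp_hasDerivWithinAt (t:ℝ) h2 (fun s hs => mem_Strip x ⟨s, hs⟩)

lemma Rep.pd0 {f : ℝ × ℝ → ℝ} {F Fx : C2} (h : Rep f F) (hf : DifferentiableOn ℝ f Strip)
    (hx : Dx F Fx) : Rep (pd 0 f) Fx := fun x t => by
  have h1 := hasDerivAt_pd0 hf x t
  simp only [h _ t] at h1
  exact h1.unique (hx.pt x t)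

lemma Rep.pd1 {f : ℝ × ℝ → ℝ} {F Ft : C2} (h : Rep f F) (hf : DifferentiableOn ℝ f Strip)
    (ht : Dt F Ft) : Rep (pd 1 f) Ft := fun x t => by
  have h1 := hasDerivWithinAt_pd1 hf x t
  have h2 := ((ht x).hasDerivWithinAt t).congr (f₁ := fun s => f (x, s))
    (fun s hs => by rw [ext_of_mem _ hs]; exact h x ⟨s, hs⟩) (by simpa using h x t)
  exact (uniqueDiffOn_Icc pi_pos t t.2).eq_deriv _ h1 h2

lemma exists_rep {f : ℝ × ℝ → ℝ} (hc : ContinuousOn f Strip) (hp : Per f) : ∃ F, Rep f F := by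
  have hper : ∀ t : Icc (0:ℝ) π, Function.Periodic (fun x : ℝ => f (x, t)) tp :=
    fun t x => hp _ (mem_Strip x t)
  refine ⟨C2.ofFun (fun x t => (hper t).lift x) ?_, fun x t => rfl⟩
  have hq : IsOpenQuotientMap (Prod.map (fun x : ℝ => (x : T)) (id : Icc (0:ℝ) π → _)) :=
    QuotientAddGroup.isOpenQuotientMap_mk.prodMap IsOpenQuotientMap.id
  rw [← hq.continuous_comp_iff]
  exact hc.comp_continuous (f := fun p : ℝ × Icc (0:ℝ) π => ((p.1, (p.2 : ℝ)) : ℝ × ℝ))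
    (by fun_prop) (fun p => mem_Strip p.1 p.2)

lemma IsCk.diff {f : ℝ × ℝ → ℝ} (h : IsCk 1 f) : DifferentiableOn ℝ f Strip :=
  h.1.differentiableOn one_ne_zero

lemma IsCk.of_top {f : ℝ × ℝ → ℝ} (h : IsCk ((⊤ : ℕ∞) : WithTop ℕ∞) f) : IsCk 1 f :=
  ⟨h.1.of_le (by exact_mod_cast le_top), h.2⟩

lemma IsCk.exists_rep {f : ℝ × ℝ → ℝ} (h : IsCk 1 f) :
    ∃ F Fx Ft, Rep f F ∧ Dx F Fx ∧ Dt F Ft := by
  have hd := h.diff
  have hc : ∀ i, ContinuousOn (pd i f) Strip := fun i =>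
    (h.1.continuousOn_fderivWithin uniqueDiffOn_Strip le_rfl).clm_apply continuousOn_const
  have hp0 : Per (pd 0 f) := forall_Strip (fun x t => by
    have h1 := (hasDerivAt_pd0 hd (x + 2 * π) t).comp_add_const x (2 * π)
    have e : (fun y : ℝ => f (y + 2 * π, t)) = fun y => f (y, t) :=
      funext fun y => h.2 _ (mem_Strip y t)
    rw [e] at h1
    exact h1.unique (hasDerivAt_pd0 hd x t))
  have hp1 : Per (pd 1 f) := forall_Strip (fun x t => by
    have h1 := hasDerivWithinAt_pd1 hd (x + 2 * π) t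
    have h2 := (hasDerivWithinAt_pd1 hd x t).congr (f₁ := fun s => f (x + 2 * π, s))
      (fun s hs => h.2 _ (mem_Strip x ⟨s, hs⟩)) (h.2 _ (mem_Strip x t))
    exact (uniqueDiffOn_Icc pi_pos t t.2).eq_deriv _ h1 h2)
  obtain ⟨F, hF⟩ := MP_0d657e_an.exists_rep h.1.continuousOn h.2
  obtain ⟨Fx, hFx⟩ := MP_0d657e_an.exists_rep (hc 0) hp0
  obtain ⟨Ft, hFt⟩ := MP_0d657e_an.exists_rep (hc 1) hp1
  refine ⟨F, Fx, Ft, hF, Dx_of_pt (fun x t => ?_), fun x => ?_⟩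
  · have := hasDerivAt_pd0 hd x t
    simpa only [hF _ t, hFx _ t] using this
  · induction x using QuotientAddGroup.induction_on with
    | H x =>
      refine D1_of_interior (fun t ht => ?_)
      have ht' := Ioo_subset_Icc_self ht
      have h1 := (hasDerivWithinAt_pd1 hd x ⟨t, ht'⟩).congr (f₁ := ext (F x))
        (fun s hs => by rw [ext_of_mem _ hs]; exact (hF x ⟨s, hs⟩).symm)
        (by rw [ext_of_mem _ ht']; exact (hF x ⟨t, ht'⟩).symm)
      rw [hFt x ⟨t, ht'⟩] at h1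
      rw [ext_of_mem _ ht']
      exact h1.hasDerivAt (Icc_mem_nhds ht.1 ht.2)

lemma Rep.unique {f : ℝ × ℝ → ℝ} {F G : C2} (h : Rep f F) (k : Rep f G) : F = G :=
  C2_ext (fun x t => (h x t).symm.trans (k x t))

/-- the function on the strip attached to a function on the annulus -/
def un (F : C2) : ℝ × ℝ → ℝ := fun p => ext (F p.1) p.2

lemma rep_un (F : C2) : Rep (un F) F := fun x t => by simp [un]

lemma Rep.per {f : ℝ × ℝ → ℝ} {F : C2} (h : Rep f F) : Per f := forall_Strip (fun x t => by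
  change f (x + tp, t) = _
  rw [h, h, C2_per])

/-- a diagonal metric with representatives of its coefficients -/
structure Diag (m : Metric) (g h v : C2) : Prop where
  r0 : Rep (m.g 0 0) g
  r1 : Rep (m.g 1 1) h
  z01 : m.g 0 1 = fun _ => 0
  z10 : m.g 1 0 = fun _ => 0
  g_pos : ∀ x t, 0 < g x t
  h_pos : ∀ x t, 0 < h x t
  v_pos : ∀ x t, 0 < v x t
  v_sq : v * v = g * h

lemma pd_zero (i : Fin 2) : pd i (fun _ => (0:ℝ)) = fun _ => 0 := by
  funext p; simp [pd]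

namespace Diag

variable {m : Metric} {g h v : C2} (hm : Diag m g h v)
include hm

lemma mat (x : ℝ) (t : Icc (0:ℝ) π) :
    (Matrix.of fun i j => m.g i j (x, t)) = !![g x t, 0; 0, h x t] := by
  ext i j
  fin_cases i <;> fin_cases j <;> simp [hm.z01, hm.z10, hm.r0 x t, hm.r1 x t]

lemma inv_mat (x : ℝ) (t : Icc (0:ℝ) π) :
    (Matrix.of fun i j => m.g i j (x, t))⁻¹ = !![(g x t)⁻¹, 0; 0, (h x t)⁻¹] := by
  rw [hm.mat]
  apply Matrix.inv_eq_right_inv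
  have := (hm.g_pos x t).ne'
  have := (hm.h_pos x t).ne'
  ext i j
  fin_cases i <;> fin_cases j <;> simp [Matrix.mul_apply, Fin.sum_univ_two, *]

lemma inv00 (x : ℝ) (t : Icc (0:ℝ) π) : m.inv 0 0 (x, t) = (g x t)⁻¹ := by
  simp [Metric.inv, hm.inv_mat]
lemma inv11 (x : ℝ) (t : Icc (0:ℝ) π) : m.inv 1 1 (x, t) = (h x t)⁻¹ := by
  simp [Metric.inv, hm.inv_mat]
lemma inv01 (x : ℝ) (t : Icc (0:ℝ) π) : m.inv 0 1 (x, t) = 0 := by
  simp [Metric.inv, hm.inv_mat]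
lemma inv10 (x : ℝ) (t : Icc (0:ℝ) π) : m.inv 1 0 (x, t) = 0 := by
  simp [Metric.inv, hm.inv_mat]

lemma vol : Rep m.vol v := fun x t => by
  have := congrArg (fun F : C2 => F x t) hm.v_sq
  simp only [C2.mul_apply, D.mul_apply] at this
  rw [Metric.vol, hm.mat, Matrix.det_fin_two_of, mul_zero, sub_zero, ← this,
    Real.sqrt_mul_self (hm.v_pos x t).le]

lemma vol_diff : DifferentiableOn ℝ m.vol Strip := by
  have h0 := (m.smooth 0 0).of_top.diff
  have h1 := (m.smooth 1 1).of_top.diff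
  refine ((h0.mul h1).sqrt (forall_Strip (fun x t => ?_))).congr (forall_Strip (fun x t => ?_))
  · simp only [Pi.mul_apply, hm.r0 x t, hm.r1 x t]
    exact (mul_pos (hm.g_pos x t) (hm.h_pos x t)).ne'
  · simp [Metric.vol, hm.mat, hm.r0 x t, hm.r1 x t]

lemma gradNorm {f : ℝ × ℝ → ℝ} (x : ℝ) (t : Icc (0:ℝ) π) :
    m.gradNorm f (x, t) = √(pd 0 f (x, t) ^ 2 / g x t + pd 1 f (x, t) ^ 2 / h x t) := by
  simp only [Metric.gradNorm, Metric.grad, Fin.sum_univ_two, hm.inv00, hm.inv01, hm.inv10,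
    hm.inv11]
  congr 1; ring

variable {gx gt hx ht vx vt : C2} {u : Fin 2 → ℝ × ℝ → ℝ} {a ax at' c cx ct : C2}

lemma div (hvx : Dx v vx) (hvt : Dt v vt) (hu : ∀ i, DifferentiableOn ℝ (u i) Strip)
    (ra : Rep (u 0) a) (rc : Rep (u 1) c) (hax : Dx a ax) (hct : Dt c ct) (x : ℝ)
    (t : Icc (0:ℝ) π) :
    m.div u (x, t) = ((vx * a + v * ax) x t + (vt * c + v * ct) x t) / v x t := by
  have r0 : Rep (fun q => m.vol q * u 0 q) (v * a) := fun x t => by simp [hm.vol x t, ra x t]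
  have r1 : Rep (fun q => m.vol q * u 1 q) (v * c) := fun x t => by simp [hm.vol x t, rc x t]
  rw [Metric.div, Fin.sum_univ_two, r0.pd0 (hm.vol_diff.mul (hu 0)) (hvx.mul hax) x t,
    r1.pd1 (hm.vol_diff.mul (hu 1)) (hvt.mul hct) x t, hm.vol x t]

lemma curl (hgt : Dt g gt) (hhx : Dx h hx) (hu : ∀ i, DifferentiableOn ℝ (u i) Strip)
    (ra : Rep (u 0) a) (rc : Rep (u 1) c) (hat : Dt a at') (hcx : Dx c cx) (x : ℝ)
    (t : Icc (0:ℝ) π) :
    m.curl u (x, t) = ((hx * c + h * cx) x t - (gt * a + g * at') x t) / v x t := by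
  have r0 : Rep (fun q => ∑ j, m.g 0 j q * u j q) (g * a) := fun x t => by
    simp [hm.r0 x t, ra x t, hm.z01]
  have r1 : Rep (fun q => ∑ j, m.g 1 j q * u j q) (h * c) := fun x t => by
    simp [hm.r1 x t, rc x t, hm.z10]
  have hd : ∀ i, DifferentiableOn ℝ (fun q => ∑ j, m.g i j q * u j q) Strip := fun i =>
    DifferentiableOn.fun_sum (fun j _ => (m.smooth i j).of_top.diff.mul (hu j))
  rw [Metric.curl, r0.pd1 (hd 0) (hgt.mul hat) x t, r1.pd0 (hd 1) (hhx.mul hcx) x t, hm.vol x t]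

lemma euler (hgx : Dx g gx) (hgt : Dt g gt) (hhx : Dx h hx) (hht : Dt h ht)
    (hu : ∀ i, DifferentiableOn ℝ (u i) Strip)
    (ra : Rep (u 0) a) (rc : Rep (u 1) c) (hax : Dx a ax) (hat : Dt a at') (hcx : Dx c cx)
    (hct : Dt c ct) {P : ℝ × ℝ → ℝ} {p px pt : C2} (hP : DifferentiableOn ℝ P Strip)
    (rp : Rep P p) (hpx : Dx p px) (hpt : Dt p pt) (x : ℝ) (t : Icc (0:ℝ) π) :
    g x t * (m.advect u 0 (x, t) + m.grad P 0 (x, t)) =
      (px + (1/2:ℝ) • (gx * a * a + 2 * g * a * ax + hx * c * c + 2 * h * c * cx)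
        - c * ((hx * c + h * cx) - (gt * a + g * at'))) x t ∧
    h x t * (m.advect u 1 (x, t) + m.grad P 1 (x, t)) =
      (pt + (1/2:ℝ) • (gt * a * a + 2 * g * a * at' + ht * c * c + 2 * h * c * ct)
        + a * ((hx * c + h * cx) - (gt * a + g * at'))) x t := by
  have d0 := (m.smooth 0 0).of_top.diff
  have d1 := (m.smooth 1 1).of_top.diff
  have := (hm.g_pos x t).ne'
  have := (hm.h_pos x t).ne'
  simp only [Metric.advect, Metric.grad, Metric.Γ, Fin.sum_univ_two, hm.inv00, hm.inv01, hm.inv10,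
    hm.inv11, hm.z01, hm.z10, pd_zero, hm.r0.pd0 d0 hgx x t, hm.r0.pd1 d0 hgt x t,
    hm.r1.pd0 d1 hhx x t, hm.r1.pd1 d1 hht x t, ra.pd0 (hu 0) hax x t, ra.pd1 (hu 0) hat x t,
    rc.pd0 (hu 1) hcx x t, rc.pd1 (hu 1) hct x t, rp.pd0 hP hpx x t, rp.pd1 hP hpt x t,
    ra x t, rc x t, C2.add_apply, C2.sub_apply, C2.mul_apply, C2.smul_apply, C2.ofNat_apply,
    D.add_apply, D.sub_apply, D.mul_apply, D.smul_apply, D.ofNat_apply]
  constructor <;> field_simp <;> ring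

end Diag

end

end Pool.Agent.P.MP_0d657e_an
end

-- part Pool.Agent.P.MP_0d657e_an.RedB2
section

/-! The metric attached to the design, the base flow, and the stream function form of a steady
flow. -/

open Set Real

namespace Pool.Agent.P.MP_0d657e_an

noncomputable section

/-- smoothness on the strip -/
def Sm (F : C2) : Prop := ContDiffOn ℝ ((⊤ : ℕ∞) : WithTop ℕ∞) (un F) Strip

namespace Sm
variable {F G : C2}
lemma add (h : Sm F) (k : Sm G) : Sm (F + G) := ContDiffOn.add h k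
lemma sub (h : Sm F) (k : Sm G) : Sm (F - G) := ContDiffOn.sub h k
lemma neg (h : Sm F) : Sm (-F) := ContDiffOn.neg h
lemma mul (h : Sm F) (k : Sm G) : Sm (F * G) := ContDiffOn.mul h k
lemma smul (c : ℝ) (h : Sm F) : Sm (c • F) := ContDiffOn.mul contDiffOn_const h
lemma inv (h : Sm F) (e : F * G = 1) : Sm G := by
  have hz : ∀ (x : ℝ) (t : Icc (0:ℝ) π), F x t * G x t = 1 := fun x t => by
    have := congrArg (fun f : C2 => f x t) e; simpa using this
  refine (ContDiffOn.inv h (forall_Strip (fun x t => ?_))).congr (forall_Strip (fun x t => ?_))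
  · rw [rep_un]; intro h0; simpa [h0] using hz x t
  · simp only [Pi.inv_apply, rep_un _ x t]; exact eq_inv_of_mul_eq_one_right (hz x t)
lemma isCk (h : Sm F) : IsCk ((⊤ : ℕ∞) : WithTop ℕ∞) (un F) := ⟨h, (rep_un F).per⟩
lemma exists_d (h : Sm F) : ∃ Fx Ft, Dx F Fx ∧ Dt F Ft := by
  obtain ⟨F', Fx, Ft, r, hx, ht⟩ := h.isCk.of_top.exists_rep
  obtain rfl := r.unique (rep_un F)
  exact ⟨Fx, Ft, hx, ht⟩
end Sm

lemma Sm_res {f : ℝ → ℝ} (hf : ContDiff ℝ ((⊤ : ℕ∞) : WithTop ℕ∞) f) :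
    Sm (ι (res f hf.continuous)) :=
  (hf.comp contDiff_snd).contDiffOn.congr (forall_Strip (fun x t => by simp [rep_un _ x t]))

lemma Sm_ex (r : ℝ) : Sm (ι (ex r)) := Sm_res (f := fun t => exp (r * t)) (by fun_prop)

lemma Sm_zero : Sm 0 := contDiffOn_const

/-- the base vorticity -/
def F0 : C2 := ι (b • om)
/-- its height derivative -/
def F0t : C2 := ι (-((5:ℝ) • om))

lemma Dt_F0 : Dt F0 F0t := Dt_ι ((D1_om.smul b).congr' (by rw [smul_neg, smul_smul, b_sq]))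
lemma Dx_F0 : Dx F0 0 := Dx_ι _

lemma Sm_F0 : Sm F0 := by
  rw [F0, map_smul]; exact (Sm_ex (-b)).smul b

namespace Geo

variable (G : Geo)

/-- coefficient `g_{00}` -/
def gC : C2 := G.d⁻¹ • (G.μ * G.A)
/-- coefficient `g_{11}` -/
def hC : C2 := G.μ * G.Ai
/-- area density -/
def vC : C2 := (√G.d)⁻¹ • G.μ

lemma AAi (x : T) (t : Icc (0:ℝ) π) : G.A x t * G.Ai x t = 1 := by
  have := congrArg (fun f : C2 => f x t) G.hAi; simpa using this

lemma μF : G.μ * F0 = G.At * ι (ex b) + G.A * (b • ι (ex b)) := by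
  refine C2_ext (fun x t => ?_)
  have h1 : exp (2 * b * t) * exp (-(b * t)) = exp (b * t) := by
    rw [← exp_add]; congr 1; ring
  have := b_pos.ne'
  simp [μ, c, F0, om]
  rw [← h1]; field_simp; ring

lemma Dt_Ae : Dt (G.A * ι (ex b)) (G.μ * F0) :=
  (G.hAt.mul (Dt_ι (D1_ex b))).congr' (by rw [μF, map_smul])

variable {G}

lemma Exact.μ_pos (hE : G.Exact) (x : T) (t : Icc (0:ℝ) π) : 0 < G.μ x t := by
  simp only [μ, C2.mul_apply, D.mul_apply, ι_apply, ex_apply]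
  exact mul_pos (hE.c_pos x t) (exp_pos _)

lemma Exact.Ai_pos (hE : G.Exact) (x : T) (t : Icc (0:ℝ) π) : 0 < G.Ai x t :=
  (pos_iff_pos_of_mul_pos (by rw [G.AAi x t]; exact one_pos)).1 (hE.A_pos x t)

lemma Smooth.μ (hS : G.Smooth) : Sm G.μ :=
  (Sm.add (F := G.A) hS.1 (Sm.smul _ (F := G.At) hS.2)).mul (Sm_ex _)
lemma Smooth.gC (hS : G.Smooth) : Sm G.gC := (hS.μ.mul (G := G.A) hS.1).smul _
lemma Smooth.hC (hS : G.Smooth) : Sm G.hC := hS.μ.mul (Sm.inv (F := G.A) hS.1 G.hAi)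
lemma Smooth.vC (hS : G.Smooth) : Sm G.vC := hS.μ.smul _

lemma Exact.g_pos (hE : G.Exact) (x : T) (t : Icc (0:ℝ) π) : 0 < G.gC x t := by
  simp only [gC, C2.smul_apply, D.smul_apply, C2.mul_apply, D.mul_apply]
  exact mul_pos (inv_pos.2 G.d_pos) (mul_pos (hE.μ_pos x t) (hE.A_pos x t))
lemma Exact.h_pos (hE : G.Exact) (x : T) (t : Icc (0:ℝ) π) : 0 < G.hC x t :=
  mul_pos (hE.μ_pos x t) (hE.Ai_pos x t)
lemma Exact.v_pos (hE : G.Exact) (x : T) (t : Icc (0:ℝ) π) : 0 < G.vC x t := by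
  simp only [vC, C2.smul_apply, D.smul_apply]
  exact mul_pos (inv_pos.2 (sqrt_pos.2 G.d_pos)) (hE.μ_pos x t)

/-- the designed metric -/
def met (hE : G.Exact) (hS : G.Smooth) : Metric where
  g := ![![un G.gC, fun _ => 0], ![fun _ => 0, un G.hC]]
  smooth i j := by
    fin_cases i <;> fin_cases j
    · exact hS.gC.isCk
    · exact ⟨contDiffOn_const, fun _ _ => rfl⟩
    · exact ⟨contDiffOn_const, fun _ _ => rfl⟩
    · exact hS.hC.isCk
  posDef := forall_Strip (fun x t => by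
    have e : (Matrix.of fun i j => (![![un G.gC, fun _ => 0], ![fun _ => 0, un G.hC]] :
        Fin 2 → Fin 2 → ℝ × ℝ → ℝ) i j (x, t)) = Matrix.diagonal ![G.gC x t, G.hC x t] := by
      ext i j
      fin_cases i <;> fin_cases j <;> simp [rep_un _ x t]
    rw [e, Matrix.posDef_diagonal_iff]
    intro i
    fin_cases i
    · exact hE.g_pos x t
    · exact hE.h_pos x t)

lemma diag (hE : G.Exact) (hS : G.Smooth) : Diag (met hE hS) G.gC G.hC G.vC where
  r0 := rep_un _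
  r1 := rep_un _
  z01 := rfl
  z10 := rfl
  g_pos := hE.g_pos
  h_pos := hE.h_pos
  v_pos := hE.v_pos
  v_sq := by
    refine C2_ext (fun x t => ?_)
    have h1 := G.AAi x t
    have h2 : (√G.d)⁻¹ * (√G.d)⁻¹ = G.d⁻¹ := by
      rw [← mul_inv, mul_self_sqrt G.d_pos.le]
    simp only [gC, hC, vC, C2.smul_apply, D.smul_apply, C2.mul_apply, D.mul_apply]
    linear_combination (G.μ x t * G.μ x t) * h2 - (G.d⁻¹ * G.μ x t * G.μ x t) * h1

lemma gA : (√G.d) • G.gC = G.A * G.vC := by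
  refine C2_ext (fun x t => ?_)
  have h2 : √G.d * √G.d = G.d := mul_self_sqrt G.d_pos.le
  have h3 := (sqrt_pos.2 G.d_pos).ne'
  simp only [gC, vC, C2.smul_apply, D.smul_apply, C2.mul_apply, D.mul_apply]
  generalize √G.d = s at *
  rw [← h2]; field_simp

lemma hA : (√G.d) • G.hC = G.d • (G.Ai * G.vC) := by
  refine C2_ext (fun x t => ?_)
  have h2 : √G.d * √G.d = G.d := mul_self_sqrt G.d_pos.le
  have h3 := (sqrt_pos.2 G.d_pos).ne'
  simp only [hC, vC, C2.smul_apply, D.smul_apply, C2.mul_apply, D.mul_apply]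
  generalize √G.d = s at *
  rw [← h2]; field_simp

lemma vμ : (√G.d) • G.vC = G.μ := by
  rw [vC, smul_smul, mul_inv_cancel₀ (sqrt_pos.2 G.d_pos).ne', one_smul]

lemma base_steady (hE : G.Exact) (hS : G.Smooth) : (met hE hS).IsSteadyVort (un F0) := by
  have hm := diag hE hS
  obtain ⟨vi, hvi⟩ := exists_inv2 (fun x t => (hE.v_pos x t).ne')
  have hs : (0:ℝ) < √G.d := sqrt_pos.2 G.d_pos
  set a : C2 := -(vi * ι (ex b)) with ha
  have sa : Sm a := ((hS.vC.inv hvi).mul (Sm_ex b)).neg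
  obtain ⟨ax, at', hax, hat⟩ := sa.exists_d
  obtain ⟨gx, gt, hgx, hgt⟩ := hS.gC.exists_d
  obtain ⟨hx, ht, hhx, hht⟩ := hS.hC.exists_d
  obtain ⟨vx, vt, hvx, hvt⟩ := hS.vC.exists_d
  have hva : G.vC * a = -ι (ex b) := by rw [ha, mul_neg, ← mul_assoc, hvi, one_mul]
  have e1 : vx * a + G.vC * ax = 0 := by
    have := hvx.mul hax
    rw [hva] at this
    simpa using this.unique (Dx_ι (ex b)).neg
  have e2 : gt * a + G.gC * at' = -(G.vC * F0) := by
    have h1 := (hgt.mul hat).smul (√G.d)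
    rw [← smul_mul_assoc, gA, mul_assoc, hva, mul_neg] at h1
    have h2 := h1.unique G.Dt_Ae.neg
    rw [← vμ, smul_mul_assoc, ← smul_neg] at h2
    exact smul_right_injective _ hs.ne' h2
  let u : Fin 2 → ℝ × ℝ → ℝ := ![un a, un 0]
  have hu1 : ∀ i, IsCk 1 (u i) := fun i => by
    fin_cases i
    · exact sa.isCk.of_top
    · exact Sm_zero.isCk.of_top
  have hu : ∀ i, DifferentiableOn ℝ (u i) Strip := fun i => (hu1 i).diff
  have ra : Rep (u 0) a := rep_un a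
  have rc : Rep (u 1) 0 := rep_un 0
  let tt : D0 := res (fun t => b * t) (contDiff_const.mul contDiff_id :
    ContDiff ℝ ((⊤ : ℕ∞) : WithTop ℕ∞) (fun t : ℝ => b * t)).continuous
  have htt : D1 tt (algebraMap ℝ _ b) :=
    (D1_res (f' := fun _ => b) _ continuous_const
      (fun t => by simpa using (hasDerivAt_id t).const_mul b)).congr' (by ext t; simp)
  have sp : Sm (ι tt - (1/2:ℝ) • (G.gC * a * a)) :=
    (Sm_res (f := fun t => b * t) (contDiff_const.mul contDiff_id)).sub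
      (((hS.gC.mul sa).mul sa).smul _)
  refine ⟨Sm_F0.isCk.of_top, u, ⟨hu1, fun x => ⟨rfl, rfl⟩, forall_Strip (fun x t => ?_),
    un _, sp.isCk.of_top, forall_Strip (fun x t => ?_)⟩, forall_Strip (fun x t => ?_)⟩
  · rw [hm.div hvx hvt hu ra rc hax Dt_zero, e1]; simp
  · obtain ⟨k0, k1⟩ := hm.euler hgx hgt hhx hht hu ra rc hax hat Dx_zero Dt_zero
      sp.isCk.of_top.diff (rep_un _) ((Dx_ι tt).sub (((hgx.mul hax).mul hax).smul (1/2:ℝ)))
      ((Dt_ι htt).sub (((hgt.mul hat).mul hat).smul (1/2:ℝ))) x t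
    intro k
    fin_cases k
    · exact (mul_eq_zero.1 (k0.trans (by simp; ring))).resolve_left (hE.g_pos x t).ne'
    · refine (mul_eq_zero.1 (k1.trans ?_)).resolve_left (hE.h_pos x t).ne'
      have h1 := congrArg (fun f : C2 => f x t) e2
      have h2 := congrArg (fun f : C2 => f x t) hva
      have h3 : exp (b * t) * exp (-(b * t)) = 1 := by rw [← exp_add]; simp
      simp [F0] at h1 h2 ⊢
      linear_combination (-a x t) * h1 + (b * exp (-(b * t))) * h2 - b * h3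
  · rw [hm.curl hgt hhx hu ra rc hat Dx_zero, e2, rep_un]
    have := (hE.v_pos x t).ne'
    simp
    field_simp

end Geo

/-- a steady flow in stream function form -/
structure Sol (G : Geo) where
  U1 : C2
  U2 : C2
  U1x : C2
  U12 : C2
  U2t : C2
  W1x : C2
  W2t : C2
  w : C2
  wx : C2
  wt : C2
  Hb : C2
  h1x : Dx U1 U1x
  h1t : Dt U1 U12
  h2x : Dx U2 U12
  h2t : Dt U2 U2t
  lo1 : ∀ x, U1 x lo = 0
  hi1 : ∀ x, U1 x hi = 0
  hW1 : Dx (G.d • (G.Ai * U1)) W1x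
  hW2 : Dt (G.A * U2) W2t
  curl : W1x + W2t = G.μ * w
  hwx : Dx w wx
  hwt : Dt w wt
  hHx : Dx Hb (w * U1)
  hHt : Dt Hb (w * U2)

lemma exists_sol {G : Geo} (hE : G.Exact) (hS : G.Smooth) {w' : ℝ × ℝ → ℝ}
    (h : (Geo.met hE hS).IsSteadyVort w') : ∃ S : Sol G, Rep w' S.w := by
  have hm := Geo.diag hE hS
  obtain ⟨hw, u, ⟨hu1, htan, hdiv, P, hP, heul⟩, hcurl⟩ := h
  obtain ⟨w, wx, wt, rw', hwx, hwt⟩ := hw.exists_rep
  obtain ⟨a, ax, at', ra, hax, hat⟩ := (hu1 0).exists_rep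
  obtain ⟨c, cx, ct, rc, hcx, hct⟩ := (hu1 1).exists_rep
  obtain ⟨p, px, pt, rp, hpx, hpt⟩ := hP.exists_rep
  obtain ⟨gx, gt, hgx, hgt⟩ := hS.gC.exists_d
  obtain ⟨hx, ht, hhx, hht⟩ := hS.hC.exists_d
  obtain ⟨vx, vt, hvx, hvt⟩ := hS.vC.exists_d
  have hu : ∀ i, DifferentiableOn ℝ (u i) Strip := fun i => (hu1 i).diff
  have e1 : -(vx * a + G.vC * ax) = vt * c + G.vC * ct := C2_ext (fun x t => by
    have := hdiv _ (mem_Strip x t)
    rw [hm.div hvx hvt hu ra rc hax hct, div_eq_zero_iff] at this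
    have := this.resolve_right (hE.v_pos x t).ne'
    rw [C2.neg_apply, D.neg_apply]; linarith)
  have e2 : (hx * c + G.hC * cx) - (gt * a + G.gC * at') = G.vC * w := C2_ext (fun x t => by
    have := hcurl _ (mem_Strip x t)
    rw [hm.curl hgt hhx hu ra rc hat hcx, rw' x t, eq_div_iff (hE.v_pos x t).ne'] at this
    rw [C2.sub_apply, D.sub_apply, ← this]; simp [mul_comm])
  have e3 := fun x t => hm.euler hgx hgt hhx hht hu ra rc hax hat hcx hct hP.diff rp hpx hpt x t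
  simp only [e2, heul _ (mem_Strip _ _), mul_zero] at e3
  have hlo : ∀ x : T, c x lo = 0 ∧ c x hi = 0 := fun x => by
    induction x using QuotientAddGroup.induction_on with
    | H x => exact ⟨(rc x lo).symm.trans (htan x).1, (rc x hi).symm.trans (htan x).2⟩
  refine ⟨⟨G.vC * c, -(G.vC * a), _, vt * c + G.vC * ct, _, (√G.d) • (hx * c + G.hC * cx),
    -((√G.d) • (gt * a + G.gC * at')), w, wx, wt,
    p + (1/2:ℝ) • (G.gC * a * a + G.hC * c * c), hvx.mul hcx, hvt.mul hct,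
    (hvx.mul hax).neg.congr' e1.symm, (hvt.mul hat).neg, fun x => by simp [(hlo x).1],
    fun x => by simp [(hlo x).2], ?_, ?_, ?_, hwx, hwt, ?_, ?_⟩, rw'⟩
  · refine ((hhx.mul hcx).smul _).congr ?_ rfl
    rw [← smul_mul_assoc (√G.d), Geo.hA, smul_mul_assoc, mul_assoc]
  · refine ((hgt.mul hat).smul _).neg.congr ?_ rfl
    rw [← smul_mul_assoc, Geo.gA, mul_neg, mul_assoc]
  · rw [← sub_eq_add_neg, ← smul_sub, e2, ← smul_mul_assoc, Geo.vμ]
  · refine (hpx.add ((((hgx.mul hax).mul hax).add ((hhx.mul hcx).mul hcx)).smul _)).congr'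
      (C2_ext (fun x t => ?_))
    have := (e3 x t).1
    simp at this ⊢
    linear_combination this
  · refine (hpt.add ((((hgt.mul hat).mul hat).add ((hht.mul hct).mul hct)).smul _)).congr'
      (C2_ext (fun x t => ?_))
    have := (e3 x t).2
    simp at this ⊢
    linear_combination this

/-- the statement in stream function form -/
def Core (G : Geo) : Prop :=
  ∃ ε > 0, ∀ S : Sol G, ‖S.w - F0‖ ≤ ε → ‖S.wx‖ ≤ ε → ‖S.wt - F0t‖ ≤ ε →
    ∃ c : ℝ, c ≠ 0 ∧ S.w = c • F0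

lemma isolated_of_core {G : Geo} (hE : G.Exact) (hS : G.Smooth) (h : Core G) : Isolated := by
  obtain ⟨ε, hε, h⟩ := h
  have hm := Geo.diag hE hS
  set M := 1 + ‖G.gC‖ + ‖G.hC‖ with hM
  have hM1 : 1 ≤ M := by linarith [norm_nonneg G.gC, norm_nonneg G.hC]
  have hM0 : 0 < M := by linarith
  refine ⟨Geo.met hE hS, un F0, ε / M, by positivity, Geo.base_steady hE hS, fun w' hw hs => ?_⟩
  obtain ⟨S, r⟩ := exists_sol hE hS hw
  have r' : Rep (fun p => w' p - un F0 p) (S.w - F0) := fun x t => by simp [r x t, rep_un _ x t]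
  have hd : DifferentiableOn ℝ (fun p => w' p - un F0 p) Strip :=
    hw.1.diff.sub Sm_F0.isCk.of_top.diff
  have key : ∀ y z k : ℝ, 0 < k → k ≤ M → 0 ≤ z → √(y ^ 2 / k + z) ≤ ε / M → |y| ≤ ε := by
    intro y z k hk hkM hz h1
    rw [sqrt_le_left (by positivity)] at h1
    have h2 : y ^ 2 ≤ (ε / M) ^ 2 * k := (div_le_iff₀ hk).1 (by linarith)
    refine abs_le_of_sq_le_sq' (h2.trans ?_) hε.le |> abs_le.2
    rw [div_pow, div_mul_eq_mul_div, div_le_iff₀ (by positivity)]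
    exact mul_le_mul_of_nonneg_left (by nlinarith) (by positivity)
  obtain ⟨c, hc, e⟩ := h S
    (C2_norm_le hε.le (fun x t => by
      have := (hs _ (mem_Strip x t)).1
      rw [r' x t] at this
      exact this.trans (div_le_self hε.le hM1)))
    (C2_norm_le hε.le (fun x t => by
      have := (hs _ (mem_Strip x t)).2
      rw [hm.gradNorm, r'.pd0 hd (S.hwx.sub Dx_F0), sub_zero] at this
      exact key _ _ _ (hE.g_pos x t) (by
        linarith [le_abs_self (G.gC x t), C2_abs_le G.gC x t, norm_nonneg G.hC])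
        (div_nonneg (sq_nonneg _) (hE.h_pos x t).le) this))
    (C2_norm_le hε.le (fun x t => by
      have := (hs _ (mem_Strip x t)).2
      rw [hm.gradNorm, r'.pd1 hd (S.hwt.sub Dt_F0), add_comm] at this
      exact key _ _ _ (hE.h_pos x t) (by
        linarith [le_abs_self (G.hC x t), C2_abs_le G.hC x t, norm_nonneg G.gC])
        (div_nonneg (sq_nonneg _) (hE.g_pos x t).le) this))
  exact ⟨c, hc, forall_Strip (fun x t => by rw [r x t, e, rep_un]; simp)⟩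

end

end Pool.Agent.P.MP_0d657e_an
end

-- part Pool.Agent.P.MP_0d657e_an.RedB3
section

/-! Level curves of the vorticity of a steady flow. -/

open Set Real Filter Topology Asymptotics

namespace Pool.Agent.P.MP_0d657e_an

noncomputable section

/-- value at the lower boundary as a constant function -/
def L0 : D0 →L[ℝ] D0 := (algebraMapCLM ℝ D0).comp (D.ev lo)

@[simp] lemma L0_apply (y : D0) (t : Icc (0:ℝ) π) : L0 y t = y lo := by simp [L0]

lemma Dt.split {F G : C2} (h : Dt F G) : F = lift2 L0 F + lift2 V G :=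
  C2.ext (fun x => (h x).eq_V)

lemma Dt_L0 (F : C2) : Dt (lift2 L0 F) 0 := fun x => D1_const (F x lo)

/-- symmetry of second derivatives -/
lemma Dt_of_sym {F a c cx : C2} (hx : Dx F a) (ht : Dt F c) (hc : Dx c cx) : Dt a cx := by
  have h1 : Dx F (lift2 L0 a + lift2 V cx) := ((hx.lift2 L0).add (hc.lift2 V)).congr ht.split rfl
  exact ((Dt_L0 a).add (Dt_V cx)).congr (hx.unique h1) (zero_add _).symm

lemma D1.mul_zero_at {y z z' : D0} (h : D1 z z') (t : Icc (0:ℝ) π) (h0 : z t = 0) :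
    HasDerivWithinAt (ext (y * z)) (y t * z' t) (Icc 0 π) t := by
  have h1 := h.hasDerivWithinAt t
  rw [hasDerivWithinAt_iff_tendsto_slope] at h1 ⊢
  have h2 : Tendsto (ext y) (𝓝[Icc 0 π \ {(t:ℝ)}] t) (𝓝 (y t)) := by
    rw [← ext_coe y t]; exact (ext_cont y).continuousWithinAt
  refine (h2.mul h1).congr (fun s => ?_)
  have e : ext (y * z) s = ext y s * ext z s := rfl
  simp only [slope_def_field, ext_coe, D.mul_apply, h0, e]
  ring

lemma D1.littleO {α : Type*} {l : Filter α} {g g' : D0} (h : D1 g g') {t : Icc (0:ℝ) π}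
    (h0 : g' t = 0) {y : α → Icc (0:ℝ) π} {k : α → ℝ} (hy : (fun a => (y a : ℝ) - t) =O[l] k)
    (hk : Tendsto k l (𝓝 0)) : (fun a => g (y a) - g t) =o[l] k := by
  have h1 := (h.hasDerivWithinAt t).isLittleO
  have h2 : Tendsto (fun a => (y a : ℝ)) l (𝓝[Icc 0 π] t) :=
    tendsto_nhdsWithin_iff.2 ⟨by simpa using (hy.trans_tendsto hk).add_const (t:ℝ),
      Eventually.of_forall (fun a => (y a).2)⟩
  refine IsLittleO.trans_isBigO ?_ hy
  simpa [h0, Function.comp_def] using h1.comp_tendsto h2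

/-- derivative along a Lipschitz curve at a critical point -/
lemma hasDerivAt_along {F Fx Ft : C2} (hx : Dx F Fx) (ht : Dt F Ft) {y : ℝ → Icc (0:ℝ) π}
    {x : ℝ} (hy : (fun z => (y z : ℝ) - y x) =O[𝓝 x] fun z => z - x) (h0 : Ft x (y x) = 0) :
    HasDerivAt (fun z : ℝ => F z (y z)) (Fx x (y x)) x := by
  have hk : Tendsto (fun z => z - x) (𝓝 x) (𝓝 0) := by
    simpa using (tendsto_id (x := 𝓝 x)).sub_const x
  have h1 : (fun z : ℝ => (F z - F x - (z - x) • Fx x) (y z)) =o[𝓝 x] fun z => z - x :=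
    IsBigO.trans_isLittleO (isBigO_of_le _ (fun z => D.norm_coe_le_norm _ _)) (hx x).isLittleO
  have h2 : (fun z : ℝ => (z - x) * (Fx x (y z) - Fx x (y x))) =o[𝓝 x] fun z => z - x := by
    have h3 : Tendsto y (𝓝 x) (𝓝 (y x)) := by
      rw [tendsto_subtype_rng]
      simpa using (hy.trans_tendsto hk).add_const (y x : ℝ)
    have h4 : Tendsto (fun z => Fx x (y z) - Fx x (y x)) (𝓝 x) (𝓝 0) := by
      simpa using (((Fx x).continuous.tendsto _).comp h3).sub_const (Fx x (y x))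
    simpa using (isBigO_refl (fun z : ℝ => z - x) (𝓝 x)).mul_isLittleO
      ((isLittleO_one_iff ℝ).2 h4)
  have h3 := (ht x).littleO h0 hy hk
  rw [hasDerivAt_iff_isLittleO]
  refine ((h1.add h2).add h3).congr_left (fun z => ?_)
  simp
  ring

/-- average along a curve -/
def av (y : ℝ → Icc (0:ℝ) π) (F : C2) : ℝ := tp⁻¹ * ∫ x in (0:ℝ)..tp, F x (y x)

lemma cont_along {y : ℝ → Icc (0:ℝ) π} (hy : Continuous y) (F : C2) :
    Continuous fun x : ℝ => F x (y x) :=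
  F.cont2.comp ((AddCircle.continuous_mk' tp).prodMk hy)

lemma av_sub_le {y : ℝ → Icc (0:ℝ) π} (hy : Continuous y) {F F' : C2} {t : Icc (0:ℝ) π} {r : ℝ}
    (h : ∀ x : ℝ, |F x (y x) - F' x t| ≤ r) : |av y F - avg F' t| ≤ r := by
  rw [av, avg_apply, ← mul_sub, ← intervalIntegral.integral_sub
    ((cont_along hy F).intervalIntegrable _ _)
    ((cont_along (y := fun _ => t) continuous_const F').intervalIntegrable _ _), abs_mul,
    abs_of_pos (inv_pos.2 tp_pos), inv_mul_le_iff₀ tp_pos]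
  have := intervalIntegral.norm_integral_le_of_norm_le_const (a := 0) (b := tp)
    (f := fun x : ℝ => F x (y x) - F' x t) (fun x _ => h x)
  rwa [sub_zero, abs_of_pos tp_pos, mul_comm] at this

namespace Sol

variable {G : Geo} (S : Sol G)

lemma compat : S.wt * S.U1 = S.wx * S.U2 := by
  have := (S.hwt.mul S.h1t).unique (Dt_of_sym S.hHx S.hHt (S.hwx.mul S.h2x))
  exact add_right_cancel this

lemma compat' (x : T) (t : Icc (0:ℝ) π) : S.wt x t * S.U1 x t = S.wx x t * S.U2 x t :=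
  congrArg (fun F : C2 => F x t) S.compat

/-- the stream function -/
def ψ : C2 := lift2 V S.U2

lemma Dt_ψ : Dt S.ψ S.U2 := Dt_V _

lemma Dx_ψ : Dx S.ψ S.U1 := (S.h2x.lift2 V).congr' (by
  rw [S.h1t.split]
  ext x t
  simp [S.lo1])

lemma wx_bdry (hE : G.Exact) (hw : ∀ x t, 0 < S.w x t) {t : Icc (0:ℝ) π}
    (h1 : ∀ x, S.U1 x t = 0) (x : ℝ) : S.wx x t = 0 := by
  by_contra hne
  have hc : Continuous fun z : ℝ => S.wx z t := cont_along continuous_const _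
  have h2 : ∀ᶠ z : ℝ in 𝓝 x, S.U2 z t = 0 :=
    (hc.continuousAt.eventually_ne hne).mono (fun z hz => by
      have := S.compat' z t
      rw [h1, mul_zero] at this
      exact (mul_eq_zero.1 this.symm).resolve_left hz)
  have h3 : S.U12 x t = 0 :=
    (S.h2x.pt x t).unique ((hasDerivAt_const x (0:ℝ)).congr_of_eventuallyEq h2)
  have h4 : S.W1x x t = 0 := by
    have := S.hW1.pt x t
    simp only [C2.smul_apply, C2.mul_apply, D.smul_apply, D.mul_apply, h1, mul_zero] at this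
    exact this.unique (hasDerivAt_const x (0:ℝ))
  have h5 := congrArg (fun F : C2 => F x t) S.curl
  have h6 := congrArg (fun F : C2 => F x t) (S.hW2.unique (G.hAt.mul S.h2t))
  have h7 := (S.h1t x).mul_zero_at (y := S.wt x) t (h1 x)
  have h8 := (S.h2t x).mul_zero_at (y := S.wx x) t h2.self_of_nhds
  have e : S.wt x * S.U1 x = S.wx x * S.U2 x := congrArg (fun F : C2 => F x) S.compat
  rw [e] at h7
  have h9 := (uniqueDiffOn_Icc pi_pos t t.2).eq_deriv _ h7 h8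
  rw [h3, mul_zero] at h9
  have h10 := (mul_eq_zero.1 h9.symm).resolve_left hne
  simp only [C2.add_apply, C2.mul_apply, D.add_apply, D.mul_apply, h4, h10, h2.self_of_nhds]
    at h5 h6
  have := mul_pos (hE.μ_pos x t) (hw x t)
  linarith

lemma w_bdry (hE : G.Exact) (hw : ∀ x t, 0 < S.w x t) {t : Icc (0:ℝ) π}
    (h1 : ∀ x, S.U1 x t = 0) (x : T) : S.w x t = S.w (0:ℝ) t := by
  induction x using QuotientAddGroup.induction_on with
  | H x =>
    exact is_const_of_deriv_eq_zero (f := fun z : ℝ => S.w z t)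
      (fun z => (S.hwx.pt z t).differentiableAt)
      (fun z => by rw [(S.hwx.pt z t).deriv, S.wx_bdry hE hw h1]) x 0

lemma mono {m : ℝ} (hm : ∀ x t, S.wt x t ≤ -m) (x : T) {s t : Icc (0:ℝ) π} (hst : (s:ℝ) ≤ t) :
    m * (t - s) ≤ S.w x s - S.w x t := by
  have h1 := (S.hwt x).integral s t
  have h2 := intervalIntegral.integral_mono (μ := MeasureTheory.volume) hst
    ((ext_cont (S.wt x)).intervalIntegrable _ _)
    (continuous_const.intervalIntegrable _ _) (fun z => hm x _ : ext (S.wt x) ≤ fun _ => -m)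
  simp only [intervalIntegral.integral_const, smul_eq_mul] at h2
  linarith

lemma abs_mono {m : ℝ} (hm : ∀ x t, S.wt x t ≤ -m) (x : T) (s t : Icc (0:ℝ) π) :
    m * |(t:ℝ) - s| ≤ |S.w x t - S.w x s| := by
  rcases le_total (s:ℝ) t with h | h
  · rw [abs_of_nonneg (sub_nonneg.2 h), abs_sub_comm]
    exact (S.mono hm x h).trans (le_abs_self _)
  · rw [abs_sub_comm, abs_of_nonneg (sub_nonneg.2 h)]
    exact (S.mono hm x h).trans (le_abs_self _)

/-- the range of the vorticity -/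
def R : Set ℝ := Icc (S.w (0:ℝ) hi) (S.w (0:ℝ) lo)

/-- non-degeneracy of a flow -/
structure Good (m : ℝ) : Prop where
  m_pos : 0 < m
  w_pos : ∀ x t, 0 < S.w x t
  wt_le : ∀ x t, S.wt x t ≤ -m

variable {S} {m : ℝ}

namespace Good

variable (hS : S.Good m) (hE : G.Exact)
include hS

lemma wt_ne (x : T) (t : Icc (0:ℝ) π) : S.wt x t ≠ 0 :=
  ((hS.wt_le x t).trans_lt (neg_lt_zero.2 hS.m_pos)).ne

lemma inj (x : T) {s t : Icc (0:ℝ) π} (h : S.w x s = S.w x t) : s = t := by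
  have h1 := S.abs_mono hS.wt_le x s t
  rw [h, sub_self, abs_zero] at h1
  have h2 : |(t:ℝ) - s| ≤ 0 := by
    by_contra h3
    exact absurd h1 (not_le.2 (mul_pos hS.m_pos (not_le.1 h3)))
  exact Subtype.ext (sub_eq_zero.1 (abs_nonpos_iff.1 h2)).symm

lemma R_lt : S.w (0:ℝ) hi < S.w (0:ℝ) lo := by
  have := S.mono hS.wt_le (0:ℝ) (s := lo) (t := hi) pi_pos.le
  simp only [hi_coe, lo_coe, sub_zero] at this
  linarith [mul_pos hS.m_pos pi_pos]

include hE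

lemma mem_R (x : T) (t : Icc (0:ℝ) π) : S.w x t ∈ S.R := by
  have h1 := S.mono hS.wt_le x (s := lo) (t := t) t.2.1
  have h2 := S.mono hS.wt_le x (s := t) (t := hi) t.2.2
  rw [S.w_bdry hE hS.w_pos S.lo1] at h1
  rw [S.w_bdry hE hS.w_pos S.hi1] at h2
  have h3 := mul_nonneg hS.m_pos.le (sub_nonneg.2 t.2.1)
  have h4 := mul_nonneg hS.m_pos.le (sub_nonneg.2 t.2.2)
  simp only [hi_coe, lo_coe] at h1 h2
  exact ⟨by linarith, by linarith⟩

lemma exists_level : ∃ Y : T → ℝ → Icc (0:ℝ) π, ∀ x, ∀ s ∈ S.R, S.w x (Y x s) = s := by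
  have key : ∀ (x : T) (s : ℝ), ∃ t : Icc (0:ℝ) π, s ∈ S.R → S.w x t = s := by
    intro x s
    by_cases hs : s ∈ S.R
    · rw [R, ← S.w_bdry hE hS.w_pos S.lo1 x, ← S.w_bdry hE hS.w_pos S.hi1 x, ← ext_coe,
        ← ext_coe] at hs
      obtain ⟨t, ht, e⟩ := intermediate_value_Icc' pi_pos.le (ext_cont (S.w x)).continuousOn hs
      exact ⟨⟨t, ht⟩, fun _ => by rw [← ext_of_mem]; exact e⟩
    · exact ⟨lo, fun h => absurd h hs⟩
  choose Y hY using key
  exact ⟨Y, hY⟩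

omit hE

lemma lip {y : ℝ → Icc (0:ℝ) π} {s : ℝ} (hy : ∀ x : ℝ, S.w x (y x) = s) (x z : ℝ) :
    |(y z : ℝ) - y x| ≤ ‖S.wx‖ / m * |z - x| := by
  have h1 := S.abs_mono hS.wt_le x (y x) (y z)
  have h2 := (convex_univ (𝕜 := ℝ)).norm_image_sub_le_of_norm_hasDerivWithin_le
    (f := fun u : ℝ => S.w u (y z)) (f' := fun u : ℝ => S.wx u (y z)) (C := ‖S.wx‖)
    (fun u _ => (S.hwx.pt u (y z)).hasDerivWithinAt) (fun u _ => C2_abs_le _ _ _)
    (mem_univ x) (mem_univ z)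
  rw [hy x, ← hy z, abs_sub_comm (S.w _ _)] at h1
  rw [div_mul_eq_mul_div, le_div_iff₀' hS.m_pos]
  exact h1.trans h2

lemma level_cont {y : ℝ → Icc (0:ℝ) π} {s : ℝ} (hy : ∀ x : ℝ, S.w x (y x) = s) :
    Continuous y :=
  (LipschitzWith.of_dist_le' (K := ‖S.wx‖ / m) (fun z x => hS.lip hy x z)).continuous

lemma along {y : ℝ → Icc (0:ℝ) π} {s : ℝ} (hy : ∀ x : ℝ, S.w x (y x) = s) {F Fx Ft : C2}
    (hx : Dx F Fx) (ht : Dt F Ft) (x : ℝ) : HasDerivAt (fun z : ℝ => F z (y z))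
      (Fx x (y x) - Ft x (y x) / S.wt x (y x) * S.wx x (y x)) x := by
  set k := Ft x (y x) / S.wt x (y x) with hk
  have h1 := hasDerivAt_along (hx.sub (S.hwx.smul k)) (ht.sub (S.hwt.smul k)) (y := y) (x := x)
    (IsBigO.of_bound _ (Eventually.of_forall (fun z => hS.lip hy x z)))
    (by simp [hk, hS.wt_ne])
  simp only [C2.sub_apply, C2.smul_apply, D.sub_apply, D.smul_apply, hy] at h1
  simpa using h1.add_const (k * s)

include hE

/-- the stream function is a function of the vorticity -/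
lemma exists_K : ∃ K : ℝ → ℝ, (∀ x t, S.ψ x t = K (S.w x t)) ∧
    ∀ x t, HasDerivWithinAt K (S.U2 x t / S.wt x t) S.R (S.w x t) := by
  obtain ⟨Y, hY⟩ := hS.exists_level hE
  have h1 : ∀ s ∈ S.R, ∀ x : T, S.ψ x (Y x s) = S.ψ (0:ℝ) (Y (0:ℝ) s) := by
    intro s hs x
    induction x using QuotientAddGroup.induction_on with
    | H x =>
      have := hS.along (y := fun z : ℝ => Y z s) (fun z => hY z s hs) S.Dx_ψ S.Dt_ψ
      refine is_const_of_deriv_eq_zero (f := fun z : ℝ => S.ψ z (Y z s))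
        (fun z => (this z).differentiableAt) (fun z => ?_) x 0
      have h2 := S.compat' z (Y z s)
      have h3 := hS.wt_ne z (Y z s)
      rw [(this z).deriv]
      field_simp
      linarith
  have h2 : ∀ x t, Y x (S.w x t) = t := fun x t => hS.inj x (hY x _ (hS.mem_R hE x t))
  refine ⟨fun s => S.ψ (0:ℝ) (Y (0:ℝ) s), fun x t => ?_, fun x t => ?_⟩
  · simp only [← h1 _ (hS.mem_R hE x t) x, h2]
  · set k := S.U2 x t / S.wt x t with hk
    have h3 := ((S.Dt_ψ x).sub ((S.hwt x).smul k)).littleO (t := t) (by simp [hk, hS.wt_ne])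
      (l := 𝓝[S.R] (S.w x t)) (y := fun s => Y x s) (k := fun s => s - S.w x t)
      (IsBigO.of_bound m⁻¹ (eventually_nhdsWithin_of_forall (fun s hs => by
        have := S.abs_mono hS.wt_le x t (Y x s)
        rw [hY x s hs] at this
        rwa [le_inv_mul_iff₀ hS.m_pos])))
      (by simpa using (tendsto_id (x := 𝓝 (S.w x t))).sub_const (S.w x t) |>.mono_left
            nhdsWithin_le_nhds)
    rw [hasDerivWithinAt_iff_isLittleO]
    refine h3.congr' (eventually_nhdsWithin_of_forall (fun s hs => ?_)) EventuallyEq.rfl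
    simp only [D.sub_apply, D.smul_apply, hY x s hs, ← h1 s hs x, ← h1 _ (hS.mem_R hE x t) x, h2,
      smul_eq_mul]
    ring

lemma ratio_eq {x z : T} {t s : Icc (0:ℝ) π} (h : S.w x t = S.w z s) :
    S.U2 x t / S.wt x t = S.U2 z s / S.wt z s := by
  obtain ⟨K, -, hK⟩ := hS.exists_K hE
  exact (uniqueDiffOn_Icc hS.R_lt _ (hS.mem_R hE z s)).eq_deriv _ (h ▸ hK x t) (hK z s)

/-- increments of the stream function along horizontal circles -/
lemma incr (t : Icc (0:ℝ) π) {k ρ : ℝ} (h : ∀ x, |S.U2 x t / S.wt x t - k| ≤ ρ) (x z : ℝ) :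
    |S.ψ x t - S.ψ z t - k * (S.w x t - S.w z t)| ≤ ρ * |S.w x t - S.w z t| := by
  obtain ⟨K, hK0, hK⟩ := hS.exists_K hE
  have hc : Continuous fun u : ℝ => S.w u t := cont_along continuous_const _
  have h1 : ∀ s ∈ uIcc (S.w z t) (S.w x t), ∃ u : ℝ, S.w u t = s := fun s hs => by
    obtain ⟨u, -, e⟩ := intermediate_value_uIcc hc.continuousOn hs
    exact ⟨u, e⟩
  choose! u hu using h1
  have hsub : uIcc (S.w z t) (S.w x t) ⊆ S.R := uIcc_subset_Icc (hS.mem_R hE _ _) (hS.mem_R hE _ _)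
  have := (convex_uIcc (S.w z t) (S.w x t)).norm_image_sub_le_of_norm_hasDerivWithin_le
    (f := fun s => K s - k * s) (f' := fun s => S.U2 (u s) t / S.wt (u s) t - k) (C := ρ)
    (fun s hs => by
      have h2 := (hK (u s) t).mono hsub
      rw [hu s hs] at h2
      simpa using h2.fun_sub ((hasDerivWithinAt_id s _).const_mul k))
    (fun s _ => h _) left_mem_uIcc right_mem_uIcc
  rw [Real.norm_eq_abs, Real.norm_eq_abs] at this
  rw [hK0, hK0]
  convert this using 2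
  ring

/-- the circulation identity along the level curve through a point -/
lemma circ {wi : C2} (hwi : S.wt * wi = 1) (x : ℝ) (t : Icc (0:ℝ) π) :
    ∃ y : ℝ → Icc (0:ℝ) π, Continuous y ∧ (∀ z : ℝ, S.w z (y z) = S.w x t) ∧
      S.U2 x t / S.wt x t * av y (G.A * S.wt + G.d • (G.Ai * S.wx * S.wx * wi)) =
        avg (G.A * S.U2) lo + av y (lift2 V (G.μ * S.w)) := by
  obtain ⟨Y, hY⟩ := hS.exists_level hE
  let y : ℝ → Icc (0:ℝ) π := fun z => Y z (S.w x t)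
  have hy : ∀ z : ℝ, S.w z (y z) = S.w x t := fun z => hY z _ (hS.mem_R hE x t)
  have hc := hS.level_cont hy
  refine ⟨y, hc, hy, ?_⟩
  set k := S.U2 x t / S.wt x t with hk
  set P := G.A * S.wt + G.d • (G.Ai * S.wx * S.wx * wi) with hP
  set Q := lift2 V (G.μ * S.w) with hQ
  set Γ := avg (G.A * S.U2) lo with hΓ
  have hx := (Dx_Px (lift2 L0 (G.A * S.U2))).sub (S.hW1.lift2 V)
  have ht := (Dt_L0 (G.A * S.U2)).Px.sub (Dt_V (G.d • (G.Ai * S.U1)))
  have h1 := hS.along hy hx ht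
  have h2 : ∀ z : ℝ, HasDerivAt (fun z : ℝ => (Px (lift2 L0 (G.A * S.U2))
      - lift2 V (G.d • (G.Ai * S.U1))) z (y z)) (k * P z (y z) - Q z (y z) - Γ) z := by
    intro z
    refine (h1 z).congr_deriv ?_
    have e1 := congrArg (fun F : C2 => F z (y z)) S.hW2.split
    have e2 := congrArg (fun F : C2 => lift2 V F z (y z)) S.curl
    have e3 := congrArg (fun F : C2 => F z (y z)) hwi
    have e4 := S.compat' z (y z)
    have e5 : k = _ := hS.ratio_eq hE (hy z).symm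
    have e6 := hS.wt_ne z (y z)
    simp only [map_add, C2.add_apply, D.add_apply, ← hQ, C2.mul_apply, D.mul_apply, C2.one_apply,
      D.one_apply] at e1 e2 e3
    simp only [avg_lift2, map_zero, C2.sub_apply, D.sub_apply, ι_apply, L0_apply, ← hΓ, hP,
      C2.add_apply, D.add_apply, C2.smul_apply, D.smul_apply, C2.mul_apply, D.mul_apply,
      C2.zero_apply, D.zero_apply]
    have e7 : wi z (y z) = (S.wt z (y z))⁻¹ := eq_inv_of_mul_eq_one_right e3
    have e8 : S.U1 z (y z) = k * S.wx z (y z) := by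
      rw [e5]; field_simp; linarith
    have e9 : S.U2 z (y z) = k * S.wt z (y z) := by
      rw [e5]; field_simp
    rw [e9] at e1
    rw [e7, e8, ← e2]
    field_simp
    linear_combination (-S.wt z (y z)) * e1
  have cP := (cont_along hc P).intervalIntegrable (μ := MeasureTheory.volume) 0 tp
  have cQ := (cont_along hc Q).intervalIntegrable (μ := MeasureTheory.volume) 0 tp
  have h3 := intervalIntegral.integral_eq_sub_of_hasDerivAt (a := 0) (b := tp) (fun z _ => h2 z)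
    (((cP.const_mul k).sub cQ).sub (continuous_const.intervalIntegrable _ _))
  have e0 : ((tp : ℝ) : T) = ((0:ℝ) : T) := by
    rw [← AddCircle.coe_add_period tp 0, zero_add]
  have e1 : y tp = y 0 := by simp only [y, e0]
  rw [e0, e1, sub_self, intervalIntegral.integral_sub ((cP.const_mul k).sub cQ)
    (continuous_const.intervalIntegrable _ _), intervalIntegral.integral_sub (cP.const_mul k) cQ,
    intervalIntegral.integral_const_mul, intervalIntegral.integral_const, sub_zero,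
    smul_eq_mul] at h3
  have := tp_pos.ne'
  rw [av, av]
  field_simp
  linarith

end Good

end Sol

end

end Pool.Agent.P.MP_0d657e_an
end

-- part Pool.Agent.P.MP_0d657e_an.RedB4
section

/-! A priori estimates for steady flows whose vorticity is close to the base vorticity. -/

open Set Real

namespace Pool.Agent.P.MP_0d657e_an

noncomputable section

/-- a lower bound for the weight -/
def m0 : ℝ := exp (-b * π)
lemma m0_pos : 0 < m0 := exp_pos _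
lemma m0_le (t : Icc (0:ℝ) π) : m0 ≤ exp (-b * t) :=
  exp_le_exp.2 (by nlinarith [b_pos, t.2.2])
lemma one_lt_b : 1 < b := by nlinarith [b_pos, b_sq]

/-- the inverse of the derivative of the base vorticity -/
def Fi : C2 := ι (-((1/5:ℝ) • ex b))

lemma Fi_mul : Fi * F0t = 1 := C2_ext (fun x t => by
  have h3 : exp (b * t) * exp (-(b * t)) = 1 := by rw [← exp_add]; simp
  simp [Fi, F0t]
  linear_combination h3)

lemma norm_const_le (r : ℝ) : ‖algebraMap ℝ C2 r‖ ≤ |r| :=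
  C2_norm_le (abs_nonneg _) (fun x t => by simp)

lemma norm_mul3_le (a c e : C2) : ‖a * c * e‖ ≤ ‖a‖ * ‖c‖ * ‖e‖ :=
  (norm_mul_le _ _).trans (mul_le_mul_of_nonneg_right (norm_mul_le _ _) (norm_nonneg _))

lemma norm_mul4_le (a c e f : C2) : ‖a * c * e * f‖ ≤ ‖a‖ * ‖c‖ * ‖e‖ * ‖f‖ :=
  (norm_mul_le _ _).trans (mul_le_mul_of_nonneg_right (norm_mul3_le _ _ _) (norm_nonneg _))

namespace Sol

variable {G : Geo}

/-- closeness to the base flow -/
structure Near (S : Sol G) (ε : ℝ) : Prop where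
  le : ε ≤ m0
  h0 : ‖S.w - F0‖ ≤ ε
  h1 : ‖S.wx‖ ≤ ε
  h2 : ‖S.wt - F0t‖ ≤ ε

variable {S : Sol G} {ε : ℝ}

lemma Near.nonneg (h : S.Near ε) : 0 ≤ ε := (norm_nonneg _).trans h.h0

lemma Near.good (h : S.Near ε) : S.Good m0 where
  m_pos := m0_pos
  w_pos x t := by
    have h1 := (abs_le.1 ((C2_abs_le _ x t).trans (h.h0.trans h.le))).1
    simp only [F0, C2.sub_apply, D.sub_apply, ι_apply, D.smul_apply, om_apply] at h1
    nlinarith [m0_le t, m0_pos, one_lt_b]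
  wt_le x t := by
    have h1 := (abs_le.1 ((C2_abs_le _ x t).trans (h.h2.trans h.le))).2
    simp only [F0t, C2.sub_apply, D.sub_apply, ι_apply, D.smul_apply, om_apply, D.neg_apply] at h1
    linarith [m0_le t, m0_pos]

lemma inv_apply {wi : C2} (hwi : S.wt * wi = 1) (x : T) (t : Icc (0:ℝ) π) :
    wi x t = (S.wt x t)⁻¹ :=
  eq_inv_of_mul_eq_one_right (congrArg (fun F : C2 => F x t) hwi)

lemma Near.norm_inv (h : S.Near ε) {wi : C2} (hwi : S.wt * wi = 1) : ‖wi‖ ≤ m0⁻¹ :=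
  C2_norm_le (inv_pos.2 m0_pos).le (fun x t => by
    rw [inv_apply hwi, abs_inv]
    exact inv_anti₀ m0_pos (le_abs.2 (Or.inr (by linarith [h.good.wt_le x t]))))

lemma est1 (hE : G.Exact) : ∃ C ≥ 0, ∀ (S : Sol G) (ε : ℝ) (wi : C2), S.Near ε → S.wt * wi = 1 →
    ∃ γ : ℝ, ‖S.U2 * wi * F0t - algebraMap ℝ C2 γ - ι (ex b)‖ ≤ C * ε * (1 + ‖S.U2 * wi‖) := by
  have hF : Dt F0t (ι (-((5:ℝ) • -(b • om)))) := Dt_ι (D1_om.smul 5).neg
  have hP0 := G.hAt.mul hF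
  generalize G.At * F0t + G.A * ι (-((5:ℝ) • -(b • om))) = Pt at hP0
  have hd := G.d_pos
  have hm := m0_pos
  set C1 := ‖G.A‖ + G.d * ‖G.Ai‖ + ‖Pt‖ * (2 / m0) with hC1
  set C2' := ‖lift2 V‖ * ‖G.μ‖ + ‖G.μ * F0‖ * (2 / m0) with hC2
  have p1 : 0 ≤ C1 := by positivity
  have p2 : 0 ≤ C2' := by positivity
  refine ⟨C1 + C2', by positivity, fun S ε wi h hwi => ⟨avg (G.A * S.U2) lo - 1, ?_⟩⟩
  have hε := h.nonneg
  refine C2_norm_le (by positivity) (fun x t => ?_)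
  obtain ⟨y, hc, hy, e⟩ := h.good.circ hE hwi x t
  have hyt : ∀ z : ℝ, |(y z : ℝ) - t| ≤ 2 / m0 * ε := fun z => by
    have h1 := S.abs_mono h.good.wt_le z t (y z)
    have h2 := abs_le.1 ((C2_abs_le _ x t).trans h.h0)
    have h3 := abs_le.1 ((C2_abs_le _ z t).trans h.h0)
    simp only [F0, C2.sub_apply, D.sub_apply, ι_apply] at h2 h3
    rw [hy] at h1
    rw [div_mul_eq_mul_div, le_div_iff₀' hm]
    refine h1.trans (abs_le.2 ⟨?_, ?_⟩) <;> linarith [h2.1, h2.2, h3.1, h3.2]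
  have key : ∀ {P P0 P0t : C2} {r : ℝ}, ‖P - P0‖ ≤ r * ε → Dt P0 P0t →
      |av y P - avg P0 t| ≤ (r + ‖P0t‖ * (2 / m0)) * ε := by
    intro P P0 P0t r h1 h2
    refine av_sub_le hc (fun z => ?_)
    have h3 := (C2_abs_le _ z (y z)).trans h1
    have h4 := ((h2 z).abs_sub_le t (y z)).trans (mul_le_mul (P0t.norm_coe_le_norm z) (hyt z)
      (abs_nonneg _) (norm_nonneg _))
    simp only [C2.sub_apply, D.sub_apply] at h3
    calc _ ≤ _ := abs_sub_le _ (P0 z (y z)) _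
      _ ≤ _ := by linarith
  have k1 := key (P := G.A * S.wt + G.d • (G.Ai * S.wx * S.wx * wi))
    (r := ‖G.A‖ + G.d * ‖G.Ai‖) (by
      have e1 : G.A * S.wt + G.d • (G.Ai * S.wx * S.wx * wi) - G.A * F0t =
          G.A * (S.wt - F0t) + G.d • (G.Ai * S.wx * S.wx * wi) := by ring
      rw [e1, add_mul]
      refine norm_add_le_of_le ((norm_mul_le _ _).trans
        (mul_le_mul_of_nonneg_left h.h2 (norm_nonneg _))) ?_
      rw [norm_smul, Real.norm_eq_abs, abs_of_pos hd, mul_assoc G.d]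
      refine mul_le_mul_of_nonneg_left ((norm_mul4_le _ _ _ _).trans ?_) hd.le
      have h1 : ‖S.wx‖ * ‖wi‖ ≤ 1 := (mul_le_mul (h.h1.trans h.le) (h.norm_inv hwi)
        (norm_nonneg _) hm.le).trans (mul_inv_cancel₀ hm.ne').le
      have h2 := mul_le_mul_of_nonneg_left h.h1 (norm_nonneg G.Ai)
      have h3 := mul_le_mul_of_nonneg_left h1 (mul_nonneg (norm_nonneg G.Ai) (norm_nonneg S.wx))
      linarith) hP0
  have k2 := key (P := lift2 V (G.μ * S.w)) (r := ‖lift2 V‖ * ‖G.μ‖) (by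
      rw [← map_sub, ← mul_sub, mul_assoc]
      exact (ContinuousLinearMap.le_opNorm _ _).trans (mul_le_mul_of_nonneg_left
        ((norm_mul_le _ _).trans (mul_le_mul_of_nonneg_left h.h0 (norm_nonneg _)))
        (norm_nonneg _))) (Dt_V (G.μ * F0))
  have a1 : avg (G.A * F0t) t = F0t x t := by rw [F0t, avg_mul_ι, hE.avgA, one_mul]; rfl
  have a2 : avg (lift2 V (G.μ * F0)) t = ex b t - 1 := by
    have := congrArg (fun F => avg F t) G.Dt_Ae.split
    simp only [map_add, avg_lift2 L0, avg_mul_ι, hE.avgA, one_mul, D.add_apply, L0_apply] at this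
    rw [this]; simp
  rw [a1, ← hC1] at k1
  rw [a2, ← hC2] at k2
  have h5 := C2_abs_le (S.U2 * wi) x t
  have e2 : (S.U2 * wi) x t = S.U2 x t / S.wt x t := by
    simp [inv_apply hwi, div_eq_mul_inv]
  rw [← e2] at e
  rw [C2.sub_apply, C2.sub_apply, C2.mul_apply, D.sub_apply, D.sub_apply, D.mul_apply,
    C2.algebraMap_apply, D.algebraMap_apply, ι_apply]
  generalize av y (G.A * S.wt + G.d • (G.Ai * S.wx * S.wx * wi)) = p at *
  generalize av y (lift2 V (G.μ * S.w)) = q at *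
  generalize (S.U2 * wi) x t = k at *
  have e3 : k * F0t x t - (avg (G.A * S.U2) lo - 1) - ex b t =
      (q - (ex b t - 1)) - k * (p - F0t x t) := by linear_combination e
  rw [e3]
  refine (abs_sub _ _).trans ?_
  rw [abs_mul]
  have h6 := mul_le_mul h5 k1 (abs_nonneg _) (norm_nonneg _)
  nlinarith [mul_nonneg p1 hε, mul_nonneg (mul_nonneg p2 hε) (norm_nonneg (S.U2 * wi))]

lemma est2 (hE : G.Exact) (hA : G.Asym) : ∃ C ≥ 0, ∀ (S : Sol G) (ε : ℝ) (wi : C2), S.Near ε →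
    S.wt * wi = 1 → ‖S.U2 * wi - Fi * ι (ex b)‖ ≤ C * ε * (1 + ‖S.U2 * wi‖) := by
  obtain ⟨C, hC, H1⟩ := est1 hE
  obtain ⟨θ, hθ⟩ := hA
  have hd := G.d_pos
  have ha := abs_pos.2 hθ
  set C3 := ‖II‖ * (‖G.μ * H.f θ‖ + G.d * ‖G.Ai * H.fx θ‖ + ‖G.A * H.ft θ‖
    + ‖G.A * H.ft θ‖ * C) with hC3
  refine ⟨‖Fi‖ * (C3 / |II (G.A * H.ft θ)| + C), by positivity, fun S ε wi h hwi => ?_⟩
  obtain ⟨γ, hγ⟩ := H1 S ε wi h hwi
  have hε := h.nonneg
  have i1 := (S.hW1.mul (H.dx θ)).II_eq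
  have i2 := (S.hW2.mul (H.dt θ)).II_eq (fun x => by simp [H.at_lo]) (fun x => by simp [H.at_hi])
  have i3 := (G.Dt_Ae.mul (H.dt θ)).II_eq (fun x => by simp [H.at_lo])
    (fun x => by simp [H.at_hi])
  have u1 : S.U1 = S.U2 * wi * S.wx := by
    linear_combination (exp := 1) wi * S.compat - S.U1 * hwi
  have u2 : S.U2 = S.U2 * wi * S.wt := by linear_combination (exp := 1) -S.U2 * hwi
  generalize S.U2 * wi = k at *
  set ρ := k * F0t - algebraMap ℝ C2 γ - ι (ex b) with hρ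
  have e1 : γ * II (G.A * H.ft θ) = -II (G.μ * H.f θ * (S.w - F0)
      + G.d • (G.Ai * H.fx θ * k * S.wx) + G.A * H.ft θ * k * (S.wt - F0t)
      + G.A * H.ft θ * ρ) := by
    have e : γ • (G.A * H.ft θ) + (G.μ * H.f θ * (S.w - F0)
      + G.d • (G.Ai * H.fx θ * k * S.wx) + G.A * H.ft θ * k * (S.wt - F0t)
      + G.A * H.ft θ * ρ) = (S.W1x * H.f θ + G.d • (G.Ai * S.U1) * H.fx θ)
        + (S.W2t * H.f θ + G.A * S.U2 * H.ft θ)
        - (G.μ * F0 * H.f θ + G.A * ι (ex b) * H.ft θ) := by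
      rw [hρ]
      simp only [Algebra.smul_def]
      linear_combination (exp := 1) -H.f θ * S.curl
        - algebraMap ℝ C2 G.d * G.Ai * H.fx θ * u1 - G.A * H.ft θ * u2
    have := congrArg II e
    rw [map_sub, map_add _ (S.W1x * _ + _), i1, i2, i3, map_add, map_smul, smul_eq_mul] at this
    linarith
  have hN := norm_nonneg k
  have e2 : |γ| * |II (G.A * H.ft θ)| ≤ C3 * (ε * (1 + ‖k‖)) := by
    rw [← abs_mul, e1, abs_neg, hC3, mul_assoc ‖II‖]
    refine (II.le_opNorm _).trans (mul_le_mul_of_nonneg_left ?_ (norm_nonneg _))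
    rw [add_mul, add_mul, add_mul]
    have hk : ∀ z : C2, ‖z‖ ≤ ε → ‖k‖ * ‖z‖ ≤ ε * (1 + ‖k‖) := fun z hz => by
      nlinarith [mul_le_mul_of_nonneg_left hz hN]
    refine norm_add_le_of_le (norm_add_le_of_le (norm_add_le_of_le ?_ ?_) ?_) ?_
    · exact (norm_mul_le _ _).trans (mul_le_mul_of_nonneg_left
        (h.h0.trans (le_mul_of_one_le_right hε (by linarith))) (norm_nonneg _))
    · rw [norm_smul, Real.norm_eq_abs, abs_of_pos hd, mul_assoc G.d]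
      refine mul_le_mul_of_nonneg_left ((norm_mul3_le _ _ _).trans ?_) hd.le
      rw [mul_assoc]
      exact mul_le_mul_of_nonneg_left (hk _ h.h1) (norm_nonneg _)
    · refine (norm_mul3_le _ _ _).trans ?_
      rw [mul_assoc]
      exact mul_le_mul_of_nonneg_left (hk _ h.h2) (norm_nonneg _)
    · refine (norm_mul_le _ _).trans ?_
      rw [mul_assoc]
      exact mul_le_mul_of_nonneg_left (by rwa [← mul_assoc]) (norm_nonneg _)
  have e3 : k - Fi * ι (ex b) = Fi * (algebraMap ℝ C2 γ + ρ) := by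
    rw [hρ]; linear_combination (exp := 1) -k * Fi_mul
  rw [e3, mul_assoc, mul_assoc]
  refine (norm_mul_le _ _).trans (mul_le_mul_of_nonneg_left ?_ (norm_nonneg _))
  rw [add_mul]
  refine norm_add_le_of_le ((norm_const_le γ).trans ?_) (by rwa [← mul_assoc])
  rwa [div_mul_eq_mul_div, le_div_iff₀ ha]

lemma est3 (hE : G.Exact) (hA : G.Asym) {ρ : ℝ} (hρ : 0 < ρ) : ∃ ε > 0, ε ≤ m0 ∧
    ∀ S : Sol G, S.Near ε → ∀ x t, |S.U2 x t / S.wt x t - -(exp (2 * b * t) / 5)| ≤ ρ := by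
  obtain ⟨C, hC, H2⟩ := est2 hE hA
  set N := ‖Fi * ι (ex b)‖ with hN
  have hN0 : 0 ≤ N := norm_nonneg _
  have hm := m0_pos
  refine ⟨min m0 (min 1 ρ / (2 * (C + 1) * (1 + N))), by positivity, min_le_left _ _,
    fun S h x t => ?_⟩
  obtain ⟨wi, hwi⟩ := exists_inv2 h.good.wt_ne
  have h1 := H2 S _ wi h hwi
  have h2 := min_le_right m0 (min 1 ρ / (2 * (C + 1) * (1 + N)))
  have hε := h.nonneg
  generalize min m0 (min 1 ρ / (2 * (C + 1) * (1 + N))) = ε at *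
  rw [le_div_iff₀ (by positivity)] at h2
  have h3 : ‖S.U2 * wi‖ ≤ ‖S.U2 * wi - Fi * ι (ex b)‖ + N := norm_le_norm_sub_add _ _
  have h4 := C2_abs_le (S.U2 * wi - Fi * ι (ex b)) x t
  have e : (S.U2 * wi - Fi * ι (ex b)) x t = S.U2 x t / S.wt x t - -(exp (2 * b * t) / 5) := by
    have : exp (2 * b * t) = exp (b * t) * exp (b * t) := by rw [← exp_add]; congr 1; ring
    simp [inv_apply hwi, Fi, div_eq_mul_inv, this]; ring
  rw [← e]
  refine h4.trans ?_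
  have hr := norm_nonneg (S.U2 * wi - Fi * ι (ex b))
  generalize ‖S.U2 * wi - Fi * ι (ex b)‖ = r at *
  have h5 : 0 ≤ C * ε := by positivity
  have h6 : 2 * (C * ε) * (1 + N) ≤ min 1 ρ := by nlinarith [mul_nonneg hε hN0]
  have h7 := h6.trans (min_le_left _ _)
  have h8 := h6.trans (min_le_right _ _)
  have h9 : 2 * (C * ε) ≤ 1 := by nlinarith
  nlinarith [mul_le_mul_of_nonneg_left h3 h5]

end Sol

end

end Pool.Agent.P.MP_0d657e_an
end

-- part Pool.Agent.P.MP_0d657e_an.RedB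
section

/-! The nonlinear reduction: coercivity of the quadratic obstruction implies isolation. -/

open Set Real

namespace Pool.Agent.P.MP_0d657e_an

noncomputable section

lemma avg_dev (F : C2) (r : ℝ) (t : Icc (0:ℝ) π) :
    avg ((F - algebraMap ℝ C2 r) * (F - algebraMap ℝ C2 r)) t =
      avg (F * F) t - 2 * r * avg F t + r * r := by
  have e : (F - algebraMap ℝ C2 r) * (F - algebraMap ℝ C2 r) =
      F * F - (2 * r) • F + (r * r) • (1 : C2) := by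
    simp only [Algebra.smul_def, map_mul, map_ofNat]; ring
  rw [e]; simp

/-- a bound on increments along circles gives a bound on the oscillation -/
lemma nrm_osc_le {R φ : C2} {k : ℝ} (hk : 0 ≤ k)
    (h : ∀ (x z : ℝ) t, |R x t - R z t| ≤ k * |φ x t - φ z t|) :
    P2.nrm (R - ι (avg R)) ≤ k * P2.nrm φ := by
  rw [PF.nrm_def, sqrt_le_left (by positivity), mul_pow, PF.nrm_sq, P2_Φ, II_apply, II_apply,
    ← smul_eq_mul (k ^ 2), ← map_smul]
  refine J_mono (fun t => ?_)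
  have h1 : ∀ z : ℝ, (ι (avg (R * R)) - (2:ℝ) • (R * ι (avg R)) + R * R) z t ≤
      ((k ^ 2) • (ι (avg (φ * φ)) - (2:ℝ) • (φ * ι (avg φ)) + φ * φ)) z t := by
    intro z
    have h2 := avg_mono (F := (R - algebraMap ℝ C2 (R z t)) * (R - algebraMap ℝ C2 (R z t)))
      (G := (k ^ 2) • ((φ - algebraMap ℝ C2 (φ z t)) * (φ - algebraMap ℝ C2 (φ z t)))) t
      (fun x => by
        have := pow_le_pow_left₀ (abs_nonneg _) (h x z t) 2
        rw [mul_pow, sq_abs, sq_abs] at this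
        simpa [sq] using this)
    rw [map_smul, D.smul_apply, avg_dev, avg_dev] at h2
    simpa [mul_assoc, mul_add] using h2
  have h3 := avg_mono t h1
  have e : (R - ι (avg R)) * (R - ι (avg R)) =
      R * R - (2:ℝ) • (R * ι (avg R)) + ι (avg R * avg R) := by
    simp only [Algebra.smul_def, map_mul, map_ofNat]; ring
  rw [e]
  simp only [map_add, map_sub, map_smul, avg_mul_ι, avg_ι, D.add_apply, D.sub_apply, D.smul_apply,
    D.mul_apply] at h3 ⊢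
  nlinarith [mul_nonneg (sq_nonneg k) (mul_self_nonneg (avg φ t))]

namespace Geo

variable {G : Geo}

lemma B_eq (φ v : H) {W1x W2t : C2} (h1 : Dx (G.d • (G.Ai * H.fx φ)) W1x)
    (h2 : Dt (G.A * H.ft φ) W2t) :
    G.B φ v = -II ((W1x + W2t) * H.f v) - 5 * II (G.c * H.f φ * H.f v) := by
  have i1 := (h1.mul (H.dx v)).II_eq
  have i2 := (h2.mul (H.dt v)).II_eq (fun x => by simp [H.at_lo]) (fun x => by simp [H.at_hi])
  simp only [B, map_add, map_sub, map_smul, smul_mul_assoc, add_mul, smul_eq_mul] at i1 i2 ⊢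
  linarith

lemma B_symm (u v : H) : G.B u v = G.B v u := by
  unfold B; congr 1; simp only [Algebra.smul_def]; ring

lemma Exact.II_X (hE : G.Exact) {f fx ft : C2} (hx : Dx f fx) (ht : Dt f ft) :
    II (G.μ * (G.X1 * fx + G.X2 * ft)) = 0 := by
  obtain ⟨M1, M2, h1, h2, h⟩ := hE.divX
  have i1 := (h1.mul hx).II_eq
  have i2 := (h2.mul ht).II_eq (fun x => by simp [G.X2_lo]) (fun x => by simp [G.X2_hi])
  have e : G.μ * (G.X1 * fx + G.X2 * ft) =
      (M1 * f + G.μ * G.X1 * fx) + (M2 * f + G.μ * G.X2 * ft) := by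
    linear_combination (exp := 1) -f * h
  rw [e, map_add, i1, i2, add_zero]

lemma II_μ_ι {v : C2} (hv : avg (G.c * v) = 0) (y : D0) : II (G.μ * ι y * v) = 0 := by
  have e : G.μ * ι y * v = ι (ex (2 * b) * y) * (G.c * v) := by rw [μ, map_mul]; ring
  rw [e, II_apply, avg_ι_mul, hv, mul_zero, map_zero]

lemma μ_ex : G.μ * ι (ex (-(2 * b))) = G.c := by
  rw [μ, mul_assoc, ← map_mul, ex_mul]; simp

lemma X2_ex : G.X2 * ι (ex b) = H.f G.φ0 := by
  rw [X2, mul_right_comm, ← map_mul, om_mul_ex]; simp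

lemma μX2F : G.μ * G.X2 * F0t = -((5:ℝ) • (G.c * H.f G.φ0)) := C2_ext (fun x t => by
  have h3 : exp (2 * b * t) * exp (-(b * t)) * exp (-(b * t)) = 1 := by
    rw [← exp_add, ← exp_add, ← exp_zero]; congr 1; ring
  simp only [μ, X2, F0t, C2.mul_apply, D.mul_apply, ι_apply, ex_apply, om_apply, D.neg_apply,
    D.smul_apply, C2.neg_apply, C2.smul_apply, neg_mul]
  linear_combination (-5 * G.c x t * H.f G.φ0 x t) * h3)

end Geo

theorem core {G : Geo} (hE : G.Exact) (hC : G.Coercive) (hA : G.Asym) : Core G := by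
  obtain ⟨δ, hδ, hC⟩ := hC
  set ρ := min (1/10 : ℝ) (δ / (50 * (‖G.μ‖ + 1))) with hρ
  have hρ0 : 0 < ρ := by positivity
  obtain ⟨ε, hε, hεm, H3⟩ := Sol.est3 hE hA hρ0
  refine ⟨ε, hε, fun S h0 h1 h2 => ?_⟩
  have hN : S.Near ε := ⟨hεm, h0, h1, h2⟩
  have hS := hN.good
  have hk := H3 S hN
  have hb := b_pos
  have hρ1 : ρ ≤ 1/10 := min_le_left _ _
  have hρ2 : ‖G.μ‖ * (50 * ρ) ≤ δ := by
    have := (le_div_iff₀ (by positivity)).1 (min_le_right _ _ : ρ ≤ δ / (50 * (‖G.μ‖ + 1)))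
    nlinarith
  have hex : ∀ t : Icc (0:ℝ) π, 1 ≤ exp (2 * b * t) := fun t =>
    one_le_exp (mul_nonneg (by positivity) t.2.1)
  -- the flux is positive
  have hψ : 0 < S.ψ (0:ℝ) hi := by
    have h3 : ∀ t, (algebraMap ℝ D0 (m0 / 10)) t ≤ S.U2 (0:ℝ) t := fun t => by
      have h4 := (abs_le.1 (hk (0:ℝ) t)).2
      have h5 := hS.wt_le (0:ℝ) t
      have h6 := hS.wt_ne (0:ℝ) t
      have h7 : S.U2 (0:ℝ) t = S.U2 (0:ℝ) t / S.wt (0:ℝ) t * S.wt (0:ℝ) t := by field_simp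
      rw [h7, D.algebraMap_apply]
      nlinarith [hex t, m0_pos]
    have h4 := J_mono h3
    rw [Algebra.algebraMap_eq_smul_one, map_smul, J_one, sub_zero, smul_eq_mul] at h4
    exact (mul_pos (by have := m0_pos; positivity) pi_pos).trans_le h4
  have hψ' : ∀ x, S.ψ x hi = S.ψ (0:ℝ) hi := fun x => by
    obtain ⟨K, hK, -⟩ := hS.exists_K hE
    rw [hK, hK, S.w_bdry hE hS.w_pos S.hi1]
  have he1 : 0 < exp (b * π) - 1 := sub_pos.2 (one_lt_exp_iff.2 (mul_pos hb pi_pos))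
  set c := b⁻¹ * (exp (b * π) - 1) / S.ψ (0:ℝ) hi with hc
  have hc0 : 0 < c := by positivity
  let φ : H := H.mk (c • S.ψ - b⁻¹ • (ι (ex b) - 1)) (c • S.U1) (c • S.U2 - ι (ex b))
    (((S.Dx_ψ.smul c).sub (((Dx_ι _).sub Dx_one).smul _)).congr' (by simp))
    (((S.Dt_ψ.smul c).sub (((Dt_ι (D1_ex b)).sub Dt_one).smul _)).congr' (by
      simp [smul_smul, inv_mul_cancel₀ hb.ne']))
    (fun x => by simp [Sol.ψ])
    (fun x => by
      simp only [C2.sub_apply, C2.smul_apply, D.sub_apply, D.smul_apply, hψ', ι_apply, ex_apply,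
        C2.one_apply, D.one_apply, hi_coe, hc]
      field_simp
      ring)
  have d1 : Dx (G.d • (G.Ai * H.fx φ)) (c • S.W1x) :=
    (S.hW1.smul c).congr (by simp [φ, smul_comm c]) rfl
  have d2 : Dt (G.A * H.ft φ) (c • S.W2t - G.μ * F0) :=
    ((S.hW2.smul c).sub G.Dt_Ae).congr (by simp [φ, mul_sub]) rfl
  have eE : c • S.W1x + (c • S.W2t - G.μ * F0) = G.μ * (c • S.w - F0) := by
    rw [← add_sub_assoc, ← smul_add, S.curl, mul_sub, mul_smul_comm]
  have hB := fun v => Geo.B_eq φ v d1 d2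
  have hI := G.ident φ (S.h1x.smul c) (S.h1t.smul c)
    (((S.h2x.smul c).sub (Dx_ι _)).congr' (sub_zero _).symm)
    ((S.h2t.smul c).sub (Dt_ι (D1_ex b))) d1 d2
  rw [eE] at hB hI
  have hφ : φ = 0 := by
    refine hC φ (fun v hv => ?_) ?_
    · set R := c • S.w - F0 + (5:ℝ) • (ι (ex (-(2 * b))) * H.f φ) with hR
      have e1 : G.B φ v = -II (G.μ * (R - ι (avg R)) * H.f v) := by
        have e2 : G.μ * (R - ι (avg R)) * H.f v = G.μ * (c • S.w - F0) * H.f v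
            + (5:ℝ) • (G.c * H.f φ * H.f v) - G.μ * ι (avg R) * H.f v := by
          generalize avg R = y
          rw [hR, ← Geo.μ_ex]
          simp only [Algebra.smul_def]; ring
        rw [hB, e2, map_sub, map_add, map_smul, Geo.II_μ_ι hv, smul_eq_mul]; ring
      have e3 : P2.nrm (R - ι (avg R)) ≤ 50 * ρ * P2.nrm (H.f φ) := by
        refine nrm_osc_le (by positivity) (fun x z t => ?_)
        have h3 := hS.incr hE t (fun x => hk x t) x z
        have h4 : exp (-(2 * b) * t) * exp (2 * b * t) = 1 := by rw [← exp_add]; simp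
        have e4 : H.f φ x t - H.f φ z t = c * (S.ψ x t - S.ψ z t) := by
          simp [φ]; ring
        have e5 : R x t - R z t = 5 * exp (-(2 * b) * t) * c *
            (S.ψ x t - S.ψ z t - -(exp (2 * b * t) / 5) * (S.w x t - S.w z t)) := by
          simp only [hR, F0, C2.add_apply, C2.sub_apply, C2.smul_apply, C2.mul_apply, D.add_apply,
            D.sub_apply, D.smul_apply, D.mul_apply, ι_apply, ex_apply]
          linear_combination (5 * exp (-(2 * b) * t)) * e4 - c * (S.w x t - S.w z t) * h4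
        have h5 : exp (-(2 * b) * t) ≤ 1 := by nlinarith [hex t, exp_pos (-(2 * b) * t)]
        have h6 : |S.w x t - S.w z t| ≤ 10 * |S.ψ x t - S.ψ z t| := by
          have h7 := abs_sub_abs_le_abs_sub (-(exp (2 * b * t) / 5) * (S.w x t - S.w z t))
            (S.ψ x t - S.ψ z t)
          rw [abs_sub_comm _ (S.ψ x t - S.ψ z t), abs_mul, abs_neg,
            abs_of_pos (by positivity : 0 < exp (2 * b * t) / 5)] at h7
          nlinarith [hex t, abs_nonneg (S.w x t - S.w z t)]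
        rw [e4, e5, abs_mul, abs_mul c, abs_of_pos hc0,
          abs_of_pos (by positivity : 0 < 5 * exp (-(2 * b) * t) * c)]
        calc _ ≤ 5 * 1 * c * (ρ * (10 * |S.ψ x t - S.ψ z t|)) := by
              gcongr
              exact h3.trans (mul_le_mul_of_nonneg_left h6 hρ0.le)
          _ = _ := by ring
      rw [e1, abs_neg]
      refine (P2.abs_mul3_le _ _ _).trans (mul_le_mul_of_nonneg_right ?_ (apply_nonneg _ _))
      refine (mul_le_mul_of_nonneg_left e3 (norm_nonneg _)).trans ?_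
      rw [← mul_assoc]
      exact mul_le_mul_of_nonneg_right hρ2 (apply_nonneg _ _)
    · have i1 := hE.II_X (S.hHx.smul (c * c)) (S.hHt.smul (c * c))
      have i2 := hE.II_X (Dx_F0.mul (H.dx φ)) (Dt_F0.mul (H.dt φ))
      have i3 : II (G.μ * F0 * H.f G.φ0) = 0 := Geo.II_μ_ι hE.avg0 _
      have i4 := hB G.φ0
      rw [Geo.B_symm, hE.ker] at i4
      have e : G.μ * (G.X1 * (c * c) • (S.w * S.U1) + G.X2 * (c * c) • (S.w * S.U2)) =
          G.μ * (c • S.w - F0) * (G.X1 * H.fx φ + G.X2 * H.ft φ)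
          + G.μ * (G.X1 * (0 * H.f φ + F0 * H.fx φ) + G.X2 * (F0t * H.f φ + F0 * H.ft φ))
          + G.μ * F0 * H.f G.φ0 + G.μ * (c • S.w - F0) * H.f G.φ0
          + (5:ℝ) • (G.c * H.f φ * H.f G.φ0) := by
        have e1 := G.μX2F
        have e2 := G.X2_ex
        have e3 : H.fx φ = c • S.U1 := rfl
        have e4 : H.ft φ = c • S.U2 - ι (ex b) := rfl
        rw [e3, e4]
        simp only [Algebra.smul_def, map_mul] at e1 ⊢
        linear_combination (exp := 1) -H.f φ * e1 + G.μ * algebraMap ℝ C2 c * S.w * e2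
      rw [e] at i1
      simp only [map_add (f := II), map_smul, i2, i3, smul_eq_mul] at i1
      linarith
  rw [hφ] at d1 d2
  simp only [map_zero, mul_zero, smul_zero] at d1 d2
  rw [d1.unique Dx_zero, d2.unique Dt_zero, add_zero] at eE
  refine ⟨c⁻¹, (inv_pos.2 hc0).ne', C2_ext (fun x t => ?_)⟩
  have := congrArg (fun F : C2 => F x t) eE
  simp only [C2.zero_apply, D.zero_apply, C2.mul_apply, D.mul_apply, C2.sub_apply, D.sub_apply,
    C2.smul_apply, D.smul_apply] at this ⊢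
  have h3 := (mul_eq_zero.1 this.symm).resolve_left (hE.μ_pos x t).ne'
  field_simp
  linarith

theorem partB (G : Geo) : G.Exact → G.Smooth → G.Coercive → G.Asym → Isolated :=
  fun hE hS hC hA => isolated_of_core hE hS (core hE hC hA)

end

end Pool.Agent.P.MP_0d657e_an
end

-- part Pool.Agent.P.MP_0d657e_an.Main
section

/-! Assembly of the parts. -/

open Set Real

namespace Pool.Agent.P.MP_0d657e_an

theorem isolated_of_pos (h : ∃ Ds : Des, Ds.Pos) : Isolated := by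
  obtain ⟨Ds, hP⟩ := h
  obtain ⟨F, C, κ0, η0, hκ, hη0, hF⟩ := Ds.family
  obtain ⟨η1, hη1, hD⟩ := partD Ds F C κ0 hP hκ
  have hm : 0 < min η0 η1 := lt_min hη0 hη1
  have h0 : min η0 η1 / 2 ∈ Ioo 0 η0 :=
    ⟨half_pos hm, (half_lt_self hm).trans_le (min_le_left _ _)⟩
  have h1 : min η0 η1 / 2 ∈ Ioo 0 η1 :=
    ⟨half_pos hm, (half_lt_self hm).trans_le (min_le_right _ _)⟩
  obtain ⟨G, hE, hS, ⟨ap⟩⟩ := hF _ h0
  obtain ⟨hC, hA⟩ := hD _ h1 G hE ap
  exact partB G hE hS hC hA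

end Pool.Agent.P.MP_0d657e_an
end

-- part Pool.Agent.P.MP_0d657e_an.Had
section

/-! Division by `sin t` of functions vanishing at both end points. -/

open Set Real

namespace Pool.Agent.P.MP_0d657e_an

noncomputable section

/-- dilation of the variable -/
def dil (g : D0) : C(ℝ, C(Icc (0:ℝ) π, ℝ)) :=
  ContinuousMap.curry ⟨fun p : ℝ × Icc (0:ℝ) π => ext g (p.1 * p.2),
    (ext_cont g).comp (continuous_fst.mul (continuous_subtype_val.comp continuous_snd))⟩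

/-- dilation as an element of `D0` -/
def dl (g : D0) (s : ℝ) : D0 := D.of (dil g s)

@[simp] lemma dl_apply (g : D0) (s : ℝ) (t : Icc (0:ℝ) π) : dl g s t = ext g (s * t) := rfl

lemma dl_cont (g : D0) : Continuous (dl g) := (dil g).continuous

lemma dl_int (j : ℕ) (g : D0) :
    IntervalIntegrable (fun s : ℝ => s ^ j • dl g s) MeasureTheory.volume 0 1 :=
  ((continuous_pow j).smul (dl_cont g)).intervalIntegrable _ _

lemma norm_dl_le (g : D0) (s : ℝ) : ‖dl g s‖ ≤ ‖g‖ :=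
  D.norm_le (norm_nonneg _) (fun _ => ext_abs_le g _)

/-- weighted average over dilations -/
def Av (j : ℕ) : D0 →L[ℝ] D0 :=
  LinearMap.mkContinuous
    { toFun := fun g => ∫ s in (0:ℝ)..1, s ^ j • dl g s
      map_add' := fun g h => by
        rw [← intervalIntegral.integral_add (dl_int j g) (dl_int j h)]
        congr 1
        funext s
        rw [← smul_add]
        rfl
      map_smul' := fun c g => by
        rw [RingHom.id_apply, ← intervalIntegral.integral_smul]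
        congr 1
        funext s
        rw [smul_comm]
        rfl }
    1 (fun g => by
      have h := intervalIntegral.norm_integral_le_of_norm_le_const (a := 0) (b := 1)
        (f := fun s : ℝ => s ^ j • dl g s) (C := ‖g‖) (fun s hs => by
          rw [uIoc_of_le zero_le_one] at hs
          rw [norm_smul, norm_pow, Real.norm_eq_abs, abs_of_pos hs.1]
          exact (mul_le_of_le_one_left (norm_nonneg _) (pow_le_one₀ hs.1.le hs.2)).trans
            (norm_dl_le g s))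
      simpa using h)

lemma Av_def (j : ℕ) (g : D0) : Av j g = ∫ s in (0:ℝ)..1, s ^ j • dl g s := rfl

lemma map_Av {E : Type*} [NormedAddCommGroup E] [NormedSpace ℝ E] [CompleteSpace E]
    (L : D0 →L[ℝ] E) (j : ℕ) (g : D0) : L (Av j g) = ∫ s in (0:ℝ)..1, s ^ j • L (dl g s) := by
  rw [Av_def, ← L.intervalIntegral_comp_comm (dl_int j g)]
  simp only [map_smul]

lemma Av_apply (j : ℕ) (g : D0) (t : Icc (0:ℝ) π) :
    Av j g t = ∫ s in (0:ℝ)..1, s ^ j * ext g (s * t) := map_Av (D.ev t) j g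

lemma dl_V (g : D0) {s : ℝ} (h0 : 0 ≤ s) (h1 : s ≤ 1) : dl (V g) s = s • V (dl g s) := by
  ext t
  have ht : s * t ∈ Icc (0:ℝ) π :=
    ⟨mul_nonneg h0 t.2.1, (mul_le_of_le_one_left t.2.1 h1).trans t.2.2⟩
  rw [dl_apply, ext_of_mem _ ht, V_apply, D.smul_apply, V_apply]
  have e : ∫ x in (0:ℝ)..(t:ℝ), ext (dl g s) x = ∫ x in (0:ℝ)..(t:ℝ), ext g (s * x) := by
    refine intervalIntegral.integral_congr (fun x hx => ?_)
    rw [uIcc_of_le t.2.1] at hx
    exact ext_of_mem _ ⟨hx.1, hx.2.trans t.2.2⟩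
  rw [e]
  have := intervalIntegral.smul_integral_comp_mul_left (a := 0) (b := (t:ℝ)) (ext g) s
  simp only [smul_eq_mul, mul_zero] at this
  exact this.symm

lemma D1.Av {g g' : D0} (h : D1 g g') (j : ℕ) : D1 (Av j g) (Av (j + 1) g') := by
  have e1 : MP_0d657e_an.Av j (V g') = V (MP_0d657e_an.Av (j + 1) g') := by
    rw [map_Av V, Av_def]
    refine intervalIntegral.integral_congr (fun s hs => ?_)
    rw [uIcc_of_le zero_le_one] at hs
    simp only [dl_V g' hs.1 hs.2, smul_smul, pow_succ]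
  have e2 : MP_0d657e_an.Av j (algebraMap ℝ D0 (g lo))
      = algebraMap ℝ D0 (∫ s in (0:ℝ)..1, s ^ j * g lo) := by
    ext t
    rw [Av_apply]
    simp [ext]
  rw [h.eq_V, map_add, e1, e2]
  exact ((D1_const _).add (D1_V _)).congr' (zero_add _).symm

/-- the coordinate -/
def tt : D0 := res id continuous_id

@[simp] lemma tt_apply (t : Icc (0:ℝ) π) : tt t = t := rfl

lemma tt_mul_Av (g : D0) : tt * Av 0 g = V g := by
  ext t
  rw [D.mul_apply, Av_apply, V_apply, tt_apply]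
  simp

lemma Av_lo (g : D0) : Av 0 g lo = g lo := by
  rw [Av_apply]
  have : ext g 0 = g lo := ext_coe g lo
  simp [this]

/-- reflection of the interval -/
def rf : D0 →L[ℝ] D0 :=
  LinearMap.mkContinuous
    { toFun := fun g => D.mk (fun t => g ⟨π - t, by linarith [t.2.2], by linarith [t.2.1]⟩)
        (g.continuous.comp (Continuous.subtype_mk (continuous_const.sub continuous_subtype_val) _))
      map_add' := fun _ _ => rfl
      map_smul' := fun _ _ => rfl }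
    1 (fun g => D.norm_le (by positivity) (fun t => by
      rw [one_mul]; exact g.norm_coe_le_norm _))

lemma rf_apply (g : D0) (t : Icc (0:ℝ) π) :
    rf g t = g ⟨π - t, by linarith [t.2.2], by linarith [t.2.1]⟩ := rfl

lemma rf_lo (g : D0) : rf g lo = g hi := by
  rw [rf_apply]; congr 1; ext; simp
lemma rf_hi (g : D0) : rf g hi = g lo := by
  rw [rf_apply]; congr 1; ext; simp
lemma rf_mul (g h : D0) : rf (g * h) = rf g * rf h := rfl
lemma rf_rf (g : D0) : rf (rf g) = g := by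
  ext t; rw [rf_apply, rf_apply]; congr 1; ext; simp

lemma D1.rf {g g' : D0} (h : D1 g g') : D1 (rf g) (-rf g') := by
  obtain ⟨Y, h1, h2⟩ := h
  refine ⟨fun t => Y (π - t), fun t => h1 ⟨π - t, by linarith [t.2.2], by linarith [t.2.1]⟩,
    fun t => ?_⟩
  have := (h2 ⟨π - t, by linarith [t.2.2], by linarith [t.2.1]⟩).comp (t:ℝ)
    ((hasDerivAt_id (t:ℝ)).const_sub π)
  exact this.congr_deriv (by simp [rf_apply])

/-- the symmetric averaging operator -/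
def Bv : D0 →L[ℝ] D0 := Av 0 - rf.comp ((Av 0).comp rf)

lemma Bv_apply (g : D0) : Bv g = Av 0 g - rf (Av 0 (rf g)) := rfl

lemma tt_add_rf : tt + rf tt = algebraMap ℝ D0 π := by
  ext t; simp [rf_apply]

lemma Bv_spec {y y' : D0} (h : D1 y y') (h0 : y lo = 0) (h1 : y hi = 0) :
    tt * rf tt * Bv y' = π • y := by
  have e1 : tt * Av 0 y' = y := by
    rw [tt_mul_Av]; simpa [h0] using h.eq_V.symm
  have e2 : tt * Av 0 (rf y') = -rf y := by
    have := h.rf.eq_V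
    rw [rf_lo, h1, map_zero, zero_add, map_neg] at this
    rw [tt_mul_Av, this, neg_neg]
  have e3 : rf tt * rf (Av 0 (rf y')) = -y := by
    rw [← rf_mul, e2, map_neg, rf_rf]
  rw [Bv_apply, Algebra.smul_def, ← tt_add_rf]
  linear_combination (rf tt) * e1 - tt * e3

lemma Sd.Av : ∀ {m : ℕ} {g : D0} (j : ℕ), Sd m g → Sd m (Av j g)
  | 0, _, _, _ => trivial
  | _ + 1, _, j, ⟨_, h, k⟩ => ⟨_, h.Av j, k.Av (j + 1)⟩

lemma Sd.rf : ∀ {m : ℕ} {g : D0}, Sd m g → Sd m (rf g)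
  | 0, _, _ => trivial
  | _ + 1, _, ⟨_, h, k⟩ => ⟨_, h.rf, k.rf.neg⟩

lemma Sd.Bv {m : ℕ} {g : D0} (h : Sd m g) : Sd m (Bv g) :=
  (h.Av 0).sub (h.rf.Av 0).rf

lemma J_c1 : J c1 = 0 := D1_s1.J_zero (by simp) (by simp)

lemma Bv_c1_ne (t : Icc (0:ℝ) π) : Bv c1 t ≠ 0 := by
  have key : ∀ g : D0, J g = 0 → Av 0 g hi = 0 := fun g hg => by
    have := congrArg (fun y : D0 => y hi) (tt_mul_Av g)
    simp only [D.mul_apply, tt_apply, hi_coe, V_hi, hg, mul_eq_zero, pi_pos.ne', false_or] at this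
    exact this
  have hr : J (rf c1) = 0 := by
    have := D1_s1.rf.J_zero (by simp [rf_lo]) (by simp [rf_hi])
    simpa using this
  by_cases h0 : (t:ℝ) = 0
  · have : t = lo := Subtype.ext h0
    rw [this, Bv_apply, D.sub_apply, rf_lo, key _ hr, Av_lo]
    simp
  by_cases h1 : (t:ℝ) = π
  · have : t = hi := Subtype.ext h1
    rw [this, Bv_apply, D.sub_apply, rf_hi, key _ J_c1, Av_lo, rf_lo]
    simp
  intro h
  have := congrArg (fun y : D0 => y t) (Bv_spec D1_s1 (by simp) (by simp))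
  simp only [D.mul_apply, h, mul_zero, D.smul_apply, s1_apply] at this
  have hs := sin_pos_of_pos_of_lt_pi (lt_of_le_of_ne t.2.1 (Ne.symm h0)) (lt_of_le_of_ne t.2.2 h1)
  have := mul_pos pi_pos hs
  linarith

/-- the inverse of `π sin t / (t (π - t))` -/
def σi : D0 := Classical.choose (exists_inv Bv_c1_ne)

lemma σi_spec : Bv c1 * σi = 1 := Classical.choose_spec (exists_inv Bv_c1_ne)

lemma Sd_s1 (m : ℕ) : Sd m s1 := (Sd_sn_cs 1 m).1
lemma Sd_c1 (m : ℕ) : Sd m c1 := (Sd_sn_cs 1 m).2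
lemma Sd_s2 (m : ℕ) : Sd m s2 := (Sd_sn_cs 2 m).1
lemma Sd_c2 (m : ℕ) : Sd m c2 := (Sd_sn_cs 2 m).2

lemma Sd_σi (m : ℕ) : Sd m σi := (Sd_c1 m).Bv.inv σi_spec

/-- the quotient by `sin t`, as an operator on the derivative -/
def Qd : D0 →L[ℝ] D0 := (ContinuousLinearMap.mul ℝ D0 σi).comp Bv

lemma Qd_apply (g : D0) : Qd g = σi * Bv g := rfl

/-- Hadamard division -/
theorem s1_mul_Qd {y y' : D0} (h : D1 y y') (h0 : y lo = 0) (h1 : y hi = 0) :
    s1 * Qd y' = y := by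
  have e1 := Bv_spec h h0 h1
  have e2 := Bv_spec D1_s1 (by simp) (by simp)
  have e3 : π • (s1 * Qd y' - y) = 0 := by
    rw [Qd_apply]
    simp only [Algebra.smul_def] at e1 e2 ⊢
    linear_combination (σi * Bv c1) * e1 - (σi * Bv y') * e2
      + (algebraMap ℝ D0 π * y) * σi_spec
  exact sub_eq_zero.1 ((smul_eq_zero.1 e3).resolve_left pi_pos.ne')

lemma Sd.Qd {m : ℕ} {g : D0} (h : Sd m g) : Sd m (Qd g) := (Sd_σi m).mul h.Bv

lemma eq_zero_of_s1_mul {y : D0} (h : s1 * y = 0) : y = 0 := by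
  have h1 : ∀ t ∈ Ioo (0:ℝ) π, ext y t = 0 := fun t ht => by
    have := congrArg (fun z : D0 => z ⟨t, ht.1.le, ht.2.le⟩) h
    simp only [D.mul_apply, s1_apply, D.zero_apply, mul_eq_zero,
      (sin_pos_of_pos_of_lt_pi ht.1 ht.2).ne', false_or] at this
    rw [ext_of_mem y ⟨ht.1.le, ht.2.le⟩, this]
  have h2 : EqOn (ext y) 0 (closure (Ioo (0:ℝ) π)) :=
    EqOn.closure (fun t ht => h1 t ht) (ext_cont y) continuous_zero
  rw [closure_Ioo pi_pos.ne] at h2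
  ext t
  have := h2 t.2
  simpa using this

end

end Pool.Agent.P.MP_0d657e_an
end

-- part Pool.Agent.P.MP_0d657e_an.Green
section

/-! Dirichlet Green operators for `y'' + λ y` on `[0, π]`. -/

open Set Real

namespace Pool.Agent.P.MP_0d657e_an

noncomputable section

/-- a fundamental system -/
structure Fund (l : ℝ) where
  u : D0
  u1 : D0
  w : D0
  w1 : D0
  hu : D1 u u1
  hu1 : D1 u1 (-(l • u))
  hw : D1 w w1
  hw1 : D1 w1 (-(l • w))
  u_lo : u lo = 0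
  wr : u1 * w - u * w1 = 1

lemma D1_tt : D1 tt 1 :=
  (D1_res (f := id) (f' := fun _ => 1) continuous_id continuous_const
    (fun t => hasDerivAt_id t)).congr' (by ext t; simp)

/-- trigonometric fundamental system -/
def fundP (m : ℝ) (hm : m ≠ 0) : Fund (m ^ 2) where
  u := m⁻¹ • sn m
  u1 := cs m
  w := cs m
  w1 := -(m • sn m)
  hu := ((D1_sn m).smul m⁻¹).congr' (by rw [smul_smul, inv_mul_cancel₀ hm, one_smul])
  hu1 := (D1_cs m).congr' (by rw [smul_smul]; congr 2; field_simp)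
  hw := D1_cs m
  hw1 := ((D1_sn m).smul m).neg.congr' (by rw [smul_smul, sq])
  u_lo := by simp
  wr := by
    ext t
    simp only [D.sub_apply, D.mul_apply, cs_apply, D.smul_apply, sn_apply, D.neg_apply,
      D.one_apply]
    field_simp
    linarith [sin_sq_add_cos_sq (m * t)]

/-- exponential fundamental system -/
def fundN (m : ℝ) (hm : m ≠ 0) : Fund (-m ^ 2) where
  u := (2 * m)⁻¹ • (ex m - ex (-m))
  u1 := (1/2 : ℝ) • (ex m + ex (-m))
  w := ex (-m)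
  w1 := (-m) • ex (-m)
  hu := (((D1_ex m).sub (D1_ex (-m))).smul _).congr' (by
    ext t; simp only [D.smul_apply, D.add_apply, D.sub_apply]; field_simp; ring)
  hu1 := (((D1_ex m).add (D1_ex (-m))).smul _).congr' (by
    ext t; simp only [D.smul_apply, D.add_apply, D.sub_apply, D.neg_apply]; field_simp; ring)
  hw := D1_ex (-m)
  hw1 := ((D1_ex (-m)).smul (-m)).congr' (by
    ext t; simp only [D.smul_apply, D.neg_apply]; ring)
  u_lo := by simp
  wr := by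
    have h := ex_mul m (-m)
    rw [add_neg_cancel, ex_zero] at h
    ext t
    have h' := congrArg (fun y : D0 => y t) h
    simp only [D.smul_apply, D.add_apply, D.sub_apply, D.mul_apply, D.one_apply] at h' ⊢
    field_simp
    linarith

/-- polynomial fundamental system -/
def fund0 : Fund 0 where
  u := tt
  u1 := 1
  w := 1
  w1 := 0
  hu := D1_tt
  hu1 := D1_one.congr' (by simp)
  hw := D1_one
  hw1 := D1_zero.congr' (by simp)
  u_lo := by simp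
  wr := by simp

lemma exists_fund {l : ℝ} (h : ∀ j : ℤ, j ≠ 0 → l ≠ (j:ℝ) ^ 2) : ∃ F : Fund l, F.u hi ≠ 0 := by
  rcases lt_trichotomy l 0 with hl | hl | hl
  · have hm : 0 < √(-l) := Real.sqrt_pos.2 (by linarith)
    have e : l = -(√(-l)) ^ 2 := by rw [Real.sq_sqrt (by linarith)]; ring
    rw [e]
    refine ⟨fundN _ hm.ne', ?_⟩
    have : exp (-√(-l) * π) < exp (√(-l) * π) := by
      apply exp_lt_exp.2; nlinarith [pi_pos]
    simp only [fundN, D.smul_apply, D.sub_apply, ex_apply, hi_coe]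
    exact mul_ne_zero (by positivity) (by linarith)
  · rw [hl]; exact ⟨fund0, by simp [fund0, pi_pos.ne']⟩
  · have hm : 0 < √l := Real.sqrt_pos.2 hl
    have e : l = (√l) ^ 2 := by rw [Real.sq_sqrt hl.le]
    have hs : sin (√l * π) ≠ 0 := by
      intro h0
      obtain ⟨j, hj⟩ := sin_eq_zero_iff.1 h0
      have hj' : (j:ℝ) = √l := mul_right_cancel₀ pi_pos.ne' hj
      refine h j (fun h1 => ?_) (by rw [hj', ← e])
      rw [h1] at hj'
      simp only [Int.cast_zero] at hj'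
      linarith
    rw [e]
    refine ⟨fundP _ hm.ne', ?_⟩
    simp only [fundP, D.smul_apply, sn_apply, hi_coe]
    exact mul_ne_zero (by positivity) hs

namespace Fund

variable {l : ℝ} (F : Fund l)

lemma unique (hF : F.u hi ≠ 0) {y y1 : D0} (h : D1 y y1) (h1 : D1 y1 (-(l • y)))
    (h0 : y lo = 0) (hπ : y hi = 0) : y = 0 := by
  have a := (((h1.mul F.hu).sub (h.mul F.hu1)).congr' (z' := 0) (by
    simp only [Algebra.smul_def]; ring)).eq_const
  have c := (((h1.mul F.hw).sub (h.mul F.hw1)).congr' (z' := 0) (by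
    simp only [Algebra.smul_def]; ring)).eq_const
  simp only [D.sub_apply, D.mul_apply, F.u_lo, h0, mul_zero, zero_mul, sub_zero, map_zero] at a
  generalize (y1 * F.w - y * F.w1) lo = r at c
  have e : y = F.u * algebraMap ℝ D0 r := by
    linear_combination (-y) * F.wr - F.w * a + F.u * c
  have e' := congrArg (fun z : D0 => z hi) e
  simp only [hπ, D.mul_apply, D.algebraMap_apply] at e'
  have : r = 0 := (mul_eq_zero.1 e'.symm).resolve_left hF
  rw [e, this, map_zero, mul_zero]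

/-- the solution of the initial value problem -/
def Y0 : D0 →L[ℝ] D0 :=
  (ContinuousLinearMap.mul ℝ D0 F.u).comp (V.comp (ContinuousLinearMap.mul ℝ D0 F.w))
    - (ContinuousLinearMap.mul ℝ D0 F.w).comp (V.comp (ContinuousLinearMap.mul ℝ D0 F.u))
/-- its derivative -/
def Y1 : D0 →L[ℝ] D0 :=
  (ContinuousLinearMap.mul ℝ D0 F.u1).comp (V.comp (ContinuousLinearMap.mul ℝ D0 F.w))
    - (ContinuousLinearMap.mul ℝ D0 F.w1).comp (V.comp (ContinuousLinearMap.mul ℝ D0 F.u))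

lemma Y0_apply (f : D0) : F.Y0 f = F.u * V (F.w * f) - F.w * V (F.u * f) := rfl
lemma Y1_apply (f : D0) : F.Y1 f = F.u1 * V (F.w * f) - F.w1 * V (F.u * f) := rfl

lemma d0 (f : D0) : D1 (F.Y0 f) (F.Y1 f) :=
  ((F.hu.mul (D1_V (F.w * f))).sub (F.hw.mul (D1_V (F.u * f)))).congr (F.Y0_apply f)
    (by rw [Y1_apply]; ring)

lemma d1 (f : D0) : D1 (F.Y1 f) (f - l • F.Y0 f) :=
  ((F.hu1.mul (D1_V (F.w * f))).sub (F.hw1.mul (D1_V (F.u * f)))).congr (F.Y1_apply f) (by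
    rw [Y0_apply]; simp only [Algebra.smul_def]; linear_combination (-f) * F.wr)

lemma Y0_lo (f : D0) : F.Y0 f lo = 0 := by simp [Y0_apply]
lemma Y0_hi (f : D0) : F.Y0 f hi = F.u hi * J (F.w * f) - F.w hi * J (F.u * f) := by
  simp [Y0_apply]

end Fund

/-- a Green operator modulo a projection -/
structure Gr (l : ℝ) (P : D0 →L[ℝ] D0) where
  G0 : D0 →L[ℝ] D0
  G1 : D0 →L[ℝ] D0
  d0 : ∀ f, D1 (G0 f) (G1 f)
  d1 : ∀ f, D1 (G1 f) (f - P f - l • G0 f)
  lo : ∀ f, G0 f lo = 0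
  hi : ∀ f, G0 f hi = 0

lemma exists_Gr {l : ℝ} (h : ∀ j : ℤ, j ≠ 0 → l ≠ (j:ℝ) ^ 2) : Nonempty (Gr l 0) := by
  obtain ⟨F, hF⟩ := exists_fund h
  let L : D0 →L[ℝ] ℝ := (F.u hi)⁻¹ • (D.ev hi).comp F.Y0
  have hL : ∀ f, L f = (F.u hi)⁻¹ * F.Y0 f hi := fun f => rfl
  refine ⟨⟨F.Y0 - L.smulRight F.u, F.Y1 - L.smulRight F.u1, fun f => (F.d0 f).sub (F.hu.smul _),
    fun f => ((F.d1 f).sub (F.hu1.smul (L f))).congr' ?_, fun f => ?_, fun f => ?_⟩⟩
  · simp only [zero_apply, sub_apply,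
      ContinuousLinearMap.smulRight_apply, Algebra.smul_def]
    ring
  · simp [F.Y0_lo, F.u_lo]
  · simp only [sub_apply, ContinuousLinearMap.smulRight_apply, D.sub_apply,
      D.smul_apply, hL]
    field_simp
    ring

/-- projection on a sine mode -/
def Pj (j : ℕ) : D0 →L[ℝ] D0 :=
  ((2 / π) • J.comp (ContinuousLinearMap.mul ℝ D0 (sn j))).smulRight (sn j)

lemma Pj_apply (j : ℕ) (f : D0) : Pj j f = (2 / π * J (sn j * f)) • sn j := rfl

lemma exists_Gr_res (j : ℕ) (hj : 0 < j) : Nonempty (Gr ((j:ℝ) ^ 2) (Pj j)) := by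
  have hj' : (j:ℝ) ≠ 0 := by positivity
  obtain ⟨F, hF⟩ : ∃ F : Fund ((j:ℝ) ^ 2), F.u = (j:ℝ)⁻¹ • sn j := ⟨fundP j hj', rfl⟩
  obtain ⟨L, hL⟩ : ∃ L : D0 →L[ℝ] D0, ∀ f, L f = f - Pj j f := ⟨1 - Pj j, fun _ => rfl⟩
  refine ⟨⟨F.Y0.comp L, F.Y1.comp L, fun f => F.d0 (L f), fun f => ?_,
    fun f => F.Y0_lo (L f), fun f => ?_⟩⟩
  · rw [← hL]; exact F.d1 (L f)
  have h1 : F.u hi = 0 := by
    have := sn_nat_hi (j:ℤ)
    simp only [Int.cast_natCast] at this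
    rw [hF, D.smul_apply, this, mul_zero]
  have h2 : J (F.u * L f) = 0 := by
    have := J_sn_sn j j hj
    simp only [if_true] at this
    simp only [hF, hL, Pj_apply, smul_mul_assoc, mul_sub, mul_smul_comm, map_smul, map_sub,
      this, smul_eq_mul]
    field_simp
    ring
  rw [ContinuousLinearMap.comp_apply, F.Y0_hi, h1, h2]; ring

/-- maximum principle -/
lemma max_principle {m : ℝ} (hm : 0 < m) {y y1 y2 : D0} (h : D1 y y1) (h1 : D1 y1 y2)
    (h0 : y lo = 0) (hπ : y hi = 0) (t : Icc (0:ℝ) π) : m * y t ≤ ‖y2 - m • y‖ := by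
  obtain ⟨s, -, hs⟩ := isCompact_univ.exists_isMaxOn ⟨t, mem_univ t⟩ y.continuous.continuousOn
  refine (mul_le_mul_of_nonneg_left (hs (mem_univ t)) hm.le).trans ?_
  by_contra hc
  push Not at hc
  have hy : 0 < y s := by
    by_contra h'
    push Not at h'
    nlinarith [norm_nonneg (y2 - m • y)]
  have s0 : (s:ℝ) ≠ 0 := fun e => by
    rw [show s = lo from Subtype.ext e, h0] at hy; exact lt_irrefl _ hy
  have s1 : (s:ℝ) ≠ π := fun e => by
    rw [show s = hi from Subtype.ext e, hπ] at hy; exact lt_irrefl _ hy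
  have hs' : (s:ℝ) ∈ Ioo 0 π := ⟨lt_of_le_of_ne s.2.1 s0.symm, lt_of_le_of_ne s.2.2 s1⟩
  have hmax : IsLocalMax (ext y) s := Filter.Eventually.of_forall (fun x => by
    rw [ext_coe]; exact hs (mem_univ _))
  have hd : deriv (ext y) =ᶠ[nhds (s:ℝ)] ext y1 := by
    filter_upwards [isOpen_Ioo.mem_nhds hs'] with x hx using (h.hasDerivAt hx).deriv
  have hdd : deriv (deriv (ext y)) s = y2 s := by
    rw [hd.deriv_eq, (h1.hasDerivAt hs').deriv, ext_coe]
  have hpos : 0 < y2 s := by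
    have := (y2 - m • y).norm_coe_le_norm s
    simp only [D.sub_apply, D.smul_apply] at this
    linarith [(abs_le.1 this).1]
  have hmin := isLocalMin_of_deriv_deriv_pos (f := ext y) (hdd ▸ hpos) hmax.deriv_eq_zero
    (ext_cont y).continuousAt
  have hc : ext y =ᶠ[nhds (s:ℝ)] fun _ => ext y s := by
    filter_upwards [hmax, hmin] with x a b using le_antisymm a b
  have := hc.deriv.deriv_eq
  rw [hdd] at this
  simp at this
  linarith

lemma norm_le_of_neg {m : ℝ} (hm : 0 < m) {y y1 y2 : D0} (h : D1 y y1) (h1 : D1 y1 y2)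
    (h0 : y lo = 0) (hπ : y hi = 0) : m * ‖y‖ ≤ ‖y2 - m • y‖ := by
  rw [← le_div_iff₀' hm]
  refine D.norm_le (by positivity) (fun t => ?_)
  rw [le_div_iff₀' hm, ← abs_of_pos hm, ← abs_mul, abs_of_pos hm, abs_le]
  have a := max_principle hm h h1 h0 hπ t
  have c := max_principle hm h.neg h1.neg (by simp [h0]) (by simp [hπ]) t
  rw [show -y2 - m • -y = -(y2 - m • y) by rw [smul_neg]; abel, norm_neg] at c
  simp only [D.neg_apply] at c
  constructor <;> linarith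

lemma norm_d_le {y y1 y2 : D0} (h : D1 y y1) (h1 : D1 y1 y2) (h0 : y lo = 0) (hπ : y hi = 0) :
    ‖y1‖ ≤ π * ‖y2‖ := by
  refine D.norm_le (by positivity) (fun t => ?_)
  have hJ := h.J_zero h0 hπ
  have key : ∀ s, |y1 t - y1 s| ≤ π * ‖y2‖ := fun s => by
    refine (h1.abs_sub_le s t).trans ?_
    rw [mul_comm]
    refine mul_le_mul_of_nonneg_right (abs_le.2 ⟨?_, ?_⟩) (norm_nonneg _)
    · linarith [s.2.2, t.2.1]
    · linarith [s.2.1, t.2.2]
  have a := J_mono (y := algebraMap ℝ D0 (y1 t - π * ‖y2‖)) (z := y1) (fun s => by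
    simp only [D.algebraMap_apply]; linarith [(abs_le.1 (key s)).2])
  have c := J_mono (z := algebraMap ℝ D0 (y1 t + π * ‖y2‖)) (y := y1) (fun s => by
    simp only [D.algebraMap_apply]; linarith [(abs_le.1 (key s)).1])
  rw [Algebra.algebraMap_eq_smul_one, map_smul, J_one, hJ, smul_eq_mul, sub_zero] at a c
  rw [abs_le]
  constructor <;> nlinarith [pi_pos]

/-- the resonant projections -/
def Pk (n : ℕ) (k : ℤ) : D0 →L[ℝ] D0 :=
  if k = n ∨ k = -n then Pj 2 else if k = 2 * n ∨ k = -(2 * n) then Pj 1 else 0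

lemma exists_Gr_mode {n : ℕ} (hn : 0 < n) (k : ℤ) :
    Nonempty (Gr (5 - ((k:ℝ) / n) ^ 2) (Pk n k)) := by
  have hn' : (n:ℝ) ≠ 0 := by positivity
  unfold Pk
  split_ifs with h1 h2
  · have : 5 - ((k:ℝ) / n) ^ 2 = ((2:ℕ):ℝ) ^ 2 := by
      rcases h1 with h | h <;> · rw [h]; push_cast; field_simp; norm_num
    rw [this]; exact exists_Gr_res 2 two_pos
  · have : 5 - ((k:ℝ) / n) ^ 2 = ((1:ℕ):ℝ) ^ 2 := by
      rcases h2 with h | h <;> · rw [h]; push_cast; field_simp; norm_num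
    rw [this]; exact exists_Gr_res 1 one_pos
  · refine exists_Gr (fun j hj e => ?_)
    have e1 : (k:ℝ) ^ 2 = (5 - (j:ℝ) ^ 2) * (n:ℝ) ^ 2 := by
      field_simp at e; linarith
    have e2 : k ^ 2 = (5 - j ^ 2) * (n:ℤ) ^ 2 := by exact_mod_cast e1
    have hn2 : (0:ℤ) < (n:ℤ) ^ 2 := by positivity
    have hj2 : j ^ 2 ≤ 5 := by
      by_contra hc
      nlinarith [sq_nonneg k]
    have hja : j ≤ 2 := by nlinarith
    have hjb : -2 ≤ j := by nlinarith
    push Not at h1 h2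
    have a1 : k ^ 2 ≠ (n:ℤ) ^ 2 := fun e => by
      rcases sq_eq_sq_iff_eq_or_eq_neg.1 e with h | h
      exacts [h1.1 h, h1.2 h]
    have a2 : k ^ 2 ≠ (2 * (n:ℤ)) ^ 2 := fun e => by
      rcases sq_eq_sq_iff_eq_or_eq_neg.1 e with h | h
      exacts [h2.1 h, h2.2 h]
    interval_cases j
    · exact a1 (by linarith)
    · exact a2 (by linarith)
    · exact hj rfl
    · exact a2 (by linarith)
    · exact a1 (by linarith)

/-- the Green operators of all angular modes, with uniform bounds -/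
structure Green (n : ℕ) where
  G0 : ℤ → D0 →L[ℝ] D0
  G1 : ℤ → D0 →L[ℝ] D0
  G2 : ℤ → D0 →L[ℝ] D0
  C : ℝ
  d0 : ∀ k f, D1 (G0 k f) (G1 k f)
  d1 : ∀ k f, D1 (G1 k f) (G2 k f)
  lo : ∀ k f, G0 k f lo = 0
  hi : ∀ k f, G0 k f hi = 0
  eq : ∀ k f, G2 k f + (5 - ((k:ℝ) / n) ^ 2) • G0 k f = f - Pk n k f
  b0 : ∀ k : ℤ, (1 + (k:ℝ) ^ 2) * ‖G0 k‖ ≤ C
  b1 : ∀ k, ‖G1 k‖ ≤ C
  b2 : ∀ k, ‖G2 k‖ ≤ C

lemma bdd_of_tail {f : ℤ → ℝ} {N : ℤ} {C : ℝ} (h : ∀ k, N ≤ |k| → f k ≤ C) :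
    ∃ C', ∀ k, f k ≤ C' := by
  refine ⟨|C| + ∑ k ∈ Finset.Ioo (-N) N, |f k|, fun k => ?_⟩
  have hs : 0 ≤ ∑ k ∈ Finset.Ioo (-N) N, |f k| := Finset.sum_nonneg (fun _ _ => abs_nonneg _)
  by_cases hk : N ≤ |k|
  · linarith [h k hk, le_abs_self C]
  · have hk' : k ∈ Finset.Ioo (-N) N := Finset.mem_Ioo.2 (abs_lt.1 (not_le.1 hk))
    have := Finset.single_le_sum (f := fun k => |f k|) (fun _ _ => abs_nonneg _) hk'
    linarith [le_abs_self (f k), abs_nonneg C]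

theorem exists_Green {n : ℕ} (hn : 0 < n) : Nonempty (Green n) := by
  have G : ∀ k : ℤ, Gr (5 - ((k:ℝ) / n) ^ 2) (Pk n k) := fun k => (exists_Gr_mode hn k).some
  have hn1 : (1:ℝ) ≤ n := by exact_mod_cast hn
  let G2 : ℤ → D0 →L[ℝ] D0 := fun k => 1 - Pk n k - (5 - ((k:ℝ) / n) ^ 2) • (G k).G0
  have hG2 : ∀ k f, G2 k f = f - Pk n k f - (5 - ((k:ℝ) / n) ^ 2) • (G k).G0 f := fun _ _ => rfl
  have tail : ∀ k : ℤ, 3 * (n:ℤ) ≤ |k| → (1 + (k:ℝ) ^ 2) * ‖(G k).G0‖ ≤ 5 * n ^ 2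
      ∧ ‖(G k).G1‖ ≤ 2 * π ∧ ‖G2 k‖ ≤ 2 := by
    intro k hk
    have hP : Pk n k = 0 := by
      unfold Pk
      rw [if_neg, if_neg]
      · rcases abs_cases k with h | h <;> omega
      · rcases abs_cases k with h | h <;> omega
    have hk2 : 9 * (n:ℝ) ^ 2 ≤ (k:ℝ) ^ 2 := by
      have : (3 * (n:ℤ)) ^ 2 ≤ |k| ^ 2 := pow_le_pow_left₀ (by positivity) hk 2
      rw [sq_abs] at this
      have : ((3 * (n:ℤ)) ^ 2 : ℤ) ≤ ((k ^ 2 : ℤ) : ℝ) := by exact_mod_cast this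
      push_cast at this; linarith
    set m : ℝ := ((k:ℝ) / n) ^ 2 - 5 with hm
    have hm1 : m * (n:ℝ) ^ 2 = (k:ℝ) ^ 2 - 5 * n ^ 2 := by rw [hm]; field_simp
    have hm0 : 0 < m := by
      by_contra hc
      nlinarith
    have e2 : ∀ f, G2 k f = f + m • (G k).G0 f := fun f => by
      have : Pk n k f = 0 := by rw [hP]; rfl
      rw [hG2, this, hm]; module
    have b0 : ∀ f, m * ‖(G k).G0 f‖ ≤ ‖f‖ := fun f => by
      have := norm_le_of_neg hm0 ((G k).d0 f) ((G k).d1 f) ((G k).lo f) ((G k).hi f)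
      rwa [← hG2, e2, add_sub_cancel_right] at this
    have b2 : ∀ f, ‖G2 k f‖ ≤ 2 * ‖f‖ := fun f => by
      rw [e2]
      refine (norm_add_le _ _).trans ?_
      rw [norm_smul, Real.norm_eq_abs, abs_of_pos hm0]
      linarith [b0 f]
    refine ⟨?_, ContinuousLinearMap.opNorm_le_bound _ (by positivity) (fun f => ?_),
      ContinuousLinearMap.opNorm_le_bound _ (by positivity) b2⟩
    · have : ‖(G k).G0‖ ≤ m⁻¹ := ContinuousLinearMap.opNorm_le_bound _ (by positivity)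
        (fun f => by rw [le_inv_mul_iff₀ hm0]; exact b0 f)
      refine (mul_le_mul_of_nonneg_left this (by positivity)).trans ?_
      rw [mul_inv_le_iff₀ hm0]
      nlinarith
    · have := norm_d_le ((G k).d0 f) ((G k).d1 f) ((G k).lo f) ((G k).hi f)
      rw [← hG2] at this
      nlinarith [b2 f, pi_pos]
  obtain ⟨C0, h0⟩ := bdd_of_tail (fun k hk => (tail k hk).1)
  obtain ⟨C1, h1⟩ := bdd_of_tail (fun k hk => (tail k hk).2.1)
  obtain ⟨C2, h2⟩ := bdd_of_tail (fun k hk => (tail k hk).2.2)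
  exact ⟨⟨fun k => (G k).G0, fun k => (G k).G1, G2, max C0 (max C1 C2), fun k => (G k).d0,
    fun k => (G k).d1, fun k => (G k).lo, fun k => (G k).hi, fun k f => by rw [hG2]; abel,
    fun k => (h0 k).trans (le_max_left _ _),
    fun k => (h1 k).trans ((le_max_left _ _).trans (le_max_right _ _)),
    fun k => (h2 k).trans ((le_max_right _ _).trans (le_max_right _ _))⟩⟩

lemma ode5_unique {y y1 : D0} (h : D1 y y1) (h1 : D1 y1 (-((5:ℝ) • y))) (h0 : y lo = 0)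
    (hπ : y hi = 0) : y = 0 := by
  obtain ⟨F, hF⟩ := exists_fund (l := 5) (fun j _ e => by
    have e2 : (5:ℤ) = j ^ 2 := by exact_mod_cast e
    have hja : j ≤ 2 := by nlinarith
    have hjb : -2 ≤ j := by nlinarith
    interval_cases j <;> omega)
  exact F.unique hF h h1 h0 hπ

end

end Pool.Agent.P.MP_0d657e_an
end

-- part Pool.Agent.P.MP_0d657e_an.PosE1
section

/-! One dimensional tools: a priori estimates, density of cosine polynomials, explicit integrals. -/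

open Set Real Filter Topology Asymptotics

namespace Pool.Agent.P.MP_0d657e_an.E

noncomputable section

lemma nr_le (y : H1) : H1.nr y ≤ 2 * PJ.nrm (H1.d y) := by
  have h : PJ.nrm (H1.f y) ≤ PJ.nrm (H1.d y) := Real.sqrt_le_sqrt (H1.poincare y)
  rw [H1.nr_apply]; linarith

lemma sqrt_pi_le : √π ≤ 2 := by
  rw [sqrt_le_left (by norm_num)]; linarith [pi_le_four]

lemma nrm_le2 (y : D0) : PJ.nrm y ≤ 2 * ‖y‖ := by
  have := nrm_le_norm' y
  rw [sub_zero] at this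
  exact this.trans (mul_le_mul_of_nonneg_right sqrt_pi_le (norm_nonneg _))

lemma norm_V_le2 (y : D0) : ‖V y‖ ≤ 2 * PJ.nrm y := by
  have := norm_V_le y
  rw [sub_zero] at this
  exact this.trans (mul_le_mul_of_nonneg_right sqrt_pi_le (apply_nonneg _ _))

lemma f_eq_V (y : H1) : H1.f y = V (H1.d y) := by
  have := (H1.d1 y).eq_V
  rwa [H1.at_lo, map_zero, zero_add] at this

lemma norm_f_le (y : H1) : ‖H1.f y‖ ≤ 2 * PJ.nrm (H1.d y) := by
  rw [f_eq_V]; exact norm_V_le2 _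

lemma J_mul_le (y z : D0) : |J (y * z)| ≤ PJ.nrm y * PJ.nrm z := PJ.abs_mul_le y z

lemma Q1_add (m : ℝ) (y z θ : H1) : Q1 m (y + z) θ = Q1 m y θ + Q1 m z θ := by
  simp only [Q1, map_add, add_mul, smul_add]; ring
lemma Q1_smul (m c : ℝ) (y θ : H1) : Q1 m (c • y) θ = c * Q1 m y θ := by
  simp only [Q1, map_add, map_smul, smul_mul_assoc, smul_eq_mul]; ring
lemma Q1_sub (m : ℝ) (y z θ : H1) : Q1 m (y - z) θ = Q1 m y θ - Q1 m z θ := by
  simp only [Q1, map_add, map_sub, sub_mul, smul_sub]; ring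
lemma Q1_comm (m : ℝ) (y θ : H1) : Q1 m y θ = Q1 m θ y := by
  simp only [Q1, mul_comm]

lemma Q1_ode {m : ℝ} (y θ : H1) {y2 : D0} (h : D1 (H1.d y) y2) :
    Q1 m y θ = -J ((y2 - m • H1.f y) * H1.f θ) := by
  have := H1.parts h θ
  simp only [Q1, map_add, map_sub, sub_mul, smul_mul_assoc, map_smul, smul_eq_mul, this]; ring

lemma apriori0 : ∃ C > 0, ∀ (m : ℝ) (y : H1) (E : ℝ), -5 ≤ m →
    (∀ θ, |Q1 m y θ| ≤ E * H1.nr θ) → 0 ≤ E →
    H1.nr y ≤ C * (E + |J (H1.f y * s1)| + |J (H1.f y * s2)|) := by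
  refine ⟨12, by norm_num, fun m y E hm h hE => ?_⟩
  have h1 := (le_abs_self _).trans (h y)
  have h2 := H1.gap y
  have h3 := nr_le y
  have h4 : PJ.nrm (H1.d y) ^ 2 = J (H1.d y * H1.d y) := PJ.nrm_sq _
  have h5 := JJ_nonneg (H1.f y)
  have h6 : 2 / π ≤ 1 := by rw [div_le_one pi_pos]; linarith [pi_gt_three]
  have h7 : 0 ≤ 2 / π := by positivity
  rw [Q1, map_add, map_smul, smul_eq_mul] at h1
  rw [← sq_abs (J (H1.f y * s1)), ← sq_abs (J (H1.f y * s2))] at h2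
  have a1 := abs_nonneg (J (H1.f y * s1))
  have a2 := abs_nonneg (J (H1.f y * s2))
  have hW := apply_nonneg PJ.nrm (H1.d y)
  generalize |J (H1.f y * s1)| = a at *
  generalize |J (H1.f y * s2)| = c at *
  generalize PJ.nrm (H1.d y) = W at *
  have h8 : 4 * W ^ 2 ≤ 18 * E * W + 40 * (a ^ 2 + c ^ 2) := by
    nlinarith [mul_le_mul_of_nonneg_left h3 hE, mul_le_mul_of_nonneg_right h6 (sq_nonneg a),
      mul_le_mul_of_nonneg_right h6 (sq_nonneg c), mul_nonneg h7 (sq_nonneg c),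
      mul_nonneg (by linarith : 0 ≤ m + 5) h5]
  have h9 : W ≤ 6 * (E + a + c) := by
    by_contra hc
    push Not at hc
    nlinarith [mul_nonneg hE a1, mul_nonneg hE a2, mul_nonneg a1 a2, mul_nonneg hE hW]
  linarith

lemma coef_le {m j E r : ℝ} {x N : ℝ} (h : |(j + m) * x| ≤ E * N) (hr : 0 < r) (hE : 0 ≤ E)
    (hN : 0 ≤ N) (h' : x = 0 ∨ r ≤ |m + j|) : |x| ≤ N / r * E := by
  rcases h' with h' | h'
  · rw [h', abs_zero]; positivity
  · rw [abs_mul, add_comm] at h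
    rw [div_mul_eq_mul_div, le_div_iff₀ hr]
    nlinarith [mul_le_mul_of_nonneg_right h' (abs_nonneg x)]

/-- a priori estimate away from the resonances -/
lemma apriori {r : ℝ} (hr : 0 < r) : ∃ C > 0, ∀ (m : ℝ) (y : H1) (E : ℝ), -5 ≤ m →
    (∀ θ, |Q1 m y θ| ≤ E * H1.nr θ) → 0 ≤ E → (J (H1.f y * s1) = 0 ∨ r ≤ |m + 1|) →
    (J (H1.f y * s2) = 0 ∨ r ≤ |m + 4|) → H1.nr y ≤ C * E := by
  obtain ⟨C, hC, H⟩ := apriori0
  have n1 := apply_nonneg H1.nr S1
  have n2 := apply_nonneg H1.nr S2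
  refine ⟨C * (1 + H1.nr S1 / r + H1.nr S2 / r), by positivity, fun m y E hm h hE h1 h2 => ?_⟩
  have k1 := coef_le (Q1_S1 m y ▸ h S1) hr hE n1 h1
  have k2 := coef_le (Q1_S2 m y ▸ h S2) hr hE n2 h2
  refine (H m y E hm h hE).trans ?_
  rw [mul_assoc]
  exact mul_le_mul_of_nonneg_left (by linarith) hC.le

/-- removing a resonant mode -/
lemma Q1_proj {m E l : ℝ} {y e : H1} (he : ∀ z, Q1 m z e = l * J (H1.f z * H1.f e))
    (h : ∀ θ, |Q1 m y θ| ≤ E * H1.nr θ) (θ : H1) :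
    |Q1 m (y - (2 / π * J (H1.f y * H1.f e)) • e) θ| ≤ (1 + H1.nr e * H1.nr e) * E * H1.nr θ := by
  have e1 : Q1 m (y - (2 / π * J (H1.f y * H1.f e)) • e) θ =
      Q1 m y θ - 2 / π * (J (H1.f θ * H1.f e) * Q1 m y e) := by
    rw [Q1_sub, Q1_smul, Q1_comm m e, he, he]; ring
  have h6 : 2 / π ≤ 1 := by rw [div_le_one pi_pos]; linarith [pi_gt_three]
  have h7 : 0 ≤ 2 / π := by positivity
  have h1 : |J (H1.f θ * H1.f e)| ≤ H1.nr θ * H1.nr e := (J_mul_le _ _).trans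
    (mul_le_mul (H1.f_le _) (H1.f_le _) (apply_nonneg _ _) (apply_nonneg _ _))
  have h2 := mul_le_mul h1 (h e) (abs_nonneg _) (by positivity)
  rw [e1]
  refine (abs_sub _ _).trans ?_
  rw [abs_mul, abs_of_nonneg h7, abs_mul]
  have h3 := mul_le_mul h6 h2 (by positivity) zero_le_one
  linarith [h θ]

/-- a classical solution of the Dirichlet problem -/
structure Ode (l : ℝ) (φ φ1 φ2 F : D0) : Prop where
  d0 : D1 φ φ1
  d1 : D1 φ1 φ2
  lo : φ lo = 0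
  hi : φ hi = 0
  eq : φ2 + l • φ = F

namespace Ode
variable {l : ℝ} {φ φ1 φ2 F : D0}
/-- the solution as an element of `H1` -/
def h1 (h : Ode l φ φ1 φ2 F) : H1 := H1.mk φ φ1 h.d0 h.lo h.hi
@[simp] lemma f_h1 (h : Ode l φ φ1 φ2 F) : H1.f h.h1 = φ := rfl
@[simp] lemma d_h1 (h : Ode l φ φ1 φ2 F) : H1.d h.h1 = φ1 := rfl
lemma weak (h : Ode l φ φ1 φ2 F) (θ : H1) : Q1 (-l) h.h1 θ = -J (F * H1.f θ) := by
  rw [Q1_ode (y := h.h1) θ h.d1, f_h1, neg_smul, sub_neg_eq_add, h.eq]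
lemma sub {ψ ψ1 ψ2 G : D0} {l' : ℝ} (h : Ode l φ φ1 φ2 F) (k : Ode l' ψ ψ1 ψ2 G) :
    Ode l (φ - ψ) (φ1 - ψ1) (φ2 - ψ2) (F - G - (l - l') • ψ) :=
  ⟨h.d0.sub k.d0, h.d1.sub k.d1, by simp [h.lo, k.lo], by simp [h.hi, k.hi], by
    rw [← h.eq, ← k.eq]; module⟩
lemma orth1 (h : Ode l φ φ1 φ2 F) (hl : l ≠ 1) (hF : J (F * s1) = 0) : J (φ * s1) = 0 := by
  have := h.weak S1
  rw [Q1_S1, f_S1, hF, neg_zero, f_h1] at this
  exact (mul_eq_zero.1 this).resolve_left (fun e => hl (by linarith))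
lemma orth2 (h : Ode l φ φ1 φ2 F) (hl : l ≠ 4) (hF : J (F * s2) = 0) : J (φ * s2) = 0 := by
  have := h.weak S2
  rw [Q1_S2, f_S2, hF, neg_zero, f_h1] at this
  exact (mul_eq_zero.1 this).resolve_left (fun e => hl (by linarith))
end Ode

lemma Ode.bound : ∃ C > 0, ∀ {l : ℝ} {φ φ1 φ2 F : D0}, Ode l φ φ1 φ2 F → |l| ≤ 5 →
    (J (φ * s1) = 0 ∨ 1/2 ≤ |-l + 1|) → (J (φ * s2) = 0 ∨ 1/2 ≤ |-l + 4|) →
    ‖φ1‖ ≤ C * ‖F‖ ∧ ‖φ2‖ ≤ C * ‖F‖ := by
  obtain ⟨C, hC, H⟩ := apriori (r := 1/2) (by norm_num)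
  refine ⟨4 * (1 + 20 * C), by positivity, fun {l φ φ1 φ2 F} h hl h1 h2 => ?_⟩
  have k := H (-l) h.h1 (2 * ‖F‖) (by linarith [(abs_le.1 hl).2]) (fun θ => by
    rw [h.weak, abs_neg]
    exact (J_mul_le _ _).trans (mul_le_mul (nrm_le2 F) (H1.f_le _) (apply_nonneg _ _)
      (by positivity))) (by positivity) h1 h2
  have k1 : ‖φ‖ ≤ 2 * (C * (2 * ‖F‖)) :=
    (norm_f_le h.h1).trans (mul_le_mul_of_nonneg_left ((H1.d_le _).trans k) zero_le_two)
  have k2 : ‖φ2‖ ≤ (1 + 20 * C) * ‖F‖ := by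
    rw [eq_sub_of_add_eq h.eq]
    refine (norm_sub_le _ _).trans ?_
    rw [norm_smul, Real.norm_eq_abs]
    nlinarith [mul_le_mul hl k1 (norm_nonneg _) (by norm_num)]
  have k3 := norm_d_le h.d0 h.d1 h.lo h.hi
  have k4 : 0 ≤ (1 + 20 * C) * ‖F‖ := by positivity
  constructor
  · nlinarith [mul_le_mul pi_le_four k2 (norm_nonneg _) (by norm_num)]
  · nlinarith

lemma exists_ode {l : ℝ} {P : D0 →L[ℝ] D0} (G : Gr l P) {F : D0} (hF : P F = 0) :
    Ode l (G.G0 F) (G.G1 F) (F - l • G.G0 F) F :=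
  ⟨G.d0 F, by simpa [hF] using G.d1 F, G.lo F, G.hi F, by abel⟩

/-- derivative of the Hadamard quotient -/
lemma exists_Qd' : ∃ A B : D0 →L[ℝ] D0, ∀ g g', D1 g g' → D1 (Qd g) (A g + B g') := by
  obtain ⟨σ', hσ, -⟩ := Sd_σi 1
  refine ⟨(ContinuousLinearMap.mul ℝ D0 σ').comp Bv, (ContinuousLinearMap.mul ℝ D0 σi).comp
    (Av 1 - rf.comp ((Av 1).comp rf)), fun g g' h => ?_⟩
  refine (hσ.mul ((h.Av 0).sub (h.rf.Av 0).rf)).congr rfl ?_
  simp [Bv_apply, mul_sub]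

/-- first part of the derivative of the quotient -/
def QA : D0 →L[ℝ] D0 := exists_Qd'.choose
/-- second part of the derivative of the quotient -/
def QB : D0 →L[ℝ] D0 := exists_Qd'.choose_spec.choose
lemma D1_Qd {g g' : D0} (h : D1 g g') : D1 (Qd g) (QA g + QB g') :=
  exists_Qd'.choose_spec.choose_spec g g' h

lemma Ode.quot {l : ℝ} {φ φ1 φ2 F : D0} (h : Ode l φ φ1 φ2 F) :
    c1 * Qd φ1 + s1 * (QA φ1 + QB φ2) = φ1 :=
  D1.unique pi_pos (D1_s1.mul (D1_Qd h.d1)) (by rw [s1_mul_Qd h.d0 h.lo h.hi]; exact h.d0)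

lemma J_pos {y : D0} (h : ∀ t, 0 ≤ y t) {t : Icc (0:ℝ) π} (ht : y t ≠ 0) : 0 < J y := by
  rw [J_apply]
  refine intervalIntegral.integral_pos pi_pos (ext_cont y).continuousOn (fun x _ => h _)
    ⟨t, t.2, ?_⟩
  rw [ext_coe]
  exact lt_of_le_of_ne (h t) ht.symm

/-- the midpoint -/
def mid : Icc (0:ℝ) π := ⟨π / 2, by positivity, by linarith [pi_pos]⟩
@[simp] lemma mid_coe : (mid : ℝ) = π / 2 := rfl

lemma posW {f : D0} (h0 : 0 < f lo) (h1 : 0 < f hi) :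
    ∃ c : ℝ, ∃ w > 0, ∀ t, w ≤ f t + c * (s1 t * s1 t) := by
  have hpos : ∀ t, f t ≤ 0 → 0 < s1 t * s1 t := fun t ht => by
    have a : (t:ℝ) ≠ 0 := fun e => by rw [show t = lo from Subtype.ext e] at ht; linarith
    have c : (t:ℝ) ≠ π := fun e => by rw [show t = hi from Subtype.ext e] at ht; linarith
    exact mul_self_pos.2 (by
      rw [s1_apply]
      exact (sin_pos_of_pos_of_lt_pi (lt_of_le_of_ne t.2.1 a.symm) (lt_of_le_of_ne t.2.2 c)).ne')
  have key : ∃ c : ℝ, ∀ t, 0 < f t + c * (s1 t * s1 t) := by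
    by_cases hne : ({t | f t ≤ 0} : Set (Icc (0:ℝ) π)).Nonempty
    · obtain ⟨s, hs, hm⟩ := (isClosed_le f.continuous continuous_const).isCompact.exists_isMinOn
        hne (s1 * s1).continuous.continuousOn
      have hs' := hpos s hs
      refine ⟨(‖f‖ + 1) / (s1 s * s1 s), fun t => ?_⟩
      by_cases ht : f t ≤ 0
      · have h2 : s1 s * s1 s ≤ s1 t * s1 t := hm ht
        have h3 := mul_le_mul_of_nonneg_left h2 (by positivity : 0 ≤ (‖f‖ + 1) / (s1 s * s1 s))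
        rw [div_mul_cancel₀ _ hs'.ne'] at h3
        linarith [(abs_le.1 (f.norm_coe_le_norm t)).1]
      · exact add_pos_of_pos_of_nonneg (not_le.1 ht) (mul_nonneg (by positivity)
          (mul_self_nonneg _))
    · exact ⟨0, fun t => by simpa using not_le.1 (fun h => hne ⟨t, h⟩)⟩
  obtain ⟨c, hc⟩ := key
  obtain ⟨s, -, hm⟩ := isCompact_univ.exists_isMinOn ⟨lo, mem_univ _⟩
    (f + c • (s1 * s1)).continuous.continuousOn
  exact ⟨c, _, hc s, fun t => hm (mem_univ t)⟩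

/-- cosine polynomials -/
def CP : Submodule ℝ D0 := Submodule.span ℝ (range fun j : ℤ => (cs j : D0))

lemma CP_dense (y : D0) {δ : ℝ} (hδ : 0 < δ) : ∃ Q ∈ CP, ‖y - Q‖ ≤ δ := by
  have hcs : ∀ j : ℤ, (cs j : D0) ∈ CP := fun j => Submodule.subset_span ⟨j, rfl⟩
  have h1 : (1 : D0) ∈ CP := by simpa using hcs 0
  have hmul : ∀ x y : D0, x ∈ CP → y ∈ CP → x * y ∈ CP := by
    intro x y hx hy
    refine Submodule.span_induction₂ (p := fun x y _ _ => x * y ∈ CP) ?_ ?_ ?_ ?_ ?_ ?_ ?_ hx hy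
    · rintro _ _ ⟨j, rfl⟩ ⟨k, rfl⟩
      rw [cs_mul_cs]
      refine CP.smul_mem _ (CP.add_mem ?_ ?_)
      · simpa using hcs (j + k)
      · simpa using hcs (j - k)
    · intro y _; simp
    · intro x _; simp
    · intro x y z _ _ _ h1 h2; rw [add_mul]; exact CP.add_mem h1 h2
    · intro x y z _ _ _ h1 h2; rw [mul_add]; exact CP.add_mem h1 h2
    · intro r x y _ _ h1; rw [smul_mul_assoc]; exact CP.smul_mem _ h1
    · intro r x y _ _ h1; rw [mul_smul_comm]; exact CP.smul_mem _ h1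
  let A : Subalgebra ℝ C(Icc (0:ℝ) π, ℝ) := CP.toSubalgebra h1 hmul
  have hA : A.SeparatesPoints := fun s t hst =>
    ⟨_, ⟨(cs (1:ℤ) : D0), hcs 1, rfl⟩, fun e => hst (Subtype.ext (injOn_cos s.2 t.2 (by
      have e' : (cs ((1:ℤ):ℝ) : D0) s = (cs ((1:ℤ):ℝ) : D0) t := e
      simpa using e')))⟩
  obtain ⟨g, hg⟩ := ContinuousMap.exists_mem_subalgebra_near_continuousMap_of_separatesPoints A hA
    y.cm δ hδ
  exact ⟨D.of g, g.2, by rw [norm_sub_rev]; exact hg.le⟩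

lemma CP_d {Q : D0} (h : Q ∈ CP) : ∃ Q', D1 Q Q' := by
  induction h using Submodule.span_induction with
  | mem x hx => obtain ⟨j, rfl⟩ := hx; exact ⟨_, D1_cs _⟩
  | zero => exact ⟨_, D1_zero⟩
  | add x y _ _ h1 h2 => exact ⟨_, h1.choose_spec.add h2.choose_spec⟩
  | smul r x _ h1 => exact ⟨_, h1.choose_spec.smul r⟩

/-- pairing with the derivative is a compact functional -/
lemma compact_fun (Ξ : D0) {δ : ℝ} (hδ : 0 < δ) : ∃ C ≥ 0, ∀ y : H1,
    |J (Ξ * H1.d y)| ≤ δ * PJ.nrm (H1.d y) + C * PJ.nrm (H1.f y) := by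
  obtain ⟨Q, hQ, h⟩ := CP_dense Ξ (half_pos hδ)
  obtain ⟨Q', hQ'⟩ := CP_d hQ
  refine ⟨PJ.nrm Q', apply_nonneg _ _, fun y => ?_⟩
  have e : J (Ξ * H1.d y) = J ((Ξ - Q) * H1.d y) - J (Q' * H1.f y) := by
    rw [H1.parts hQ' y, sub_mul, map_sub]; ring
  rw [e]
  refine (abs_sub _ _).trans (add_le_add ((J_mul_le _ _).trans ?_) (J_mul_le _ _))
  exact mul_le_mul_of_nonneg_right ((nrm_le2 _).trans (by linarith)) (apply_nonneg _ _)

/-- smooth functions -/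
def Smo (y : D0) : Prop := ∀ m, Sd m y

lemma Smo.add {y z : D0} (h : Smo y) (k : Smo z) : Smo (y + z) := fun m => (h m).add (k m)
lemma Smo.sub {y z : D0} (h : Smo y) (k : Smo z) : Smo (y - z) := fun m => (h m).sub (k m)
lemma Smo.mul {y z : D0} (h : Smo y) (k : Smo z) : Smo (y * z) := fun m => (h m).mul (k m)
lemma Smo.neg {y : D0} (h : Smo y) : Smo (-y) := fun m => (h m).neg
lemma Smo.smul {y : D0} (c : ℝ) (h : Smo y) : Smo (c • y) := fun m => (h m).smul c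
lemma Smo_s1 : Smo s1 := Sd_s1
lemma Smo_c1 : Smo c1 := Sd_c1
lemma Smo_ex (r : ℝ) : Smo (ex r) := Sd_ex r
lemma Smo_om : Smo om := Sd_ex _
lemma Smo_zero : Smo 0 := Sd_zero
lemma Smo_one : Smo 1 := fun m => by simpa using Sd_const (a := 0) (b := π) 1 m
lemma Smo.d {y y' : D0} (h : Smo y) (k : D1 y y') : Smo y' := fun m => by
  obtain ⟨z, hz, hm⟩ := h (m + 1)
  rwa [D1.unique pi_pos k hz]
lemma Smo.ex_d {y : D0} (h : Smo y) : ∃ y', D1 y y' ∧ Smo y' := by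
  obtain ⟨z, hz, -⟩ := h 1
  exact ⟨z, hz, h.d hz⟩
lemma Smo.of_d {y y' : D0} (k : D1 y y') (h : Smo y') : Smo y
  | 0 => trivial
  | m + 1 => ⟨y', k, h m⟩

/-- functions of the form `p sin 2t + r sin t` with `p` smooth -/
def Dv (h : D0) : Prop := ∃ (p : D0) (r : ℝ), Smo p ∧ h = p * s2 + r • s1

lemma Dv.add {y z : D0} (h : Dv y) (k : Dv z) : Dv (y + z) := by
  obtain ⟨p, r, hp, rfl⟩ := h
  obtain ⟨q, s, hq, rfl⟩ := k
  exact ⟨p + q, r + s, hp.add hq, by rw [add_mul, add_smul]; abel⟩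
lemma Dv.smul {y : D0} (c : ℝ) (h : Dv y) : Dv (c • y) := by
  obtain ⟨p, r, hp, rfl⟩ := h
  exact ⟨c • p, c * r, hp.smul c, by rw [smul_add, smul_mul_assoc, smul_smul]⟩
lemma Dv_zero : Dv 0 := ⟨0, 0, Smo_zero, by simp⟩

lemma Dv_sn (j : ℤ) : Dv (sn j) := by
  have step : ∀ j : ℝ, (sn (j + 2) : D0) = sn (j - 2) + (2:ℝ) • (cs j * s2) := fun j => by
    ext t; simp [add_mul, sub_mul, sin_add, sin_sub]; ring
  have hc : ∀ j : ℝ, Dv (cs j * s2) := fun j => ⟨cs j, 0, fun m => (Sd_sn_cs j m).2, by simp⟩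
  have h0 : Dv (sn (0:ℝ)) := by simpa using Dv_zero
  have h1 : Dv (sn (1:ℝ)) := ⟨0, 1, Smo_zero, by simp [s1]⟩
  have h2 : Dv (sn (2:ℝ)) := ⟨1, 0, Smo_one, by simp [s2]⟩
  have hneg : ∀ j : ℝ, Dv (sn j) → Dv (sn (-j)) := fun j h => by
    rw [sn_neg, ← neg_one_smul ℝ]; exact h.smul _
  have hn : ∀ n : ℕ, Dv (sn ((n:ℝ) - 2)) ∧ Dv (sn ((n:ℝ) - 1)) ∧ Dv (sn (n:ℝ))
      ∧ Dv (sn ((n:ℝ) + 1)) := by
    intro n
    induction n with
    | zero => simpa using ⟨hneg _ h2, hneg _ h1, Dv_zero, h1⟩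
    | succ n ih =>
      push_cast
      refine ⟨by convert ih.2.1 using 2; ring, by convert ih.2.2.1 using 2; ring, ih.2.2.2, ?_⟩
      rw [add_assoc, one_add_one_eq_two, step]
      exact ih.1.add ((hc _).smul _)
  obtain ⟨n, rfl | rfl⟩ := j.eq_nat_or_neg
  · simpa using (hn n).2.2.1
  · simpa using hneg _ (hn n).2.2.1

lemma CP_prim {Q : D0} (h : Q ∈ CP) : ∃ (P : H1) (r : ℝ), Dv (H1.f P) ∧ Q = H1.d P + r • 1 := by
  induction h using Submodule.span_induction with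
  | mem x hx =>
    obtain ⟨j, rfl⟩ := hx
    by_cases hj : j = 0
    · exact ⟨0, 1, by simpa using Dv_zero, by simp [hj]⟩
    · refine ⟨(j:ℝ)⁻¹ • SN j, 0, by simpa using (Dv_sn j).smul _, ?_⟩
      simp [smul_smul, inv_mul_cancel₀ (show (j:ℝ) ≠ 0 by exact_mod_cast hj)]
  | zero => exact ⟨0, 0, by simpa using Dv_zero, by simp⟩
  | add x y _ _ h1 h2 =>
    obtain ⟨P, r, hP, rfl⟩ := h1
    obtain ⟨Q, s, hQ, rfl⟩ := h2
    exact ⟨P + Q, r + s, by simpa using hP.add hQ, by rw [map_add, add_smul]; abel⟩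
  | smul c x _ h1 =>
    obtain ⟨P, r, hP, rfl⟩ := h1
    exact ⟨c • P, c * r, by simpa using hP.smul c, by rw [map_smul, smul_add, smul_smul]⟩

lemma Dv_dense (Z : H1) {δ : ℝ} (hδ : 0 < δ) : ∃ P : H1, Dv (H1.f P) ∧ ‖H1.d (Z - P)‖ ≤ δ := by
  obtain ⟨Q, hQ, h⟩ := CP_dense (H1.d Z) (half_pos hδ)
  obtain ⟨P, r, hP, rfl⟩ := CP_prim hQ
  refine ⟨P, hP, ?_⟩
  have h1 := abs_integral_ext_le (H1.d Z - (H1.d P + r • 1)) 0 π
  rw [← J_apply, map_sub, map_add, H1.J_d, H1.J_d, map_smul, J_one, smul_eq_mul, sub_zero,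
    zero_add, zero_sub, abs_neg, abs_mul] at h1
  have h2 : |r| ≤ δ / 2 := (le_of_mul_le_mul_right h1 (abs_pos.2 pi_pos.ne')).trans h
  have e : H1.d (Z - P) = (H1.d Z - (H1.d P + r • 1)) + r • 1 := by rw [map_sub]; abel
  rw [e]
  refine (norm_add_le _ _).trans ?_
  have h3 : ‖r • (1:D0)‖ ≤ |r| := D.norm_le (abs_nonneg _) (fun t => by simp)
  linarith

lemma D1_pow {y y' : D0} (h : D1 y y') : ∀ n : ℕ, D1 (y ^ (n + 1)) (((n:ℝ) + 1) • (y ^ n * y'))
  | 0 => by simpa using h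
  | n + 1 => ((D1_pow h n).mul h).congr (pow_succ _ _) (by
      simp only [Algebra.smul_def, map_add, map_natCast, map_one, Nat.cast_add, Nat.cast_one]
      ring)

lemma J_om {Q Q' P : D0} (h : D1 Q Q') (e : P = Q' - b • Q) :
    J (om * P) = exp (-b * π) * Q hi - Q lo := by
  have := ((D1_om.mul h).congr' (z' := om * P) (by
    rw [e]; simp only [Algebra.smul_def]; ring)).J_eq
  simpa using this

/-- weight of the solvability condition -/
def ρ (κ : ℝ) : D0 := -((2 / 3 * (κ + 2)) • s1 ^ 3) + s1 * c1 * (c1 + b • s1)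

lemma J_Rr (κ : ℝ) {α α1 : D0} (h : D1 α α1) : J (s2 * Rr κ α α1) = J (α1 * ρ κ) := by
  have h1 := (h.mul (D1_pow D1_s1 2)).J_zero (by simp) (by simp)
  have e : s2 * Rr κ α α1 = α1 * ρ κ + (2 / 3 * (κ + 2)) •
      (α1 * s1 ^ (2 + 1) + α * (((2:ℕ):ℝ) + 1) • (s1 ^ 2 * c1)) := by
    ext t
    simp [Rr, ρ, sin_two_mul]
    ring
  rw [e, map_add, map_smul, h1, smul_zero, add_zero]

lemma J_ρ1 : J (om * ρ 1) = (exp (-b * π) + 1) / 14 := by
  have h := (((D1_pow D1_c1 2).smul (-1/14)).add (((D1_pow D1_s1 1).mul D1_c1).smul (3/14))).add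
    ((((D1_s1.mul (D1_pow D1_c1 1)).smul (-1/14)).add ((D1_pow D1_s1 2).smul (5/14))).smul b)
  rw [J_om h (by
    ext t
    simp [ρ]
    linear_combination (-(sin t * cos t ^ 2) / 14 + 5 / 14 * sin t ^ 3) * b_sq)]
  simp; ring

lemma J_κ1 : J (om * (c1 * (s2 * s2 + (2:ℝ) • c2 * (2:ℝ) • c2) - s1 * s2 * (2:ℝ) • c2))
    = 10 / 21 * b * (exp (-b * π) + 1) := by
  have h := ((((D1_s1.mul (D1_pow D1_c1 3)).smul (34/21)).add
    (((D1_pow D1_s1 2).mul (D1_pow D1_c1 1)).smul (-8/7))).add ((D1_pow D1_s1 4).smul (4/7))).add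
    (((((D1_pow D1_c1 4).smul (-10/21)).add (((D1_pow D1_s1 1).mul (D1_pow D1_c1 2)).smul
      (-8/21))).add (((D1_pow D1_s1 3).mul D1_c1).smul (-4/7))).smul b)
  rw [J_om h (by
    ext t
    simp [sin_two_mul, cos_two_mul']
    linear_combination (-(10 / 21) * cos t ^ 5 - 8 / 21 * sin t ^ 2 * cos t ^ 3
      - 4 / 7 * sin t ^ 4 * cos t) * b_sq)]
  simp; ring

end

end Pool.Agent.P.MP_0d657e_an.E
end

-- part Pool.Agent.P.MP_0d657e_an.PosE2
section

/-! The building blocks of the second order form and their size. -/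

open Set Real Filter Topology Asymptotics

namespace Pool.Agent.P.MP_0d657e_an.E

noncomputable section

/-- a smooth function with its first three derivatives -/
structure SJ where
  α : D0
  α1 : D0
  α2 : D0
  α3 : D0
  h0 : D1 α α1
  h1 : D1 α1 α2
  h2 : D1 α2 α3
  smo : Smo α

namespace SJ

/-- the jet of a smooth function -/
def of (α : D0) (h : Smo α) : SJ :=
  ⟨α, _, _, _, h.ex_d.choose_spec.1, h.ex_d.choose_spec.2.ex_d.choose_spec.1,
    h.ex_d.choose_spec.2.ex_d.choose_spec.2.ex_d.choose_spec.1, h⟩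
/-- zero -/
def zero : SJ := ⟨0, 0, 0, 0, D1_zero, D1_zero, D1_zero, Smo_zero⟩
/-- sum -/
def add (a c : SJ) : SJ := ⟨a.α + c.α, a.α1 + c.α1, a.α2 + c.α2, a.α3 + c.α3, a.h0.add c.h0,
  a.h1.add c.h1, a.h2.add c.h2, a.smo.add c.smo⟩
/-- multiple -/
def smul (r : ℝ) (a : SJ) : SJ := ⟨r • a.α, r • a.α1, r • a.α2, r • a.α3, a.h0.smul r,
  a.h1.smul r, a.h2.smul r, a.smo.smul r⟩
/-- the forcing profile -/
def g (a : SJ) : D0 := b⁻¹ • (ex b * a.α1)
/-- its derivative -/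
def g' (a : SJ) : D0 := b⁻¹ • (ex b * (a.α2 + b • a.α1))

lemma D1_g (a : SJ) : D1 a.g a.g' :=
  (((D1_ex b).mul a.h1).smul b⁻¹).congr' (by
    simp only [g', mul_add, mul_smul_comm, smul_mul_assoc, add_comm])

/-- the jet with a given forcing profile -/
def prim (p : D0) (h : Smo p) : SJ :=
  of (V (b • (om * p))) (Smo.of_d (D1_V _) ((Smo_om.mul h).smul b))

lemma prim_α1 (p : D0) (h : Smo p) : (prim p h).α1 = b • (om * p) :=
  D1.unique pi_pos (prim p h).h0 (D1_V _)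

lemma g_of {a : SJ} {p : D0} (h : a.α1 = b • (om * p)) : a.g = p := by
  rw [g, h, mul_smul_comm, smul_smul, inv_mul_cancel₀ b_pos.ne', one_smul, ← mul_assoc,
    mul_comm (ex b), om_mul_ex, one_mul]

lemma prim_g (p : D0) (h : Smo p) : (prim p h).g = p := g_of (prim_α1 p h)

lemma α1_eq (a : SJ) : a.α1 = b • (om * a.g) := by
  rw [g, mul_smul_comm, smul_smul, mul_inv_cancel₀ b_pos.ne', one_smul, ← mul_assoc, om_mul_ex,
    one_mul]

lemma smo_g (a : SJ) : Smo a.g := ((Smo_ex b).mul (a.smo.d a.h0)).smul _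

lemma g_add (a c : SJ) : (a.add c).g = a.g + c.g := by simp [g, add, mul_add]
lemma g_smul (r : ℝ) (a : SJ) : (a.smul r).g = r • a.g := by
  simp only [g, smul, mul_smul_comm, smul_comm r]

end SJ

/-- the jet of the resonant mode -/
def an : SJ := SJ.of (-om) Smo_om.neg
lemma an_α : an.α = -om := rfl
lemma an_α1 : an.α1 = b • om := D1.unique pi_pos an.h0 (by simpa [an_α] using D1_om.neg)
lemma an_g : an.g = 1 := SJ.g_of (by rw [an_α1, mul_one])
lemma an_g' : an.g' = 0 := D1.unique pi_pos an.D1_g (by rw [an_g]; exact D1_one)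

/-- pairing of `v` with the derivative of a product -/
def Tv (v P P' : D0) (y : H1) : ℝ := J (v * (P' * H1.f y + P * H1.d y))

/-- coupling through the linearised operator -/
def β (o : SJ) (κ : ℝ) (y K : H1) : ℝ :=
  J (o.α * (H1.d y * H1.d K - (2 * κ) • (H1.f y * H1.f K))
    - (5:ℝ) • ((o.α + b⁻¹ • o.α1) * H1.f y * H1.f K))

/-- coupling through the zeroth order tensor -/
def tq (κ : ℝ) (y z : H1) : ℝ :=
  (1/2 : ℝ) * J (om * (-(c1 * ((κ * (2 - κ)) • (H1.f y * H1.f z) + H1.d y * H1.d z))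
    + κ • (s1 * H1.f y * H1.d z)))

/-- terms containing the first order kernel element -/
def Gf (a : SJ) (φ1 φ2 v : D0) (K y : H1) : ℝ :=
  2 * Tv v (a.g * Qd φ1) (a.g' * Qd φ1 + a.g * (QA φ1 + QB φ2)) K - 2 * Tv v φ1 φ2 y

/-- the other terms -/
def Ex (κ : ℝ) (o : SJ) (v : D0) (K y z : H1) : ℝ :=
  β o κ y K + Tv v (tE κ o.α o.α1 o.α2) (tE' κ o.α o.α1 o.α2 o.α3) y + tq κ y z

/-- approximate equation of a mode -/
def Cn (m : ℝ) (a : SJ) (v : D0) (y : H1) (e : ℝ) : Prop :=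
  ∀ θ, |Q1 m y θ - Tv v a.g a.g' θ| ≤ e * H1.nr θ

/-- pairing of `v` with a derivative -/
def Ad (v : D0) (h : H1) : ℝ := J (v * H1.d h)

lemma Tv_eq (v : D0) {P P' : D0} (h : D1 P P') (y : H1) : Tv v P P' y = Ad v (H1.mulL h y) := rfl

lemma Ad_add (v : D0) (y z : H1) : Ad v (y + z) = Ad v y + Ad v z := by simp [Ad, mul_add]
lemma Ad_sub (v : D0) (y z : H1) : Ad v (y - z) = Ad v y - Ad v z := by simp [Ad, mul_sub]
lemma Ad_smul (v : D0) (c : ℝ) (y : H1) : Ad v (c • y) = c * Ad v y := by simp [Ad]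
lemma Ad_congr (v : D0) {y z : H1} (h : H1.f y = H1.f z) : Ad v y = Ad v z := by rw [H1.ext' h]

lemma Cn.base {v : D0} {w : H1} {e : ℝ} (h : Cn (-4) an v w e) (θ : H1) :
    |Q1 (-4) w θ - Ad v θ| ≤ e * H1.nr θ := by
  simpa [Tv, an_g, an_g', Ad] using h θ

lemma Cn.s2 {v : D0} {w : H1} {e : ℝ} (h : Cn (-4) an v w e) : |Ad v S2| ≤ e * H1.nr S2 := by
  simpa [Q1_S2] using h.base S2

lemma Tv_le (v P P' : D0) (y : H1) : |Tv v P P' y| ≤ PJ.nrm v * (‖P‖ + ‖P'‖) * H1.nr y := by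
  refine (J_mul_le _ _).trans ?_
  rw [mul_assoc]
  refine mul_le_mul_of_nonneg_left ((map_add_le_add _ _ _).trans ?_) (apply_nonneg _ _)
  have h1 := (PJ.nrm_mul_le P' (H1.f y)).trans (mul_le_mul_of_nonneg_left (H1.f_le y)
    (norm_nonneg _))
  have h2 := (PJ.nrm_mul_le P (H1.d y)).trans (mul_le_mul_of_nonneg_left (H1.d_le y)
    (norm_nonneg _))
  linarith

lemma Cn.bound {m : ℝ} {a : SJ} {v : D0} {y : H1} {e : ℝ} (h : Cn m a v y e) (θ : H1) :
    |Q1 m y θ| ≤ (PJ.nrm v * (‖a.g‖ + ‖a.g'‖) + e) * H1.nr θ := by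
  have := abs_add_le (Q1 m y θ - Tv v a.g a.g' θ) (Tv v a.g a.g' θ)
  rw [sub_add_cancel] at this
  linarith [h θ, Tv_le v a.g a.g' θ]

lemma β_eq (o : SJ) (κ : ℝ) (y K : H1) : β o κ y K = J (H1.d y * (o.α * H1.d K))
    + J (H1.f y * ((-((2 * κ) • o.α) - (5:ℝ) • (o.α + b⁻¹ • o.α1)) * H1.f K)) := by
  rw [β, ← map_add]; congr 1; simp only [Algebra.smul_def]; ring

lemma tq_eq (κ : ℝ) (y z : H1) : tq κ y z = J (H1.d y * (((-1/2 : ℝ) • (om * c1)) * H1.d z))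
    + J (H1.f y * (((-1/2 * (κ * (2 - κ))) • (om * c1)) * H1.f z
      + ((1/2 * κ) • (om * s1)) * H1.d z)) := by
  rw [tq, ← smul_eq_mul, ← map_smul, ← map_add]; congr 1
  ext t; simp; ring

lemma β_comm (o : SJ) (κ : ℝ) (y K : H1) : β o κ y K = β o κ K y := by
  unfold β; congr 1; simp only [Algebra.smul_def]; ring

lemma β_S1 (o : SJ) (κ : ℝ) (y : H1) : β o κ y S1 = -2 * J (H1.f y * Rr κ o.α o.α1) := by
  have h := H1.parts (o.h0.mul D1_c1) y
  have e : o.α * (H1.d y * c1 - (2 * κ) • (H1.f y * s1))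
      - (5:ℝ) • ((o.α + b⁻¹ • o.α1) * H1.f y * s1) = (-2:ℝ) • (H1.f y * Rr κ o.α o.α1)
      + ((o.α1 * c1 + o.α * -s1) * H1.f y + o.α * c1 * H1.d y) := by
    have hb : 5 * b⁻¹ = b := by
      have := b_pos.ne'
      field_simp; linarith [b_sq]
    ext t
    simp [Rr]
    linear_combination (-o.α1 t * H1.f y t * sin t) * hb
  rw [β, f_S1, d_S1, e, map_add, map_add, h, map_smul, smul_eq_mul]; ring

lemma Ex_lin (κ : ℝ) (o : SJ) (v : D0) (K y y' z : H1) (r : ℝ) :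
    Ex κ o v K (r • y + y') z = r * Ex κ o v K y z + Ex κ o v K y' z := by
  simp only [Ex, β_eq, tq_eq, Tv, map_add, map_smul, add_mul, mul_add, smul_mul_assoc,
    mul_smul_comm, smul_eq_mul]
  ring

lemma Tv_lin (v P P' : D0) (y y' : H1) (r : ℝ) :
    Tv v P P' (r • y + y') = r * Tv v P P' y + Tv v P P' y' := by
  simp only [Tv, map_add, map_smul, mul_add, mul_smul_comm, smul_eq_mul]
  ring

lemma tq_lin1 (κ : ℝ) (y y' z : H1) (r : ℝ) :
    tq κ (r • y + y') z = r * tq κ y z + tq κ y' z := by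
  simp only [tq_eq, map_add, map_smul, add_mul, mul_add, smul_mul_assoc, smul_eq_mul]
  ring

lemma tq_lin2 (κ : ℝ) (y z z' : H1) (r : ℝ) :
    tq κ y (r • z + z') = r * tq κ y z + tq κ y z' := by
  simp only [tq_eq, map_add, map_smul, mul_add, mul_smul_comm, smul_eq_mul]
  ring

lemma Ex_zero (κ : ℝ) (v : D0) (K y : H1) : Ex κ SJ.zero v K y 0 = 0 := by
  simp [Ex, β, Tv, tq, tE, tE', SJ.zero]

lemma KT_ident (w Φ : H1) : Q1 (-1) (KT w) Φ = Q1 (-4) w (H1.mulL D1_c1 Φ) := by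
  have h1 := H1.J_d (H1.mulL (D1_s1.mul (H1.d1 w)) Φ)
  have h2 := H1.J_d (H1.mulL (D1_c1.mul (D1_V (H1.f w))) Φ)
  have e : H1.d (KT w) * H1.d Φ + (-1:ℝ) • (H1.f (KT w) * H1.f Φ) =
      H1.d w * H1.d (H1.mulL D1_c1 Φ) + (-4:ℝ) • (H1.f w * H1.f (H1.mulL D1_c1 Φ))
      + H1.d (H1.mulL (D1_s1.mul (H1.d1 w)) Φ)
      + (2:ℝ) • H1.d (H1.mulL (D1_c1.mul (D1_V (H1.f w))) Φ) := by
    ext t
    simp [f_KT, d_KT]
    ring
  rw [Q1, Q1, e, map_add, map_add, h1, map_smul, h2]; simp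

lemma KT_S2 : KT S2 = (2:ℝ) • S1 := by
  have h : V s2 = s1 * s1 := by
    have := (D1_s1.mul D1_s1).eq_V
    have e : c1 * s1 + s1 * c1 = s2 := by rw [s2_eq]; ring
    rw [e] at this
    simpa using this.symm
  refine H1.ext' ?_
  rw [f_KT, f_S2, h, s2_eq, map_smul, f_S1, Algebra.smul_def, map_ofNat]
  linear_combination (2 * s1) * s1c1

section O

variable {X : Type*} {l : Filter X}

variable (l) in
/-- size in the mean square norm -/
def LO (A : X → D0) (g : X → ℝ) : Prop := (fun i => PJ.nrm (A i)) =O[l] g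
variable (l) in
/-- size in the energy norm -/
def NO (y : X → H1) (g : X → ℝ) : Prop := (fun i => H1.nr (y i)) =O[l] g

variable {A B P P' : X → D0} {y z K : X → H1} {g g' g1 g2 g3 : X → ℝ}

lemma O_nn {f f' : X → ℝ} (h0 : ∀ i, 0 ≤ f i) (h : ∀ i, f i ≤ f' i) : f =O[l] f' :=
  O_of_abs_le (fun i => by rw [Real.norm_of_nonneg (h0 i)]; exact h i)

lemma O1 {E : Type*} [NormedAddCommGroup E] (c : E) : (fun _ : X => c) =O[l] fun _ => (1:ℝ) :=
  isBigO_const_const c one_ne_zero l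

lemma NO.f (h : NO l y g) : LO l (fun i => H1.f (y i)) g :=
  (O_nn (fun _ => apply_nonneg _ _) (fun _ => H1.f_le _)).trans h
lemma NO.d (h : NO l y g) : LO l (fun i => H1.d (y i)) g :=
  (O_nn (fun _ => apply_nonneg _ _) (fun _ => H1.d_le _)).trans h
lemma NO.of (h : LO l (fun i => H1.f (y i)) g) (k : LO l (fun i => H1.d (y i)) g) : NO l y g :=
  IsBigO.add h k
lemma NO.add (h : NO l y g) (k : NO l z g) : NO l (fun i => y i + z i) g :=
  (O_nn (fun _ => apply_nonneg _ _) (fun _ => map_add_le_add _ _ _)).trans (IsBigO.add h k)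
lemma NO.smul {c : X → ℝ} (hc : c =O[l] g') (y : H1) : NO l (fun i => c i • y) g' := by
  simpa [NO, map_smul_eq_mul] using hc.norm_left.mul (O1 (l := l) (H1.nr y))
lemma NO.const (y : H1) : NO l (fun _ => y) fun _ => 1 := O1 _
lemma NO.trans (h : NO l y g) (k : g =O[l] g') : NO l y g' := IsBigO.trans h k
lemma LO.trans (h : LO l A g) (k : g =O[l] g') : LO l A g' := IsBigO.trans h k
lemma LO.add (h : LO l A g) (k : LO l B g) : LO l (fun i => A i + B i) g :=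
  (O_nn (fun _ => apply_nonneg _ _) (fun _ => map_add_le_add _ _ _)).trans (IsBigO.add h k)
lemma LO.neg (h : LO l A g) : LO l (fun i => -A i) g := by simpa [LO] using h
lemma LO.sub (h : LO l A g) (k : LO l B g) : LO l (fun i => A i - B i) g := by
  simpa [sub_eq_add_neg] using h.add k.neg
lemma LO.mul (hP : P =O[l] g') (h : LO l A g) : LO l (fun i => P i * A i) fun i => g' i * g i :=
  (O_nn (fun _ => apply_nonneg _ _) (fun _ => PJ.nrm_mul_le _ _)).trans (hP.norm_left.mul h)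
lemma LO.cmul (P : D0) (h : LO l A g) : LO l (fun i => P * A i) g := by
  simpa using LO.mul (O1 P) h
lemma LO.of_norm (h : A =O[l] g) : LO l A g :=
  (O_nn (fun _ => apply_nonneg _ _) (fun _ => nrm_le2 _)).trans (h.norm_left.const_mul_left 2)
lemma LO.V (h : LO l A g) : LO l (fun i => V (A i)) g :=
  LO.of_norm ((O_of_abs_le (fun _ => norm_V_le2 _)).trans (IsBigO.const_mul_left h 2))
lemma LO.congr (h : LO l A g) (e : ∀ i, B i = A i) : LO l B g := by rw [funext e]; exact h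
lemma J_O (h : LO l A g) (k : LO l B g') : (fun i => J (A i * B i)) =O[l] fun i => g i * g' i :=
  (O_of_abs_le (fun _ => J_mul_le _ _)).trans (IsBigO.mul h k)

lemma NO.KT (h : NO l y g) : NO l (fun i => KT (y i)) g :=
  NO.of ((h.f.cmul c1).add (h.f.V.cmul (2 * s1)))
    (((h.d.cmul c1).add (h.f.cmul s1)).add (h.f.V.cmul (2 * c1)))

lemma O_cmul (c : D0) (h : P =O[l] g) : (fun i => c * P i) =O[l] g := by
  simpa using (O1 (l := l) c).mul h
lemma O_mulc (c : D0) (h : P =O[l] g) : (fun i => P i * c) =O[l] g := by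
  simpa using h.mul (O1 (l := l) c)
lemma O_smul {κ : X → ℝ} (hκ : κ =O[l] fun _ => (1:ℝ)) (h : P =O[l] g) :
    (fun i => κ i • P i) =O[l] g := by simpa using hκ.smul h
lemma O_cs (c : ℝ) (h : P =O[l] g) : (fun i => c • P i) =O[l] g := h.const_smul_left c
lemma O_smulc {κ : X → ℝ} (hκ : κ =O[l] g) (c : D0) : (fun i => κ i • c) =O[l] g := by
  simpa using hκ.smul (O1 (l := l) c)

lemma Tv_O {v : X → D0} (hv : LO l v g1) (hP : P =O[l] g2) (hP' : P' =O[l] g2) (hy : NO l y g3) :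
    (fun i => Tv (v i) (P i) (P' i) (y i)) =O[l] fun i => g1 i * (g2 i * g3 i) :=
  J_O hv ((LO.mul hP' hy.f).add (LO.mul hP hy.d))

lemma Ad_O {v : X → D0} (hv : LO l v g1) (hy : NO l y g3) :
    (fun i => Ad (v i) (y i)) =O[l] fun i => g1 i * g3 i := J_O hv hy.d

variable (l) in
/-- size of a jet -/
def JO (a : X → SJ) (g : X → ℝ) : Prop :=
  (fun i => (a i).α) =O[l] g ∧ (fun i => (a i).α1) =O[l] g ∧ (fun i => (a i).α2) =O[l] g ∧
    (fun i => (a i).α3) =O[l] g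

variable {a o : X → SJ} {κ : X → ℝ}

lemma JO.const (a : SJ) : JO l (fun _ => a) fun _ => 1 := ⟨O1 _, O1 _, O1 _, O1 _⟩
lemma JO.add (h : JO l a g) (k : JO l o g) : JO l (fun i => (a i).add (o i)) g :=
  ⟨h.1.add k.1, h.2.1.add k.2.1, h.2.2.1.add k.2.2.1, h.2.2.2.add k.2.2.2⟩
lemma JO.smul (hκ : κ =O[l] g') (h : JO l a g) :
    JO l (fun i => (a i).smul (κ i)) fun i => g' i * g i :=
  ⟨hκ.smul h.1, hκ.smul h.2.1, hκ.smul h.2.2.1, hκ.smul h.2.2.2⟩
lemma JO.g0 (h : JO l a g) : (fun i => (a i).g) =O[l] g := O_cs _ (O_cmul _ h.2.1)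
lemma JO.g0' (h : JO l a g) : (fun i => (a i).g') =O[l] g :=
  O_cs _ (O_cmul _ (h.2.2.1.add (O_cs _ h.2.1)))
lemma JO.Rr (h : JO l a g) (hκ : κ =O[l] fun _ => (1:ℝ)) :
    (fun i => Rr (κ i) (a i).α (a i).α1) =O[l] g :=
  (O_smul (hκ.add (O1 2)) (O_mulc _ h.1)).add (O_cs _ (O_mulc _ h.2.1))
lemma JO.tE (h : JO l a g) (hκ : κ =O[l] fun _ => (1:ℝ)) :
    (fun i => tE (κ i) (a i).α (a i).α1 (a i).α2) =O[l] g :=
  (((O_cs _ (O_mulc _ h.2.2.1)).neg_left).sub (O_mulc _ h.1)).add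
    (O_smul (by simpa [div_eq_mul_inv] using (hκ.sub (O1 2)).mul (O1 (4 * b)⁻¹))
      (O_mulc _ h.2.1))
lemma JO.tE' (h : JO l a g) (hκ : κ =O[l] fun _ => (1:ℝ)) :
    (fun i => tE' (κ i) (a i).α (a i).α1 (a i).α2 (a i).α3) =O[l] g :=
  (((O_cs _ ((O_mulc _ h.2.2.2).add (O_mulc _ h.2.2.1))).neg_left).sub
    ((O_mulc _ h.2.1).sub (O_mulc _ h.1))).add
    (O_smul (by simpa [div_eq_mul_inv] using (hκ.sub (O1 2)).mul (O1 (4 * b)⁻¹))
      ((O_mulc _ h.2.2.1).add (O_mulc _ h.2.1)))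

lemma β_O (h : JO l o g1) (hκ : κ =O[l] fun _ => (1:ℝ)) (hy : NO l y g2) (hK : NO l K g3) :
    (fun i => β (o i) (κ i) (y i) (K i)) =O[l] fun i => g2 i * (g1 i * g3 i) := by
  simp only [β_eq]
  exact (J_O hy.d (LO.mul h.1 hK.d)).add (J_O hy.f (LO.mul
    ((O_smul (hκ.const_mul_left 2) h.1).neg_left.sub
      (O_cs _ (h.1.add (O_cs _ h.2.1)))) hK.f))

lemma tq_O (hκ : κ =O[l] fun _ => (1:ℝ)) (hy : NO l y g2) (hz : NO l z g3) :
    (fun i => tq (κ i) (y i) (z i)) =O[l] fun i => g2 i * g3 i := by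
  simp only [tq_eq]
  have h1 : (fun i => -1/2 * (κ i * (2 - κ i))) =O[l] fun _ => (1:ℝ) := by
    simpa using (hκ.mul ((O1 2).sub hκ)).const_mul_left (-1/2)
  refine (J_O hy.d (hz.d.cmul _)).add (J_O hy.f (LO.add ?_ ?_))
  · simpa using LO.mul (O_smulc h1 _) hz.f
  · simpa using LO.mul (O_smulc (hκ.const_mul_left (1/2)) _) hz.d

lemma Gq_O {v φ1 φ2 : X → D0} (hv : LO l v g1) (ha : JO l a g) (h1 : φ1 =O[l] g2)
    (h2 : φ2 =O[l] g2) (hK : NO l K g3) :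
    (fun i => Tv (v i) ((a i).g * Qd (φ1 i)) ((a i).g' * Qd (φ1 i)
      + (a i).g * (QA (φ1 i) + QB (φ2 i))) (K i)) =O[l] fun i => g1 i * (g i * g2 i * g3 i) :=
  Tv_O hv (ha.g0.mul (O_clm Qd h1)) ((ha.g0'.mul (O_clm Qd h1)).add
    (ha.g0.mul ((O_clm QA h1).add (O_clm QB h2)))) hK

end O

end

end Pool.Agent.P.MP_0d657e_an.E
end

-- part Pool.Agent.P.MP_0d657e_an.PosE6
section

/-! From jets on a set of positive modes to a design. -/

open Set Real Filter Topology Asymptotics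

namespace Pool.Agent.P.MP_0d657e_an.E

noncomputable section

/-- contribution of one positive mode and of its opposite -/
def term (n : ℕ) (A : ℤ → SJ) (φ1 φ2 : ℤ → D0) (v : D0) (Y : ℤ → H1) (m : ℤ) : ℝ :=
  Gf (A m) (φ1 m) (φ2 m) v (KT (Y n)) (Y m)
    + Ex (m / n) (A (2 * n - m)) v (KT (Y n)) (Y m) (Y (2 * n - m))
    + Ex (-(m / n)) (A (2 * n + m)) v (KT (Y n)) (Y m) (Y (2 * n + m))

lemma sum_sym {M : Type*} [AddCommMonoid M] {P : Finset ℤ} (hP : ∀ m ∈ P, 0 < m) (F : ℤ → M) :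
    ∑ k ∈ P ∪ P.image Neg.neg, F k = ∑ m ∈ P, (F m + F (-m)) := by
  rw [Finset.sum_union, Finset.sum_image (fun _ _ _ _ h => neg_injective h),
    Finset.sum_add_distrib]
  refine Finset.disjoint_left.2 fun k h1 h2 => ?_
  obtain ⟨l, h3, rfl⟩ := Finset.mem_image.1 h2
  linarith [hP _ h1, hP _ h3]

lemma mem_sym {P : Finset ℤ} {k : ℤ} : k ∈ P ∪ P.image Neg.neg ↔ k ∈ P ∨ -k ∈ P := by
  rw [Finset.mem_union, Finset.mem_image]
  refine or_congr_right ⟨?_, fun h => ⟨-k, h, neg_neg k⟩⟩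
  rintro ⟨l, h, rfl⟩
  rwa [neg_neg]

lemma D1_fsum {P : Finset ℤ} {f f' : ℤ → D0} (h : ∀ k, D1 (f k) (f' k)) :
    D1 (∑ k ∈ P, f k) (∑ k ∈ P, f' k) := by
  induction P using Finset.induction_on with
  | empty => simpa using D1_zero
  | insert k P hk ih => rw [Finset.sum_insert hk, Finset.sum_insert hk]; exact (h k).add ih

theorem build (n : ℕ) (hn : 0 < n) (P : Finset ℤ) (hP : ∀ m ∈ P, 0 < m) (A : ℤ → SJ)
    (φ φ1 φ2 : ℤ → D0) (A_neg : ∀ k, A (-k) = A k)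
    (A_off : ∀ k, k ∉ P → -k ∉ P → A k = SJ.zero)
    (ode : ∀ k : ℤ, Ode (5 - ((k:ℝ) / n) ^ 2) (φ k) (φ1 k) (φ2 k)
      (-(Rr (k / n) (A (2 * n - k)).α (A (2 * n - k)).α1
        + Rr (-(k / n)) (A (2 * n + k)).α (A (2 * n + k)).α1)))
    (φ_neg : ∀ k, φ (-k) = φ k) (φ_2n : φ (2 * n) = 0)
    (m2 : (2 * n : ℤ) ∉ P) (m4 : (4 * n : ℤ) ∉ P) (m1 : (n : ℤ) ∈ P) (m3 : (3 * n : ℤ) ∈ P)
    (sum_ne : ∀ k ∈ P, ∀ l ∈ P, k + l ≠ n ∧ k - l ≠ n) (An : A n = an)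
    (Mo : J (s2 * (Rr 1 an.α an.α1 - Rr (-1) (A (3 * n)).α (A (3 * n)).α1)) ≠ 0)
    (κ2 : 0 < J (om * ((1/4 : ℝ) • (s1 ^ 3 * ((A (6 * n)).α + b⁻¹ • (A (6 * n)).α1))
      + (3/2 : ℝ) • (s1 ^ 2 * φ (4 * n)))))
    (pos : ∃ c0 > 0, ∃ C : ℝ, ∀ (v : D0) (Y : ℤ → H1) (e : ℝ), (∀ k, Y (-k) = Y k) →
      (∀ k, k ∉ P → -k ∉ P → Y k = 0) → J (v * ex b) = 0 → 0 ≤ e →
      (∀ m ∈ P, Cn (((m:ℝ) / n) ^ 2 - 5) (A m) v (Y m) e) →
      c0 * (PJ.nrm v + ∑ m ∈ P, H1.nr (Y m)) ^ 2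
        ≤ -∑ m ∈ P, term n A φ1 φ2 v Y m + C * e ^ 2) :
    ∃ Ds : Des, Ds.Pos := by
  have hn' : (0:ℤ) < n := by exact_mod_cast hn
  have φ1_neg : ∀ k, φ1 (-k) = φ1 k := fun k =>
    D1.unique pi_pos (ode (-k)).d0 (by rw [φ_neg]; exact (ode k).d0)
  have φ2_neg : ∀ k, φ2 (-k) = φ2 k := fun k =>
    D1.unique pi_pos (ode (-k)).d1 (by rw [φ1_neg]; exact (ode k).d1)
  have off : ∀ k, 0 ≤ k → k ∉ P → k ∉ P ∪ P.image Neg.neg := fun k h0 h1 h2 =>
    (mem_sym.1 h2).elim h1 fun h => by linarith [hP _ h]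
  let Ds : Des :=
    { n := n
      K := P ∪ P.image Neg.neg
      α := fun k => (A k).α
      α1 := fun k => (A k).α1
      α2 := fun k => (A k).α2
      α3 := fun k => (A k).α3
      φ := φ
      φ1 := φ1
      φ2 := φ2
      g2 := (-1/2 : ℝ) • ∑ k ∈ P ∪ P.image Neg.neg, (A k).g * Qd (φ1 k)
      g2' := (-1/2 : ℝ) • ∑ k ∈ P ∪ P.image Neg.neg,
        ((A k).g' * Qd (φ1 k) + (A k).g * (QA (φ1 k) + QB (φ2 k)))
      n_pos := hn
      hα := fun k => (A k).h0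
      hα1 := fun k => (A k).h1
      hα2 := fun k => (A k).h2
      smooth := fun k => (A k).smo
      K_neg := fun k hk => mem_sym.2 (by rw [neg_neg]; exact (mem_sym.1 hk).symm)
      α_neg := fun k => by rw [A_neg]
      α_off := fun k hk => by
        rw [mem_sym, not_or] at hk
        rw [A_off k hk.1 hk.2]; rfl
      hφ := fun k => (ode k).d0
      hφ1 := fun k => (ode k).d1
      φ_lo := fun k => (ode k).lo
      φ_hi := fun k => (ode k).hi
      φ_neg := φ_neg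
      ode := fun k => (ode k).eq
      φ_2n := φ_2n
      hg2 := (D1_fsum fun k => (A k).D1_g.mul (D1_Qd (ode k).d1)).smul _
      g2_eq := by
        have e : ∀ k, (b⁻¹ • (ex b * (A k).α1)) * φ k = s1 * ((A k).g * Qd (φ1 k)) := fun k => by
          rw [mul_left_comm, s1_mul_Qd (ode k).d0 (ode k).lo (ode k).hi]; rfl
        rw [Finset.sum_congr rfl fun k _ => e k, ← Finset.mul_sum]
        generalize ∑ k ∈ P ∪ P.image Neg.neg, (A k).g * Qd (φ1 k) = S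
        ext t
        simp
        ring
      m0 := off 0 le_rfl fun h => lt_irrefl _ (hP _ h)
      m2 := off _ (by positivity) m2
      m4 := off _ (by positivity) m4
      m1 := mem_sym.2 (Or.inl m1)
      m3 := mem_sym.2 (Or.inl m3)
      sum_ne := fun k hk l hl => by
        rcases mem_sym.1 hk with h | h <;> rcases mem_sym.1 hl with h' | h'
        · exact (sum_ne k h l h').1
        · simpa using (sum_ne k h _ h').2
        · simpa [add_comm] using (sum_ne l h' _ h).2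
        · linarith [hP _ h, hP _ h']
      αn := by rw [An, an_α1]
      Mo := by rw [An]; exact Mo
      κ2 := κ2 }
  obtain ⟨c0, hc0, C, H⟩ := pos
  refine ⟨Ds, c0 / 4, by positivity, C, fun v Y e h1 h2 h3 h4 h5 => ?_⟩
  have h6 := H v Y e h1 (fun k a c => h2 k fun h => (mem_sym.1 h).elim a c) h3 h4
    (fun m hm θ => h5 m (mem_sym.2 (Or.inl hm)) θ)
  have e1 : ∑ k ∈ Ds.K, H1.nr (Y k) = 2 * ∑ m ∈ P, H1.nr (Y m) := by
    rw [Finset.mul_sum]
    exact (sum_sym hP _).trans (Finset.sum_congr rfl fun m _ => by rw [h1, two_mul])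
  have e2 : Ds.q v Y = ∑ k ∈ P ∪ P.image Neg.neg,
      (Tv v ((A k).g * Qd (φ1 k)) ((A k).g' * Qd (φ1 k) + (A k).g * (QA (φ1 k) + QB (φ2 k)))
        (KT (Y n)) - Tv v (φ1 k) (φ2 k) (Y k)
        + Ex (k / n) (A (2 * n - k)) v (KT (Y n)) (Y k) (Y (2 * n - k))) := by
    have e3 : -2 * J (v * (Ds.g2' * H1.f (KT (Y n)) + Ds.g2 * H1.d (KT (Y n)))) =
        ∑ k ∈ P ∪ P.image Neg.neg, Tv v ((A k).g * Qd (φ1 k))
          ((A k).g' * Qd (φ1 k) + (A k).g * (QA (φ1 k) + QB (φ2 k))) (KT (Y n)) := by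
      simp only [Ds, Tv, smul_mul_assoc, ← smul_add, mul_smul_comm, map_smul, smul_eq_mul,
        Finset.sum_mul, ← Finset.sum_add_distrib, Finset.mul_sum, map_sum]
      exact Finset.sum_congr rfl fun k _ => by ring
    rw [Des.q]
    refine (congrArg₂ (· + ·) e3 rfl).trans (Finset.sum_add_distrib.symm.trans
      (Finset.sum_congr rfl fun k _ => ?_))
    have e4 : Ds.τt v Y k = -Tv v (φ1 k) (φ2 k) (Y k) + Tv v (tE (k / n) (A (2 * n - k)).α
        (A (2 * n - k)).α1 (A (2 * n - k)).α2) (tE' (k / n) (A (2 * n - k)).α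
        (A (2 * n - k)).α1 (A (2 * n - k)).α2 (A (2 * n - k)).α3) (Y k) := by
      rw [Tv, Tv, ← map_neg, ← map_add]
      refine congrArg J ?_
      simp only [Des.τ, Des.τ', Des.κ, Ds]
      ring
    have e5 : Ds.β1 Y k = β (A (2 * n - k)) (k / n) (Y k) (KT (Y n)) := rfl
    have e6 : Ds.t0 Y k = tq (k / n) (Y k) (Y (2 * n - k)) := rfl
    rw [e4, e5, e6, Ex]; ring
  have e7 : Ds.q v Y = ∑ m ∈ P, term n A φ1 φ2 v Y m := by
    rw [e2, sum_sym hP]
    refine Finset.sum_congr rfl fun m _ => ?_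
    rw [A_neg, φ1_neg, φ2_neg, h1, sub_neg_eq_add, Int.cast_neg, neg_div, term, Gf]
    ring
  rw [e1, e7]
  have a1 := apply_nonneg PJ.nrm v
  have a2 : 0 ≤ ∑ m ∈ P, H1.nr (Y m) := Finset.sum_nonneg fun m _ => apply_nonneg _ _
  refine le_trans ?_ h6
  nlinarith [mul_nonneg hc0.le (mul_nonneg a1 a1), mul_nonneg hc0.le (mul_nonneg a1 a2)]

end

end Pool.Agent.P.MP_0d657e_an.E
end

-- part Pool.Agent.P.MP_0d657e_an.PosE3
section

/-! The base modes: a Garding inequality for the second order form. -/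

open Set Real Filter Topology Asymptotics

namespace Pool.Agent.P.MP_0d657e_an.E

noncomputable section

section Err

variable {X : Type*} (a ℓ : X → ℝ) (u : X → H1)

/-- negligible terms -/
def Err (f : X → ℝ) : Prop :=
  ∀ δ > 0, ∃ C, ∀ i, |f i| ≤ δ * (a i ^ 2 + PJ.nrm (H1.d (u i)) ^ 2) + C * ℓ i ^ 2

/-- expansion of a function -/
def Xp (A : X → D0) (A0 γ : D0) : Prop := LO ⊤ (fun i => A i - a i • A0 - γ * H1.d (u i)) ℓ

/-- expansion of a quadratic quantity -/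
def Xq (f : X → ℝ) (k : ℝ) (Γ : D0) : Prop :=
  Err a ℓ u (fun i => f i - k * a i ^ 2 - J (Γ * (H1.d (u i) * H1.d (u i))))

variable {a ℓ u} {f f' : X → ℝ} {A B : X → D0} {A0 B0 γ γ' Γ Γ' : D0} {k k' : ℝ}

lemma Err.add (h : Err a ℓ u f) (h' : Err a ℓ u f') : Err a ℓ u fun i => f i + f' i := by
  intro δ hδ
  obtain ⟨C, hC⟩ := h _ (half_pos hδ)
  obtain ⟨C', hC'⟩ := h' _ (half_pos hδ)
  exact ⟨C + C', fun i => (abs_add_le _ _).trans (by linarith [hC i, hC' i])⟩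

lemma Err.cmul (c : ℝ) (h : Err a ℓ u f) : Err a ℓ u fun i => c * f i := by
  intro δ hδ
  have hc : 0 < |c| + 1 := by positivity
  obtain ⟨C, hC⟩ := h (δ / (|c| + 1)) (by positivity)
  refine ⟨(|c| + 1) * C, fun i => ?_⟩
  have h1 := mul_le_mul_of_nonneg_left (hC i) hc.le
  rw [mul_add, ← mul_assoc, mul_div_cancel₀ _ hc.ne'] at h1
  rw [abs_mul]
  nlinarith [abs_nonneg (f i)]

lemma Err.of_O (h : f =O[⊤] fun i => (|a i| + PJ.nrm (H1.d (u i)) + |ℓ i|) * ℓ i) :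
    Err a ℓ u f := by
  obtain ⟨C, hC0, hC⟩ := h.exists_pos
  intro δ hδ
  refine ⟨C + C ^ 2 / δ, fun i => ?_⟩
  have h1 := eventually_top.1 hC.bound i
  have hW := apply_nonneg PJ.nrm (H1.d (u i))
  rw [Real.norm_eq_abs, Real.norm_eq_abs, abs_mul, abs_of_nonneg
    (by positivity : 0 ≤ |a i| + PJ.nrm (H1.d (u i)) + |ℓ i|)] at h1
  rw [← sq_abs (a i), ← sq_abs (ℓ i)]
  have e : C ^ 2 / δ = δ * (C / δ) ^ 2 := by field_simp
  have e2 : C = δ * (C / δ) := by field_simp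
  rw [e]
  generalize C / δ = c at *
  subst e2
  nlinarith [mul_nonneg hδ.le (sq_nonneg (|a i| - c * |ℓ i|)),
    mul_nonneg hδ.le (sq_nonneg (PJ.nrm (H1.d (u i)) - c * |ℓ i|)),
    mul_nonneg hδ.le (sq_nonneg (|a i|)), mul_nonneg hδ.le (sq_nonneg (PJ.nrm (H1.d (u i))))]

lemma Err.cross (hℓ : ∀ i, PJ.nrm (H1.f (u i)) ≤ ℓ i) (Ξ : D0) :
    Err a ℓ u fun i => a i * J (Ξ * H1.d (u i)) := by
  intro δ hδ
  obtain ⟨C, hC0, hC⟩ := compact_fun Ξ hδ
  refine ⟨C ^ 2 / δ, fun i => ?_⟩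
  have h1 := mul_le_mul_of_nonneg_left ((hC (u i)).trans (add_le_add_right
    (mul_le_mul_of_nonneg_left (hℓ i) hC0) _)) (abs_nonneg (a i))
  rw [abs_mul, ← sq_abs (a i)]
  have e : C ^ 2 / δ = δ * (C / δ) ^ 2 := by field_simp
  have e2 : C = δ * (C / δ) := by field_simp
  rw [e]
  generalize C / δ = c at *
  subst e2
  nlinarith [mul_nonneg hδ.le (sq_nonneg (|a i| - 2 * c * ℓ i)),
    mul_nonneg hδ.le (sq_nonneg (|a i| - PJ.nrm (H1.d (u i)))),
    mul_nonneg hδ.le (sq_nonneg (|a i|)), mul_nonneg hδ.le (sq_nonneg (PJ.nrm (H1.d (u i))))]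

lemma Xp.add (h : Xp a ℓ u A A0 γ) (h' : Xp a ℓ u B B0 γ') :
    Xp a ℓ u (fun i => A i + B i) (A0 + B0) (γ + γ') :=
  (LO.add h h').congr (fun i => by simp only [Algebra.smul_def]; ring)

lemma Xp.cmul (P : D0) (h : Xp a ℓ u A A0 γ) : Xp a ℓ u (fun i => P * A i) (P * A0) (P * γ) :=
  (LO.cmul P h).congr (fun i => by simp only [Algebra.smul_def]; ring)

lemma Xq.add (h : Xq a ℓ u f k Γ) (h' : Xq a ℓ u f' k' Γ') :
    Xq a ℓ u (fun i => f i + f' i) (k + k') (Γ + Γ') := by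
  have := Err.add h h'
  unfold Xq
  convert this using 2
  simp only [add_mul, map_add]; ring

lemma Xq.cmul (c : ℝ) (h : Xq a ℓ u f k Γ) : Xq a ℓ u (fun i => c * f i) (c * k) (c • Γ) := by
  have := Err.cmul c h
  unfold Xq
  convert this using 2
  simp only [smul_mul_assoc, map_smul, smul_eq_mul]; ring

lemma Xq.congr (h : Xq a ℓ u f k Γ) (e0 : ∀ i, f' i = f i) (e1 : k' = k) (e2 : Γ' = Γ) :
    Xq a ℓ u f' k' Γ' := by rw [funext e0, e1, e2]; exact h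

variable (hℓ : ∀ i, PJ.nrm (H1.f (u i)) ≤ ℓ i)
include hℓ

lemma Xp.prod (h : Xp a ℓ u A A0 γ) (h' : Xp a ℓ u B B0 γ') :
    Xq a ℓ u (fun i => J (A i * B i)) (J (A0 * B0)) (γ * γ') := by
  have n := fun i => apply_nonneg PJ.nrm (H1.d (u i))
  have main : ∀ A0 γ : D0, LO ⊤ (fun i => a i • A0 + γ * H1.d (u i))
      fun i => |a i| + PJ.nrm (H1.d (u i)) + |ℓ i| := fun A0 γ =>
    LO.add (LO.of_norm (O_smulc (O_of_abs_le (fun i => by
      rw [Real.norm_eq_abs]; linarith [n i, abs_nonneg (ℓ i)])) _))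
      (LO.cmul γ (O_nn n (fun i => by linarith [abs_nonneg (a i), abs_nonneg (ℓ i)])))
  have hB : LO ⊤ B fun i => |a i| + PJ.nrm (H1.d (u i)) + |ℓ i| :=
    ((main B0 γ').add (LO.trans h' (O_of_abs_le (fun i => by
      rw [Real.norm_eq_abs]; linarith [n i, abs_nonneg (a i)])))).congr (fun i => by abel)
  have := ((Err.cross (a := a) hℓ (A0 * γ' + B0 * γ)).add (Err.of_O (J_O (main A0 γ) h'))).add
    (Err.of_O (J_O hB h))
  unfold Xq
  convert this using 2 with i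
  rw [mul_comm (J (A0 * B0)), ← smul_eq_mul (a i ^ 2), ← smul_eq_mul (a i), ← map_smul,
    ← map_smul, ← map_sub, ← map_sub, ← map_add, ← map_add]
  congr 1
  simp only [Algebra.smul_def, map_pow]; ring

variable {y z : X → H1} {y0 z0 : H1} {v : X → D0}

lemma Xq_Tv (P P' : D0) (hv : Xp a ℓ u v 0 1) (hf : Xp a ℓ u (fun i => H1.f (y i)) (H1.f y0) 0)
    (hd : Xp a ℓ u (fun i => H1.d (y i)) (H1.d y0) γ) :
    Xq a ℓ u (fun i => Tv (v i) P P' (y i)) 0 (P * γ) :=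
  (hv.prod hℓ ((hf.cmul P').add (hd.cmul P))).congr (fun _ => rfl) (by simp) (by simp)

lemma Xq_β (o : SJ) (κ : ℝ) (hf : Xp a ℓ u (fun i => H1.f (y i)) (H1.f y0) 0)
    (hd : Xp a ℓ u (fun i => H1.d (y i)) (H1.d y0) γ)
    (kf : Xp a ℓ u (fun i => H1.f (z i)) (H1.f z0) 0)
    (kd : Xp a ℓ u (fun i => H1.d (z i)) (H1.d z0) γ') :
    Xq a ℓ u (fun i => β o κ (y i) (z i)) (β o κ y0 z0) (γ * (o.α * γ')) :=
  ((hd.prod hℓ (kd.cmul _)).add (hf.prod hℓ (kf.cmul _))).congr (fun _ => β_eq _ _ _ _)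
    (β_eq _ _ _ _) (by simp)

lemma Xq_tq (κ : ℝ) (hf : Xp a ℓ u (fun i => H1.f (y i)) (H1.f y0) 0)
    (hd : Xp a ℓ u (fun i => H1.d (y i)) (H1.d y0) γ)
    (kf : Xp a ℓ u (fun i => H1.f (z i)) (H1.f z0) 0)
    (kd : Xp a ℓ u (fun i => H1.d (z i)) (H1.d z0) γ') :
    Xq a ℓ u (fun i => tq κ (y i) (z i)) (tq κ y0 z0) (γ * (((-1/2 : ℝ) • (om * c1)) * γ')) :=
  ((hd.prod hℓ (kd.cmul _)).add (hf.prod hℓ ((kf.cmul _).add (kd.cmul _)))).congr
    (fun _ => tq_eq _ _ _) (tq_eq _ _ _) (by simp)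

end Err

/-- the resonant coefficient -/
def co (w : H1) : ℝ := 2 / π * J (H1.f w * s2)
/-- the non resonant part -/
def pr (w : H1) : H1 := w - co w • S2

lemma pr_add (w : H1) : w = co w • S2 + pr w := by rw [pr]; abel

lemma Q1_pr (w θ : H1) : Q1 (-4) (pr w) θ = Q1 (-4) w θ := by
  rw [pr, Q1_sub, Q1_smul, Q1_comm _ S2, Q1_S2]; ring

lemma mean_le {v : D0} {u : H1} {e : ℝ} (he : 0 ≤ e)
    (h : ∀ θ, |Q1 (-4) u θ - Ad v θ| ≤ e * H1.nr θ) :
    ∃ r : ℝ, PJ.nrm (v - H1.d u - (4:ℝ) • V (H1.f u) - r • 1) ≤ 2 * e := by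
  set s := v - H1.d u - (4:ℝ) • V (H1.f u) with hs
  refine ⟨J s / π, ?_⟩
  set s' := s - (J s / π) • 1 with hs'
  have h0 : J s' = 0 := by
    rw [hs', map_sub, map_smul, J_one, smul_eq_mul, sub_zero, div_mul_cancel₀ _ pi_pos.ne',
      sub_self]
  let θ : H1 := H1.mk (V s') s' (D1_V _) (V_lo _) h0
  have h1 := H1.parts (D1_V (H1.f u)) θ
  have e1 : Q1 (-4) u θ - Ad v θ = -PJ.nrm s' ^ 2 := by
    have e2 : s' * s' = v * s' - H1.d u * s' - (4:ℝ) • (V (H1.f u) * s') - (J s / π) • s' := by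
      nth_rewrite 1 [hs', hs]
      simp only [Algebra.smul_def]; ring
    have e3 : H1.d θ = s' := rfl
    rw [PF.nrm_sq, PJ_Φ, e2, Q1, Ad, map_add, map_smul, h1, e3]
    simp only [map_sub, map_smul, h0, smul_eq_mul]
    ring
  have h2 := h θ
  rw [e1, abs_neg, abs_of_nonneg (sq_nonneg _)] at h2
  have h3 : H1.nr θ ≤ 2 * PJ.nrm s' := nr_le θ
  by_contra hc
  push Not at hc
  nlinarith [mul_le_mul_of_nonneg_left h3 he]

/-- admissible data for the base modes -/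
structure X0 (a3 : SJ) where
  v : D0
  w : H1
  x : H1
  e : ℝ
  he : 0 ≤ e
  hJ : J (v * ex b) = 0
  hn : Cn (-4) an v w e
  h3 : Cn 4 a3 v x e

namespace X0

variable {a3 : SJ}

/-- lower order size -/
def ℓ (i : X0 a3) : ℝ := PJ.nrm (H1.f (pr i.w)) + i.e

lemma hℓ (i : X0 a3) : PJ.nrm (H1.f (pr i.w)) ≤ i.ℓ := le_add_of_nonneg_right i.he

lemma u_O : LO ⊤ (fun i : X0 a3 => H1.f (pr i.w)) ℓ := O_nn (fun _ => apply_nonneg _ _) hℓ

lemma e_O : (fun i : X0 a3 => i.e) =O[⊤] ℓ :=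
  O_nn (fun i => i.he) (fun _ => le_add_of_nonneg_left (apply_nonneg _ _))

lemma v_O : LO ⊤ (fun i : X0 a3 => i.v - H1.d (pr i.w)) ℓ := by
  choose r hr using fun i : X0 a3 => mean_le (v := i.v) (u := pr i.w) i.he
    (fun θ => by rw [Q1_pr]; exact i.hn.base θ)
  have h1 : LO ⊤ (fun i : X0 a3 => i.v - H1.d (pr i.w) - (4:ℝ) • V (H1.f (pr i.w)) - r i • 1) ℓ :=
    (O_nn (fun _ => apply_nonneg _ _) hr).trans (e_O.const_mul_left 2)
  have h2 : LO ⊤ (fun i : X0 a3 => (4:ℝ) • V (H1.f (pr i.w))) ℓ :=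
    (u_O.V.cmul (algebraMap ℝ D0 4)).congr (fun i => Algebra.smul_def _ _)
  have hc : ∀ c : D0, LO (⊤ : Filter (X0 a3)) (fun _ => c) fun _ => 1 := fun c => O1 _
  have hp : J (ex b) ≠ 0 := (J_pos (fun t => (exp_pos _).le) (t := lo) (exp_pos _).ne').ne'
  have h3 : r =O[⊤] ℓ := by
    have h4 := ((J_O (hc (b • ex b)) u_O).sub (J_O (hc (ex b)) (h1.add h2))).const_mul_left
      (J (ex b))⁻¹
    simp only [one_mul] at h4
    refine h4.congr_left (fun i => ?_)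
    have h5 := i.hJ
    rw [H1.parts (D1_ex b), inv_mul_eq_iff_eq_mul₀ hp]
    rw [mul_comm] at h5
    simp only [mul_add, mul_sub, map_add, map_sub, mul_smul_comm, map_smul, h5, mul_one,
      smul_eq_mul]
    ring
  exact ((h1.add h2).add (LO.of_norm (O_smulc h3 1))).congr (fun i => by abel)

lemma R_O : NO ⊤ (fun i : X0 a3 => i.x - H1.mulL a3.D1_g (pr i.w)) ℓ := by
  obtain ⟨C, hC, H⟩ := apriori (r := 1/2) (by norm_num)
  obtain ⟨g2, hg2, -⟩ := (a3.smo_g.d a3.D1_g).ex_d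
  have key : ∀ i : X0 a3, H1.nr (i.x - H1.mulL a3.D1_g (pr i.w)) ≤ C * (i.e
      + PJ.nrm (i.v - H1.d (pr i.w)) * (‖a3.g‖ + ‖a3.g'‖)
      + PJ.nrm (H1.f (pr i.w)) * (‖(2:ℝ) • a3.g'‖ + ‖g2 + (4:ℝ) • a3.g‖)) := fun i => by
    have := i.he
    refine H 4 _ _ (by norm_num) (fun θ => ?_) (by positivity) (Or.inr (by norm_num))
      (Or.inr (by norm_num))
    have h1 := H1.J_d (H1.mulL (hg2.mul (H1.d1 (pr i.w))) θ)
    have e : Q1 4 (i.x - H1.mulL a3.D1_g (pr i.w)) θ = (Q1 4 i.x θ - Tv i.v a3.g a3.g' θ)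
        + Tv (i.v - H1.d (pr i.w)) a3.g a3.g' θ
        - Tv (H1.f (pr i.w)) ((2:ℝ) • a3.g') (g2 + (4:ℝ) • a3.g) θ := by
      rw [Q1_sub, Q1, Q1, Tv, Tv, Tv, ← sub_eq_zero]
      refine Eq.trans ?_ h1
      simp only [← map_sub, ← map_add]
      congr 1
      ext t; simp; ring
    rw [e, add_mul, add_mul]
    exact (abs_sub _ _).trans (add_le_add ((abs_add_le _ _).trans
      (add_le_add (i.h3 θ) (Tv_le _ _ _ _))) (Tv_le _ _ _ _))
  refine (O_nn (fun _ => apply_nonneg _ _) key).trans (IsBigO.const_mul_left ?_ C)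
  refine (e_O.add ?_).add ?_
  · simpa using IsBigO.mul v_O (O1 (‖a3.g‖ + ‖a3.g'‖))
  · simpa using IsBigO.mul u_O (O1 (‖(2:ℝ) • a3.g'‖ + ‖g2 + (4:ℝ) • a3.g‖))

lemma xp_v : Xp (fun i : X0 a3 => co i.w) ℓ (fun i => pr i.w) (fun i => i.v) 0 1 :=
  v_O.congr (fun i => by simp)
lemma xp_wf : Xp (fun i : X0 a3 => co i.w) ℓ (fun i => pr i.w) (fun i => H1.f i.w)
    (H1.f S2) 0 := u_O.congr (fun i => by simp [pr])
lemma xp_wd : Xp (fun i : X0 a3 => co i.w) ℓ (fun i => pr i.w) (fun i => H1.d i.w)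
    (H1.d S2) 1 := (u_O.cmul 0).congr (fun i => by simp [pr])
lemma xp_xf : Xp (fun i : X0 a3 => co i.w) ℓ (fun i => pr i.w) (fun i => H1.f i.x)
    (H1.f 0) 0 := (R_O.f.add (u_O.cmul a3.g)).congr (fun i => by simp)
lemma xp_xd : Xp (fun i : X0 a3 => co i.w) ℓ (fun i => pr i.w) (fun i => H1.d i.x)
    (H1.d 0) a3.g := (R_O.d.add (u_O.cmul a3.g')).congr (fun i => by simp; abel)
lemma KT_eq (w : H1) : KT w = co w • (2:ℝ) • S1 + KT (pr w) := by
  rw [← KT_S2, ← map_smul, ← map_add, ← pr_add]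
lemma xp_Kf : Xp (fun i : X0 a3 => co i.w) ℓ (fun i => pr i.w) (fun i => H1.f (KT i.w))
    (H1.f ((2:ℝ) • S1)) 0 := ((u_O.cmul c1).add (u_O.V.cmul (2 * s1))).congr (fun i => by
      beta_reduce
      rw [KT_eq, map_add, map_smul, f_KT]; simp)
lemma xp_Kd : Xp (fun i : X0 a3 => co i.w) ℓ (fun i => pr i.w) (fun i => H1.d (KT i.w))
    (H1.d ((2:ℝ) • S1)) c1 := ((u_O.cmul s1).add (u_O.V.cmul (2 * c1))).congr (fun i => by
      beta_reduce
      rw [KT_eq, map_add, map_smul, d_KT]; abel)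

end X0

/-- the part of the form coming from the base modes -/
def q0 (a3 : SJ) (φ1 φ2 ψ1 ψ2 v : D0) (w x : H1) : ℝ :=
  Gf an φ1 φ2 v (KT w) w + Ex 1 an v (KT w) w w + Ex (-1) a3 v (KT w) w x
    + Gf a3 ψ1 ψ2 v (KT w) x + Ex 3 an v (KT w) x w

/-- the leading coefficient -/
def W0 (a3 : SJ) (φ1 ψ1 : D0) : D0 :=
  (2:ℝ) • (Qd φ1 * c1 - φ1) + (2:ℝ) • (a3.g * (Qd ψ1 * c1 - ψ1))
    + (an.α * c1 + tE 1 an.α an.α1 an.α2) + (a3.α * c1 + tE (-1) a3.α a3.α1 a3.α2)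
    + a3.g * (an.α * c1 + tE 3 an.α an.α1 an.α2) - (1/2 : ℝ) • (om * c1 * (1 + 2 * a3.g))

lemma β_smul2 (o : SJ) (κ r : ℝ) (y K : H1) : β o κ y (r • K) = r * β o κ y K := by
  simp only [β_eq, map_smul, mul_smul_comm, smul_eq_mul]; ring

lemma xq_q0 (a3 : SJ) (φ1 φ2 ψ1 ψ2 : D0)
    (hM : J (s2 * (Rr 1 an.α an.α1 + Rr (-1) a3.α a3.α1)) = 0) :
    Xq (fun i : X0 a3 => co i.w) X0.ℓ (fun i => pr i.w)
      (fun i => q0 a3 φ1 φ2 ψ1 ψ2 i.v i.w i.x) (tq 1 S2 S2) (W0 a3 φ1 ψ1) := by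
  have T := fun (P P' : D0) => Xq_Tv (X0.hℓ (a3 := a3)) P P' X0.xp_v X0.xp_Kf X0.xp_Kd
  have Tw := fun (P P' : D0) => Xq_Tv (X0.hℓ (a3 := a3)) P P' X0.xp_v X0.xp_wf X0.xp_wd
  have Tx := fun (P P' : D0) => Xq_Tv (X0.hℓ (a3 := a3)) P P' X0.xp_v X0.xp_xf X0.xp_xd
  have Bw := fun o κ => Xq_β (X0.hℓ (a3 := a3)) o κ X0.xp_wf X0.xp_wd X0.xp_Kf X0.xp_Kd
  have Bx := fun o κ => Xq_β (X0.hℓ (a3 := a3)) o κ X0.xp_xf X0.xp_xd X0.xp_Kf X0.xp_Kd
  have t1 := Xq_tq (X0.hℓ (a3 := a3)) 1 X0.xp_wf X0.xp_wd X0.xp_wf X0.xp_wd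
  have t2 := Xq_tq (X0.hℓ (a3 := a3)) (-1) X0.xp_wf X0.xp_wd X0.xp_xf X0.xp_xd
  have t3 := Xq_tq (X0.hℓ (a3 := a3)) 3 X0.xp_xf X0.xp_xd X0.xp_wf X0.xp_wd
  refine (((((((T (an.g * Qd φ1) (an.g' * Qd φ1 + an.g * (QA φ1 + QB φ2))).cmul 2).add
    ((Tw φ1 φ2).cmul (-2))).add (((Bw an 1).add
      (Tw (tE 1 an.α an.α1 an.α2) (tE' 1 an.α an.α1 an.α2 an.α3))).add t1)).add
    (((Bw a3 (-1)).add
      (Tw (tE (-1) a3.α a3.α1 a3.α2) (tE' (-1) a3.α a3.α1 a3.α2 a3.α3))).add t2)).add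
    (((T (a3.g * Qd ψ1) (a3.g' * Qd ψ1 + a3.g * (QA ψ1 + QB ψ2))).cmul 2).add
      ((Tx ψ1 ψ2).cmul (-2)))).add (((Bx an 3).add
      (Tx (tE 3 an.α an.α1 an.α2) (tE' 3 an.α an.α1 an.α2 an.α3))).add t3)).congr
      (fun i => ?_) ?_ ?_
  · simp only [q0, Gf, Ex, sub_eq_add_neg, neg_mul]
  · rw [mul_add, map_add] at hM
    have z1 : tq (-1) S2 0 = 0 := by simp [tq]
    have z2 : tq 3 0 S2 = 0 := by simp [tq]
    have z3 : ∀ K, β an 3 0 K = 0 := by simp [β]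
    simp only [β_smul2, β_S1, f_S2, z1, z2, z3]
    linarith
  · ext t
    simp [W0, an_g]
    ring

lemma W0_end (a3 : SJ) {l l' : ℝ} {φ φ1 φ2 F ψ ψ1 ψ2 G : D0} (h : Ode l φ φ1 φ2 F)
    (k : Ode l' ψ ψ1 ψ2 G) (t : Icc (0:ℝ) π) (ht : sin (t:ℝ) = 0) :
    -W0 a3 φ1 ψ1 t = 3 / 4 * exp (-b * t) * cos t * (1 + 2 * a3.g t) := by
  have h1 := congrArg (fun y : D0 => y t) h.quot
  have h2 := congrArg (fun y : D0 => y t) k.quot
  have h3 := congrArg (fun y : D0 => y t) a3.α1_eq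
  have hb := b_pos.ne'
  simp only [D.add_apply, D.mul_apply, s1_apply, c1_apply, ht, zero_mul, add_zero, D.smul_apply,
    om_apply] at h1 h2 h3
  simp [W0, tE, an_α1, ht, ← h1, ← h2, h3]
  field_simp
  ring

theorem base : ∃ (a3 : SJ) (φ φ1 φ2 ψ ψ1 ψ2 : D0),
    Ode 4 φ φ1 φ2 (-(Rr 1 an.α an.α1 + Rr (-1) a3.α a3.α1)) ∧
    Ode (-4) ψ ψ1 ψ2 (-Rr 3 an.α an.α1) ∧
    J (s2 * (Rr 1 an.α an.α1 - Rr (-1) a3.α a3.α1)) ≠ 0 ∧
    ∃ w0 > 0, ∃ C ≥ 0, ∀ i : X0 a3, w0 * (co i.w ^ 2 + PJ.nrm (H1.d (pr i.w)) ^ 2) - C * i.ℓ ^ 2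
      ≤ -q0 a3 φ1 φ2 ψ1 ψ2 i.v i.w i.x ∧ PJ.nrm i.v ≤ PJ.nrm (H1.d (pr i.w)) + C * i.ℓ := by
  have hb := b_pos
  have sρ : Smo (ρ (-1)) := by
    rw [ρ, pow_three]
    exact ((Smo_s1.mul (Smo_s1.mul Smo_s1)).smul _).neg.add
      ((Smo_s1.mul Smo_c1).mul (Smo_c1.add (Smo_s1.smul b)))
  have hρ : 0 < J (om * ρ (-1) * ρ (-1)) := J_pos (t := mid) (fun t => by
    rw [mul_assoc]; exact mul_nonneg (exp_pos _).le (mul_self_nonneg _)) (by simp [ρ]; norm_num)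
  have hM1 : J (s2 * Rr 1 an.α an.α1) = b * ((exp (-b * π) + 1) / 14) := by
    rw [J_Rr 1 an.h0, an_α1, smul_mul_assoc, map_smul, J_ρ1, smul_eq_mul]
  set lam := -((exp (-b * π) + 1) / 14 + J (om * c1 * ρ (-1))) / J (om * ρ (-1) * ρ (-1))
    with hlam
  let a3 := SJ.prim (c1 + lam • ρ (-1)) (Smo_c1.add (sρ.smul lam))
  have hg : a3.g = c1 + lam • ρ (-1) := SJ.prim_g _ _
  have hM3 : J (s2 * Rr (-1) a3.α a3.α1) = -(b * ((exp (-b * π) + 1) / 14)) := by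
    rw [J_Rr (-1) a3.h0, SJ.prim_α1]
    simp only [mul_add, add_mul, smul_mul_assoc, mul_smul_comm, map_add, map_smul, smul_eq_mul]
    rw [hlam, div_mul_cancel₀ _ hρ.ne']; ring
  have hM : J (s2 * (Rr 1 an.α an.α1 + Rr (-1) a3.α a3.α1)) = 0 := by
    rw [mul_add, map_add, hM1, hM3, add_neg_cancel]
  obtain ⟨G2⟩ : Nonempty (Gr 4 (Pj 2)) := by
    have := exists_Gr_res 2 two_pos
    rwa [show ((2:ℕ):ℝ) ^ 2 = 4 by norm_num] at this
  obtain ⟨G3⟩ := exists_Gr (l := -4) (fun j _ e => by nlinarith [sq_nonneg (j:ℝ)])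
  have o2 := exists_ode G2 (F := -(Rr 1 an.α an.α1 + Rr (-1) a3.α a3.α1)) (by
    have : (sn ((2:ℕ):ℝ) : D0) = s2 := by simp [s2]
    rw [Pj_apply, this, mul_neg, map_neg, hM]; simp)
  have o3 := exists_ode G3 (F := -Rr 3 an.α an.α1) rfl
  generalize G2.G0 _ = φ at o2
  generalize G2.G1 _ = φ1 at o2
  generalize _ - (4:ℝ) • φ = φ2 at o2
  generalize G3.G0 _ = ψ at o3
  generalize G3.G1 _ = ψ1 at o3
  generalize _ - (-4:ℝ) • ψ = ψ2 at o3
  obtain ⟨c, w1, hw1, hc⟩ := posW (f := -W0 a3 φ1 ψ1)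
    (by rw [D.neg_apply, W0_end a3 o2 o3 lo (by simp), hg]; simp [ρ]; norm_num)
    (by rw [D.neg_apply, W0_end a3 o2 o3 hi (by simp), hg]; simp [ρ]; linarith [exp_pos (-(b * π))])
  have o2' : Ode 4 (φ + (-c / 4) • s2) (φ1 + (-c / 4) • (2:ℝ) • c2)
      (φ2 + (-c / 4) • (2:ℝ) • -((2:ℝ) • s2)) (-(Rr 1 an.α an.α1 + Rr (-1) a3.α a3.α1)) :=
    ⟨o2.d0.add (D1_s2.smul _), o2.d1.add ((D1_c2.smul _).smul _), by simp [o2.lo],
      by simp [o2.hi, sin_two_pi], by rw [← o2.eq]; module⟩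
  have hQ : Qd ((2:ℝ) • c2) = 2 * c1 := by
    have := s1_mul_Qd D1_s2 (by simp) (by simp [sin_two_pi])
    refine sub_eq_zero.1 (eq_zero_of_s1_mul ?_)
    rw [mul_sub, this, s2_eq]; ring
  have hW : ∀ t, w1 ≤ -W0 a3 (φ1 + (-c / 4) • (2:ℝ) • c2) ψ1 t := fun t => by
    refine (hc t).trans_eq ?_
    simp only [W0, map_add, map_smul Qd (-c / 4), hQ]
    simp [cos_two_mul']
    ring
  have hκ : tq 1 S2 S2 = -(5 / 21 * b * (exp (-b * π) + 1)) := by
    have e : om * (-(c1 * ((1 * (2 - 1) : ℝ) • (s2 * s2) + (2:ℝ) • c2 * (2:ℝ) • c2))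
        + (1:ℝ) • (s1 * s2 * (2:ℝ) • c2)) =
        -(om * (c1 * (s2 * s2 + (2:ℝ) • c2 * (2:ℝ) • c2) - s1 * s2 * (2:ℝ) • c2)) := by
      ext t; simp; ring
    rw [tq, f_S2, d_S2, e, map_neg, J_κ1]; ring
  refine ⟨a3, _, _, _, ψ, ψ1, ψ2, o2', o3, ?_, ?_⟩
  · rw [mul_sub, map_sub, hM1, hM3, sub_neg_eq_add]; positivity
  set w0 := min w1 (5 / 21 * b * (exp (-b * π) + 1)) / 2 with hw0
  have hw : 0 < w0 := by positivity
  obtain ⟨C, hC⟩ := xq_q0 a3 (φ1 + (-c / 4) • (2:ℝ) • c2)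
    (φ2 + (-c / 4) • (2:ℝ) • -((2:ℝ) • s2)) ψ1 ψ2 hM w0 hw
  obtain ⟨C', hC0, hC'⟩ := (X0.v_O (a3 := a3)).exists_pos
  refine ⟨w0, hw, |C| + C', by positivity, fun i => ⟨?_, ?_⟩⟩
  · have h1 := (le_abs_self _).trans (hC i)
    beta_reduce at h1
    have h2 : J (W0 a3 (φ1 + (-c / 4) • (2:ℝ) • c2) ψ1 * (H1.d (pr i.w) * H1.d (pr i.w)))
        ≤ -w1 * PJ.nrm (H1.d (pr i.w)) ^ 2 := by
      rw [PF.nrm_sq, PJ_Φ, ← smul_eq_mul (-w1), ← map_smul]
      exact J_mono (fun t => mul_le_mul_of_nonneg_right (le_neg.1 (hW t))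
        (mul_self_nonneg _))
    have h3 : 2 * w0 ≤ w1 := by linarith [min_le_left w1 (5 / 21 * b * (exp (-b * π) + 1))]
    have h4 : 2 * w0 ≤ 5 / 21 * b * (exp (-b * π) + 1) := by
      linarith [min_le_right w1 (5 / 21 * b * (exp (-b * π) + 1))]
    rw [hκ] at h1
    nlinarith [mul_le_mul_of_nonneg_right h3 (sq_nonneg (PJ.nrm (H1.d (pr i.w)))),
      mul_le_mul_of_nonneg_right h4 (sq_nonneg (co i.w)),
      mul_le_mul_of_nonneg_right (le_abs_self C) (sq_nonneg i.ℓ),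
      mul_nonneg hC0.le (sq_nonneg i.ℓ)]
  · have h1 := eventually_top.1 hC'.bound i
    have h2 : 0 ≤ i.ℓ := (apply_nonneg _ _).trans i.hℓ
    rw [Real.norm_of_nonneg (apply_nonneg _ _), Real.norm_of_nonneg h2] at h1
    have h3 := map_add_le_add PJ.nrm (H1.d (pr i.w)) (i.v - H1.d (pr i.w))
    rw [add_sub_cancel] at h3
    nlinarith [abs_nonneg C]

end

end Pool.Agent.P.MP_0d657e_an.E
end

-- part Pool.Agent.P.MP_0d657e_an.PosE4
section

/-! Pairs of modes close to the resonance with `sin 2t`. -/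

open Set Real Filter Topology Asymptotics

namespace Pool.Agent.P.MP_0d657e_an.E

noncomputable section

section gauge

variable {X : Type*} (θ N e : X → ℝ)

/-- large gauge -/
def gM (i : X) : ℝ := N i + e i / |θ i|
/-- small gauge -/
def gε (i : X) : ℝ := |θ i| * gM θ N e i + e i / |θ i|
/-- the parameter tends to zero -/
def fl : Filter X := comap θ (𝓝[≠] 0)

variable {θ N e} (hN : ∀ i, 0 ≤ N i) (he : ∀ i, 0 ≤ e i)

lemma fl_tend : Tendsto θ (fl θ) (𝓝[≠] 0) := tendsto_comap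
lemma fl_tend0 : Tendsto θ (fl θ) (𝓝 0) := fl_tend.mono_right nhdsWithin_le_nhds
lemma fl_ne : ∀ᶠ i in fl θ, θ i ≠ 0 := fl_tend.eventually self_mem_nhdsWithin
lemma fl_small : ∀ᶠ i in fl θ, |θ i| ≤ 1/4 :=
  (by simpa using fl_tend0.abs : Tendsto (fun i => |θ i|) (fl θ) (𝓝 0)).eventually
    (ge_mem_nhds (by norm_num))

lemma O_cont {E : Type*} [NormedAddCommGroup E] {f : ℝ → E} (hf : ContinuousAt f 0) :
    (fun i => f (θ i)) =O[fl θ] fun _ => (1:ℝ) := (hf.tendsto.comp fl_tend0).isBigO_one ℝ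

lemma O_diff {E : Type*} [NormedAddCommGroup E] [NormedSpace ℝ E] {f : ℝ → E}
    (hf : DifferentiableAt ℝ f 0) : (fun i => f (θ i) - f 0) =O[fl θ] θ := by
  simpa [Function.comp_def] using hf.isBigO_sub.comp_tendsto (fl_tend0 (θ := θ))

lemma θ_O1 : θ =O[fl θ] fun _ => (1:ℝ) := O_cont (f := id) continuousAt_id

include hN he

lemma gM_nn (i : X) : 0 ≤ gM θ N e i := add_nonneg (hN i) (div_nonneg (he i) (abs_nonneg _))
lemma N_O : N =O[fl θ] gM θ N e :=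
  O_nn hN (fun i => le_add_of_nonneg_right (div_nonneg (he i) (abs_nonneg _)))
lemma θM_O : (fun i => θ i * gM θ N e i) =O[fl θ] gε θ N e :=
  O_of_abs_le (fun i => by
    rw [Real.norm_eq_abs, abs_mul, abs_of_nonneg (gM_nn hN he i)]
    exact le_add_of_nonneg_right (div_nonneg (he i) (abs_nonneg _)))
lemma e'_O : (fun i => e i / |θ i|) =O[fl θ] gε θ N e :=
  O_nn (fun i => div_nonneg (he i) (abs_nonneg _))
    (fun i => le_add_of_nonneg_left (mul_nonneg (abs_nonneg _) (gM_nn hN he i)))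
lemma e_O : e =O[fl θ] gε θ N e := by
  have h := (θ_O1 (θ := θ)).abs_left.mul (e'_O (θ := θ) hN he)
  simp only [one_mul] at h
  refine h.congr' (fl_ne.mono fun i hi => ?_) EventuallyEq.rfl
  have := (abs_pos.2 hi).ne'
  field_simp
lemma ε_O : gε θ N e =O[fl θ] gM θ N e := by
  refine IsBigO.add ?_ (O_nn (fun i => div_nonneg (he i) (abs_nonneg _))
    (fun i => le_add_of_nonneg_left (hN i)))
  simpa using (θ_O1 (θ := θ)).abs_left.mul (isBigO_refl (gM θ N e) _)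
lemma MθM {f : X → ℝ} (h : f =O[fl θ] fun i => gM θ N e i * (θ i * gM θ N e i)) :
    f =O[fl θ] fun i => gM θ N e i * gε θ N e i := h.trans ((isBigO_refl _ _).mul (θM_O hN he))

lemma conclude {f : X → ℝ} (h : f =O[fl θ] fun i => gM θ N e i * gε θ N e i) {δ : ℝ}
    (hδ : 0 < δ) : ∀ᶠ t in 𝓝[≠] (0:ℝ), ∃ C, ∀ i, θ i = t → |f i| ≤ δ * N i ^ 2 + C * e i ^ 2 := by
  obtain ⟨C, hC0, hC⟩ := h.exists_pos
  have h1 := eventually_comap.1 hC.bound
  have h2 : ∀ᶠ t in 𝓝[≠] (0:ℝ), C * |t| ≤ δ / 4 := by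
    have : Tendsto (fun t : ℝ => C * |t|) (𝓝 0) (𝓝 (C * |0|)) :=
      (continuous_const.mul continuous_abs).tendsto 0
    rw [abs_zero, mul_zero] at this
    exact (this.eventually (ge_mem_nhds (by positivity))).filter_mono nhdsWithin_le_nhds
  filter_upwards [h1, h2] with t h1 h2
  refine ⟨(δ + C ^ 2 / δ + C) / |t| ^ 2, fun i hi => ?_⟩
  have h3 := h1 i hi
  have a := hN i
  have c : 0 ≤ e i / |t| := div_nonneg (he i) (abs_nonneg _)
  have h0 : 0 ≤ gε θ N e i :=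
    add_nonneg (mul_nonneg (abs_nonneg _) (gM_nn hN he i)) (div_nonneg (he i) (abs_nonneg _))
  rw [Real.norm_eq_abs, Real.norm_of_nonneg (mul_nonneg (gM_nn hN he i) h0)] at h3
  simp only [gε, gM, hi] at h3
  rw [div_mul_eq_mul_div, mul_div_assoc, ← div_pow]
  generalize e i / |t| = s at *
  have e1 : C ^ 2 / δ = δ * (C / δ) ^ 2 := by field_simp
  have e2 : C * (N i * s) = δ * (C / δ * N i * s) := by field_simp
  rw [e1]
  generalize C / δ = c at *
  have h4 := mul_le_mul_of_nonneg_right h2 (sq_nonneg (N i + s))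
  nlinarith [mul_nonneg hδ.le (sq_nonneg (N i - s)), mul_nonneg hδ.le (sq_nonneg (N i - 2 * c * s)),
    mul_nonneg hδ.le (sq_nonneg s), mul_nonneg hδ.le (sq_nonneg (N i))]

end gauge

section modes

variable {X : Type*} {l : Filter X} {m e g : X → ℝ} {a : X → SJ} {v : X → D0} {y : X → H1}

lemma E_O {g1 g2 : X → ℝ} (hv : LO l v g1) (ha : JO l a g2) (h : (fun i => g1 i * g2 i) =O[l] g)
    (he : e =O[l] g) : (fun i => PJ.nrm (v i) * (‖(a i).g‖ + ‖(a i).g'‖) + e i) =O[l] g :=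
  ((IsBigO.mul hv (ha.g0.norm_left.add ha.g0'.norm_left)).trans h).add he

lemma mode_O (he : ∀ i, 0 ≤ e i) (h : ∀ i, Cn (m i) (a i) (v i) (y i) (e i))
    (hm : ∀ᶠ i in l, -5 ≤ m i ∧ 1/2 ≤ |m i + 1| ∧ 1/2 ≤ |m i + 4|)
    (hE : (fun i => PJ.nrm (v i) * (‖(a i).g‖ + ‖(a i).g'‖) + e i) =O[l] g) : NO l y g := by
  obtain ⟨C, hC, H⟩ := apriori (r := 1/2) (by norm_num)
  refine (IsBigO.of_bound C (hm.mono fun i hi => ?_)).trans hE
  have := he i
  rw [Real.norm_of_nonneg (apply_nonneg _ _), Real.norm_of_nonneg (by positivity)]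
  exact H _ _ _ hi.1 (h i).bound (by positivity) (Or.inr hi.2.1) (Or.inr hi.2.2)

lemma proj_orth (y s : H1) (hs : J (H1.f s * H1.f s) = π / 2) :
    J (H1.f (y - (2 / π * J (H1.f y * H1.f s)) • s) * H1.f s) = 0 := by
  have := pi_pos.ne'
  simp only [map_sub, map_smul, sub_mul, smul_mul_assoc, hs, smul_eq_mul]
  field_simp
  ring

lemma mode_O2 (he : ∀ i, 0 ≤ e i) (h : ∀ i, Cn (m i) (a i) (v i) (y i) (e i))
    (hm : ∀ᶠ i in l, -5 ≤ m i ∧ 1/2 ≤ |m i + 1|)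
    (hE : (fun i => PJ.nrm (v i) * (‖(a i).g‖ + ‖(a i).g'‖) + e i) =O[l] g) :
    NO l (fun i => pr (y i)) g := by
  obtain ⟨C, hC, H⟩ := apriori (r := 1/2) (by norm_num)
  refine (IsBigO.of_bound (C * (1 + H1.nr S2 * H1.nr S2)) (hm.mono fun i hi => ?_)).trans hE
  have := he i
  have k1 := Q1_proj (e := S2) (fun z => by rw [f_S2]; exact Q1_S2 _ z) (h i).bound
  have k2 := proj_orth (y i) S2 (by rw [f_S2]; exact J_s2_s2)
  rw [f_S2] at k1 k2
  rw [Real.norm_of_nonneg (apply_nonneg _ _), Real.norm_of_nonneg (by positivity), mul_assoc C]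
  simp only [pr, co]
  exact H _ _ _ hi.1 k1 (by positivity) (Or.inr hi.2) (Or.inl k2)

lemma mode_O1 (he : ∀ i, 0 ≤ e i) (h : ∀ i, Cn (m i) (a i) (v i) (y i) (e i))
    (hm : ∀ᶠ i in l, -5 ≤ m i ∧ 1/2 ≤ |m i + 4|)
    (hE : (fun i => PJ.nrm (v i) * (‖(a i).g‖ + ‖(a i).g'‖) + e i) =O[l] g) :
    NO l (fun i => y i - (2 / π * J (H1.f (y i) * s1)) • S1) g := by
  obtain ⟨C, hC, H⟩ := apriori (r := 1/2) (by norm_num)
  refine (IsBigO.of_bound (C * (1 + H1.nr S1 * H1.nr S1)) (hm.mono fun i hi => ?_)).trans hE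
  have := he i
  have k1 := Q1_proj (e := S1) (fun z => by rw [f_S1]; exact Q1_S1 _ z) (h i).bound
  have k2 := proj_orth (y i) S1 (by rw [f_S1]; exact J_s1_s1)
  rw [f_S1] at k1 k2
  rw [Real.norm_of_nonneg (apply_nonneg _ _), Real.norm_of_nonneg (by positivity), mul_assoc C]
  exact H _ _ _ hi.1 k1 (by positivity) (Or.inl k2) (Or.inr hi.2)

lemma ode_O {φ φ1 φ2 F : X → D0} (h : ∀ i, Ode (m i) (φ i) (φ1 i) (φ2 i) (F i))
    (hm : ∀ᶠ i in l, |m i| ≤ 5 ∧ (J (φ i * s1) = 0 ∨ 1/2 ≤ |-m i + 1|) ∧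
      (J (φ i * s2) = 0 ∨ 1/2 ≤ |-m i + 4|)) (hF : F =O[l] g) : φ1 =O[l] g ∧ φ2 =O[l] g := by
  obtain ⟨C, hC, H⟩ := Ode.bound
  exact ⟨(IsBigO.of_bound C (hm.mono fun i hi => (H (h i) hi.1 hi.2.1 hi.2.2).1)).trans hF,
    (IsBigO.of_bound C (hm.mono fun i hi => (H (h i) hi.1 hi.2.1 hi.2.2).2)).trans hF⟩

lemma Cn_O (he : ∀ i, 0 ≤ e i) (h : ∀ i, Cn (m i) (a i) (v i) (y i) (e i)) (s : H1) :
    (fun i => Q1 (m i) (y i) s - Tv (v i) (a i).g (a i).g' s) =O[l] e :=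
  IsBigO.of_bound (H1.nr s) (Eventually.of_forall fun i => by
    rw [Real.norm_of_nonneg (he i), mul_comm]; exact h i s)

end modes

lemma tq1_neg : tq 1 S2 S2 < 0 := by
  have e : om * (-(c1 * ((1 * (2 - 1) : ℝ) • (s2 * s2) + (2:ℝ) • c2 * (2:ℝ) • c2))
      + (1:ℝ) • (s1 * s2 * (2:ℝ) • c2)) =
      -(om * (c1 * (s2 * s2 + (2:ℝ) • c2 * (2:ℝ) • c2) - s1 * s2 * (2:ℝ) • c2)) := by
    ext t; simp; ring
  rw [tq, f_S2, d_S2, e, map_neg, J_κ1]
  have := b_pos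
  have : 0 < 10 / 21 * b * (exp (-b * π) + 1) := by positivity
  linarith

lemma tq_cont (y z : H1) : Continuous fun κ => tq κ y z := by
  unfold tq; fun_prop

/-- solvability defect -/
def Mf (a : SJ) (κ : ℝ) : ℝ := J (s2 * Rr κ a.α a.α1)

lemma Mf_cont (a : SJ) : Continuous (Mf a) := by
  unfold Mf Rr; fun_prop

lemma Mf_an : Mf an 1 ≠ 0 := by
  rw [Mf, J_Rr 1 an.h0, an_α1, smul_mul_assoc, map_smul, J_ρ1, smul_eq_mul]
  have := b_pos
  positivity

lemma Mf_comb (a c : SJ) (r s κ : ℝ) :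
    Mf ((a.add (c.smul r)).smul s) κ = s * (Mf a κ + r * Mf c κ) := by
  simp only [Mf, Rr, SJ.add, SJ.smul, mul_add, add_mul, smul_add, smul_mul_assoc, mul_smul_comm,
    map_add, map_smul, smul_eq_mul]
  ring

/-- correction making the forcing orthogonal to `sin 2t` -/
def lam (a : SJ) (θ : ℝ) : ℝ := -Mf a (1 - θ) / Mf an (1 - θ)

lemma lam_cont (a : SJ) : ContinuousAt (lam a) 0 :=
  ((Mf_cont a).comp (continuous_const.sub continuous_id)).neg.continuousAt.div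
    ((Mf_cont an).comp (continuous_const.sub continuous_id)).continuousAt (by simpa using Mf_an)

/-- jets of the modes close to the resonance -/
def a1 (a : SJ) (θ : ℝ) : SJ := (a.add (an.smul (lam a θ))).smul θ

lemma a1_g (a : SJ) (θ : ℝ) : (a1 a θ).g = θ • (a.g + lam a θ • 1) := by
  rw [a1, SJ.g_smul, SJ.g_add, SJ.g_smul, an_g]

/-- data of a pair of modes -/
structure X1 (a : SJ) where
  θ : ℝ
  φ : D0
  φ1 : D0
  φ2 : D0
  v : D0
  K : H1
  y : H1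
  z : H1
  e : ℝ
  he : 0 ≤ e
  ode : Ode (5 - (1 + θ) ^ 2) φ φ1 φ2 (-Rr (1 + θ) (a1 a (-θ)).α (a1 a (-θ)).α1)
  hy : Cn ((1 + θ) ^ 2 - 5) (a1 a θ) v y e
  hz : Cn ((1 + -θ) ^ 2 - 5) (a1 a (-θ)) v z e
  h2 : |Ad v S2| ≤ e * H1.nr S2

lemma mode1 {X : Type*} {θ N e s : X → ℝ} (hN : ∀ i, 0 ≤ N i) (he : ∀ i, 0 ≤ e i)
    (hs : ∀ i, |s i| = |θ i|) (a : SJ) {v : X → D0} {y : X → H1}
    (hv : LO (fl θ) v (gM θ N e)) (h : ∀ i, Cn ((1 + s i) ^ 2 - 5) (a1 a (s i)) (v i) (y i) (e i))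
    (h2 : ∀ i, |Ad (v i) S2| ≤ e i * H1.nr S2) :
    JO (fl θ) (fun i => a1 a (s i)) θ ∧ NO (fl θ) (fun i => pr (y i)) (gε θ N e) ∧
    (fun i => co (y i) - 2 / π * (2 + s i)⁻¹ * Ad (v i) (H1.mulL a.D1_g S2)) =O[fl θ] gε θ N e ∧
    (fun i => 2 / π * (2 + s i)⁻¹ * Ad (v i) (H1.mulL a.D1_g S2)) =O[fl θ] gM θ N e := by
  have hs0 : Tendsto s (fl θ) (𝓝 0) := by
    rw [tendsto_zero_iff_abs_tendsto_zero]
    simpa [Function.comp_def, hs] using (fl_tend0 (θ := θ)).abs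
  have hsθ : s =O[fl θ] θ := IsBigO.of_bound 1 (Eventually.of_forall fun i => by simp [hs])
  have hl : (fun i => lam a (s i)) =O[fl θ] fun _ => (1:ℝ) :=
    ((lam_cont a).tendsto.comp hs0).isBigO_one ℝ
  have hi : (fun i => 2 / π * (2 + s i)⁻¹) =O[fl θ] fun _ => (1:ℝ) :=
    (((hs0.const_add 2).inv₀ (by norm_num)).isBigO_one ℝ).const_mul_left _
  have hJ : JO (fl θ) (fun i => a1 a (s i)) θ := by
    have h1 : JO (fl θ) (fun i => an.smul (lam a (s i))) fun _ => 1 := by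
      simpa using JO.smul hl (JO.const an)
    simpa [a1] using JO.smul hsθ ((JO.const a).add h1)
  refine ⟨hJ, mode_O2 he h (fl_small.mono fun i hi => ?_)
    (E_O hv hJ (by simpa [mul_comm] using θM_O hN he) (e_O hN he)), ?_, ?_⟩
  · rw [← hs, abs_le] at hi
    exact ⟨by nlinarith [sq_nonneg (1 + s i)], le_abs.2 (Or.inr (by nlinarith))⟩
  · have h3 : (fun i => (s i)⁻¹) =O[fl θ] fun i => |θ i|⁻¹ :=
      IsBigO.of_bound 1 (Eventually.of_forall fun i => by simp [hs])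
    have h4 := (h3.mul (Cn_O (l := fl θ) he h S2)).trans
      ((e'_O hN he).congr_left (fun i => by rw [div_eq_inv_mul]))
    have h5 : (fun i => Ad (v i) S2) =O[fl θ] e :=
      IsBigO.of_bound (H1.nr S2) (Eventually.of_forall fun i => by
        rw [Real.norm_of_nonneg (he i), mul_comm]; exact h2 i)
    have h6 := hl.mul (h5.trans (e_O hN he))
    simp only [one_mul] at h6
    have h7 := hi.mul (h4.add h6)
    simp only [one_mul] at h7
    refine h7.congr' ?_ EventuallyEq.rfl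
    filter_upwards [fl_ne, fl_small] with i i1 i2
    have j1 : s i ≠ 0 := by rw [← abs_pos, hs, abs_pos]; exact i1
    have j2 : 2 + s i ≠ 0 := by rw [← hs, abs_le] at i2; linarith [i2.1]
    have e1 : Tv (v i) (a1 a (s i)).g (a1 a (s i)).g' S2 =
        s i * (Ad (v i) (H1.mulL a.D1_g S2) + lam a (s i) * Ad (v i) S2) := by
      rw [Tv_eq _ (a1 a (s i)).D1_g, ← Ad_smul, ← Ad_add, ← Ad_smul]
      exact Ad_congr _ (by simp [a1_g, add_mul])
    rw [e1, Q1_S2, co]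
    field_simp
    ring
  · simpa using hi.mul (Ad_O hv (NO.const _))

theorem pair1 : ∃ c0 > 0, ∀ (a : SJ) (δ : ℝ), 0 < δ → ∀ᶠ t in 𝓝[≠] (0:ℝ), ∃ C, ∀ i : X1 a,
    i.θ = t → c0 * Ad i.v (H1.mulL a.D1_g S2) ^ 2 - δ * (PJ.nrm i.v + H1.nr i.K) ^ 2 - C * i.e ^ 2
      ≤ -(Gf (a1 a i.θ) i.φ1 i.φ2 i.v i.K i.y + Ex (1 + i.θ) (a1 a (-i.θ)) i.v i.K i.y i.z) := by
  have hT := tq1_neg
  refine ⟨-tq 1 S2 S2 / 2 / π ^ 2, by have := pi_pos; have : 0 < -tq 1 S2 S2 := by linarith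
                                      positivity, fun a δ hδ => ?_⟩
  let N : X1 a → ℝ := fun i => PJ.nrm i.v + H1.nr i.K
  have hN : ∀ i, 0 ≤ N i := fun i => add_nonneg (apply_nonneg _ _) (apply_nonneg _ _)
  have he : ∀ i : X1 a, 0 ≤ i.e := fun i => i.he
  have hv : LO (fl X1.θ) (fun i : X1 a => i.v) (gM X1.θ N X1.e) :=
    (O_nn (fun _ => apply_nonneg _ _) (fun _ => le_add_of_nonneg_right (apply_nonneg _ _))).trans
      (N_O hN he)
  have hK : NO (fl X1.θ) (fun i : X1 a => i.K) (gM X1.θ N X1.e) :=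
    (O_nn (fun _ => apply_nonneg _ _) (fun _ => le_add_of_nonneg_left (apply_nonneg _ _))).trans
      (N_O hN he)
  obtain ⟨j1, p1, d1, b1⟩ := mode1 (θ := X1.θ) (s := X1.θ) (y := X1.y) hN he (fun _ => rfl) a hv
    (fun i => i.hy) (fun i => i.h2)
  obtain ⟨j2, p2, d2, b2⟩ := mode1 (θ := X1.θ) (s := fun i : X1 a => -i.θ) (y := X1.z) hN he
    (fun i => abs_neg i.θ) a hv (fun i => i.hz) (fun i => i.h2)
  have c1 : (fun i : X1 a => co i.y) =O[fl X1.θ] gM X1.θ N X1.e :=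
    ((d1.trans (ε_O hN he)).add b1).congr_left (fun i => by ring)
  have c2 : (fun i : X1 a => co i.z) =O[fl X1.θ] gM X1.θ N X1.e :=
    ((d2.trans (ε_O hN he)).add b2).congr_left (fun i => by ring)
  have hy : NO (fl X1.θ) (fun i : X1 a => i.y) (gM X1.θ N X1.e) := by
    simpa only [← pr_add] using (NO.smul c1 S2).add (p1.trans (ε_O hN he))
  have hz : NO (fl X1.θ) (fun i : X1 a => i.z) (gM X1.θ N X1.e) := by
    simpa only [← pr_add] using (NO.smul c2 S2).add (p2.trans (ε_O hN he))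
  have hκ : (fun i : X1 a => 1 + i.θ) =O[fl X1.θ] fun _ => (1:ℝ) := (O1 1).add θ_O1
  have hM : ∀ᶠ i : X1 a in fl X1.θ, Mf an (1 - -i.θ) ≠ 0 :=
    fl_tend0.eventually (p := fun t => Mf an (1 - -t) ≠ 0)
      (((Mf_cont an).comp (continuous_const.sub continuous_neg)).continuousAt.eventually_ne
        (by simpa using Mf_an))
  obtain ⟨f1, f2⟩ := ode_O (l := fl X1.θ) (fun i : X1 a => i.ode) (by
    filter_upwards [fl_ne, fl_small, hM] with i i1 i2 i3
    rw [abs_le] at i2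
    refine ⟨abs_le.2 ⟨by nlinarith, by nlinarith [sq_nonneg (1 + i.θ)]⟩,
      Or.inr (le_abs.2 (Or.inr (by nlinarith))), Or.inl (i.ode.orth2 (fun h => i1 ?_) ?_)⟩
    · have : i.θ * (2 + i.θ) = 0 := by linarith
      exact (mul_eq_zero.1 this).resolve_right (by linarith)
    · have := Mf_comb a an (lam a (-i.θ)) (-i.θ) (1 - -i.θ)
      rw [lam, div_mul_cancel₀ _ i3, add_neg_cancel, mul_zero, sub_neg_eq_add] at this
      rw [neg_mul, map_neg, mul_comm, neg_eq_zero]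
      rw [a1, lam, sub_neg_eq_add]
      exact this) (j2.Rr hκ).neg_left
  have t1 := MθM hN he ((Gq_O hv j1 f1 f2 hK).trans ((isBigO_refl _ _).mul
    (by simpa using (θ_O1.mul (isBigO_refl X1.θ _)).mul (isBigO_refl (gM X1.θ N X1.e) _))))
  have t2 := MθM hN he (Tv_O hv f1 f2 hy)
  have t3 := MθM hN he (β_O j2 hκ hy hK)
  have t4 := MθM hN he (Tv_O hv (j2.tE hκ) (j2.tE' hκ) hy)
  have t5 := c1.mul (tq_O hκ (NO.const S2) p2)
  have t6 := tq_O hκ p1 hz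
  have t7 : (fun i : X1 a => tq (1 + i.θ) S2 S2) =O[fl X1.θ] fun _ => (1:ℝ) := by
    simpa using tq_O hκ (NO.const S2) (NO.const S2)
  have t8 := ((c2.mul d1).add (b1.mul d2)).mul t7
  simp only [one_mul, mul_one, mul_comm (gε X1.θ N X1.e _)] at t5 t6 t8
  have tot := conclude hN he (((((((t1.const_mul_left 2).sub (t2.const_mul_left 2)).add t3).add
    t4).add t5).add t6).add t8) hδ
  have hT2 : ∀ᶠ t in 𝓝[≠] (0:ℝ), tq (1 + t) S2 S2 ≤ tq 1 S2 S2 / 2 := by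
    have := ((tq_cont S2 S2).comp (continuous_const.add continuous_id : Continuous fun t : ℝ =>
      1 + t)).tendsto 0
    simp only [Function.comp_def, Pi.add_apply, add_zero] at this
    exact (this.eventually (ge_mem_nhds (by linarith))).filter_mono nhdsWithin_le_nhds
  have hs : ∀ᶠ t in 𝓝[≠] (0:ℝ), |t| ≤ 1/4 := by simpa [fl] using fl_small (θ := (id : ℝ → ℝ))
  filter_upwards [tot, hT2, hs] with t ⟨C, hC⟩ k1 k2
  refine ⟨C, fun i hi => ?_⟩
  have k3 := (le_abs_self _).trans (hC i hi)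
  subst hi
  have e1 : tq (1 + i.θ) i.y i.z = co i.y * (co i.z * tq (1 + i.θ) S2 S2
      + tq (1 + i.θ) S2 (pr i.z)) + tq (1 + i.θ) (pr i.y) i.z := by
    rw [← tq_lin2, ← pr_add, ← tq_lin1, ← pr_add]
  rw [abs_le] at k2
  have e2 : 2 / π * (2 + i.θ)⁻¹ * (2 / π * (2 + -i.θ)⁻¹) = (π ^ 2)⁻¹ * (4 / (4 - i.θ ^ 2)) := by
    have : 2 + i.θ ≠ 0 := by linarith
    have : 2 + -i.θ ≠ 0 := by linarith
    have : 4 - i.θ ^ 2 ≠ 0 := by nlinarith
    field_simp
    ring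
  have e3 : 1 ≤ 4 / (4 - i.θ ^ 2) := by
    rw [le_div_iff₀ (by nlinarith)]; nlinarith
  have hp : 0 ≤ (π ^ 2)⁻¹ * Ad i.v (H1.mulL a.D1_g S2) ^ 2 := by positivity
  have k4 : 4 / (4 - i.θ ^ 2) * tq (1 + i.θ) S2 S2 ≤ tq 1 S2 S2 / 2 := by nlinarith
  have k5 := mul_le_mul_of_nonneg_left k4 hp
  rw [Gf, Ex, e1, div_eq_mul_inv _ (π ^ 2)]
  simp only [N] at k3
  have e4 : (π ^ 2)⁻¹ * Ad i.v (H1.mulL a.D1_g S2) ^ 2 * (4 / (4 - i.θ ^ 2) * tq (1 + i.θ) S2 S2)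
      = 2 / π * (2 + i.θ)⁻¹ * (2 / π * (2 + -i.θ)⁻¹) * Ad i.v (H1.mulL a.D1_g S2) ^ 2
        * tq (1 + i.θ) S2 S2 := by rw [e2]; ring
  rw [e4] at k5
  linarith

end

end Pool.Agent.P.MP_0d657e_an.E
end
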