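import Pool.Agent.K.MP_0d657e_an.C0

-- part Pool.Agent.P.MP_0d657e_an.PosE5
section

/-! A pair of modes close to the resonance with `sin t`. -/

open Set Real Filter Topology Asymptotics

namespace Pool.Agent.P.MP_0d657e_an.E

noncomputable section

/-- jet of `cos 2t` -/
def aC : SJ := SJ.of c2 Sd_c2
/-- jet of the constant one -/
def aO : SJ := ⟨1, 0, 0, 0, D1_one, D1_zero, D1_zero, Smo_one⟩

lemma aC_α : aC.α = c2 := rfl
lemma aC_α1 : aC.α1 = -((2:ℝ) • s2) := D1.unique pi_pos aC.h0 D1_c2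
lemma aC_α2 : aC.α2 = -((2:ℝ) • (2:ℝ) • c2) :=
  D1.unique pi_pos aC.h1 (by rw [aC_α1]; exact (D1_s2.smul 2).neg)

/-- jet of the low mode -/
def aL (θ : ℝ) : SJ := aC.add (aO.smul (1/2 + 1 / (2 * (4 - θ))))
/-- jet of the high mode -/
def aK (a : SJ) (θ : ℝ) : SJ := a.smul (-(π / 2 * (θ * (4 - θ))))

lemma aL_g (θ : ℝ) : (aL θ).g = aC.g := by simp [aL, SJ.g, SJ.add, SJ.smul, aO]
lemma aL_g' (θ : ℝ) : (aL θ).g' = aC.g' := by simp [aL, SJ.g', SJ.add, SJ.smul, aO]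

/-- the limit forcing -/
def F0' : D0 := (3/2 : ℝ) • sn 3 - (2 * b) • (c1 * s1 ^ 2)

lemma Rr_aL {θ : ℝ} (h : θ ≠ 4) :
    Rr (2 - θ) (aL θ).α (aL θ).α1 = F0' - (θ / 2) • sn 3 := by
  have h' : 4 - θ ≠ 0 := sub_ne_zero.2 h.symm
  have e : (4 - θ) * (1 / (2 * (4 - θ))) = 1 / 2 := by field_simp
  ext t
  simp only [Rr, aL, SJ.add, SJ.smul, aO, aC_α, aC_α1, F0', D.add_apply, D.sub_apply,
    D.smul_apply, D.mul_apply, D.neg_apply, D.one_apply, D.zero_apply, D.pow_apply, s1_apply,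
    c1_apply, s2_apply, c2_apply, sn_apply, sin_three_mul, sin_two_mul, cos_two_mul']
  linear_combination sin t * e + ((2 - θ) * sin t) * sin_sq_add_cos_sq (t:ℝ)

lemma J_F_s1 (θ : ℝ) : J ((F0' - (θ / 2) • sn 3) * s1) = 0 := by
  have h1 : J (sn 3 * s1) = 0 := by simpa [s1] using J_sn_sn 3 1 (by norm_num)
  have h2 := (D1_pow D1_s1 3).J_zero (by simp) (by simp)
  have e : c1 * s1 ^ 2 * s1 = s1 ^ 3 * c1 := by ring
  rw [map_smul, smul_eq_zero] at h2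
  simp only [F0', sub_mul, smul_mul_assoc, map_sub, map_smul, h1, e,
    h2.resolve_left (by norm_num), smul_zero, sub_zero]

lemma exists_φ0 : ∃ φ φ1 φ2, Ode 1 φ φ1 φ2 (-F0') ∧ J (φ * s1) = 0 ∧ φ1 mid = b / 2 := by
  have h0 := (((D1_sn (a := 0) (b' := π) 3).smul (3/16)).add ((D1_tt.mul D1_s1).smul (b/4))).sub
    ((D1_c1.mul (D1_s1.mul D1_s1)).smul (b/4))
  have h1 := ((((D1_cs (a := 0) (b' := π) 3).smul 3).smul (3/16)).add
    (((D1_one.mul D1_s1).add (D1_tt.mul D1_c1)).smul (b/4))).sub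
    (((D1_s1.neg.mul (D1_s1.mul D1_s1)).add
      (D1_c1.mul ((D1_c1.mul D1_s1).add (D1_s1.mul D1_c1)))).smul (b/4))
  set B := -(2 / π * J (((3/16 : ℝ) • sn 3 + (b/4) • (tt * s1) - (b/4) • (c1 * (s1 * s1))) * s1))
    with hB
  refine ⟨_, _, _, ⟨h0.add (D1_s1.smul B), h1.add (D1_c1.smul B), by simp,
    by simp [sin_three_mul], ?_⟩, ?_, ?_⟩
  · ext t
    simp [F0', sin_three_mul]
    linear_combination (-(b / 2) * cos t) * sin_sq_add_cos_sq (t:ℝ)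
  · have := pi_pos.ne'
    rw [add_mul, map_add, smul_mul_assoc, map_smul, J_s1_s1, hB, smul_eq_mul]
    field_simp
    ring
  · simp [cos_three_mul]
    ring

lemma tq_pair (θ : ℝ) (z : H1) : tq (2 - θ) S1 z + tq θ z S1 = -J (om * c2 * H1.d z)
    + θ * (J (((θ - 3/2) • (om * c1 * s1)) * H1.f z) - J (((1/2 : ℝ) • (om * s1 * s1)) * H1.d z)) := by
  rw [tq, tq, ← mul_add, ← map_add, ← map_sub, ← smul_eq_mul θ (J _), ← smul_eq_mul (1/2 : ℝ),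
    ← map_smul, ← map_smul, ← map_neg, ← map_add]
  congr 1
  ext t
  simp [cos_two_mul']
  ring

/-- data of the pair -/
structure X2 (a : SJ) where
  θ : ℝ
  φ : D0
  φ1 : D0
  φ2 : D0
  χ : D0
  χ1 : D0
  χ2 : D0
  v : D0
  w : H1
  y : H1
  z : H1
  e : ℝ
  he : 0 ≤ e
  oφ : Ode (5 - (2 - θ) ^ 2) φ φ1 φ2 (-Rr (2 - θ) (aL θ).α (aL θ).α1)
  oχ : Ode (5 - θ ^ 2) χ χ1 χ2 (-Rr θ (aK a θ).α (aK a θ).α1)
  hw : Cn (-4) an v w e
  hy : Cn ((2 - θ) ^ 2 - 5) (aK a θ) v y e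
  hz : Cn (θ ^ 2 - 5) (aL θ) v z e

/-- contribution of the pair -/
def q2 {a : SJ} (i : X2 a) : ℝ :=
  Gf (aK a i.θ) i.φ1 i.φ2 i.v (KT i.w) i.y + Ex (2 - i.θ) (aL i.θ) i.v (KT i.w) i.y i.z
    + (Gf (aL i.θ) i.χ1 i.χ2 i.v (KT i.w) i.z + Ex i.θ (aK a i.θ) i.v (KT i.w) i.z i.y)

lemma Tv_sub (v P P' Q Q' : D0) (y : H1) :
    Tv v (P - Q) (P' - Q') y = Tv v P P' y - Tv v Q Q' y := by
  rw [Tv, Tv, Tv, ← map_sub]; congr 1; ring

theorem pair2 : ∃ Z : H1, H1.f Z mid ≠ 0 ∧ ∀ (a : SJ) (δ : ℝ), 0 < δ →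
    ∀ᶠ t in 𝓝[≠] (0:ℝ), ∃ C, ∀ i : X2 a, i.θ = t →
      Ad i.v (H1.mulL a.D1_g S1) * Ad i.v Z - δ * (PJ.nrm i.v + H1.nr i.w) ^ 2 - C * i.e ^ 2
        ≤ -q2 i := by
  obtain ⟨φ0, φ01, φ02, o0, orth0, hmid⟩ := exists_φ0
  obtain ⟨G5⟩ := exists_Gr (l := 5) (fun j _ e => by
    have e2 : (5:ℤ) = j ^ 2 := by exact_mod_cast e
    have hja : j ≤ 2 := by nlinarith
    have hjb : -2 ≤ j := by nlinarith
    interval_cases j <;> omega)
  have oζ := exists_ode G5 (F := -(b • om) * c2 + om * -((2:ℝ) • s2)) rfl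
  have hτ := D1_tE 2 (aL 0).h0 (aL 0).h1 (aL 0).h2
  refine ⟨(2:ℝ) • H1.mulL D1_c1 o0.h1 + (2:ℝ) • H1.mulL o0.d1 S1 - H1.mulL hτ S1
    + H1.mulL aC.D1_g oζ.h1, ?_, fun a δ hδ => ?_⟩
  · have := b_pos
    have e : 2 * (π / 2) = π := by ring
    simp [hmid, tE, aL, SJ.add, SJ.smul, aO, SJ.g, aC_α1, aC_α2, e]
    positivity
  let N : X2 a → ℝ := fun i => PJ.nrm i.v + H1.nr i.w
  have hN : ∀ i, 0 ≤ N i := fun i => add_nonneg (apply_nonneg _ _) (apply_nonneg _ _)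
  have he : ∀ i : X2 a, 0 ≤ i.e := fun i => i.he
  have hv : LO (fl X2.θ) (fun i : X2 a => i.v) (gM X2.θ N X2.e) :=
    (O_nn (fun _ => apply_nonneg _ _) (fun _ => le_add_of_nonneg_right (apply_nonneg _ _))).trans
      (N_O hN he)
  have hw : NO (fl X2.θ) (fun i : X2 a => i.w) (gM X2.θ N X2.e) :=
    (O_nn (fun _ => apply_nonneg _ _) (fun _ => le_add_of_nonneg_left (apply_nonneg _ _))).trans
      (N_O hN he)
  have hK := hw.KT
  have eO := e_O (θ := X2.θ) hN he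
  have εO := ε_O (θ := X2.θ) hN he
  have θM := θM_O (θ := X2.θ) hN he
  have Mθ : (fun i : X2 a => gM X2.θ N X2.e i * i.θ) =O[fl X2.θ] gε X2.θ N X2.e := by
    simpa [mul_comm] using θM
  have θ1 : (fun i : X2 a => i.θ) =O[fl X2.θ] fun _ => (1:ℝ) := θ_O1
  have hκ : (fun i : X2 a => 2 - i.θ) =O[fl X2.θ] fun _ => (1:ℝ) := (O1 2).sub θ1
  have h4 : (fun i : X2 a => i.θ * (4 - i.θ)) =O[fl X2.θ] X2.θ := by
    simpa using (isBigO_refl X2.θ _).mul ((O1 (4:ℝ)).sub θ1)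
  have jK : JO (fl X2.θ) (fun i : X2 a => aK a i.θ) X2.θ := by
    simpa [aK] using JO.smul (h4.const_mul_left (π / 2)).neg_left (JO.const a)
  have jL : JO (fl X2.θ) (fun i : X2 a => aL i.θ) fun _ => 1 := by
    refine (JO.const aC).add ?_
    simpa using JO.smul (O_cont (θ := X2.θ) (f := fun θ : ℝ => 1/2 + 1 / (2 * (4 - θ)))
      (by fun_prop (disch := norm_num))) (JO.const (X := X2 a) aO)
  have hz : NO (fl X2.θ) (fun i : X2 a => i.z) (gM X2.θ N X2.e) :=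
    mode_O he (fun i => i.hz) (fl_small.mono fun i hi => by
      rw [abs_le] at hi
      exact ⟨by nlinarith, le_abs.2 (Or.inr (by nlinarith)), le_abs.2 (Or.inr (by nlinarith))⟩)
      (E_O hv jL (by simpa using isBigO_refl _ _) (eO.trans εO))
  have hy' := mode_O1 he (fun i : X2 a => i.hy) (fl_small.mono fun i hi => by
      rw [abs_le] at hi
      exact ⟨by nlinarith [sq_nonneg (2 - i.θ)], le_abs.2 (Or.inl (by nlinarith))⟩)
      (E_O hv jK Mθ eO)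
  have hD : (fun i : X2 a => 2 / π * J (H1.f i.y * s1) - Ad i.v (H1.mulL a.D1_g S1))
      =O[fl X2.θ] gε X2.θ N X2.e := by
    have h3 : (fun i : X2 a => i.θ⁻¹) =O[fl X2.θ] fun i => |i.θ|⁻¹ :=
      IsBigO.of_bound 1 (Eventually.of_forall fun i => by simp)
    have h5 := (h3.mul (Cn_O (l := fl X2.θ) he (fun i : X2 a => i.hy) S1)).trans
      ((e'_O hN he).congr_left (fun i => by rw [div_eq_inv_mul]))
    have h6 := (O_cont (θ := X2.θ) (f := fun θ : ℝ => -(2 / π * (4 - θ)⁻¹))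
      (by fun_prop (disch := norm_num))).mul h5
    simp only [one_mul] at h6
    refine h6.congr' ?_ EventuallyEq.rfl
    filter_upwards [fl_ne, fl_small] with i i1 i2
    have j2 : 4 - i.θ ≠ 0 := by rw [abs_le] at i2; linarith [i2.2]
    have e1 : Tv i.v (aK a i.θ).g (aK a i.θ).g' S1 =
        -(π / 2 * (i.θ * (4 - i.θ))) * Ad i.v (H1.mulL a.D1_g S1) := by
      rw [Tv_eq _ (aK a i.θ).D1_g, ← Ad_smul]
      exact Ad_congr _ (by simp [aK, SJ.g_smul])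
    have := pi_pos.ne'
    rw [e1, Q1_S1]
    field_simp
    ring
  have hP : (fun i : X2 a => Ad i.v (H1.mulL a.D1_g S1)) =O[fl X2.θ] gM X2.θ N X2.e := by
    simpa using Ad_O hv (NO.const _)
  have hD' : (fun i : X2 a => 2 / π * J (H1.f i.y * s1)) =O[fl X2.θ] gM X2.θ N X2.e :=
    ((hD.trans εO).add hP).congr_left (fun i => by ring)
  have ne4 : ∀ᶠ i : X2 a in fl X2.θ, i.θ ≠ 4 := fl_small.mono fun i hi h => by
    rw [h] at hi; norm_num at hi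
  obtain ⟨x1, x2⟩ := ode_O (l := fl X2.θ) (fun i : X2 a => i.oχ) (fl_small.mono fun i hi => by
    rw [abs_le] at hi
    exact ⟨abs_le.2 ⟨by nlinarith, by nlinarith⟩, Or.inr (le_abs.2 (Or.inr (by nlinarith))),
      Or.inr (le_abs.2 (Or.inr (by nlinarith)))⟩) (jK.Rr θ1).neg_left
  obtain ⟨f1, f2⟩ := ode_O (l := fl X2.θ) (g := X2.θ) (fun i : X2 a => i.oφ.sub o0) (by
    filter_upwards [fl_ne, fl_small, ne4] with i i1 i2 i3
    rw [abs_le] at i2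
    refine ⟨abs_le.2 ⟨by nlinarith, by nlinarith [sq_nonneg (2 - i.θ)]⟩, Or.inl ?_,
      Or.inr (le_abs.2 (Or.inl (by nlinarith)))⟩
    rw [sub_mul, map_sub, orth0, sub_zero]
    refine i.oφ.orth1 (fun h => i1 ?_) (by rw [Rr_aL i3, neg_mul, map_neg, J_F_s1, neg_zero])
    have : i.θ * (4 - i.θ) = 0 := by linarith
    exact (mul_eq_zero.1 this).resolve_right (by linarith)) (by
    refine ((O_smulc ((isBigO_refl X2.θ _).const_mul_left (1/2)) (sn 3)).sub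
      (O_smulc h4 φ0)).congr' (ne4.mono fun i hi => ?_) EventuallyEq.rfl
    simp only [Rr_aL hi]
    module)
  have f1' : (fun i : X2 a => i.φ1) =O[fl X2.θ] fun _ => (1:ℝ) :=
    ((f1.trans θ1).add (O1 φ01)).congr_left (fun i => by abel)
  have f2' : (fun i : X2 a => i.φ2) =O[fl X2.θ] fun _ => (1:ℝ) :=
    ((f2.trans θ1).add (O1 φ02)).congr_left (fun i => by abel)
  -- the coefficient of the resonant amplitude
  have l1 := Tv_O hv f1 f2 (NO.const S1)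
  have l2 := (J_O hK.f (LO.of_norm (O_smulc (isBigO_refl X2.θ _) (sn 3)))).trans Mθ
  have l3 : (fun i : X2 a => Q1 (-4) i.w (H1.mulL D1_c1 o0.h1) - Ad i.v (H1.mulL D1_c1 o0.h1))
      =O[fl X2.θ] gε X2.θ N X2.e := by
    simpa [Tv, an_g, an_g', Ad] using
      (Cn_O (l := fl X2.θ) he (fun i : X2 a => i.hw) (H1.mulL D1_c1 o0.h1)).trans eO
  have l4 := Tv_O hv
    (O_diff (θ := X2.θ) (f := fun θ => tE (2 - θ) (aL θ).α (aL θ).α1 (aL θ).α2) (by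
      simp only [tE, aL, SJ.add, SJ.smul]; fun_prop (disch := norm_num)))
    (O_diff (θ := X2.θ) (f := fun θ => tE' (2 - θ) (aL θ).α (aL θ).α1 (aL θ).α2 (aL θ).α3) (by
      simp only [tE', aL, SJ.add, SJ.smul]; fun_prop (disch := norm_num))) (NO.const S1)
  have l5 := (isBigO_refl X2.θ _).mul ((J_O (LO.of_norm (O_smulc (θ1.sub (O1 (3/2 : ℝ)))
    (om * c1 * s1))) hz.f).sub (J_O (LO.of_norm (O1 ((1/2 : ℝ) • (om * s1 * s1)))) hz.d))
  have l6 := (Cn_O (l := fl X2.θ) he (fun i : X2 a => i.hz) oζ.h1).trans eO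
  have l7 := (θ1.mul (isBigO_refl X2.θ _)).mul (J_O hz.f (NO.const oζ.h1).f)
  simp only [mul_one, one_mul, sub_zero] at l1 l4 l5 l7
  have hΛ : (fun i : X2 a => -2 * Tv i.v i.φ1 i.φ2 S1 + Ex (2 - i.θ) (aL i.θ) i.v (KT i.w) S1 i.z
      + tq i.θ i.z S1 + Ad i.v ((2:ℝ) • H1.mulL D1_c1 o0.h1 + (2:ℝ) • H1.mulL o0.d1 S1
        - H1.mulL hτ S1 + H1.mulL aC.D1_g oζ.h1)) =O[fl X2.θ] gε X2.θ N X2.e := by
    refine ((((((((l1.trans Mθ).const_mul_left (-2)).add l2).sub (l3.const_mul_left 2)).add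
      (l4.trans Mθ)).add (l5.trans θM)).sub l6).add (l7.trans θM)).congr'
      (ne4.mono fun i hi => ?_) EventuallyEq.rfl
    have k1 := o0.weak (KT i.w)
    have k2 := oζ.weak i.z
    have k3 := H1.parts (D1_om.mul D1_c2) i.z
    have k4 := tq_pair i.θ i.z
    have k5 : Q1 (i.θ ^ 2 - 5) i.z oζ.h1 = Q1 (-5) i.z oζ.h1
        + i.θ * i.θ * J (H1.f i.z * H1.f oζ.h1) := by
      simp only [Q1, map_add, map_smul, smul_eq_mul]; ring
    rw [Q1_comm, KT_ident, neg_mul, map_neg, neg_neg, mul_comm F0'] at k1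
    rw [Q1_comm, k3] at k2
    simp only [Ex, β_comm _ _ S1, β_S1, Rr_aL hi, mul_sub, map_sub, mul_smul_comm, map_smul,
      smul_eq_mul, Tv_sub, Ad_add, Ad_sub, Ad_smul, ← Tv_eq, aL_g, aL_g', k5]
    rw [Tv_eq _ D1_c1]
    linarith
  have t1 := MθM hN he ((Gq_O hv jK f1' f2' hK).congr_right (fun i => by rw [mul_one]))
  have t2 := Tv_O hv f1' f2' hy'
  have t3 := β_O jL hκ hy' hK
  have t4 := Tv_O hv (jL.tE hκ) (jL.tE' hκ) hy'
  have t5 := tq_O hκ hy' hz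
  have t6 := MθM hN he ((Gq_O hv jL x1 x2 hK).congr_right (fun i => by rw [one_mul]))
  have t7 := MθM hN he (Tv_O hv x1 x2 hz)
  have t8 := MθM hN he (β_O jK θ1 hz hK)
  have t9 := MθM hN he (Tv_O hv (jK.tE θ1) (jK.tE' θ1) hz)
  have t10 := tq_O θ1 hz hy'
  have t11 := hD'.mul hΛ
  have t12 := (Ad_O hv (NO.const ((2:ℝ) • H1.mulL D1_c1 o0.h1 + (2:ℝ) • H1.mulL o0.d1 S1
        - H1.mulL hτ S1 + H1.mulL aC.D1_g oζ.h1))).mul hD
  simp only [one_mul, mul_one, mul_comm (gε X2.θ N X2.e _)] at t2 t3 t4 t5 t12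
  have tot := conclude hN he ((((((((((((t1.const_mul_left 2).sub (t2.const_mul_left 2)).add
    t3).add t4).add t5).add (t6.const_mul_left 2)).sub (t7.const_mul_left 2)).add t8).add
    t9).add t10).add t11).sub t12) hδ
  filter_upwards [tot] with t ⟨C, hC⟩
  refine ⟨C, fun i hi => ?_⟩
  have k3 := (le_abs_self _).trans (hC i hi)
  simp only [N] at k3
  generalize ((2:ℝ) • H1.mulL D1_c1 o0.h1 + (2:ℝ) • H1.mulL o0.d1 S1
        - H1.mulL hτ S1 + H1.mulL aC.D1_g oζ.h1) = Z at *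
  have e0 : i.y = (2 / π * J (H1.f i.y * s1)) • S1 + (i.y - (2 / π * J (H1.f i.y * s1)) • S1) := by
    abel
  generalize 2 / π * J (H1.f i.y * s1) = D at *
  generalize i.y - D • S1 = y' at *
  rw [q2, Gf, Gf, e0, Ex_lin, Tv_lin]
  simp only [Ex, tq_lin2] at k3 ⊢
  linarith

end

end Pool.Agent.P.MP_0d657e_an.E
end

-- part Pool.Agent.P.MP_0d657e_an.PosE7
section

/-! Choice of the auxiliary modes making the form definite. -/

open Set Real Filter Topology Asymptotics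

namespace Pool.Agent.P.MP_0d657e_an.E

noncomputable section

/-- amplitude tested by a pair of the first kind -/
def L2 (v : D0) (a : SJ) : ℝ := Ad v (H1.mulL a.D1_g S2)
/-- amplitude tested by a pair of the second kind -/
def L1 (v : D0) (a : SJ) : ℝ := Ad v (H1.mulL a.D1_g S1)

lemma L2_smul (v : D0) (a : SJ) (r : ℝ) : L2 v (a.smul r) = r * L2 v a := by
  rw [L2, L2, ← Ad_smul]; exact Ad_congr _ (by simp [SJ.g_smul])
lemma L1_smul (v : D0) (a : SJ) (r : ℝ) : L1 v (a.smul r) = r * L1 v a := by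
  rw [L1, L1, ← Ad_smul]; exact Ad_congr _ (by simp [SJ.g_smul])

lemma Dv_jet {P : H1} (h : Dv (H1.f P)) : ∃ (a a' : SJ) (r : ℝ), r = H1.f P mid ∧
    ∀ v, Ad v P = L2 v a + r * Ad v S1 ∧ Ad v P = L1 v a' := by
  obtain ⟨p, r, hp, h⟩ := h
  refine ⟨SJ.prim p hp, SJ.prim ((2:ℝ) • (c1 * p) + r • 1)
    (((Smo_c1.mul hp).smul 2).add (Smo_one.smul r)), r, ?_, fun v => ⟨?_, ?_⟩⟩
  · have e : 2 * (π / 2) = π := by ring
    simp [h, e]
  · rw [L2, ← Ad_smul, ← Ad_add]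
    exact Ad_congr _ (by simp [h, SJ.prim_g])
  · refine Ad_congr _ ?_
    rw [H1.f_mulL, SJ.prim_g, h, s2_eq, f_S1]
    simp only [Algebra.smul_def, map_ofNat]
    ring

lemma coef_sq {v : D0} {w : H1} {e : ℝ} (h : Cn (-4) an v w e) (j : ℕ) :
    J (H1.f (pr w) * sn j) ^ 2 ≤ 2 * Ad v (SN j) ^ 2 + 2 * (H1.nr (SN j) ^ 2 * e ^ 2) := by
  by_cases hj : j = 2
  · have := proj_orth w S2 (by rw [f_S2]; exact J_s2_s2)
    have e2 : (sn ((2:ℕ):ℝ) : D0) = s2 := by simp [s2]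
    subst hj
    rw [e2, pr, co]
    rw [f_S2] at this
    rw [this, zero_pow two_ne_zero]; positivity
  · have h1 := h.base (SN j)
    rw [← Q1_pr, Q1_SN] at h1
    push_cast at h1
    have h2 : (1:ℝ) ≤ ((j:ℝ) ^ 2 + -4) ^ 2 := by
      have : ((j:ℤ) ^ 2 + -4) ≠ 0 := fun e => hj (by
        have : (j:ℤ) = 2 := by nlinarith [Int.natCast_nonneg j]
        exact_mod_cast this)
      have : (1:ℤ) ≤ ((j:ℤ) ^ 2 + -4) ^ 2 := Int.add_one_le_of_lt (sq_pos_of_ne_zero this)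
      exact_mod_cast this
    have h3 := sq_le_sq' (abs_le.1 h1).1 (abs_le.1 h1).2
    nlinarith [mul_le_mul_of_nonneg_right h2 (sq_nonneg (J (H1.f (pr w) * sn j))),
      sq_nonneg (((j:ℝ) ^ 2 + -4) * J (H1.f (pr w) * sn j) - 2 * Ad v (SN j))]

lemma tail {ε : ℝ} (hε : 0 < ε) : ∃ (M : ℕ) (a : ℕ → SJ), ∃ C > 0, ∀ (v : D0) (w : H1) (e : ℝ),
    Cn (-4) an v w e → PJ.nrm (H1.f (pr w)) ^ 2 ≤ ε * PJ.nrm (H1.d (pr w)) ^ 2
      + C * (e ^ 2 + ∑ j ∈ Finset.range M, L2 v (a j) ^ 2 + Ad v S1 ^ 2) := by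
  obtain ⟨M, hM⟩ := exists_nat_ge (1 + ε⁻¹)
  choose a a' r hr ha using fun j : ℕ => Dv_jet (P := SN j) (by simpa using Dv_sn j)
  set R := ∑ j ∈ Finset.range M, r j ^ 2
  set S := ∑ j ∈ Finset.range M, H1.nr (SN j) ^ 2
  have hR : 0 ≤ R := by positivity
  have hS : 0 ≤ S := by positivity
  refine ⟨M, a, 4 + 4 * R + 2 * S, by positivity, fun v w e h => ?_⟩
  have h1 := sin_tail (H1.at_lo (pr w)) (H1.energy (pr w)) M
  have h6 : 2 / π ≤ 1 := by rw [div_le_one pi_pos]; linarith [pi_gt_three]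
  have h2 : ∑ j ∈ Finset.range M, 2 / π * J (H1.f (pr w) * sn j) ^ 2 ≤
      ∑ j ∈ Finset.range M, (4 * L2 v (a j) ^ 2 + r j ^ 2 * (4 * Ad v S1 ^ 2)
        + H1.nr (SN j) ^ 2 * (2 * e ^ 2)) := Finset.sum_le_sum fun j _ => by
    have k := coef_sq h j
    rw [(ha j v).1] at k
    nlinarith [mul_le_mul_of_nonneg_right h6 (sq_nonneg (J (H1.f (pr w) * sn j))),
      sq_nonneg (L2 v (a j) - r j * Ad v S1)]
  rw [Finset.sum_add_distrib, Finset.sum_add_distrib, ← Finset.mul_sum _ _ 4, ← Finset.sum_mul,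
    ← Finset.sum_mul] at h2
  have h3 : 0 ≤ ∑ j ∈ Finset.range M, 2 / π * (j * J (H1.f (pr w) * sn j)) ^ 2 := by positivity
  have h4 : 0 ≤ ∑ j ∈ Finset.range M, L2 v (a j) ^ 2 := by positivity
  have h5 : 1 ≤ ε * (M:ℝ) ^ 2 := by
    have : ε * ε⁻¹ = 1 := mul_inv_cancel₀ hε.ne'
    have : 0 < ε⁻¹ := by positivity
    nlinarith [mul_le_mul_of_nonneg_left hM hε.le]
  rw [PF.nrm_sq, PF.nrm_sq, PJ_Φ]
  have h7 := JJ_nonneg (H1.d (pr w))
  generalize ∑ j ∈ Finset.range M, L2 v (a j) ^ 2 = T at *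
  generalize ∑ j ∈ Finset.range M, 2 / π * J (H1.f (pr w) * sn j) ^ 2 = U at *
  have h8 : J (H1.f (pr w) * H1.f (pr w)) - U ≤ ε * J (H1.d (pr w) * H1.d (pr w)) := by
    by_contra hc
    push Not at hc
    nlinarith [mul_le_mul_of_nonneg_left h1 hε.le, mul_nonneg hε.le h3, mul_nonneg hε.le h7]
  nlinarith [mul_nonneg hR h4, mul_nonneg hS h4, mul_nonneg hR (sq_nonneg e),
    mul_nonneg hS (sq_nonneg (Ad v S1))]

theorem choice (a3 : SJ) (Q : X0 a3 → ℝ) {w0 C0 c0 : ℝ} (hw0 : 0 < w0) (hC0 : 0 ≤ C0)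
    (hb : ∀ i : X0 a3, w0 * (co i.w ^ 2 + PJ.nrm (H1.d (pr i.w)) ^ 2) - C0 * i.ℓ ^ 2 ≤ Q i ∧
      PJ.nrm i.v ≤ PJ.nrm (H1.d (pr i.w)) + C0 * i.ℓ) (hc0 : 0 < c0) (Z : H1)
    (hZ : H1.f Z mid ≠ 0) : ∃ (M : ℕ) (a : ℕ → SJ) (aP : SJ), ∃ w1 > 0, ∃ C, ∀ i : X0 a3,
      w1 * (PJ.nrm i.v + H1.nr i.w) ^ 2 - C * i.e ^ 2 ≤ Q i
        + c0 * ∑ j ∈ Finset.range M, L2 i.v (a j) ^ 2 + L1 i.v aP * Ad i.v Z := by
  have hS := apply_nonneg H1.nr S2
  set c1 := 9 + C0 ^ 2 + H1.nr S2 ^ 2 with hc1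
  have hc1' : 0 < c1 := by positivity
  set η := w0 / (4 * c1) with hη
  have hη' : 0 < η := by positivity
  set C1 := 2 * C0 + w0 with hC1
  have hC1' : 0 < C1 := by positivity
  obtain ⟨M, a, C, hC, ht⟩ := tail (ε := w0 / 2 / C1) (by positivity)
  have hz : 0 < |H1.f Z mid| := abs_pos.2 hZ
  set C2 := C1 * C * (1 + 8 / |H1.f Z mid| ^ 2) with hC2
  have hC2' : 0 < C2 := by positivity
  obtain ⟨P, hP, hd⟩ := Dv_dense Z (δ := min (|H1.f Z mid| / 8) (√(η / C2) / 2)) (by positivity)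
  obtain ⟨p, p', r, hr, hp⟩ := Dv_jet hP
  have hr2 : |H1.f Z mid| ^ 2 ≤ 4 * r ^ 2 := by
    have h1 := (H1.f (Z - P)).norm_coe_le_norm mid
    have h2 := norm_f_le (Z - P)
    have h3 := nrm_le2 (H1.d (Z - P))
    have h4 := hd.trans (min_le_left _ _)
    rw [map_sub, D.sub_apply, ← hr] at h1
    rw [map_sub] at h2
    have h5 := abs_sub_abs_le_abs_sub (H1.f Z mid) r
    rw [← sq_abs r]
    nlinarith [abs_nonneg r]
  refine ⟨M + 1, fun j => (if j = M then p else a j).smul √(C2 / c0), p'.smul (2 * C2), η, hη',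
    C1 + C1 * C, fun i => ?_⟩
  have e1 : c0 * ∑ j ∈ Finset.range (M + 1), L2 i.v ((if j = M then p else a j).smul √(C2 / c0)) ^ 2
      = C2 * (∑ j ∈ Finset.range M, L2 i.v (a j) ^ 2 + L2 i.v p ^ 2) := by
    simp only [L2_smul, mul_pow, sq_sqrt (by positivity : 0 ≤ C2 / c0)]
    rw [← Finset.mul_sum, ← mul_assoc, mul_div_cancel₀ _ hc0.ne', Finset.sum_range_succ, if_pos rfl]
    congr 2
    exact Finset.sum_congr rfl fun j hj => by rw [if_neg (Finset.mem_range.1 hj).ne]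
  rw [e1, L1_smul, ← (hp i.v).2]
  obtain ⟨b1, b2⟩ := hb i
  have b3 := ht i.v i.w i.e i.hn
  have b4 : H1.nr i.w ≤ |co i.w| * H1.nr S2 + 2 * PJ.nrm (H1.d (pr i.w)) := by
    nth_rewrite 1 [pr_add i.w]
    refine (map_add_le_add _ _ _).trans (add_le_add ?_ (nr_le _))
    rw [map_smul_eq_mul, Real.norm_eq_abs]
  have b5 : C2 * Ad i.v (Z - P) ^ 2 ≤ η * PJ.nrm i.v ^ 2 := by
    have k1 : |Ad i.v (Z - P)| ≤ PJ.nrm i.v * √(η / C2) :=
      (J_mul_le _ _).trans (mul_le_mul_of_nonneg_left ((nrm_le2 _).trans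
        (by linarith [hd.trans (min_le_right _ _)])) (apply_nonneg _ _))
    have k2 := sq_le_sq' (abs_le.1 k1).1 (abs_le.1 k1).2
    rw [mul_pow, sq_sqrt (by positivity)] at k2
    refine (mul_le_mul_of_nonneg_left k2 hC2'.le).trans_eq ?_
    field_simp
  have b6 : Ad i.v S1 ^ 2 ≤ 8 / |H1.f Z mid| ^ 2 * (Ad i.v P ^ 2 + L2 i.v p ^ 2) := by
    rw [div_mul_eq_mul_div, le_div_iff₀ (by positivity), (hp i.v).1]
    nlinarith [mul_le_mul_of_nonneg_left hr2 (sq_nonneg (Ad i.v S1)),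
      sq_nonneg (2 * L2 i.v p + r * Ad i.v S1)]
  have b7 : i.ℓ ^ 2 ≤ 2 * (PJ.nrm (H1.f (pr i.w)) ^ 2 + i.e ^ 2) := by
    rw [X0.ℓ]; nlinarith [sq_nonneg (PJ.nrm (H1.f (pr i.w)) - i.e)]
  have n1 := apply_nonneg PJ.nrm i.v
  have n2 := apply_nonneg H1.nr i.w
  have n3 : 0 ≤ ∑ j ∈ Finset.range M, L2 i.v (a j) ^ 2 := by positivity
  rw [Ad_sub] at b5
  rw [← sq_abs (co i.w)] at b1
  generalize ∑ j ∈ Finset.range M, L2 i.v (a j) ^ 2 = T at *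
  generalize PJ.nrm (H1.d (pr i.w)) = W at *
  generalize PJ.nrm (H1.f (pr i.w)) = L at *
  generalize |co i.w| = A at *
  have b8 : (PJ.nrm i.v + H1.nr i.w) ^ 2 ≤ c1 * (A ^ 2 + W ^ 2 + i.ℓ ^ 2) := by
    have k1 : PJ.nrm i.v + H1.nr i.w ≤ 3 * W + C0 * i.ℓ + H1.nr S2 * A := by linarith
    refine (pow_le_pow_left₀ (by positivity) k1 2).trans ?_
    rw [hc1]
    linarith [sq_nonneg (3 * i.ℓ - C0 * W), sq_nonneg (3 * A - H1.nr S2 * W),
      sq_nonneg (C0 * A - H1.nr S2 * i.ℓ)]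
  have b9 : η * (PJ.nrm i.v + H1.nr i.w) ^ 2 ≤ w0 / 4 * (A ^ 2 + W ^ 2 + i.ℓ ^ 2) := by
    refine (mul_le_mul_of_nonneg_left b8 hη'.le).trans_eq ?_
    rw [hη]; field_simp
  have b10 : η * PJ.nrm i.v ^ 2 ≤ η * (PJ.nrm i.v + H1.nr i.w) ^ 2 :=
    mul_le_mul_of_nonneg_left (pow_le_pow_left₀ n1 (by linarith) 2) hη'.le
  have b11 := mul_le_mul_of_nonneg_left b3 hC1'.le
  rw [mul_add, ← mul_assoc, mul_div_cancel₀ _ hC1'.ne'] at b11
  have b12 := mul_le_mul_of_nonneg_left b6 (mul_pos hC1' hC).le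
  have b13 := mul_le_mul_of_nonneg_left b7 (half_pos hC1').le
  have b14 : 0 ≤ C1 * C * (8 / |H1.f Z mid| ^ 2) * T := by positivity
  have b15 : 0 ≤ C1 * C * (Ad i.v P ^ 2 + L2 i.v p ^ 2) := by positivity
  have b16 : 0 ≤ C2 * Ad i.v Z ^ 2 := by positivity
  have b17 : 0 ≤ w0 * A ^ 2 := by positivity
  have b18 : C2 * (T + L2 i.v p ^ 2 + Ad i.v P ^ 2) = C1 * C * (1 + 8 / |H1.f Z mid| ^ 2)
    * (T + L2 i.v p ^ 2 + Ad i.v P ^ 2) := rfl
  have b19 : C1 / 2 * i.ℓ ^ 2 = (C0 + w0 / 2) * i.ℓ ^ 2 := by rw [hC1]; ring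
  linarith

end

end Pool.Agent.P.MP_0d657e_an.E
end

-- part Pool.Agent.P.MP_0d657e_an.PosE8
section

/-! Small tools for the final assembly. -/

open Set Real Filter Topology Asymptotics

namespace Pool.Agent.P.MP_0d657e_an.E

noncomputable section

lemma mode_le {m : ℝ} (a : SJ) (hm : -5 ≤ m) (h1 : m + 1 ≠ 0) (h4 : m + 4 ≠ 0) :
    ∃ C ≥ 0, ∀ v y e, 0 ≤ e → Cn m a v y e → H1.nr y ≤ C * (PJ.nrm v + e) := by
  obtain ⟨C, hC, H⟩ := apriori (r := min |m + 1| |m + 4|) (lt_min (abs_pos.2 h1) (abs_pos.2 h4))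
  refine ⟨C * (1 + (‖a.g‖ + ‖a.g'‖)), by positivity, fun v y e he h => ?_⟩
  have hv := apply_nonneg PJ.nrm v
  refine (H m y _ hm h.bound (by positivity) (Or.inr (min_le_left _ _))
    (Or.inr (min_le_right _ _))).trans ?_
  rw [mul_assoc]
  refine mul_le_mul_of_nonneg_left ?_ hC.le
  nlinarith [mul_nonneg (by positivity : 0 ≤ ‖a.g‖ + ‖a.g'‖) he]

lemma KT_le : ∃ C ≥ 1, ∀ w, H1.nr (KT w) ≤ C * H1.nr w := by
  obtain ⟨C, hC, h⟩ := (NO.KT (l := ⊤) (y := fun w : H1 => w) (isBigO_refl _ _)).exists_pos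
  refine ⟨C + 1, by linarith, fun w => ?_⟩
  have := eventually_top.1 h.bound w
  rw [Real.norm_of_nonneg (apply_nonneg _ _), Real.norm_of_nonneg (apply_nonneg _ _)] at this
  nlinarith [apply_nonneg H1.nr w]

lemma Rr_zero (κ : ℝ) : Rr κ SJ.zero.α SJ.zero.α1 = 0 := by simp [Rr, SJ.zero]

lemma Gf_zero (a : SJ) (v : D0) (K y : H1) : Gf a 0 0 v K y = 0 := by simp [Gf, Tv]

lemma Ode_zero (l : ℝ) : Ode l 0 0 0 0 := ⟨D1_zero, D1_zero, rfl, rfl, by simp⟩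

lemma six : ∃ (a : SJ) (φ φ1 φ2 : D0), Ode (5 - 4 ^ 2) φ φ1 φ2 (-Rr (-4) a.α a.α1) ∧
    0 < J (om * ((1/4 : ℝ) • (s1 ^ 3 * (a.α + b⁻¹ • a.α1)) + (3/2 : ℝ) • (s1 ^ 2 * φ))) := by
  let a := SJ.of (-(b • c1 + (2:ℝ) • s1)) ((Smo_c1.smul b).add (Smo_s1.smul 2)).neg
  have h0 : a.α = -(b • c1 + (2:ℝ) • s1) := rfl
  have h1 : a.α1 = -(b • -s1 + (2:ℝ) • c1) :=
    D1.unique pi_pos a.h0 ((D1_c1.smul b).add (D1_s1.smul 2)).neg
  have hb : b⁻¹ = b / 5 := by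
    have := b_pos.ne'
    field_simp; linarith [b_sq]
  refine ⟨a, _, _, _, ⟨((D1_s1.mul D1_c1).smul (b / 10)).add ((D1_s1.mul D1_s1).smul (1/2)),
    (((D1_c1.mul D1_c1).add (D1_s1.mul D1_s1.neg)).smul (b / 10)).add
      (((D1_c1.mul D1_s1).add (D1_s1.mul D1_c1)).smul (1/2)), by simp, by simp, ?_⟩, ?_⟩
  · ext t
    simp [Rr, h0, h1]
    linear_combination (1/2 * sin t ^ 2) * b_sq
  · have h2 := J_om ((D1_pow D1_s1 3).smul (-b / 20)) (P := (1/4 : ℝ) • (s1 ^ 3 *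
      (a.α + b⁻¹ • a.α1)) + (3/2 : ℝ) • (s1 ^ 2 * ((b / 10) • (s1 * c1) + (1/2 : ℝ) • (s1 * s1)))
        - (1/4 : ℝ) • s1 ^ 4) (by
      ext t
      simp [h0, h1, hb]
      ring)
    have h3 : 0 < J (om * s1 ^ 4) := J_pos (t := mid)
      (fun t => by simp only [D.mul_apply, D.pow_apply, om_apply]; positivity) (by simp)
    rw [mul_sub, map_sub, mul_smul_comm (1/4 : ℝ) om (s1 ^ 4), map_smul, smul_eq_mul] at h2
    simp only [D.smul_apply, D.pow_apply, s1_apply] at h2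
    simp at h2 ⊢
    linarith

lemma tend_div {i : ℝ} (hi : i ≠ 0) : Tendsto (fun n : ℕ => i / n) atTop (𝓝[≠] 0) :=
  tendsto_nhdsWithin_iff.2 ⟨tendsto_const_div_atTop_nhds_zero_nat i,
    (eventually_gt_atTop 0).mono fun n hn => div_ne_zero hi (by positivity)⟩

end

end Pool.Agent.P.MP_0d657e_an.E
end
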